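import Pool.Agent.PD4.Ix.Path

/-!
# Project PD4, index block: rules for the even Chern number `evenCh`

* `evenCh_zero`, `evenCh_one`, `evenCh_indep`: trivial values;
* `evenCh_path`: invariance under smooth paths of idempotents;
* `evenCh_fromBlocks`: block sums;
* `evenCh_mvn`: Murray-von Neumann equivalence (rectangular intertwiners);
* `evenCh_add`: orthogonal sums; `evenCh_one_sub`; `evenCh_conj`; `evenCh_reindex`;
* `evenCh_conjTranspose`, `evenCh_real`, `evenCh_transpose`, `evenCh_perm`: symmetries.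
-/

open MeasureTheory
open scoped ContDiff

namespace Pool.Agent.PD4

section

variable {ι κ : Type*} [Fintype ι] [DecidableEq ι] [Fintype κ] [DecidableEq κ]

/-- entrywise partial derivative of a matrix of smooth functions (rectangular) -/
noncomputable def mD {n : ℕ} {κ' κ'' : Type*} (i : Fin n) (M : Matrix κ' κ'' (Sm n)) :
    Matrix κ' κ'' (Sm n) := M.map (pD i)

lemma matCalc_D {n : ℕ} (i : Fin n) (M : Matrix ι ι (Sm n)) :
    (matCalc ι n).D i M = mD i M := rfl

lemma matCalc_tr {n : ℕ} (M : Matrix ι ι (Sm n)) :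
    (matCalc ι n).tr M = mean M.trace := rfl

/-- the normalising constant -/
noncomputable def evc (k : ℕ) : ℂ := 1 / ((k.factorial : ℂ) * (2 * Real.pi * Complex.I) ^ k)

lemma evenCh_def (k : ℕ) (e : Matrix ι ι (Sm (2 * k))) :
    evenCh k e = evc k * (matCalc ι (2 * k)).evenT e := rfl

/-- `evenCh` as a signed sum over permutations -/
lemma evenCh_eq (k : ℕ) (e : Matrix ι ι (Sm (2 * k))) : evenCh k e =
    evc k * ∑ σ : Equiv.Perm (Fin (2 * k)), ((Equiv.Perm.sign σ : ℤ) : ℂ) *
      mean (e * (List.ofFn fun j : Fin (2 * k) => mD (σ j) e).prod).trace := by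
  rw [evenCh_def, Calc.evenT_eq]
  rfl

lemma mD_zero {n : ℕ} {κ' κ'' : Type*} (i : Fin n) : mD i (0 : Matrix κ' κ'' (Sm n)) = 0 := by
  ext a b
  simp [mD]

lemma pD_one {n : ℕ} (i : Fin n) : pD i (1 : Sm n) = 0 := by
  have h := pD_leib i (1 : Sm n) 1
  simpa using h

lemma mD_one {n : ℕ} (i : Fin n) : mD i (1 : Matrix ι ι (Sm n)) = 0 := by
  have h := (matCalc ι n).leib i 1 1
  simpa [matCalc_D] using h

lemma evenCh_zero (k : ℕ) : evenCh k (0 : Matrix ι ι (Sm (2 * k))) = 0 := by
  rw [evenCh_eq]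
  simp

/-- if `e` does not depend on one variable its Chern number vanishes -/
lemma evenCh_indep {k : ℕ} {e : Matrix ι ι (Sm (2 * k))} (i : Fin (2 * k)) (h : mD i e = 0) :
    evenCh k e = 0 := by
  rw [evenCh_eq]
  rw [Finset.sum_eq_zero, mul_zero]
  intro σ _
  have h1 : (List.ofFn fun j : Fin (2 * k) => mD (σ j) e).prod = 0 := by
    apply List.prod_eq_zero
    rw [List.mem_ofFn]
    exact ⟨σ.symm i, by simp [h]⟩
  rw [h1]
  simp

lemma evenCh_one {k : ℕ} (hk : 0 < k) : evenCh k (1 : Matrix ι ι (Sm (2 * k))) = 0 :=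
  evenCh_indep ⟨0, by omega⟩ (mD_one _)

/-- block diagonal matrices as a ring homomorphism -/
def blkHom (ι κ : Type*) [Fintype ι] [DecidableEq ι] [Fintype κ] [DecidableEq κ] (R : Type*)
    [Ring R] : Matrix ι ι R × Matrix κ κ R →+* Matrix (ι ⊕ κ) (ι ⊕ κ) R where
  toFun p := Matrix.fromBlocks p.1 0 0 p.2
  map_one' := by simp [Matrix.fromBlocks_one]
  map_mul' p q := by simp [Matrix.fromBlocks_multiply]
  map_zero' := by simp [Matrix.fromBlocks_zero]
  map_add' p q := by simp [Matrix.fromBlocks_add]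

lemma mD_fromBlocks {n : ℕ} (i : Fin n) {l m o p : Type*} (A : Matrix l o (Sm n))
    (B : Matrix l p (Sm n)) (C : Matrix m o (Sm n)) (D : Matrix m p (Sm n)) :
    mD i (Matrix.fromBlocks A B C D) =
      Matrix.fromBlocks (mD i A) (mD i B) (mD i C) (mD i D) := by
  unfold mD
  rw [Matrix.fromBlocks_map]

omit [DecidableEq ι] [DecidableEq κ] in
lemma trace_fromBlocks' {R : Type*} [Ring R] (A : Matrix ι ι R) (B : Matrix ι κ R)
    (C : Matrix κ ι R) (D : Matrix κ κ R) :
    (Matrix.fromBlocks A B C D).trace = A.trace + D.trace := by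
  simp [Matrix.trace, Fintype.sum_sum_type]

/-- **block sums** -/
theorem evenCh_fromBlocks (k : ℕ) (e : Matrix ι ι (Sm (2 * k))) (f : Matrix κ κ (Sm (2 * k))) :
    evenCh k (Matrix.fromBlocks e 0 0 f) = evenCh k e + evenCh k f := by
  rw [evenCh_eq, evenCh_eq, evenCh_eq, ← mul_add, ← Finset.sum_add_distrib]
  congr 1
  refine Finset.sum_congr rfl fun σ _ => ?_
  rw [← mul_add, ← map_add]
  congr 2
  have h1 : (List.ofFn fun j : Fin (2 * k) =>
      mD (σ j) (Matrix.fromBlocks e 0 0 f)).prod =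
      Matrix.fromBlocks (List.ofFn fun j : Fin (2 * k) => mD (σ j) e).prod 0 0
        (List.ofFn fun j : Fin (2 * k) => mD (σ j) f).prod := by
    have h2 : (List.ofFn fun j : Fin (2 * k) => mD (σ j) (Matrix.fromBlocks e 0 0 f)) =
        (List.ofFn fun j : Fin (2 * k) => ((mD (σ j) e, mD (σ j) f) :
          Matrix ι ι (Sm (2 * k)) × Matrix κ κ (Sm (2 * k)))).map
          (blkHom ι κ (Sm (2 * k))) := by
      rw [List.map_ofFn]
      congr 1
      funext j
      simp only [Function.comp, blkHom, RingHom.coe_mk, MonoidHom.coe_mk, OneHom.coe_mk]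
      rw [mD_fromBlocks, mD_zero, mD_zero]
    have h3 : ∀ L : List (Matrix ι ι (Sm (2 * k)) × Matrix κ κ (Sm (2 * k))),
        L.prod = ((L.map Prod.fst).prod, (L.map Prod.snd).prod) := by
      intro L
      induction L with
      | nil => rfl
      | cons a L ih => simp only [List.prod_cons, List.map_cons, ih]; rfl
    rw [h2, ← map_list_prod, h3]
    simp only [List.map_ofFn, blkHom, RingHom.coe_mk, MonoidHom.coe_mk, OneHom.coe_mk]
    rfl
  rw [h1, Matrix.fromBlocks_multiply, trace_fromBlocks']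
  simp

/-- **homotopy invariance** -/
theorem evenCh_path (k : ℕ) (e : Matrix ι ι (SmS (2 * k))) (he : e * e = e) (s t : ℝ) :
    evenCh k (e.map (evS s)) = evenCh k (e.map (evS t)) := by
  rw [evenCh_def, evenCh_def, evenT_path (even_two_mul k) e he s t]

/-- **homotopy invariance**, with prescribed end points -/
theorem evenCh_path' (k : ℕ) (e : Matrix ι ι (SmS (2 * k))) (he : e * e = e)
    {e₀ e₁ : Matrix ι ι (Sm (2 * k))} {s t : ℝ} (h₀ : e.map (evS s) = e₀)
    (h₁ : e.map (evS t) = e₁) : evenCh k e₀ = evenCh k e₁ := by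
  rw [← h₀, ← h₁]
  exact evenCh_path k e he s t

/-- the path `cos (π t / 2)` -/
noncomputable def cosS (n : ℕ) : SmS n :=
  fS (fun t => ((Real.cos (Real.pi / 2 * t) : ℝ) : ℂ))
    (Complex.ofRealCLM.contDiff.comp (Real.contDiff_cos.comp (contDiff_const.mul contDiff_id)))

/-- the path `sin (π t / 2)` -/
noncomputable def sinS (n : ℕ) : SmS n :=
  fS (fun t => ((Real.sin (Real.pi / 2 * t) : ℝ) : ℂ))
    (Complex.ofRealCLM.contDiff.comp (Real.contDiff_sin.comp (contDiff_const.mul contDiff_id)))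

lemma cosS_sq_add (n : ℕ) : cosS n * cosS n + sinS n * sinS n = 1 := by
  ext p
  show ((Real.cos (Real.pi / 2 * p.1) : ℝ) : ℂ) * ((Real.cos (Real.pi / 2 * p.1) : ℝ) : ℂ) +
    ((Real.sin (Real.pi / 2 * p.1) : ℝ) : ℂ) * ((Real.sin (Real.pi / 2 * p.1) : ℝ) : ℂ) = 1
  rw [← Complex.ofReal_mul, ← Complex.ofReal_mul, ← Complex.ofReal_add, ← pow_two, ← pow_two,
    Real.cos_sq_add_sin_sq, Complex.ofReal_one]

lemma evS_cosS_zero (n : ℕ) : evS 0 (cosS n) = 1 := by
  ext x
  show ((Real.cos (Real.pi / 2 * 0) : ℝ) : ℂ) = 1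
  simp

lemma evS_sinS_zero (n : ℕ) : evS 0 (sinS n) = 0 := by
  ext x
  show ((Real.sin (Real.pi / 2 * 0) : ℝ) : ℂ) = 0
  simp

lemma evS_cosS_one (n : ℕ) : evS 1 (cosS n) = 0 := by
  ext x
  show ((Real.cos (Real.pi / 2 * 1) : ℝ) : ℂ) = 0
  simp

lemma evS_sinS_one (n : ℕ) : evS 1 (sinS n) = 1 := by
  ext x
  show ((Real.sin (Real.pi / 2 * 1) : ℝ) : ℂ) = 1
  simp

lemma map_cS_mul {n : ℕ} {a b c : Type*} [Fintype b] (A : Matrix a b (Sm n))
    (B : Matrix b c (Sm n)) : (A * B).map (cS (n := n)) =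
      A.map (cS (n := n)) * B.map (cS (n := n)) := by
  ext i j : 1
  simp only [Matrix.map_apply, Matrix.mul_apply, map_sum, map_mul]

/-- **Murray-von Neumann equivalence**: `e = u v`, `f = v u` (rectangular) -/
theorem evenCh_mvn (k : ℕ) {e : Matrix ι ι (Sm (2 * k))} {f : Matrix κ κ (Sm (2 * k))}
    (he : e * e = e) (hf : f * f = f) (u : Matrix ι κ (Sm (2 * k))) (v : Matrix κ ι (Sm (2 * k)))
    (huv : u * v = e) (hvu : v * u = f) : evenCh k e = evenCh k f := by
  -- normalised intertwiners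
  set u' : Matrix ι κ (Sm (2 * k)) := e * u with hu'
  set v' : Matrix κ ι (Sm (2 * k)) := v * e with hv'
  have h1 : u' * v' = e := by
    rw [hu', hv', Matrix.mul_assoc, ← Matrix.mul_assoc u, huv, he, he]
  have h2 : v' * u' = f := by
    calc v' * u' = v * (e * e) * u := by rw [hu', hv']; simp only [Matrix.mul_assoc]
      _ = v * (u * v) * u := by rw [he, huv]
      _ = (v * u) * (v * u) := by simp only [Matrix.mul_assoc]
      _ = f := by rw [hvu, hf]
  have h3 : e * u' = u' := by rw [hu', ← Matrix.mul_assoc, he]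
  have h4 : v' * e = v' := by rw [hv', Matrix.mul_assoc, he]
  have h5 : u' * f = u' := by rw [← h2, ← Matrix.mul_assoc, h1, h3]
  have h6 : f * v' = v' := by rw [← h2, Matrix.mul_assoc, h1, h4]
  -- the path
  set E := e.map (cS (n := 2 * k)) with hE
  set F := f.map (cS (n := 2 * k)) with hF
  set U := u'.map (cS (n := 2 * k)) with hU
  set V := v'.map (cS (n := 2 * k)) with hV
  have k1 : E * E = E := by rw [hE, ← map_cS_mul, he]
  have k2 : F * F = F := by rw [hF, ← map_cS_mul, hf]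
  have k3 : U * V = E := by rw [hU, hV, ← map_cS_mul, h1]
  have k4 : V * U = F := by rw [hU, hV, ← map_cS_mul, h2]
  have k5 : E * U = U := by rw [hE, hU, ← map_cS_mul, h3]
  have k6 : V * E = V := by rw [hE, hV, ← map_cS_mul, h4]
  have k7 : U * F = U := by rw [hF, hU, ← map_cS_mul, h5]
  have k8 : F * V = V := by rw [hF, hV, ← map_cS_mul, h6]
  set c := cosS (2 * k) with hc
  set s := sinS (2 * k) with hs
  have hcs : c * c + s * s = 1 := cosS_sq_add _
  set P : Matrix (ι ⊕ κ) (ι ⊕ κ) (SmS (2 * k)) :=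
    Matrix.fromBlocks ((c * c) • E) ((c * s) • U) ((c * s) • V) ((s * s) • F) with hP
  have hPP : P * P = P := by
    rw [hP, Matrix.fromBlocks_multiply]
    simp only [Matrix.smul_mul, Matrix.mul_smul, smul_smul, k1, k2, k3, k4, k5, k6, k7, k8,
      ← add_smul]
    congr 2
    · linear_combination (c * c) * hcs
    · linear_combination (c * s) * hcs
    · linear_combination (c * s) * hcs
    · linear_combination (s * s) * hcs
  have e0 : P.map (evS 0) = Matrix.fromBlocks e 0 0 0 := by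
    rw [hP, Matrix.fromBlocks_map]
    congr 1
    · ext i j : 1
      simp [hc, evS_cosS_zero, hE]
    · ext i j : 1
      simp [hs, evS_sinS_zero]
    · ext i j : 1
      simp [hs, evS_sinS_zero]
    · ext i j : 1
      simp [hs, evS_sinS_zero]
  have e1 : P.map (evS 1) = Matrix.fromBlocks 0 0 0 f := by
    rw [hP, Matrix.fromBlocks_map]
    congr 1
    · ext i j : 1
      simp [hc, evS_cosS_one]
    · ext i j : 1
      simp [hc, evS_cosS_one]
    · ext i j : 1
      simp [hc, evS_cosS_one]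
    · ext i j : 1
      simp [hs, evS_sinS_one, hF]
  have := evenCh_path' k P hPP e0 e1
  rw [evenCh_fromBlocks, evenCh_fromBlocks, evenCh_zero, evenCh_zero, add_zero, zero_add] at this
  exact this

/-- **orthogonal sums** -/
theorem evenCh_add (k : ℕ) {e f : Matrix ι ι (Sm (2 * k))} (he : e * e = e) (hf : f * f = f)
    (hef : e * f = 0) (hfe : f * e = 0) : evenCh k (e + f) = evenCh k e + evenCh k f := by
  rw [← evenCh_fromBlocks]
  refine evenCh_mvn k ?_ ?_ (Matrix.fromCols e f) (Matrix.fromRows e f) ?_ ?_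
  · rw [add_mul, mul_add, mul_add, he, hf, hef, hfe, add_zero, zero_add]
  · rw [Matrix.fromBlocks_multiply]
    simp [he, hf]
  · rw [Matrix.fromCols_mul_fromRows, he, hf]
  · rw [Matrix.fromRows_mul_fromCols, he, hf, hef, hfe]

/-- complement -/
theorem evenCh_one_sub {k : ℕ} (hk : 0 < k) {e : Matrix ι ι (Sm (2 * k))} (he : e * e = e) :
    evenCh k (1 - e) = - evenCh k e := by
  have h := evenCh_add k he (f := 1 - e) (by rw [mul_sub, sub_mul, sub_mul, he]; simp)
    (by rw [mul_sub, he]; simp) (by rw [sub_mul, he]; simp)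
  rw [add_sub_cancel, evenCh_one hk] at h
  linear_combination -h

/-- intertwined idempotents: `e z = z f` with `z` invertible (`z w = 1`, `w z = 1`) -/
theorem evenCh_intertwine (k : ℕ) {e : Matrix ι ι (Sm (2 * k))} {f : Matrix κ κ (Sm (2 * k))}
    (he : e * e = e) (hf : f * f = f) (z : Matrix ι κ (Sm (2 * k))) (w : Matrix κ ι (Sm (2 * k)))
    (hzw : z * w = 1) (hwz : w * z = 1) (h : e * z = z * f) : evenCh k e = evenCh k f := by
  refine evenCh_mvn k he hf (e * z) (w * e) ?_ ?_
  · rw [Matrix.mul_assoc, ← Matrix.mul_assoc z, hzw, Matrix.one_mul, he]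
  · rw [Matrix.mul_assoc, ← Matrix.mul_assoc e, he, h, ← Matrix.mul_assoc, hwz, Matrix.one_mul]

/-- conjugation by a unit -/
theorem evenCh_conj (k : ℕ) {e : Matrix ι ι (Sm (2 * k))} (he : e * e = e)
    (g : (Matrix ι ι (Sm (2 * k)))ˣ) :
    evenCh k ((g : Matrix ι ι (Sm (2 * k))) * e * ((g⁻¹ : (Matrix ι ι (Sm (2 * k)))ˣ) :
      Matrix ι ι (Sm (2 * k)))) = evenCh k e := by
  refine evenCh_intertwine k ?_ he (g : Matrix ι ι (Sm (2 * k)))
    ((g⁻¹ : (Matrix ι ι (Sm (2 * k)))ˣ) : Matrix ι ι (Sm (2 * k))) (by simp) (by simp) ?_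
  · have : ((g⁻¹ : (Matrix ι ι (Sm (2 * k)))ˣ) : Matrix ι ι (Sm (2 * k))) *
        (g : Matrix ι ι (Sm (2 * k))) = 1 := by simp
    calc (g : Matrix ι ι (Sm (2 * k))) * e * ((g⁻¹ : (Matrix ι ι (Sm (2 * k)))ˣ) :
        Matrix ι ι (Sm (2 * k))) * ((g : Matrix ι ι (Sm (2 * k))) * e *
        ((g⁻¹ : (Matrix ι ι (Sm (2 * k)))ˣ) : Matrix ι ι (Sm (2 * k))))
        = (g : Matrix ι ι (Sm (2 * k))) * e * (((g⁻¹ : (Matrix ι ι (Sm (2 * k)))ˣ) :
        Matrix ι ι (Sm (2 * k))) * (g : Matrix ι ι (Sm (2 * k)))) * e *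
        ((g⁻¹ : (Matrix ι ι (Sm (2 * k)))ˣ) : Matrix ι ι (Sm (2 * k))) := by
          simp only [mul_assoc]
      _ = _ := by rw [this, mul_one, mul_assoc (g : Matrix ι ι (Sm (2 * k))) e e, he]
  · rw [mul_assoc, mul_assoc]
    simp

/-- reindexing -/
theorem evenCh_reindex (k : ℕ) {e : Matrix ι ι (Sm (2 * k))} (he : e * e = e) (σ : ι ≃ κ) :
    evenCh k (e.submatrix σ.symm σ.symm) = evenCh k e := by
  refine (evenCh_mvn k he ?_ (e.submatrix id σ.symm) (e.submatrix σ.symm id) ?_ ?_).symm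
  · rw [Matrix.submatrix_mul_equiv, he]
  · rw [Matrix.submatrix_mul_equiv, he, Matrix.submatrix_id_id]
  · have := Matrix.submatrix_mul e e σ.symm id σ.symm Function.bijective_id
    rw [← this, he]

/-! ### symmetries -/

/-- evenT of a transformed matrix: general naturality under a map of coefficient functions which
is multiplicative, additive, compatible with derivatives up to a constant `ε` and with the mean -/
lemma evenCh_naturality (k : ℕ) (e : Matrix ι ι (Sm (2 * k))) (φ : Sm (2 * k) →+* Sm (2 * k))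
    (ψ : ℂ →+* ℂ) (ε : ℂ) (hD : ∀ i f, pD i (φ f) = ε • φ (pD i f))
    (hm : ∀ f, mean (φ f) = ψ (mean f)) :
    (matCalc ι (2 * k)).evenT (e.map φ) = ε ^ (2 * k) * ψ ((matCalc ι (2 * k)).evenT e) := by
  rw [Calc.evenT_eq, Calc.evenT_eq, map_sum, Finset.mul_sum]
  refine Finset.sum_congr rfl fun σ _ => ?_
  rw [map_mul ψ, map_intCast ψ]
  have h1 : ∀ j, (matCalc ι (2 * k)).D (σ j) (e.map φ) =
      (ε • φ.mapMatrix ((matCalc ι (2 * k)).D (σ j) e)) := by
    intro j
    ext a b : 1
    simp only [matCalc_D, mD, Matrix.map_apply, Matrix.smul_apply, RingHom.mapMatrix_apply]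
    exact hD _ _
  have h2 : (List.ofFn fun j : Fin (2 * k) => (matCalc ι (2 * k)).D (σ j) (e.map φ)).prod =
      ε ^ (2 * k) • φ.mapMatrix (List.ofFn fun j : Fin (2 * k) =>
        (matCalc ι (2 * k)).D (σ j) e).prod := by
    have h3 : ∀ L : List (Matrix ι ι (Sm (2 * k))),
        (L.map fun M => ε • φ.mapMatrix M).prod = ε ^ L.length • φ.mapMatrix L.prod := by
      intro L
      induction L with
      | nil => simp
      | cons a L ih =>
        rw [List.map_cons, List.prod_cons, ih, List.prod_cons, map_mul, List.length_cons,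
          pow_succ, smul_mul_smul_comm, mul_comm ε]
    have h4 := h3 (List.ofFn fun j : Fin (2 * k) => (matCalc ι (2 * k)).D (σ j) e)
    rw [List.length_ofFn, List.map_ofFn] at h4
    rw [← h4]
    congr 2
    funext j
    rw [h1]
    rfl
  rw [h2]
  have h5 : e.map φ = φ.mapMatrix e := rfl
  rw [h5, mul_smul_comm, ← map_mul]
  have h6 : ∀ M : Matrix ι ι (Sm (2 * k)), (matCalc ι (2 * k)).tr (φ.mapMatrix M) =
      ψ ((matCalc ι (2 * k)).tr M) := by
    intro M
    rw [matCalc_tr, matCalc_tr, ← hm]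
    congr 1
    simp [Matrix.trace]
  rw [map_smul, h6, smul_eq_mul]
  ring

lemma conj_evc (k : ℕ) : star (evc k) = (-1) ^ k * evc k := by
  have h1 : star (2 * (Real.pi : ℂ) * Complex.I) = -(2 * (Real.pi : ℂ) * Complex.I) := by
    simp [Complex.star_def, map_mul, Complex.conj_I, Complex.conj_ofReal]
  unfold evc
  rw [star_div₀, star_mul', star_pow, h1, star_one, neg_pow]
  have h2 : star ((k.factorial : ℕ) : ℂ) = ((k.factorial : ℕ) : ℂ) := by
    simp [Complex.star_def]
  rw [h2]
  rcases Nat.even_or_odd k with hk | hk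
  · rw [hk.neg_one_pow]; ring
  · rw [hk.neg_one_pow]
    field_simp

/-- pull back under the inversion of the torus -/
theorem evenCh_inv (k : ℕ) (e : Matrix ι ι (Sm (2 * k))) :
    evenCh k (e.map Sm.inv) = evenCh k e := by
  rw [evenCh_def, evenCh_def]
  have h := evenCh_naturality k e ((Sm.inv : Sm (2 * k) →⋆ₐ[ℂ] Sm (2 * k)) :
    Sm (2 * k) →+* Sm (2 * k)) (RingHom.id ℂ) (-1)
    (fun i f => by
      rw [neg_smul, one_smul]
      exact pD_inv i f)
    (fun f => mean_inv f)
  have h2 : ((-1 : ℂ)) ^ (2 * k) = 1 := by rw [pow_mul]; norm_num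
  rw [h2, one_mul] at h
  exact congrArg _ h

/-- the complex conjugate of an idempotent -/
theorem evenCh_star (k : ℕ) (e : Matrix ι ι (Sm (2 * k))) :
    evenCh k (e.map star) = (-1) ^ k * star (evenCh k e) := by
  rw [evenCh_def, evenCh_def]
  have h := evenCh_naturality k e (starRingEnd (Sm (2 * k))) (starRingEnd ℂ) 1
    (fun i f => by
      rw [one_smul]
      exact pD_star i f)
    (fun f => mean_star f)
  rw [one_pow, one_mul] at h
  rw [star_mul', conj_evc]
  have h3 : e.map star = e.map (starRingEnd (Sm (2 * k))) := rfl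
  rw [h3, h]
  have h4 : ((-1 : ℂ)) ^ k * (-1) ^ k = 1 := by rw [← mul_pow]; norm_num
  rw [← Complex.star_def]
  linear_combination (-(evc k) * star ((matCalc ι (2 * k)).evenT e)) * h4

/-- Real idempotents: the Chern number is real for even `k`, purely imaginary for odd `k` -/
theorem evenCh_real (k : ℕ) {e : Matrix ι ι (Sm (2 * k))} (he : MReal e) :
    star (evenCh k e) = (-1) ^ k * evenCh k e := by
  have h1 : e.map Sm.inv = e.map star := by
    ext i j : 1
    exact he i j
  have h2 := evenCh_inv k e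
  rw [h1, evenCh_star] at h2
  have h4 : ((-1 : ℂ)) ^ k * (-1) ^ k = 1 := by rw [← mul_pow]; norm_num
  linear_combination (-1) ^ k * h2 - star (evenCh k e) * h4

end

end Pool.Agent.PD4
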