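import Pool.Agent.PD4.Ix.ChRules

/-!
# Project PD4, index block: further symmetries of the even Chern number

* `evenCh_transpose`, `evenCh_conjTranspose`: transposed and adjoint idempotents;
* `evenCh_herm`: the Chern number of a hermitian idempotent is real;
* `evenCh_herm_real_odd`: Real hermitian idempotents have `ch_k = 0` for odd `k`;
* `Sm.restrAt`: restriction to a translated coordinate subtorus, `evenCh_restrAt`.
-/

open MeasureTheory
open scoped ContDiff

namespace Pool.Agent.PD4

section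

variable {ι κ : Type*} [Fintype ι] [DecidableEq ι] [Fintype κ] [DecidableEq κ]

lemma sign_revPerm (n : ℕ) : Equiv.Perm.sign (Fin.revPerm : Equiv.Perm (Fin n)) =
    (-1) ^ (n * (n - 1) / 2) := by
  rw [Equiv.Perm.sign_eq_prod_prod_Iio]
  have h : ∀ j : Fin n, ∏ i ∈ Finset.Iio j,
      (if (Fin.revPerm : Equiv.Perm (Fin n)) i < (Fin.revPerm : Equiv.Perm (Fin n)) j then
        (1 : ℤˣ) else -1) = (-1) ^ (j : ℕ) := by
    intro j
    rw [Finset.prod_congr rfl (g := fun _ => (-1 : ℤˣ)), Finset.prod_const, Fin.card_Iio]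
    intro i hi
    rw [Finset.mem_Iio] at hi
    rw [if_neg]
    rw [Fin.revPerm_apply, Fin.revPerm_apply, Fin.rev_lt_rev]
    exact not_lt.2 hi.le
  rw [Finset.prod_congr rfl fun j _ => h j, Finset.prod_pow_eq_pow_sum]
  congr 1
  rw [← Finset.sum_range_id n, Finset.sum_range]

lemma sign_revPerm_two_mul (k : ℕ) :
    Equiv.Perm.sign (Fin.revPerm : Equiv.Perm (Fin (2 * k))) = (-1) ^ k := by
  rw [sign_revPerm]
  have h : 2 * k * (2 * k - 1) / 2 = k * (2 * k - 1) := by
    rw [mul_assoc, Nat.mul_div_cancel_left _ (by norm_num)]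
  rw [h]
  rcases Nat.eq_zero_or_pos k with rfl | hk
  · simp
  · rw [mul_comm, pow_mul, Odd.neg_one_pow ⟨k - 1, by omega⟩]

lemma ofFn_rev {α : Type*} {n : ℕ} (f : Fin n → α) :
    (List.ofFn fun j => f (Fin.rev j)) = (List.ofFn f).reverse := by
  refine List.ext_getElem (by simp) ?_
  intro i h1 h2
  rw [List.getElem_reverse, List.getElem_ofFn, List.getElem_ofFn]
  congr 1
  ext
  simp only [Fin.val_rev, List.length_ofFn]
  omega

/-- the transposed idempotent -/
theorem evenT_transpose (k : ℕ) (e : Matrix ι ι (Sm (2 * k))) :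
    (matCalc ι (2 * k)).evenT e.transpose = (-1) ^ k * (matCalc ι (2 * k)).evenT e := by
  rw [Calc.evenT_eq, Calc.evenT_eq, Finset.mul_sum]
  rw [← Equiv.sum_comp (Equiv.mulRight (Fin.revPerm : Equiv.Perm (Fin (2 * k))))]
  refine Finset.sum_congr rfl fun σ _ => ?_
  have h1 : (List.ofFn fun j : Fin (2 * k) => (matCalc ι (2 * k)).D
      ((Equiv.mulRight (Fin.revPerm : Equiv.Perm (Fin (2 * k))) σ) j) e.transpose).prod =
      (List.ofFn fun j : Fin (2 * k) => (matCalc ι (2 * k)).D (σ j) e).prod.transpose := by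
    have h2 : (List.ofFn fun j : Fin (2 * k) => (matCalc ι (2 * k)).D
        ((Equiv.mulRight (Fin.revPerm : Equiv.Perm (Fin (2 * k))) σ) j) e.transpose) =
        ((List.ofFn fun j : Fin (2 * k) => (matCalc ι (2 * k)).D (σ j) e).map
          Matrix.transpose).reverse := by
      rw [List.map_ofFn, ← ofFn_rev]
      rfl
    rw [h2, Matrix.transpose_list_prod]
  rw [h1]
  have h3 : (matCalc ι (2 * k)).tr (e.transpose * (List.ofFn fun j : Fin (2 * k) =>
      (matCalc ι (2 * k)).D (σ j) e).prod.transpose) =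
      (matCalc ι (2 * k)).tr (e * (List.ofFn fun j : Fin (2 * k) =>
      (matCalc ι (2 * k)).D (σ j) e).prod) := by
    rw [← Matrix.transpose_mul, matCalc_tr, matCalc_tr, Matrix.trace_transpose,
      Matrix.trace_mul_comm]
  rw [h3]
  have h4 : Equiv.Perm.sign ((Equiv.mulRight (Fin.revPerm : Equiv.Perm (Fin (2 * k)))) σ) =
      Equiv.Perm.sign σ * (-1) ^ k := by
    rw [Equiv.coe_mulRight, Equiv.Perm.sign_mul, sign_revPerm_two_mul]
  rw [h4]
  push_cast
  ring

theorem evenCh_transpose (k : ℕ) (e : Matrix ι ι (Sm (2 * k))) :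
    evenCh k e.transpose = (-1) ^ k * evenCh k e := by
  rw [evenCh_def, evenCh_def, evenT_transpose]
  ring

/-- the adjoint idempotent -/
theorem evenCh_conjTranspose (k : ℕ) (e : Matrix ι ι (Sm (2 * k))) :
    evenCh k e.conjTranspose = star (evenCh k e) := by
  have h : e.conjTranspose = (e.map star).transpose := rfl
  rw [h, evenCh_transpose, evenCh_star, ← mul_assoc, ← mul_pow]
  norm_num

/-- hermitian idempotents have real Chern numbers -/
theorem evenCh_herm (k : ℕ) {e : Matrix ι ι (Sm (2 * k))} (he : e.conjTranspose = e) :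
    star (evenCh k e) = evenCh k e := by
  rw [← evenCh_conjTranspose, he]

/-- Real hermitian idempotents: the odd Chern numbers vanish -/
theorem evenCh_herm_real_odd {k : ℕ} (hk : Odd k) {e : Matrix ι ι (Sm (2 * k))}
    (he : e.conjTranspose = e) (hr : MReal e) : evenCh k e = 0 := by
  have h1 := evenCh_herm k he
  have h2 := evenCh_real k hr
  rw [h1, hk.neg_one_pow] at h2
  linear_combination (1 / 2 : ℂ) * h2

end

/-! ### translated coordinate subtori -/

/-- the affine embedding of a coordinate subtorus -/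
noncomputable def emb {m n : ℕ} (s : Fin m ↪ Fin n) (y : Fin m → ℝ) : Fin n → ℝ :=
  fun i => ∑ j, if s j = i then y j else 0

lemma contDiff_emb {m n : ℕ} (s : Fin m ↪ Fin n) : ContDiff ℝ ∞ (emb s) := by
  refine contDiff_pi.2 fun i => ContDiff.sum fun j _ => ?_
  by_cases h : s j = i
  · simp only [h, if_true]
    exact contDiff_apply ℝ ℝ j
  · simp only [h, if_false]
    exact contDiff_const

lemma emb_add_single {m n : ℕ} (s : Fin m ↪ Fin n) (y : Fin m → ℝ) (k : Fin m) :
    emb s (y + Pi.single k 1) = emb s y + Pi.single (s k) 1 := by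
  funext i
  unfold emb
  have e2 : ∀ j, (if s j = i then (y + Pi.single k 1 : Fin m → ℝ) j else 0) =
      (if s j = i then y j else 0) + (if j = k then (if s k = i then (1 : ℝ) else 0) else 0) := by
    intro j
    by_cases h : j = k
    · subst h
      by_cases h' : s j = i <;> simp [h']
    · by_cases h' : s j = i <;> simp [h', h]
  rw [Finset.sum_congr rfl fun j _ => e2 j, Finset.sum_add_distrib]
  simp [Pi.single_apply, eq_comm]

lemma emb_neg {m n : ℕ} (s : Fin m ↪ Fin n) (y : Fin m → ℝ) : emb s (-y) = - emb s y := by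
  funext i
  simp only [emb, Pi.neg_apply, ← Finset.sum_neg_distrib]
  refine Finset.sum_congr rfl fun j _ => ?_
  split_ifs <;> simp

/-- restriction to the coordinate subtorus through the point `a` -/
noncomputable def Sm.restrAt {m n : ℕ} (s : Fin m ↪ Fin n) (a : Fin n → ℝ) :
    Sm n →⋆ₐ[ℂ] Sm m where
  toFun f := ⟨fun y => f.1 (a + emb s y), by
    constructor
    · exact f.2.1.comp (contDiff_const.add (contDiff_emb s))
    · intro y k
      change f.1 (a + emb s (y + Pi.single k 1)) = _
      rw [emb_add_single, ← add_assoc]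
      exact f.2.2 _ _⟩
  map_one' := rfl
  map_mul' _ _ := rfl
  map_zero' := rfl
  map_add' _ _ := rfl
  commutes' _ := rfl
  map_star' _ := rfl

lemma Sm.restrAt_apply {m n : ℕ} (s : Fin m ↪ Fin n) (a : Fin n → ℝ) (f : Sm n)
    (y : Fin m → ℝ) : (Sm.restrAt s a f).1 y = f.1 (a + emb s y) := rfl

lemma Sm.restrAt_zero {m n : ℕ} (s : Fin m ↪ Fin n) (f : Sm n) :
    Sm.restrAt s 0 f = Sm.restr s f := by
  ext y
  change f.1 (0 + emb s y) = f.1 (emb s y)
  rw [zero_add]

/-- the path of restrictions to the subtori through `t a` -/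
noncomputable def Sm.restrS {m n : ℕ} (s : Fin m ↪ Fin n) (a : Fin n → ℝ) :
    Sm n →⋆ₐ[ℂ] SmS m where
  toFun f := ⟨fun p => f.1 (p.1 • a + emb s p.2), by
    constructor
    · exact f.2.1.comp ((contDiff_fst.smul contDiff_const).add
        ((contDiff_emb s).comp contDiff_snd))
    · intro t y k
      change f.1 (t • a + emb s (y + Pi.single k 1)) = _
      rw [emb_add_single, ← add_assoc]
      exact f.2.2 _ _⟩
  map_one' := rfl
  map_mul' _ _ := rfl
  map_zero' := rfl
  map_add' _ _ := rfl
  commutes' _ := rfl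
  map_star' _ := rfl

lemma evS_restrS {m n : ℕ} (s : Fin m ↪ Fin n) (a : Fin n → ℝ) (t : ℝ) (f : Sm n) :
    evS t (Sm.restrS s a f) = Sm.restrAt s (t • a) f := rfl

section

variable {ι : Type*} [Fintype ι] [DecidableEq ι]

/-- the Chern numbers on parallel coordinate subtori agree -/
theorem evenCh_restrAt {k n : ℕ} (s : Fin (2 * k) ↪ Fin n) (a b : Fin n → ℝ)
    {e : Matrix ι ι (Sm n)} (he : e * e = e) :
    evenCh k (e.map (Sm.restrAt s a)) = evenCh k (e.map (Sm.restrAt s b)) := by
  have key : ∀ a : Fin n → ℝ, evenCh k (e.map (Sm.restrAt s a)) =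
      evenCh k (e.map (Sm.restrAt s 0)) := by
    intro a
    refine evenCh_path' k (e.map (Sm.restrS s a)) ?_ (s := 1) (t := 0) ?_ ?_
    · have h : e.map (Sm.restrS s a) =
          (((Sm.restrS s a : Sm n →⋆ₐ[ℂ] SmS (2 * k)) : Sm n →+* SmS (2 * k)).mapMatrix e) := rfl
      rw [h, ← map_mul, he]
    · ext i j : 1
      simp only [Matrix.map_apply, evS_restrS, one_smul]
    · ext i j : 1
      simp only [Matrix.map_apply, evS_restrS, zero_smul]
  rw [key a, key b]

end

end Pool.Agent.PD4
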