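import Pool.Agent.PD4.Ix.Path

/-!
# Project PD4, index block: Real paths (definitions)
-/

open scoped ContDiff Matrix

namespace Pool.Agent.PD4

variable {ι : Type*} [Fintype ι] [DecidableEq ι]

/-- Real matrix-valued paths -/
def MRealS {n : ℕ} (M : Matrix ι ι (SmS n)) : Prop := ∀ s, MReal (M.map (evS s))

/-- `A` and `B` are joined by a Real path of invertible matrices on the torus -/
def RPath {n : ℕ} (A B : Matrix ι ι (Sm n)) : Prop :=
  ∃ G : (Matrix ι ι (SmS n))ˣ, MRealS (G : Matrix ι ι (SmS n)) ∧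
    (G : Matrix ι ι (SmS n)).map (evS 0) = A ∧ (G : Matrix ι ι (SmS n)).map (evS 1) = B

/-- real constant matrices -/
noncomputable def cMat {n : ℕ} (C : Matrix ι ι ℝ) : Matrix ι ι (Sm n) :=
  C.map fun r => algebraMap ℂ (Sm n) (r : ℂ)

end Pool.Agent.PD4
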