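import Pool.Agent.PD4.Ix.Cat
import Pool.Agent.PD4.Ix.RPath

/-!
# Project PD4, index block: Real paths can be concatenated and reversed
-/

open scoped ContDiff Matrix

namespace Pool.Agent.PD4

variable {ι : Type*} [Fintype ι] [DecidableEq ι] {n : ℕ}

omit [Fintype ι] [DecidableEq ι] in
lemma MRealS.at {M : Matrix ι ι (SmS n)} (h : MRealS M) (s : ℝ) : MReal (M.map (evS s)) := h s

lemma RPath.left_unit {A B : Matrix ι ι (Sm n)} (h : RPath A B) : IsUnit A := by
  obtain ⟨G, _, h0, _⟩ := h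
  rw [← h0]
  exact (evU 0 G).isUnit

lemma RPath.right_unit {A B : Matrix ι ι (Sm n)} (h : RPath A B) : IsUnit B := by
  obtain ⟨G, _, _, h1⟩ := h
  rw [← h1]
  exact (evU 1 G).isUnit

lemma RPath.left_real {A B : Matrix ι ι (Sm n)} (h : RPath A B) : MReal A := by
  obtain ⟨G, hr, h0, _⟩ := h
  rw [← h0]
  exact hr 0

lemma RPath.right_real {A B : Matrix ι ι (Sm n)} (h : RPath A B) : MReal B := by
  obtain ⟨G, hr, _, h1⟩ := h
  rw [← h1]
  exact hr 1

/-- the constant path -/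
lemma RPath.refl {A : Matrix ι ι (Sm n)} (hA : IsUnit A) (hAr : MReal A) : RPath A A := by
  obtain ⟨U, rfl⟩ := hA
  let G : (Matrix ι ι (SmS n))ˣ :=
    Units.map ((cS : Sm n →⋆ₐ[ℂ] SmS n) : Sm n →+* SmS n).mapMatrix.toMonoidHom U
  have h : ∀ s, (G : Matrix ι ι (SmS n)).map (evS s) = (U : Matrix ι ι (Sm n)) := fun s => rfl
  exact ⟨G, fun s => by rw [h s]; exact hAr, h 0, h 1⟩

/-- the reversed path -/
lemma RPath.symm {A B : Matrix ι ι (Sm n)} (h : RPath A B) : RPath B A := by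
  obtain ⟨G, hr, h0, h1⟩ := h
  have e : ∀ s, (revU G : Matrix ι ι (SmS n)).map (evS s) =
      (G : Matrix ι ι (SmS n)).map (evS (1 - s)) := fun s => rfl
  refine ⟨revU G, fun s => by rw [e s]; exact hr _, ?_, ?_⟩
  · rw [e, sub_zero, h1]
  · rw [e, sub_self, h0]

/-- concatenation of Real paths -/
lemma RPath.trans {A B C : Matrix ι ι (Sm n)} (h : RPath A B) (h' : RPath B C) :
    RPath A C := by
  obtain ⟨G, hr, h0, h1⟩ := h
  obtain ⟨G', hr', h0', h1'⟩ := h'
  have hm : evU 1 G = evU 0 G' := by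
    apply Units.ext
    change (G : Matrix ι ι (SmS n)).map (evS 1) = (G' : Matrix ι ι (SmS n)).map (evS 0)
    rw [h1, h0']
  have hl : ∀ s : ℝ, s ≤ 2 / 3 → (catU G G' hm : Matrix ι ι (SmS n)).map (evS s) =
      (G : Matrix ι ι (SmS n)).map (evS (stp (2 * s))) := fun s hs =>
    congrArg (fun u : (Matrix ι ι (Sm n))ˣ => (u : Matrix ι ι (Sm n))) (catU_left G G' hm hs)
  have hri : ∀ s : ℝ, 1 / 3 ≤ s → (catU G G' hm : Matrix ι ι (SmS n)).map (evS s) =
      (G' : Matrix ι ι (SmS n)).map (evS (stp (2 * s - 1))) := fun s hs =>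
    congrArg (fun u : (Matrix ι ι (Sm n))ˣ => (u : Matrix ι ι (Sm n))) (catU_right G G' hm hs)
  refine ⟨catU G G' hm, fun s => ?_, ?_, ?_⟩
  · rcases le_total s (1 / 2) with hs | hs
    · rw [hl s (by linarith)]; exact hr _
    · rw [hri s (by linarith)]; exact hr' _
  · rw [hl 0 (by norm_num), mul_zero, stp_zero, h0]
  · rw [hri 1 (by norm_num)]
    norm_num
    exact h1'

/-- Real paths can be concatenated and reversed -/
theorem RPath.eqvGen {A B : Matrix ι ι (Sm n)} (hA : IsUnit A) (hAr : MReal A)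
    (h : Relation.EqvGen RPath A B) : RPath A B := by
  have key : ((IsUnit A ∧ MReal A) ↔ (IsUnit B ∧ MReal B)) ∧
      ((IsUnit A ∧ MReal A) → RPath A B) := by
    clear hA hAr
    induction h with
    | rel x y hxy =>
      exact ⟨⟨fun _ => ⟨hxy.right_unit, hxy.right_real⟩, fun _ => ⟨hxy.left_unit, hxy.left_real⟩⟩,
        fun _ => hxy⟩
    | refl x => exact ⟨Iff.rfl, fun hx => RPath.refl hx.1 hx.2⟩
    | symm x y _ ih => exact ⟨ih.1.symm, fun hy => (ih.2 (ih.1.2 hy)).symm⟩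
    | trans x y z _ _ ih1 ih2 =>
      exact ⟨ih1.1.trans ih2.1, fun hx => (ih1.2 hx).trans (ih2.2 (ih1.1.1 hx))⟩
  exact key.2 ⟨hA, hAr⟩

end Pool.Agent.PD4
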