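import Pool.Agent.PD4.Ix.TropDefs

/-!
# Project PD4, index block: tropical part, Real paths of matrices

Shrinking of transvections, straight lines between diagonal matrices, Whitehead's lemma.
-/

open scoped ContDiff Matrix
open Relation

namespace Pool.Agent.PD4

lemma isReal_mul {n : ℕ} {f g : Sm n} (hf : Sm.IsReal f) (hg : Sm.IsReal g) :
    Sm.IsReal (f * g) := (RSm n).mul_mem hf hg

lemma isReal_add {n : ℕ} {f g : Sm n} (hf : Sm.IsReal f) (hg : Sm.IsReal g) :
    Sm.IsReal (f + g) := (RSm n).add_mem hf hg

lemma isReal_neg {n : ℕ} {f : Sm n} (hf : Sm.IsReal f) : Sm.IsReal (-f) := (RSm n).neg_mem hf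

lemma isReal_one {n : ℕ} : Sm.IsReal (1 : Sm n) := (RSm n).one_mem

lemma isReal_zero {n : ℕ} : Sm.IsReal (0 : Sm n) := (RSm n).zero_mem

lemma isReal_of_mul_eq_one {n : ℕ} {f g : Sm n} (h : f * g = 1) (hf : Sm.IsReal f) :
    Sm.IsReal g := by
  have hf' : Sm.inv f = star f := hf
  have h1 : Sm.inv f * Sm.inv g = 1 := by rw [← map_mul, h, map_one]
  have h2 : star f * star g = 1 := by rw [← star_mul', h, star_one]
  rw [hf'] at h1
  change Sm.inv g = star g
  calc Sm.inv g = (star f * star g) * Sm.inv g := by rw [h2, one_mul]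
    _ = star g * (star f * Sm.inv g) := by ring
    _ = star g := by rw [h1, mul_one]

variable {ι : Type*} [Fintype ι] [DecidableEq ι] {n : ℕ}

lemma mreal_mul {A B : Matrix ι ι (Sm n)} (hA : MReal A) (hB : MReal B) : MReal (A * B) := by
  intro i j
  rw [Matrix.mul_apply]
  exact (RSm n).sum_mem fun k _ => (RSm n).mul_mem (hA i k) (hB k j)

lemma tmreal_one : MReal (1 : Matrix ι ι (Sm n)) := by
  intro i j
  rw [Matrix.one_apply]
  split_ifs
  · exact isReal_one
  · exact isReal_zero

lemma mreal_diagonal {D : ι → Sm n} (hD : ∀ i, Sm.IsReal (D i)) : MReal (Matrix.diagonal D) := by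
  intro i j
  rw [Matrix.diagonal_apply]
  split_ifs
  · exact hD i
  · exact isReal_zero

lemma mreal_transvection {i j : ι} {c : Sm n} (hc : Sm.IsReal c) :
    MReal (Matrix.transvection i j c) := by
  intro k l
  rw [Matrix.transvection, Matrix.add_apply]
  refine isReal_add (tmreal_one k l) ?_
  rw [Matrix.single_apply]
  split_ifs
  · exact hc
  · exact isReal_zero

lemma isUnit_transvection {R : Type*} [CommRing R] {i j : ι} (hij : i ≠ j) (c : R) :
    IsUnit (Matrix.transvection i j c) := by
  rw [Matrix.isUnit_iff_isUnit_det, Matrix.det_transvection_of_ne i j hij]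
  exact isUnit_one

lemma tmap_evS_mul (s : ℝ) (A B : Matrix ι ι (SmS n)) :
    (A * B).map (evS s) = A.map (evS s) * B.map (evS s) := by
  ext1 i j
  simp only [Matrix.map_apply, Matrix.mul_apply, map_sum, map_mul]

lemma map_transvection {R S : Type*} [CommRing R] [CommRing S] (f : R → S) (h0 : f 0 = 0)
    (h1 : f 1 = 1) {i j : ι} (hij : i ≠ j) (c : R) :
    (Matrix.transvection i j c).map f = Matrix.transvection i j (f c) := by
  ext1 k l
  simp only [Matrix.map_apply, Matrix.transvection, Matrix.add_apply, Matrix.one_apply,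
    Matrix.single_apply]
  by_cases hkl : k = l
  · subst hkl
    have h : ¬ (i = k ∧ j = k) := fun h => hij (h.1.trans h.2.symm)
    simp [h, h1]
  · by_cases h : i = k ∧ j = l
    · simp [hkl, h]
    · simp [hkl, h, h0]

theorem RPath.mul {A B A' B' : Matrix ι ι (Sm n)} (h : RPath A B) (h' : RPath A' B') :
    RPath (A * A') (B * B') := by
  obtain ⟨G, hG, h0, h1⟩ := h
  obtain ⟨G', hG', h0', h1'⟩ := h'
  refine ⟨G * G', fun s => ?_, ?_, ?_⟩
  · rw [Units.val_mul, tmap_evS_mul]
    exact mreal_mul (hG s) (hG' s)
  · rw [Units.val_mul, tmap_evS_mul, h0, h0']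
  · rw [Units.val_mul, tmap_evS_mul, h1, h1']

theorem RPath.const {A : Matrix ι ι (Sm n)} (hu : IsUnit A) (hr : MReal A) : RPath A A := by
  obtain ⟨U, rfl⟩ := hu
  have hm : ∀ M : Matrix ι ι (Sm n), ∀ s, ((cS (n := n) : Sm n →+* SmS n).mapMatrix M).map
      (evS s) = M := by
    intro M s
    ext1 i j
    rfl
  refine ⟨Units.map ((cS (n := n) : Sm n →+* SmS n).mapMatrix (m := ι)).toMonoidHom U,
    fun s => ?_, ?_, ?_⟩
  · exact (hm _ s).symm ▸ hr
  · exact hm _ 0
  · exact hm _ 1

theorem eqv_mul_left {A B C : Matrix ι ι (Sm n)} (hu : IsUnit C) (hr : MReal C)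
    (h : EqvGen RPath A B) : EqvGen RPath (C * A) (C * B) := by
  induction h with
  | rel x y h => exact EqvGen.rel _ _ ((RPath.const hu hr).mul h)
  | refl x => exact EqvGen.refl _
  | symm x y _ ih => exact EqvGen.symm _ _ ih
  | trans x y z _ _ ih1 ih2 => exact EqvGen.trans _ _ _ ih1 ih2

theorem eqv_mul_right {A B C : Matrix ι ι (Sm n)} (hu : IsUnit C) (hr : MReal C)
    (h : EqvGen RPath A B) : EqvGen RPath (A * C) (B * C) := by
  induction h with
  | rel x y h => exact EqvGen.rel _ _ (h.mul (RPath.const hu hr))
  | refl x => exact EqvGen.refl _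
  | symm x y _ ih => exact EqvGen.symm _ _ ih
  | trans x y z _ _ ih1 ih2 => exact EqvGen.trans _ _ _ ih1 ih2

theorem eqv_mul {A B A' B' : Matrix ι ι (Sm n)} (hA : IsUnit A) (hAr : MReal A)
    (hB : IsUnit B') (hBr : MReal B') (h : EqvGen RPath A B) (h' : EqvGen RPath A' B') :
    EqvGen RPath (A * A') (B * B') :=
  EqvGen.trans _ _ _ (eqv_mul_left hA hAr h') (eqv_mul_right hB hBr h)

/-- shrinking a transvection -/
theorem rpath_transvection {i j : ι} (hij : i ≠ j) {c : Sm n} (hc : Sm.IsReal c) :
    RPath (Matrix.transvection i j c) 1 := by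
  have hφ : ContDiff ℝ ∞ (fun s : ℝ => ((1 - s : ℝ) : ℂ)) :=
    Complex.ofRealCLM.contDiff.comp (contDiff_const.sub contDiff_id)
  set f : SmS n := fS _ hφ * cS c with hf
  have he : ∀ s : ℝ, evS s f = ((1 - s : ℝ) : ℂ) • c := fun s => rfl
  have h1 : Matrix.transvection i j f * Matrix.transvection i j (-f) = 1 := by
    rw [Matrix.transvection_mul_transvection_same i j hij, add_neg_cancel,
      Matrix.transvection_zero]
  have h2 : Matrix.transvection i j (-f) * Matrix.transvection i j f = 1 := by
    rw [Matrix.transvection_mul_transvection_same i j hij, neg_add_cancel,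
      Matrix.transvection_zero]
  have hm : ∀ s, (Matrix.transvection i j f).map (evS s) =
      Matrix.transvection i j (((1 - s : ℝ) : ℂ) • c) := by
    intro s
    rw [map_transvection (evS s) (map_zero _) (map_one _) hij, he]
  refine ⟨⟨Matrix.transvection i j f, Matrix.transvection i j (-f), h1, h2⟩, fun s => ?_, ?_, ?_⟩
  · change MReal ((Matrix.transvection i j f).map (evS s))
    rw [hm]
    exact mreal_transvection (isReal_smul _ hc)
  · change (Matrix.transvection i j f).map (evS 0) = _
    rw [hm]
    simp
  · change (Matrix.transvection i j f).map (evS 1) = _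
    rw [hm]
    simp

/-- shrinking a product of transvections -/
theorem eqv_list (L : List (Matrix.TransvectionStruct ι (Sm n))) (hL : ∀ T ∈ L, Sm.IsReal T.c) :
    IsUnit (L.map Matrix.TransvectionStruct.toMatrix).prod ∧
      MReal (L.map Matrix.TransvectionStruct.toMatrix).prod ∧
      EqvGen RPath (L.map Matrix.TransvectionStruct.toMatrix).prod 1 := by
  induction L with
  | nil => exact ⟨isUnit_one, tmreal_one, EqvGen.refl _⟩
  | cons T L ih =>
    obtain ⟨h1, h2, h3⟩ := ih fun T' hT' => hL T' (List.mem_cons_of_mem _ hT')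
    have hc := hL T List.mem_cons_self
    rw [List.map_cons, List.prod_cons]
    have hu : IsUnit T.toMatrix := isUnit_transvection T.hij T.c
    have hr : MReal T.toMatrix := mreal_transvection hc
    refine ⟨hu.mul h1, mreal_mul hr h2, ?_⟩
    have h4 := eqv_mul hu hr isUnit_one tmreal_one
      (EqvGen.rel _ _ (rpath_transvection T.hij hc)) h3
    rw [mul_one] at h4
    exact h4

/-- straight line between diagonal matrices -/
theorem rpath_diagonal {D D' : ι → Sm n} (hD : ∀ i, Sm.IsReal (D i)) (hD' : ∀ i, Sm.IsReal (D' i))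
    (h : ∀ i x, ‖(D i).1 x - (D' i).1 x‖ < ‖(D' i).1 x‖) :
    RPath (Matrix.diagonal D) (Matrix.diagonal D') := by
  have hφ : ContDiff ℝ ∞ (fun s : ℝ => (Real.smoothTransition s : ℂ)) :=
    Complex.ofRealCLM.contDiff.comp Real.smoothTransition.contDiff
  set F : ι → SmS n := fun i => fS _ hφ * cS (D' i) + (1 - fS _ hφ) * cS (D i) with hF
  have he : ∀ (s : ℝ) i, evS s (F i) = (Real.smoothTransition s : ℂ) • D' i +
      ((1 - Real.smoothTransition s : ℝ) : ℂ) • D i := by
    intro s i
    apply Subtype.ext
    funext x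
    change (Real.smoothTransition s : ℂ) * (D' i).1 x +
      (1 - (Real.smoothTransition s : ℂ)) * (D i).1 x = (Real.smoothTransition s : ℂ) *
        (D' i).1 x + ((1 - Real.smoothTransition s : ℝ) : ℂ) * (D i).1 x
    push_cast
    ring
  have hne : ∀ i (p : ℝ × (Fin n → ℝ)), (F i).1 p ≠ 0 := by
    intro i p hp
    have h1 : (F i).1 p = (D' i).1 p.2 +
        ((1 - Real.smoothTransition p.1 : ℝ) : ℂ) * ((D i).1 p.2 - (D' i).1 p.2) := by
      change (Real.smoothTransition p.1 : ℂ) * (D' i).1 p.2 +
        (1 - (Real.smoothTransition p.1 : ℂ)) * (D i).1 p.2 = _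
      push_cast
      ring
    rw [h1] at hp
    have h2 : ‖(D' i).1 p.2‖ =
        ‖((1 - Real.smoothTransition p.1 : ℝ) : ℂ) * ((D i).1 p.2 - (D' i).1 p.2)‖ := by
      rw [← norm_neg]
      congr 1
      exact neg_eq_of_add_eq_zero_right hp
    rw [norm_mul, Complex.norm_real, Real.norm_eq_abs] at h2
    have h3 := Real.smoothTransition.nonneg p.1
    have h4 := Real.smoothTransition.le_one p.1
    have h5 : |1 - Real.smoothTransition p.1| ≤ 1 := by
      rw [abs_of_nonneg (by linarith)]
      linarith
    have h6 := h i p.2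
    have h7 : |1 - Real.smoothTransition p.1| * ‖(D i).1 p.2 - (D' i).1 p.2‖ ≤
        1 * ‖(D i).1 p.2 - (D' i).1 p.2‖ := mul_le_mul_of_nonneg_right h5 (norm_nonneg _)
    linarith
  have hu : IsUnit (Matrix.diagonal F) := by
    rw [Matrix.isUnit_diagonal, Pi.isUnit_iff]
    exact fun i => SmS.isUnit _ (hne i)
  obtain ⟨G, hG⟩ := hu
  have hm : ∀ s, (Matrix.diagonal F).map (evS s) = Matrix.diagonal fun i =>
      (Real.smoothTransition s : ℂ) • D' i + ((1 - Real.smoothTransition s : ℝ) : ℂ) • D i := by
    intro s
    rw [Matrix.diagonal_map (map_zero _)]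
    congr 1
    funext i
    exact he s i
  refine ⟨G, fun s => ?_, ?_, ?_⟩
  · rw [hG, hm]
    exact mreal_diagonal fun i => isReal_add (isReal_smul _ (hD' i)) (isReal_smul _ (hD i))
  · rw [hG, hm]
    congr 1
    funext i
    simp
  · rw [hG, hm]
    congr 1
    funext i
    simp

section Whitehead

variable {R : Type*} [CommRing R]

lemma transvection_mulVec {i j : ι} (c : R) (x : ι → R) :
    Matrix.transvection i j c *ᵥ x = Function.update x i (x i + c * x j) := by
  rw [Matrix.transvection, Matrix.add_mulVec, Matrix.one_mulVec, Matrix.single_mulVec]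
  funext k
  by_cases hk : k = i
  · subst hk
    simp
  · simp [hk]

theorem whitehead_id {i j : ι} (hij : i ≠ j) (a b : R) (hab : a * b = 1) :
    Matrix.transvection i j a * (Matrix.transvection j i (-b) * (Matrix.transvection i j a *
      (Matrix.transvection i j (-1) * (Matrix.transvection j i 1 *
        Matrix.transvection i j (-1))))) =
      Matrix.diagonal (fun k => if k = i then a else if k = j then b else 1) := by
  apply Matrix.mulVec_injective
  funext x
  simp only [← Matrix.mulVec_mulVec, transvection_mulVec]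
  funext k
  rw [Matrix.mulVec_diagonal]
  by_cases hk : k = i
  · subst hk
    simp only [Function.update_self, Function.update_of_ne hij, Function.update_of_ne hij.symm,
      if_true]
    linear_combination (x j - a * x k) * hab
  · by_cases hk' : k = j
    · subst hk'
      simp only [Function.update_self, Function.update_of_ne hij, Function.update_of_ne hk,
        if_neg hk, if_true]
      linear_combination (-(x i)) * hab
    · simp only [Function.update_of_ne hk, Function.update_of_ne hk', if_neg hk, if_neg hk',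
        one_mul]

end Whitehead

/-- Whitehead's lemma for one pair of indices -/
theorem eqv_pair {i j : ι} (hij : i ≠ j) {a b : Sm n} (hab : a * b = 1) (ha : Sm.IsReal a) :
    EqvGen RPath (Matrix.diagonal (fun k : ι => if k = i then a else if k = j then b else 1))
      1 := by
  have hb := isReal_of_mul_eq_one hab ha
  have h := (eqv_list [⟨i, j, hij, a⟩, ⟨j, i, hij.symm, -b⟩, ⟨i, j, hij, a⟩, ⟨i, j, hij, -1⟩,
    ⟨j, i, hij.symm, 1⟩, ⟨i, j, hij, -1⟩] (by
      intro T hT
      simp only [List.mem_cons, List.not_mem_nil, or_false] at hT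
      rcases hT with h | h | h | h | h | h <;> rw [h]
      · exact ha
      · exact isReal_neg hb
      · exact ha
      · exact isReal_neg isReal_one
      · exact isReal_one
      · exact isReal_neg isReal_one)).2.2
  simp only [List.map_cons, List.map_nil, List.prod_cons, List.prod_nil, mul_one,
    Matrix.TransvectionStruct.toMatrix_mk] at h
  rw [whitehead_id hij a b hab] at h
  exact h

/-- moving a diagonal entry -/
theorem eqv_gather {D : ι → Sm n} (hD : ∀ i, Sm.IsReal (D i)) (hu : ∀ i, IsUnit (D i)) {i j : ι}
    (hij : i ≠ j) : EqvGen RPath (Matrix.diagonal D)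
      (Matrix.diagonal (Function.update (Function.update D i (D i * D j)) j 1)) := by
  obtain ⟨b, hb⟩ := (hu j).exists_right_inv
  have h1 := eqv_pair hij hb (hD j)
  have h2 := eqv_mul_left (C := Matrix.diagonal D)
    (by rw [Matrix.isUnit_diagonal, Pi.isUnit_iff]; exact hu) (mreal_diagonal hD) h1
  rw [mul_one, Matrix.diagonal_mul_diagonal] at h2
  have e : (fun k => D k * (if k = i then D j else if k = j then b else 1)) =
      Function.update (Function.update D i (D i * D j)) j 1 := by
    funext k
    by_cases hk : k = i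
    · subst hk
      simp [hij]
    · by_cases hk' : k = j
      · subst hk'
        simp [hk, hb]
      · simp [hk, hk']
  rw [e] at h2
  exact EqvGen.symm _ _ h2

theorem eqv_fold {D : ι → Sm n} (hD : ∀ i, Sm.IsReal (D i)) (hu : ∀ i, IsUnit (D i)) (i₀ : ι)
    (S : Finset ι) (hS : i₀ ∉ S) : EqvGen RPath (Matrix.diagonal D)
      (Matrix.diagonal (fun k => if k = i₀ then D i₀ * ∏ j ∈ S, D j
        else if k ∈ S then 1 else D k)) := by
  induction S using Finset.induction_on with
  | empty =>
    have e : (fun k => if k = i₀ then D i₀ * ∏ j ∈ (∅ : Finset ι), D j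
        else if k ∈ (∅ : Finset ι) then 1 else D k) = D := by
      funext k
      by_cases hk : k = i₀
      · subst hk; simp
      · simp [hk]
    rw [e]
    exact EqvGen.refl _
  | insert j S hj ih =>
    have hji : i₀ ≠ j := fun h => hS (by rw [h]; exact Finset.mem_insert_self _ _)
    have hS' : i₀ ∉ S := fun h => hS (Finset.mem_insert_of_mem h)
    refine EqvGen.trans _ _ _ (ih hS') ?_
    have h1 := eqv_gather (D := fun k => if k = i₀ then D i₀ * ∏ j ∈ S, D j
        else if k ∈ S then 1 else D k) (by
          intro k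
          split_ifs
          · exact isReal_mul (hD _) ((RSm n).prod_mem fun k _ => hD k)
          · exact isReal_one
          · exact hD k) (by
          intro k
          split_ifs
          · exact (hu _).mul (by
              have := Finset.prod_induction (s := S) (fun j => D j) IsUnit
                (fun _ _ ha hb => ha.mul hb) isUnit_one (fun k _ => hu k)
              exact this)
          · exact isUnit_one
          · exact hu k) hji
    convert h1 using 2
    funext k
    by_cases hk : k = i₀
    · subst hk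
      simp [hji, hji.symm, hj, Finset.prod_insert hj]
      ring
    · by_cases hk' : k = j
      · subst hk'
        simp [hk]
      · simp [hk, hk']

/-- real constants -/
theorem eqv_monomial (c : ι → ℝ) (hc : ∀ i, c i ≠ 0) (m : ι → Fin n → ℤ) (hm : ∑ i, m i = 0) :
    ∃ C : Matrix ι ι ℝ, C.det ≠ 0 ∧ EqvGen RPath
      (Matrix.diagonal fun i => ((c i : ℝ) : ℂ) • (Sm.ex (m i) : Sm n)) (cMat (n := n) C) := by
  rcases isEmpty_or_nonempty ι with hι | ⟨⟨i₀⟩⟩
  · refine ⟨1, by simp, ?_⟩
    have e : (Matrix.diagonal fun i => ((c i : ℝ) : ℂ) • (Sm.ex (m i) : Sm n)) =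
        cMat (n := n) (1 : Matrix ι ι ℝ) := by
      ext1 i
      exact hι.elim i
    rw [e]
    exact EqvGen.refl _
  · refine ⟨Matrix.diagonal fun k => if k = i₀ then ∏ i, c i else 1, ?_, ?_⟩
    · rw [Matrix.det_diagonal, Finset.prod_ne_zero_iff]
      intro k _
      split_ifs
      · exact Finset.prod_ne_zero_iff.2 fun i _ => hc i
      · exact one_ne_zero
    · have hu : ∀ i, IsUnit (((c i : ℝ) : ℂ) • (Sm.ex (m i) : Sm n)) := by
        intro i
        apply Sm.isUnit
        intro x
        change ((c i : ℝ) : ℂ) * (Sm.ex (m i) : Sm n).1 x ≠ 0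
        apply mul_ne_zero
        · exact_mod_cast hc i
        · intro h
          have := ex_norm (m i) x
          rw [h, norm_zero] at this
          exact zero_ne_one this
      have h1 := eqv_fold (D := fun i => ((c i : ℝ) : ℂ) • (Sm.ex (m i) : Sm n))
        (fun i => isReal_smul _ (ex_real _)) hu i₀ (Finset.univ.erase i₀) (by simp)
      convert h1 using 1
      ext1 k l
      unfold cMat
      rw [Matrix.map_apply, Matrix.diagonal_apply, Matrix.diagonal_apply]
      by_cases hkl : k = l
      · subst hkl
        by_cases hk : k = i₀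
        · subst hk
          simp only [if_true]
          rw [Finset.mul_prod_erase Finset.univ
            (fun i => ((c i : ℝ) : ℂ) • (Sm.ex (m i) : Sm n)) (Finset.mem_univ k)]
          have h2 : (∏ i, ((c i : ℝ) : ℂ) • (Sm.ex (m i) : Sm n)) =
              ((∏ i, c i : ℝ) : ℂ) • Sm.ex (∑ i, m i) := by
            have h3 : ∀ S : Finset ι, (∏ i ∈ S, ((c i : ℝ) : ℂ) • (Sm.ex (m i) : Sm n)) =
                ((∏ i ∈ S, c i : ℝ) : ℂ) • Sm.ex (∑ i ∈ S, m i) := by
              intro S
              induction S using Finset.induction_on with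
              | empty => simp [ex_zero]
              | insert j S hj ih =>
                rw [Finset.prod_insert hj, Finset.prod_insert hj, Finset.sum_insert hj, ih,
                  ex_add, smul_mul_smul_comm, Complex.ofReal_mul]
            exact h3 Finset.univ
          rw [h2, hm, ex_zero, Algebra.algebraMap_eq_smul_one]
        · simp [hk]
      · simp [hkl]

end Pool.Agent.PD4
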