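import Pool.Agent.PD4.Ix.TropA
import Pool.Agent.PD4.Ix.TropB

/-!
# Project PD4, index block: the tropical homotopy theorem
-/

open Filter Topology Relation
open scoped ContDiff Matrix

namespace Pool.Agent.PD4

variable {ι : Type*} [Fintype ι] [DecidableEq ι] {n : ℕ}

/-- change of coefficients of a transvection -/
def mapT {R S : Type*} (g : R → S) (T : Matrix.TransvectionStruct ι R) :
    Matrix.TransvectionStruct ι S := ⟨T.i, T.j, T.hij, g T.c⟩

lemma map_list_prod {R S : Type*} [CommRing R] [CommRing S] (g : R →+* S)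
    (L : List (Matrix.TransvectionStruct ι R)) :
    ((L.map Matrix.TransvectionStruct.toMatrix).prod).map g =
      ((L.map (mapT g)).map Matrix.TransvectionStruct.toMatrix).prod := by
  induction L with
  | nil =>
    simp only [List.map_nil, List.prod_nil]
    exact Matrix.map_one _ (map_zero g) (map_one g)
  | cons T L ih =>
    simp only [List.map_cons, List.prod_cons]
    rw [Matrix.map_mul, ih]
    congr 1
    exact map_transvection g (map_zero g) (map_one g) T.hij T.c

lemma map_three {R S : Type*} [CommRing R] [CommRing S] (g : R →+* S)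
    (L L' : List (Matrix.TransvectionStruct ι R)) (D : ι → R) :
    ((L.map Matrix.TransvectionStruct.toMatrix).prod * Matrix.diagonal D *
      (L'.map Matrix.TransvectionStruct.toMatrix).prod).map g =
    ((L.map (mapT g)).map Matrix.TransvectionStruct.toMatrix).prod *
      Matrix.diagonal (fun i => g (D i)) *
      ((L'.map (mapT g)).map Matrix.TransvectionStruct.toMatrix).prod := by
  rw [Matrix.map_mul, Matrix.map_mul, map_list_prod, map_list_prod,
    Matrix.diagonal_map (map_zero g)]

/-- the pivot decomposition at a large radius -/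
theorem trop_factor {v : Fin n → ℝ} (hv : Function.Injective (dotv v))
    (H : Matrix ι ι (Laurent n)) (hd : H.det ≠ 0) :
    ∃ (m : ι → Fin n → ℤ) (c : ι → ℝ) (t : ℝ) (L L' : List (Matrix.TransvectionStruct ι (Sm n)))
      (D : ι → Sm n), (∀ i, c i ≠ 0) ∧
      Lead v (fun t => sev v t H.det) (∑ i, m i) (∏ i, c i) ∧
      (∀ T ∈ L, Sm.IsReal T.c) ∧ (∀ T ∈ L', Sm.IsReal T.c) ∧ (∀ i, Sm.IsReal (D i)) ∧
      (∀ i x, ‖(D i).1 x - ((c i * Real.exp (t * dotv v (m i)) : ℝ) : ℂ) *
        (Sm.ex (m i) : Sm n).1 x‖ < |c i| * Real.exp (t * dotv v (m i))) ∧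
      H.map (sev v t) = (L.map Matrix.TransvectionStruct.toMatrix).prod * Matrix.diagonal D *
        (L'.map Matrix.TransvectionStruct.toMatrix).prod := by
  set K := FractionRing (Laurent n) with hK
  set φ : Laurent n →+* K := algebraMap (Laurent n) K with hφ
  obtain ⟨L, L', D, hM⟩ := Matrix.Pivot.exists_list_transvec_mul_diagonal_mul_list_transvec
    (H.map φ)
  have hdet : φ H.det = ∏ i, D i := by
    have h1 : (H.map φ).det = ∏ i, D i := by
      rw [hM, Matrix.det_mul, Matrix.det_mul, Matrix.TransvectionStruct.det_toMatrix_prod,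
        Matrix.TransvectionStruct.det_toMatrix_prod, Matrix.det_diagonal, one_mul, mul_one]
    rw [← h1]
    exact RingHom.map_det φ H
  have hd0 : φ H.det ≠ 0 := by
    intro h
    exact hd ((IsFractionRing.injective (Laurent n) K) (by rw [map_zero]; exact h))
  have hD0 : ∀ i, D i ≠ 0 := by
    intro i hi
    apply hd0
    rw [hdet]
    exact Finset.prod_eq_zero (Finset.mem_univ i) hi
  choose F hF hFr hFl using gK_rep hv
  choose m c hmc using fun i => hFl (D i) (hD0 i)
  set q : (ℝ → Sm n) →+* Germ (atTop : Filter ℝ) (Sm n) := Germ.coeRingHom atTop with hq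
  have hqF : ∀ d, q (F d) = gK hv d := fun d => (hF d).symm
  set FL : Matrix.TransvectionStruct ι K → Matrix.TransvectionStruct ι (ℝ → Sm n) := mapT F
    with hFL
  set P : Matrix ι ι (ℝ → Sm n) :=
    ((L.map FL).map Matrix.TransvectionStruct.toMatrix).prod *
      Matrix.diagonal (fun i => F (D i)) *
      ((L'.map FL).map Matrix.TransvectionStruct.toMatrix).prod with hP
  have hcomp : ∀ L : List (Matrix.TransvectionStruct ι K),
      (L.map FL).map (mapT q) = L.map (mapT (gK hv)) := by
    intro L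
    rw [List.map_map]
    congr 1
    funext T
    change (⟨T.i, T.j, T.hij, q (F T.c)⟩ : Matrix.TransvectionStruct ι _) =
      ⟨T.i, T.j, T.hij, gK hv T.c⟩
    rw [hqF]
  have hPq : P.map q = (H.map φ).map (gK hv) := by
    rw [hP, hM, map_three, map_three, hcomp, hcomp]
    congr 3
    funext i
    exact hqF _
  have hentry : ∀ i j, ∀ᶠ t in (atTop : Filter ℝ), P i j t = sev v t (H i j) := by
    intro i j
    have h1 : q (P i j) = gK hv (φ (H i j)) := congrFun (congrFun hPq i) j
    rw [gK_algebraMap, gP_apply] at h1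
    exact Germ.coe_eq.mp h1
  have hall : ∀ᶠ t in (atTop : Filter ℝ), ∀ i j, P i j t = sev v t (H i j) := by
    rw [Filter.eventually_all]
    intro i
    rw [Filter.eventually_all]
    exact hentry i
  have hlead : ∀ᶠ t in (atTop : Filter ℝ), ∀ i, ∀ x,
      ‖(F (D i) t).1 x - ((c i * Real.exp (t * dotv v (m i)) : ℝ) : ℂ) *
        (Sm.ex (m i) : Sm n).1 x‖ ≤ |c i| / 2 * Real.exp (t * dotv v (m i)) := by
    rw [Filter.eventually_all]
    intro i
    exact (hmc i).2 (|c i| / 2) (half_pos (abs_pos.2 (hmc i).1))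
  obtain ⟨t, ht1, ht2⟩ := (hall.and hlead).exists
  have hdetL : Lead v (fun t => sev v t H.det) (∑ i, m i) (∏ i, c i) := by
    refine (Lead.prod hmc).congr ?_
    have h1 : q (fun t => ∏ i, F (D i) t) = gK hv (φ H.det) := by
      rw [hdet, map_prod]
      have h2 : (fun t => ∏ i, F (D i) t) = ∏ i, F (D i) := by
        funext t
        rw [Finset.prod_apply]
      rw [h2, map_prod]
      exact Finset.prod_congr rfl fun i _ => hqF _
    rw [gK_algebraMap, gP_apply] at h1
    exact Germ.coe_eq.mp h1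
  refine ⟨m, c, t, L.map (mapT fun d => F d t), L'.map (mapT fun d => F d t),
    fun i => F (D i) t, fun i => (hmc i).1, hdetL, ?_, ?_, fun i => hFr _ t, ?_, ?_⟩
  · intro T hT
    obtain ⟨T', _, rfl⟩ := List.mem_map.1 hT
    exact hFr _ t
  · intro T hT
    obtain ⟨T', _, rfl⟩ := List.mem_map.1 hT
    exact hFr _ t
  · intro i x
    refine (ht2 i x).trans_lt ?_
    apply mul_lt_mul_of_pos_right _ (Real.exp_pos _)
    have := abs_pos.2 (hmc i).1
    linarith
  · have h1 : H.map (sev v t) = P.map (Pi.evalRingHom (fun _ : ℝ => Sm n) t) := by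
      ext1 i j
      exact (ht1 i j).symm
    rw [h1, hP, map_three]
    have h2 : ∀ L : List (Matrix.TransvectionStruct ι K),
        (L.map FL).map (mapT (Pi.evalRingHom (fun _ : ℝ => Sm n) t)) =
          L.map (mapT fun d => F d t) := by
      intro L
      rw [List.map_map]
      rfl
    rw [h2, h2]
    rfl

lemma sev_smul_one (v : Fin n → ℝ) (t : ℝ) : (sev (t • v) 1 : Laurent n →+* Sm n) = sev v t := by
  have h : ∀ m : Fin n → ℤ, 1 * dotv (t • v) m = t * dotv v m := by
    intro m
    unfold dotv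
    rw [one_mul, Finset.mul_sum]
    refine Finset.sum_congr rfl fun i _ => ?_
    rw [Pi.smul_apply, smul_eq_mul]
    ring
  apply AddMonoidAlgebra.ringHom_ext
  · intro r
    rw [sev_single, sev_single, h]
  · intro m
    rw [sev_single, sev_single, h]

/-- changing the radii -/
theorem rpath_sev (v : Fin n → ℝ) (t : ℝ) (H : Matrix ι ι (Laurent n)) (hu : IsUnit H) :
    RPath (H.map lev) (H.map (sev v t)) := by
  obtain ⟨U, rfl⟩ := hu
  set v' := t • v with hv'
  have hm : ∀ s, ((Units.map ((evP v' : Laurent n →+* SmS n).mapMatrix (m := ι)).toMonoidHom U :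
      (Matrix ι ι (SmS n))ˣ) : Matrix ι ι (SmS n)).map (evS s) =
      (U : Matrix ι ι (Laurent n)).map (sev v' s) := by
    intro s
    ext1 i j
    exact evS_evP v' s _
  refine ⟨Units.map ((evP v' : Laurent n →+* SmS n).mapMatrix (m := ι)).toMonoidHom U,
    fun s => ?_, ?_, ?_⟩
  · rw [hm]
    intro i j
    exact sev_real v' s _
  · rw [hm, sev_zero_left]
  · rw [hm, hv', sev_smul_one]

/-- **Tropical homotopy theorem**: a unimodular Laurent matrix whose values on the torus are
hermitian is joined by a chain of Real paths to a real constant matrix. -/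
theorem trop {n : ℕ} (H : Matrix ι ι (Laurent n)) (hu : IsUnit H)
    (hh : (H.map lev).IsHermitian) :
    ∃ C : Matrix ι ι ℝ, C.det ≠ 0 ∧ Relation.EqvGen RPath (H.map lev) (cMat (n := n) C) := by
  obtain ⟨v, hv⟩ := exists_generic n
  obtain ⟨c₀, hc₀, hdet⟩ := det_const H hu hh
  have hd : H.det ≠ 0 := by
    rw [hdet]
    intro h
    exact hc₀ (AddMonoidAlgebra.single_eq_zero.1 h)
  obtain ⟨m, c, t, L, L', D, hc, hlead, hL, hL', hD, hDm, hfac⟩ := trop_factor hv H hd
  rw [hdet] at hlead
  have hm : ∑ i, m i = 0 := (Lead.unique' hlead (lead_single 0 hc₀)).1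
  obtain ⟨C, hC, hpath⟩ := eqv_monomial (n := n)
    (fun i => c i * Real.exp (t * dotv v (m i)))
    (fun i => mul_ne_zero (hc i) (Real.exp_pos _).ne') m hm
  refine ⟨C, hC, ?_⟩
  have hex : ∀ i x, ((c i * Real.exp (t * dotv v (m i)) : ℝ) : ℂ) *
      (Sm.ex (m i) : Sm n).1 x =
      ((((c i * Real.exp (t * dotv v (m i)) : ℝ) : ℂ) • (Sm.ex (m i) : Sm n) : Sm n)).1 x :=
    fun _ _ => rfl
  have hnorm : ∀ i x, ‖((((c i * Real.exp (t * dotv v (m i)) : ℝ) : ℂ) •
      (Sm.ex (m i) : Sm n) : Sm n)).1 x‖ = |c i| * Real.exp (t * dotv v (m i)) := by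
    intro i x
    rw [← hex, norm_mul, ex_norm, mul_one, Complex.norm_real, Real.norm_eq_abs, abs_mul,
      abs_of_pos (Real.exp_pos _)]
  have hDu : ∀ i, IsUnit (D i) := by
    intro i
    apply Sm.isUnit
    intro x h0
    have h1 := hDm i x
    rw [h0, zero_sub, norm_neg, hex, hnorm] at h1
    exact lt_irrefl _ h1
  have h1 := EqvGen.rel _ _ (rpath_sev v t H hu)
  obtain ⟨hLu, hLr, hLe⟩ := eqv_list L hL
  obtain ⟨hLu', hLr', hLe'⟩ := eqv_list L' hL'
  have hDiu : IsUnit (Matrix.diagonal D) := by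
    rw [Matrix.isUnit_diagonal, Pi.isUnit_iff]
    exact hDu
  have h2 : EqvGen RPath (H.map (sev v t)) (Matrix.diagonal D) := by
    rw [hfac]
    have h3 := eqv_mul_right hDiu (mreal_diagonal hD) hLe
    rw [one_mul] at h3
    have h4 := eqv_mul (hLu.mul hDiu) (mreal_mul hLr (mreal_diagonal hD)) isUnit_one tmreal_one
      h3 hLe'
    rw [mul_one] at h4
    exact h4
  have h5 : RPath (Matrix.diagonal D) (Matrix.diagonal fun i =>
      (((c i * Real.exp (t * dotv v (m i)) : ℝ) : ℂ) • (Sm.ex (m i) : Sm n))) := by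
    refine rpath_diagonal hD (fun i => isReal_smul _ (ex_real _)) fun i x => ?_
    rw [hnorm, ← hex]
    exact hDm i x
  exact EqvGen.trans _ _ _ h1 (EqvGen.trans _ _ _ h2 (EqvGen.trans _ _ _ (EqvGen.rel _ _ h5) hpath))

end Pool.Agent.PD4
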