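import Pool.Agent.PD4.Ix.ParityA
import Pool.Agent.PD4.Ix.RPathC
import Pool.Agent.PD4.Ix.ChSym
import Pool.Agent.PD4.Lau
import Pool.Agent.PD4.Ix.Trop

/-!
# Project PD4, index block: the parity theorem

For a hermitian unimodular matrix `H` over the real Laurent polynomials in `2k` variables,
`k` even, the Chern number `ch_k` of its negative spectral projection is an even integer.
-/

open scoped ContDiff Matrix

namespace Pool.Agent.PD4

variable {ι : Type*} [Fintype ι] [DecidableEq ι]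

/-- **PARITY THEOREM** -/
theorem parity (k : ℕ) (hk : Even k) (hk0 : k ≠ 0) (H : Matrix ι ι (Laurent (2 * k)))
    (hu : IsUnit H) (hh : (H.map lev)ᴴ = H.map lev) (hu' : IsUnit (H.map lev)) :
    ∃ z : ℤ, evenCh k (negProj (H.map lev) hh hu') = 2 * z := by
  set M := H.map lev with hM
  set p := negProj M hh hu' with hp
  have hpi : p * p = p := negProj_idem M hh hu'
  have hMr : MReal M := MReal_lev H
  obtain ⟨C, hC, hchain⟩ := trop H hu hh
  -- the Real path from `1 - 2p` to the constant matrix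
  have h12 : RPath (1 - (2 : ℂ) • p) (cMat (n := 2 * k) C) := by
    have hinv : (1 - (2 : ℂ) • p) * (1 - (2 : ℂ) • p) = 1 := by
      rw [Matrix.sub_mul, Matrix.mul_sub, Matrix.mul_sub, Matrix.one_mul, Matrix.mul_one,
        Matrix.one_mul, Matrix.smul_mul, Matrix.mul_smul, hpi, smul_smul]
      have : (2 : ℂ) * 2 = 2 + 2 := by norm_num
      rw [this, add_smul]; abel
    have hr : MReal (1 - (2 : ℂ) • p) := by
      obtain ⟨G, hG, hG0, -⟩ := rpath_negProj M hh hu' hMr
      rw [← hp] at hG0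
      rw [← hG0]; exact hG 0
    exact RPath.eqvGen ⟨⟨_, _, hinv, hinv⟩, rfl⟩ hr
      ((Relation.EqvGen.rel _ _ (rpath_negProj M hh hu' hMr)).trans _ _ _ hchain)
  obtain ⟨G₂, hG₂r, hG₂0, hG₂1⟩ := h12
  obtain ⟨G₃, hG₃c, hG₃0, hG₃1⟩ := const_path (n := 2 * k) C hC
  have key : ∀ (G G' : (Matrix ι ι (SmS (2 * k)))ˣ),
      (G : Matrix ι ι (SmS (2 * k))).map (evS 1) = (G' : Matrix ι ι (SmS (2 * k))).map (evS 0) →
      evU 1 G = evU 0 G' := fun G G' h => Units.ext h
  have hsum := chain_integrality k 3 ![halfU p hpi, G₂, G₃] (by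
    intro i
    fin_cases i
    · exact key (halfU p hpi) G₂ ((halfU_one p hpi).trans hG₂0.symm)
    · exact key G₂ G₃ (hG₂1.trans hG₃0.symm)
    · exact key G₃ (halfU p hpi) (hG₃1.trans (halfU_zero p hpi).symm))
  obtain ⟨z, hz⟩ := hsum
  rw [Fin.sum_univ_three] at hz
  simp only [Matrix.cons_val_zero, Matrix.cons_val_one, Matrix.cons_val_two, Matrix.head_cons,
    Matrix.tail_cons] at hz
  have h1 : pathInt k (halfU p hpi) = (-1) ^ k / 2 * evenCh k p :=
    pathInt_half k p hpi _ rfl
  have h3 : pathInt k G₃ = 0 := pathInt_const k hk0 G₃ hG₃c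
  have h2 : (pathInt k G₂).re = 0 := pathInt_real k hk G₂ hG₂r
  have hr : (evenCh k p).im = 0 :=
    Complex.conj_eq_iff_im.mp (evenCh_herm k (negProj_herm M hh hu'))
  rw [h1, h3, hk.neg_one_pow, add_zero] at hz
  refine ⟨z, ?_⟩
  have hz' := congrArg Complex.re hz
  rw [Complex.add_re, h2, add_zero, Complex.intCast_re] at hz'
  have h4 : (1 / 2 * evenCh k p).re = 1 / 2 * (evenCh k p).re := by
    rw [Complex.mul_re, hr]; norm_num
  rw [h4] at hz'
  apply Complex.ext
  · rw [Complex.mul_re]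
    simp
    linarith
  · rw [hr, Complex.mul_im]
    simp

end Pool.Agent.PD4
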