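import Pool.Agent.PD4.Ix.DGT

/-!
# Project PD, index block: noncommutative calculus on `ℂ`-algebras with commuting derivations

`Calc R n`: `n` commuting derivations of a `ℂ`-algebra `R` and a trace vanishing on
derivatives.  `Calc.dgt : DGT (R ⊗ Λ(ℂⁿ))` is the associated differential graded trace.
-/

open TensorProduct

namespace Pool.Agent.PD4

/-- commuting derivations and an invariant trace -/
structure Calc (R : Type*) [Ring R] [Algebra ℂ R] (n : ℕ) where
  D : Fin n → R →ₗ[ℂ] R
  leib : ∀ i a b, D i (a * b) = D i a * b + a * D i b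
  comm : ∀ i j a, D i (D j a) = D j (D i a)
  tr : R →ₗ[ℂ] ℂ
  tr_comm : ∀ a b, tr (a * b) = tr (b * a)
  tr_D : ∀ i a, tr (D i a) = 0

/-- the Grassmann algebra on `n` generators -/
abbrev Ext (n : ℕ) := ExteriorAlgebra ℂ (Fin n → ℂ)

/-- the generator `dx_i` -/
noncomputable def dx {n : ℕ} (i : Fin n) : Ext n := ExteriorAlgebra.ι ℂ (Pi.single i 1)

/-- parity of the Grassmann algebra -/
noncomputable def gr (n : ℕ) : Ext n →ₐ[ℂ] Ext n := CliffordAlgebra.involute

/-- the top coefficient (Berezin integral): `dx_0 dx_1 ⋯ dx_{n-1} ↦ 1` -/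
noncomputable def topc (n : ℕ) : Ext n →ₗ[ℂ] ℂ :=
  ExteriorAlgebra.liftAlternating (R := ℂ) (M := Fin n → ℂ) (N := ℂ)
    (fun i => if h : i = n then h ▸ (Pi.basisFun ℂ (Fin n)).det else 0)

lemma dx_mul_self {n : ℕ} (i : Fin n) : dx i * dx i = 0 := ExteriorAlgebra.ι_sq_zero _

lemma dx_mul_swap {n : ℕ} (i j : Fin n) : dx i * dx j = - (dx j * dx i) :=
  eq_neg_of_add_eq_zero_left (ExteriorAlgebra.ι_add_mul_swap _ _)

lemma gr_dx {n : ℕ} (i : Fin n) : gr n (dx i) = - dx i := CliffordAlgebra.involute_ι _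

lemma gr_gr {n : ℕ} (x : Ext n) : gr n (gr n x) = x := CliffordAlgebra.involute_involute x

/-- `v x = γ(x) v` for a vector `v` -/
lemma iota_mul {n : ℕ} (v : Fin n → ℂ) (x : Ext n) :
    ExteriorAlgebra.ι ℂ v * x = gr n x * ExteriorAlgebra.ι ℂ v := by
  induction x using ExteriorAlgebra.induction with
  | algebraMap r => rw [AlgHom.commutes, Algebra.commutes]
  | ι w =>
    have h : gr n (ExteriorAlgebra.ι ℂ w) = - ExteriorAlgebra.ι ℂ w :=
      CliffordAlgebra.involute_ι _
    rw [h, neg_mul]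
    exact eq_neg_of_add_eq_zero_left (ExteriorAlgebra.ι_add_mul_swap _ _)
  | mul a b ha hb => rw [← mul_assoc, ha, mul_assoc, hb, ← mul_assoc, map_mul]
  | add a b ha hb => rw [mul_add, ha, hb, map_add, add_mul]

/-- `dx_i x = γ(x) dx_i` -/
lemma dx_mul {n : ℕ} (i : Fin n) (x : Ext n) : dx i * x = gr n x * dx i := iota_mul _ x

/-- graded commutativity: `x y = γ(y) x` for odd `x` -/
lemma odd_mul {n : ℕ} (x y : Ext n) (hx : gr n x = -x) : x * y = gr n y * x := by
  induction y using ExteriorAlgebra.induction with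
  | algebraMap r => rw [AlgHom.commutes, Algebra.commutes]
  | ι w =>
    have h : gr n (ExteriorAlgebra.ι ℂ w) = - ExteriorAlgebra.ι ℂ w :=
      CliffordAlgebra.involute_ι _
    rw [h, neg_mul, iota_mul, hx, neg_mul, neg_neg]
  | mul a b ha hb => rw [← mul_assoc, ha, mul_assoc, hb, ← mul_assoc, map_mul]
  | add a b ha hb => rw [mul_add, ha, hb, map_add, add_mul]

/-- graded commutativity: even elements are central -/
lemma even_mul {n : ℕ} (x y : Ext n) (hx : gr n x = x) : x * y = y * x := by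
  induction y using ExteriorAlgebra.induction with
  | algebraMap r => rw [Algebra.commutes]
  | ι w => rw [iota_mul, hx]
  | mul a b ha hb => rw [← mul_assoc, ha, mul_assoc, hb, ← mul_assoc]
  | add a b ha hb => rw [mul_add, ha, hb, add_mul]

/-- the top coefficient of a product of one-forms -/
lemma topc_prod {n : ℕ} (v : Fin n → (Fin n → ℂ)) :
    topc n (ExteriorAlgebra.ιMulti ℂ n v) = (Pi.basisFun ℂ (Fin n)).det v := by
  unfold topc
  rw [ExteriorAlgebra.liftAlternating_apply_ιMulti]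
  simp

section

variable {R : Type*} [Ring R] [Algebra ℂ R] {n : ℕ} (C : Calc R n)

/-- forms with coefficients in `R` -/
abbrev Om (R : Type*) [Ring R] [Algebra ℂ R] (n : ℕ) := R ⊗[ℂ] Ext n

/-- induction on forms -/
lemma Om.ind {motive : Om R n → Prop} (w : Om R n) (zero : motive 0)
    (tmul : ∀ (a : R) (x : Ext n), motive (a ⊗ₜ[ℂ] x))
    (add : ∀ a b, motive a → motive b → motive (a + b)) : motive w :=
  TensorProduct.induction_on w zero tmul add

/-- a derivation of `R` acting on forms -/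
noncomputable def liftD (δ : R →ₗ[ℂ] R) : Om R n →ₗ[ℂ] Om R n := LinearMap.rTensor (Ext n) δ

/-- the exterior derivative -/
noncomputable def Calc.dd : Om R n →ₗ[ℂ] Om R n :=
  ∑ i, (LinearMap.mulLeft ℂ ((1 : R) ⊗ₜ[ℂ] dx i)) ∘ₗ liftD (C.D i)

/-- parity on forms -/
noncomputable def grO : Om R n →ₐ[ℂ] Om R n := Algebra.TensorProduct.map (AlgHom.id ℂ R) (gr n)

/-- the graded trace on forms -/
noncomputable def Calc.TT : Om R n →ₗ[ℂ] ℂ :=
  (LinearMap.mul' ℂ ℂ) ∘ₗ (TensorProduct.map C.tr (topc n))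

@[simp] lemma liftD_tmul (δ : R →ₗ[ℂ] R) (a : R) (x : Ext n) :
    (liftD δ : Om R n →ₗ[ℂ] Om R n) (a ⊗ₜ[ℂ] x) = δ a ⊗ₜ[ℂ] x := rfl

lemma Calc.dd_tmul (a : R) (x : Ext n) :
    C.dd (a ⊗ₜ[ℂ] x) = ∑ i, C.D i a ⊗ₜ[ℂ] (dx i * x) := by
  unfold Calc.dd
  rw [LinearMap.sum_apply]
  refine Finset.sum_congr rfl fun i _ => ?_
  simp

@[simp] lemma grO_tmul (a : R) (x : Ext n) :
    (grO : Om R n →ₐ[ℂ] Om R n) (a ⊗ₜ[ℂ] x) = a ⊗ₜ[ℂ] gr n x := rfl

@[simp] lemma Calc.TT_tmul (a : R) (x : Ext n) : C.TT (a ⊗ₜ[ℂ] x) = C.tr a * topc n x := rfl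

lemma grO_grO (w : Om R n) : grO (grO w) = w := by
  induction w using Om.ind with
  | zero => simp
  | add a b ha hb => rw [map_add, map_add, ha, hb]
  | tmul a x => simp [gr_gr]

lemma Calc.grO_dd (w : Om R n) : grO (C.dd w) = - C.dd (grO w) := by
  induction w using Om.ind with
  | zero => simp
  | add a b ha hb => rw [map_add, map_add, ha, hb, map_add, map_add, neg_add]
  | tmul a x =>
    rw [C.dd_tmul, map_sum, grO_tmul, C.dd_tmul, ← Finset.sum_neg_distrib]
    refine Finset.sum_congr rfl fun i _ => ?_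
    rw [grO_tmul, map_mul, gr_dx, neg_mul, TensorProduct.tmul_neg]

lemma Calc.dd_mul (v w : Om R n) : C.dd (v * w) = C.dd v * w + grO v * C.dd w := by
  induction v using Om.ind with
  | zero => simp
  | add a b ha hb => simp only [add_mul, map_add, ha, hb]; abel
  | tmul a x =>
    induction w using Om.ind with
    | zero => simp
    | add c d hc hd => simp only [mul_add, map_add, hc, hd]; abel
    | tmul b y =>
      rw [Algebra.TensorProduct.tmul_mul_tmul, C.dd_tmul, C.dd_tmul, C.dd_tmul, grO_tmul,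
        Finset.sum_mul, Finset.mul_sum, ← Finset.sum_add_distrib]
      refine Finset.sum_congr rfl fun i _ => ?_
      rw [Algebra.TensorProduct.tmul_mul_tmul, Algebra.TensorProduct.tmul_mul_tmul, C.leib,
        TensorProduct.add_tmul, ← mul_assoc (gr n x), ← dx_mul, mul_assoc]

lemma Calc.dd_dd (w : Om R n) : C.dd (C.dd w) = 0 := by
  induction w using Om.ind with
  | zero => simp
  | add a b ha hb => rw [map_add, map_add, ha, hb, add_zero]
  | tmul a x =>
    rw [C.dd_tmul, map_sum]
    simp only [C.dd_tmul]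
    have h : ∑ i, ∑ j, C.D j (C.D i a) ⊗ₜ[ℂ] (dx j * (dx i * x)) =
        - ∑ i, ∑ j, C.D j (C.D i a) ⊗ₜ[ℂ] (dx j * (dx i * x)) := by
      conv_lhs => rw [Finset.sum_comm]
      rw [← Finset.sum_neg_distrib]
      refine Finset.sum_congr rfl fun i _ => ?_
      rw [← Finset.sum_neg_distrib]
      refine Finset.sum_congr rfl fun j _ => ?_
      rw [C.comm i j, ← mul_assoc, dx_mul_swap i j, neg_mul, TensorProduct.tmul_neg, mul_assoc]
    have h2 : (2 : ℂ) • ∑ i, ∑ j, C.D j (C.D i a) ⊗ₜ[ℂ] (dx j * (dx i * x)) = 0 := by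
      rw [two_smul]
      nth_rewrite 1 [h]
      exact neg_add_cancel _
    have h3 := congrArg (fun w => ((2 : ℂ)⁻¹) • w) h2
    simpa [smul_smul] using h3

lemma Calc.TT_dd (w : Om R n) : C.TT (C.dd w) = 0 := by
  induction w using Om.ind with
  | zero => simp
  | add a b ha hb => rw [map_add, map_add, ha, hb, add_zero]
  | tmul a x =>
    rw [C.dd_tmul, map_sum]
    refine Finset.sum_eq_zero fun i _ => ?_
    rw [C.TT_tmul, C.tr_D, zero_mul]

lemma Calc.TT_odd_aux (v w : Om R n) :
    C.TT ((v - grO v) * w) = C.TT (grO w * (v - grO v)) := by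
  induction v using Om.ind with
  | zero => simp
  | add a b ha hb =>
    have e : a + b - grO (a + b) = (a - grO a) + (b - grO b) := by rw [map_add]; abel
    rw [e, add_mul, mul_add, map_add, map_add, ha, hb]
  | tmul a x =>
    induction w using Om.ind with
    | zero => simp
    | add c d hc hd => rw [mul_add, map_add, hc, hd, map_add, add_mul, map_add]
    | tmul b y =>
      rw [grO_tmul, grO_tmul, ← TensorProduct.tmul_sub, Algebra.TensorProduct.tmul_mul_tmul,
        Algebra.TensorProduct.tmul_mul_tmul, C.TT_tmul, C.TT_tmul, C.tr_comm a b]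
      rw [odd_mul (x - gr n x) y (by rw [map_sub, gr_gr]; abel)]

lemma Calc.TT_even_aux (v w : Om R n) :
    C.TT ((v + grO v) * w) = C.TT (w * (v + grO v)) := by
  induction v using Om.ind with
  | zero => simp
  | add a b ha hb =>
    have e : a + b + grO (a + b) = (a + grO a) + (b + grO b) := by rw [map_add]; abel
    rw [e, add_mul, mul_add, map_add, map_add, ha, hb]
  | tmul a x =>
    induction w using Om.ind with
    | zero => simp
    | add c d hc hd => rw [mul_add, map_add, hc, hd, add_mul, map_add]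
    | tmul b y =>
      rw [grO_tmul, ← TensorProduct.tmul_add, Algebra.TensorProduct.tmul_mul_tmul,
        Algebra.TensorProduct.tmul_mul_tmul, C.TT_tmul, C.TT_tmul, C.tr_comm a b]
      rw [even_mul (x + gr n x) y (by rw [map_add, gr_gr]; abel)]

/-- the differential graded trace of a calculus -/
noncomputable def Calc.dgt : DGT (Om R n) where
  γ := grO
  d := C.dd
  T := C.TT
  γγ := grO_grO
  γd := C.grO_dd
  leib := C.dd_mul
  dd := C.dd_dd
  Td := C.TT_dd
  tr_odd := by
    intro a b ha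
    have h := C.TT_odd_aux a b
    have e : a - grO a = (2 : ℂ) • a := by rw [ha]; module
    rw [e, smul_mul_assoc, mul_smul_comm, map_smul, map_smul] at h
    simpa using h
  tr_even := by
    intro a b ha
    have h := C.TT_even_aux a b
    have e : a + grO a = (2 : ℂ) • a := by rw [ha]; module
    rw [e, smul_mul_assoc, mul_smul_comm, map_smul, map_smul] at h
    simpa using h

/-- an additional derivation of `R` commuting with the `D i` gives an even derivation -/
noncomputable def Calc.evenDer (δ : R →ₗ[ℂ] R) (hδ : ∀ a b, δ (a * b) = δ a * b + a * δ b)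
    (hc : ∀ i a, C.D i (δ a) = δ (C.D i a)) : C.dgt.EvenDer where
  D := liftD δ
  leib := by
    intro v w
    induction v using Om.ind with
    | zero => simp
    | add a b ha hb => simp only [add_mul, map_add, ha, hb]; abel
    | tmul a x =>
      induction w using Om.ind with
      | zero => simp
      | add c d hc hd => simp only [mul_add, map_add, hc, hd]; abel
      | tmul b y =>
        rw [Algebra.TensorProduct.tmul_mul_tmul, liftD_tmul, liftD_tmul, liftD_tmul,
          Algebra.TensorProduct.tmul_mul_tmul, Algebra.TensorProduct.tmul_mul_tmul, hδ,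
          TensorProduct.add_tmul]
  γD := by
    intro w
    show grO (liftD δ w) = liftD δ (grO w)
    induction w using Om.ind with
    | zero => simp
    | add a b ha hb => simp only [map_add, ha, hb]
    | tmul a x => simp
  dD := by
    intro w
    show C.dd (liftD δ w) = liftD δ (C.dd w)
    induction w using Om.ind with
    | zero => simp
    | add a b ha hb => simp only [map_add, ha, hb]
    | tmul a x =>
      rw [liftD_tmul, C.dd_tmul, C.dd_tmul, map_sum]
      refine Finset.sum_congr rfl fun i _ => ?_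
      rw [liftD_tmul, hc]

/-- the odd Chern integrand `T ((G⁻¹ dG)^n)`, an element of `ℂ` -/
noncomputable def Calc.oddT (G : Rˣ) : ℂ :=
  C.TT ((((G⁻¹ : Rˣ) : R) ⊗ₜ[ℂ] (1 : Ext n) * C.dd ((G : R) ⊗ₜ[ℂ] (1 : Ext n))) ^ n)

/-- the even Chern integrand `T (e (de)^n)` (`n` even) -/
noncomputable def Calc.evenT (e : R) : ℂ :=
  C.TT ((e ⊗ₜ[ℂ] (1 : Ext n)) * C.dd (e ⊗ₜ[ℂ] (1 : Ext n)) ^ n)

/-- power of a one-form -/
lemma oneForm_pow (a : Fin n → R) (m : ℕ) :
    (∑ i, a i ⊗ₜ[ℂ] (dx i : Ext n)) ^ m =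
      ∑ f : Fin m → Fin n, (List.ofFn fun j => a (f j)).prod ⊗ₜ[ℂ]
        ((List.ofFn fun j => (dx (f j) : Ext n)).prod) := by
  induction m with
  | zero => simp [Algebra.TensorProduct.one_def]
  | succ m ih =>
    rw [pow_succ', ih, Finset.sum_mul_sum, ← Finset.sum_product',
      ← (Fin.consEquiv fun _ : Fin (m + 1) => Fin n).sum_comp]
    refine Finset.sum_congr rfl fun p _ => ?_
    rw [Algebra.TensorProduct.tmul_mul_tmul]
    simp [Fin.consEquiv, List.ofFn_succ]

/-- top coefficient of a product of generators -/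
lemma topc_list (f : Fin n → Fin n) :
    topc n ((List.ofFn fun j => (dx (f j) : Ext n)).prod) =
      (Pi.basisFun ℂ (Fin n)).det (fun j => Pi.single (f j) (1 : ℂ)) := by
  rw [← topc_prod, ExteriorAlgebra.ιMulti_apply]
  rfl

lemma topc_perm (σ : Equiv.Perm (Fin n)) :
    topc n ((List.ofFn fun j => (dx (σ j) : Ext n)).prod) =
      ((Equiv.Perm.sign σ : ℤ) : ℂ) := by
  rw [topc_list]
  have h := (Pi.basisFun ℂ (Fin n)).det.map_perm (fun j => Pi.single j (1 : ℂ)) σ
  have h2 : ((fun j : Fin n => (Pi.single j (1 : ℂ) : Fin n → ℂ)) ∘ σ) =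
      fun j => Pi.single (σ j) (1 : ℂ) := rfl
  rw [h2] at h
  rw [h]
  have h3 : (fun j : Fin n => (Pi.single j (1 : ℂ) : Fin n → ℂ)) = Pi.basisFun ℂ (Fin n) := by
    funext j
    simp
  rw [h3, Module.Basis.det_self, Units.smul_def]
  simp

lemma topc_not_inj (f : Fin n → Fin n) (hf : ¬ Function.Injective f) :
    topc n ((List.ofFn fun j => (dx (f j) : Ext n)).prod) = 0 := by
  rw [topc_list]
  unfold Function.Injective at hf
  push Not at hf
  obtain ⟨i, j, hij, hne⟩ := hf
  exact (Pi.basisFun ℂ (Fin n)).det.map_eq_zero_of_eq _ (by simp only [hij]) hne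

/-- the trace of `b ω₁ ⋯ ωₙ` with `ω = ∑ a_i dx_i` -/
lemma Calc.TT_pow (b : R) (a : Fin n → R) :
    C.TT (b ⊗ₜ[ℂ] (1 : Ext n) * (∑ i, a i ⊗ₜ[ℂ] (dx i : Ext n)) ^ n) =
      ∑ σ : Equiv.Perm (Fin n), ((Equiv.Perm.sign σ : ℤ) : ℂ) *
        C.tr (b * (List.ofFn fun j : Fin n => a (σ j)).prod) := by
  rw [oneForm_pow, Finset.mul_sum, map_sum]
  have h1 : ∀ f : Fin n → Fin n, C.TT (b ⊗ₜ[ℂ] (1 : Ext n) *
      (List.ofFn fun j => a (f j)).prod ⊗ₜ[ℂ] ((List.ofFn fun j => (dx (f j) : Ext n)).prod))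
      = topc n ((List.ofFn fun j => (dx (f j) : Ext n)).prod) *
        C.tr (b * (List.ofFn fun j => a (f j)).prod) := by
    intro f
    rw [Algebra.TensorProduct.tmul_mul_tmul, C.TT_tmul, one_mul, mul_comm]
  simp only [h1]
  have h2 : ∑ σ : Equiv.Perm (Fin n), ((Equiv.Perm.sign σ : ℤ) : ℂ) *
        C.tr (b * (List.ofFn fun j : Fin n => a (σ j)).prod) =
      ∑ σ : Equiv.Perm (Fin n), (fun f : Fin n → Fin n =>
        topc n ((List.ofFn fun j => (dx (f j) : Ext n)).prod) *
          C.tr (b * (List.ofFn fun j => a (f j)).prod)) σ := by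
    refine Finset.sum_congr rfl fun σ _ => ?_
    simp only
    rw [topc_perm]
  rw [h2]
  symm
  apply Fintype.sum_of_injective (fun σ : Equiv.Perm (Fin n) => (σ : Fin n → Fin n))
  · exact DFunLike.coe_injective
  · intro f hf
    rw [topc_not_inj, zero_mul]
    intro hinj
    exact hf ⟨Equiv.ofBijective f (Finite.injective_iff_bijective.mp hinj), rfl⟩
  · intro σ
    rfl

/-- the odd Chern integrand as a signed sum over permutations -/
theorem Calc.oddT_eq (G : Rˣ) : C.oddT G =
    ∑ σ : Equiv.Perm (Fin n), ((Equiv.Perm.sign σ : ℤ) : ℂ) *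
      C.tr ((List.ofFn fun j : Fin n => (((G⁻¹ : Rˣ) : R) * C.D (σ j) (G : R))).prod) := by
  unfold Calc.oddT
  have h := C.TT_pow 1 (fun i => ((G⁻¹ : Rˣ) : R) * C.D i (G : R))
  simp only [one_mul] at h
  rw [← h, C.dd_tmul, Finset.mul_sum]
  congr 1
  rw [← Algebra.TensorProduct.one_def, one_mul]
  congr 1
  refine Finset.sum_congr rfl fun i _ => ?_
  rw [Algebra.TensorProduct.tmul_mul_tmul, one_mul, mul_one]

/-- the even Chern integrand as a signed sum over permutations -/
theorem Calc.evenT_eq (e : R) : C.evenT e =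
    ∑ σ : Equiv.Perm (Fin n), ((Equiv.Perm.sign σ : ℤ) : ℂ) *
      C.tr (e * (List.ofFn fun j : Fin n => C.D (σ j) e).prod) := by
  unfold Calc.evenT
  rw [← C.TT_pow e (fun i => C.D i e), C.dd_tmul]
  simp only [mul_one]

end

end Pool.Agent.PD4
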