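import Pool.Agent.PD4.Ix.Path

/-!
# Project PD4, index block: concatenation of paths, closed paths as functions on the torus

* `stp`: a smooth step function, `0` for `s ≤ 1/3`, `1` for `s ≥ 2/3`.
* `catS f g`: concatenation of two paths (if `evS 1 f = evS 0 g`); `catU`: for units of matrices.
* `revU`: the reversed path.
* `loopS f`: a closed path as a function on `T^{n+1}` (variable `0` = loop variable); `loopU`.
* `slS F`: a function on `T^{n+1}` as a path (variable `0` = parameter); `slU`.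
-/

open MeasureTheory
open scoped ContDiff TensorProduct

namespace Pool.Agent.PD4

/-- a smooth step function: `0` for `s ≤ 1/3`, `1` for `s ≥ 2/3` -/
noncomputable def stp (s : ℝ) : ℝ := Real.smoothTransition (3 * s - 1)

lemma stp_contDiff : ContDiff ℝ ∞ stp :=
  Real.smoothTransition.contDiff.comp ((contDiff_const.mul contDiff_id).sub contDiff_const)

lemma stp_left {s : ℝ} (h : s ≤ 1 / 3) : stp s = 0 :=
  Real.smoothTransition.zero_of_nonpos (by linarith)

lemma stp_right {s : ℝ} (h : 2 / 3 ≤ s) : stp s = 1 :=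
  Real.smoothTransition.one_of_one_le (by linarith)

@[simp] lemma stp_zero : stp 0 = 0 := stp_left (by norm_num)

@[simp] lemma stp_one : stp 1 = 1 := stp_right (by norm_num)

lemma stp_mul_contDiff (a b : ℝ) : ContDiff ℝ ∞ (fun s => stp (a * s + b)) :=
  stp_contDiff.comp ((contDiff_const.mul contDiff_id).add contDiff_const)

lemma stp_deriv_left {s : ℝ} (h : s < 1 / 3) : deriv stp s = 0 := by
  have h1 : stp =ᶠ[nhds s] fun _ => 0 := by
    filter_upwards [Iio_mem_nhds h] with t ht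
    exact stp_left (le_of_lt ht)
  rw [h1.deriv_eq, deriv_const]

lemma stp_deriv_right {s : ℝ} (h : 2 / 3 < s) : deriv stp s = 0 := by
  have h1 : stp =ᶠ[nhds s] fun _ => 1 := by
    filter_upwards [Ioi_mem_nhds h] with t ht
    exact stp_right (le_of_lt ht)
  rw [h1.deriv_eq, deriv_const]

section Scalar

variable {n : ℕ}

/-- two paths with equal values at each time are equal -/
lemma SmS.ext_ev {f g : SmS n} (h : ∀ s, evS s f = evS s g) : f = g := by
  apply Subtype.ext; funext p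
  exact congrArg (fun u : Sm n => u.1 p.2) (h p.1)

/-- concatenation of paths -/
noncomputable def catS (f g : SmS n) : SmS n :=
  reparS (fun s => stp (2 * s + 0)) (stp_mul_contDiff 2 0) f +
    reparS (fun s => stp (2 * s + (-1))) (stp_mul_contDiff 2 (-1)) g - cS (evS 1 f)

lemma evS_catS (f g : SmS n) (s : ℝ) :
    evS s (catS f g) = evS (stp (2 * s)) f + evS (stp (2 * s - 1)) g - evS 1 f := by
  simp only [catS, map_sub, map_add, evS_reparS, evS_cS, add_zero, ← sub_eq_add_neg]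

lemma evS_catS_left (f g : SmS n) (h : evS 1 f = evS 0 g) {s : ℝ} (hs : s ≤ 2 / 3) :
    evS s (catS f g) = evS (stp (2 * s)) f := by
  rw [evS_catS, stp_left (s := 2 * s - 1) (by linarith), h]; abel

lemma evS_catS_right (f g : SmS n) {s : ℝ} (hs : 1 / 3 ≤ s) :
    evS s (catS f g) = evS (stp (2 * s - 1)) g := by
  rw [evS_catS, stp_right (s := 2 * s) (by linarith)]; abel

lemma evS_pDs_catS (f g : SmS n) (s : ℝ) :
    evS s (pDs (catS f g)) =
      ((2 * deriv stp (2 * s) : ℝ) : ℂ) • evS (stp (2 * s)) (pDs f) +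
      ((2 * deriv stp (2 * s - 1) : ℝ) : ℂ) • evS (stp (2 * s - 1)) (pDs g) := by
  have hd : ∀ b : ℝ, deriv (fun s => stp (2 * s + b)) s = 2 * deriv stp (2 * s + b) := by
    intro b
    have h1 : HasDerivAt stp (deriv stp (2 * s + b)) (2 * s + b) :=
      (stp_contDiff.differentiable (by simp) _).hasDerivAt
    have h2 : HasDerivAt (fun s : ℝ => 2 * s + b) 2 s := by
      simpa using ((hasDerivAt_id s).const_mul 2).add_const b
    have h3 := (h1.comp s h2).deriv
    change deriv (fun s => stp (2 * s + b)) s = _ at h3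
    rw [h3]; ring
  have h0 := hd 0
  have h1 := hd (-1)
  simp only [add_zero, ← sub_eq_add_neg] at h0 h1
  simp only [catS, map_sub, map_add, pDs_cS, pDs_reparS, sub_zero, add_zero,
    ← sub_eq_add_neg, h0, h1]

/-- the function on the torus defined by a closed path -/
noncomputable def loopFun (f : SmS n) (y : Fin (n + 1) → ℝ) : ℂ :=
  f.1 (stp (Int.fract (y 0)), fun i => y i.succ)

lemma loopFun_eq (f : SmS n) (h : evS 1 f = evS 0 f) (j : ℤ) (y : Fin (n + 1) → ℝ)
    (hy : |y 0 - j| < 1) :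
    loopFun f y = f.1 (stp (y 0 - j), fun i => y i.succ) +
      f.1 (stp (y 0 - j + 1), fun i => y i.succ) - f.1 (1, fun i => y i.succ) := by
  have h01 : ∀ x, f.1 (1, x) = f.1 (0, x) := fun x => congrArg (fun u : Sm n => u.1 x) h
  rw [abs_lt] at hy
  rcases le_or_gt (j : ℝ) (y 0) with h1 | h1
  · have e : Int.fract (y 0) = y 0 - j := by
      rw [Int.fract_eq_iff]
      exact ⟨by linarith, by linarith, j, by ring⟩
    rw [loopFun, e, stp_right (s := y 0 - j + 1) (by linarith)]
    ring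
  · have e : Int.fract (y 0) = y 0 - j + 1 := by
      rw [Int.fract_eq_iff]
      exact ⟨by linarith, by linarith, j - 1, by push_cast; ring⟩
    rw [loopFun, e, stp_left (s := y 0 - j) (by linarith), h01]
    ring

lemma tail_contDiff : ContDiff ℝ ∞ (fun (y : Fin (n + 1) → ℝ) (i : Fin n) => y i.succ) :=
  contDiff_pi.2 fun i => contDiff_apply ℝ ℝ i.succ

/-- a closed path as a function on `T^{n+1}`, loop variable first -/
noncomputable def loopS (f : SmS n) (h : evS 1 f = evS 0 f) : Sm (n + 1) :=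
  ⟨loopFun f, by
    constructor
    · rw [contDiff_iff_contDiffAt]
      intro y
      have hsm : ContDiff ℝ ∞ (fun z : Fin (n + 1) → ℝ =>
          f.1 (stp (z 0 - (round (y 0) : ℤ)), fun i => z i.succ) +
          f.1 (stp (z 0 - (round (y 0) : ℤ) + 1), fun i => z i.succ) -
          f.1 (1, fun i => z i.succ)) := by
        have h0 : ContDiff ℝ ∞ (fun z : Fin (n + 1) → ℝ => z 0) := contDiff_apply ℝ ℝ 0
        refine ((((SmS.cd f).comp ?_).add ((SmS.cd f).comp ?_)).sub ((SmS.cd f).comp ?_))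
        · exact (stp_contDiff.comp (h0.sub contDiff_const)).prodMk tail_contDiff
        · exact (stp_contDiff.comp ((h0.sub contDiff_const).add contDiff_const)).prodMk
            tail_contDiff
        · exact contDiff_const.prodMk tail_contDiff
      refine hsm.contDiffAt.congr_of_eventuallyEq ?_
      have hc : Continuous (fun z : Fin (n + 1) → ℝ => |z 0 - (round (y 0) : ℤ)|) := by
        fun_prop
      have hlt : |y 0 - (round (y 0) : ℤ)| < 1 :=
        lt_of_le_of_lt (abs_sub_round (y 0)) (by norm_num)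
      filter_upwards [hc.continuousAt.eventually (gt_mem_nhds hlt)] with z hz
      exact loopFun_eq f h _ z hz
    · intro y i
      refine Fin.cases ?_ (fun i => ?_) i
      · have e1 : (y + Pi.single 0 1 : Fin (n + 1) → ℝ) 0 = y 0 + 1 := by simp
        have e2 : (fun i : Fin n => (y + Pi.single 0 1 : Fin (n + 1) → ℝ) i.succ) =
            fun i => y i.succ := by
          funext i; simp
        rw [loopFun, loopFun, e1, e2, Int.fract_add_one]
      · have e1 : (y + Pi.single i.succ 1 : Fin (n + 1) → ℝ) 0 = y 0 := by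
          simp [(Fin.succ_ne_zero i).symm]
        have e2 : (fun j : Fin n => (y + Pi.single i.succ 1 : Fin (n + 1) → ℝ) j.succ) =
            (fun j => y j.succ) + Pi.single i 1 := by
          funext j; simp [Pi.single_apply]
        rw [loopFun, loopFun, e1, e2]
        exact f.2.2 _ _ _⟩

lemma loopS_apply (f : SmS n) (h : evS 1 f = evS 0 f) (y : Fin (n + 1) → ℝ) :
    (loopS f h).1 y = f.1 (stp (Int.fract (y 0)), fun i => y i.succ) := rfl

/-- a function on `T^{n+1}` as a path, variable `0` = parameter -/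
noncomputable def slS : Sm (n + 1) →⋆ₐ[ℂ] SmS n where
  toFun F := ⟨fun p => F.1 (Fin.cons p.1 p.2 : Fin (n + 1) → ℝ), by
    constructor
    · refine F.2.1.comp (contDiff_pi.2 fun i => ?_)
      refine Fin.cases ?_ (fun i => ?_) i
      · simpa using contDiff_fst
      · have h1 : ContDiff ℝ ∞ (fun p : ℝ × (Fin n → ℝ) => p.2 i) :=
          (contDiff_apply ℝ ℝ i).comp contDiff_snd
        simpa using h1
    · intro s x i
      have e : (Fin.cons s (x + Pi.single i 1) : Fin (n + 1) → ℝ) =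
          Fin.cons s x + Pi.single i.succ 1 := by
        funext j
        refine Fin.cases ?_ (fun j => ?_) j
        · simp [(Fin.succ_ne_zero i).symm]
        · simp [Pi.single_apply]
      change F.1 (Fin.cons s (x + Pi.single i 1) : Fin (n + 1) → ℝ) = _
      rw [e]
      exact F.2.2 _ _⟩
  map_one' := rfl
  map_mul' _ _ := rfl
  map_zero' := rfl
  map_add' _ _ := rfl
  commutes' _ := rfl
  map_star' _ := rfl

lemma slS_apply (F : Sm (n + 1)) (p : ℝ × (Fin n → ℝ)) :
    (slS F).1 p = F.1 (Fin.cons p.1 p.2 : Fin (n + 1) → ℝ) := rfl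

/-- the continuous linear map `(s, x) ↦ (s, x_0, …)` -/
noncomputable def consL (n : ℕ) : (ℝ × (Fin n → ℝ)) →L[ℝ] (Fin (n + 1) → ℝ) :=
  ContinuousLinearMap.pi fun i => Fin.cases (ContinuousLinearMap.fst ℝ ℝ (Fin n → ℝ))
    (fun i => (ContinuousLinearMap.proj i).comp (ContinuousLinearMap.snd ℝ ℝ (Fin n → ℝ))) i

lemma consL_apply (p : ℝ × (Fin n → ℝ)) : consL n p = (Fin.cons p.1 p.2 : Fin (n + 1) → ℝ) := by
  funext i
  refine Fin.cases ?_ (fun i => ?_) i <;> simp [consL]

lemma slS_pD_zero (F : Sm (n + 1)) : slS (pD 0 F) = pDs (slS F) := by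
  apply Subtype.ext; funext p
  have h : HasFDerivAt (fun q : ℝ × (Fin n → ℝ) => F.1 (consL n q))
      ((fderiv ℝ F.1 (consL n p)).comp (consL n)) p :=
    (Sm.diff_coe F (consL n p)).hasFDerivAt.comp p (consL n).hasFDerivAt
  have e : (slS F).1 = fun q => F.1 (consL n q) := by
    funext q; rw [consL_apply]; rfl
  change fderiv ℝ F.1 (Fin.cons p.1 p.2 : Fin (n + 1) → ℝ) (Pi.single 0 1) =
    fderiv ℝ (slS F).1 p (1, 0)
  rw [e, h.fderiv, ContinuousLinearMap.comp_apply, consL_apply, consL_apply]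
  congr 1
  funext i
  refine Fin.cases ?_ (fun i => ?_) i <;> simp [Fin.succ_ne_zero]

lemma slS_pD_succ (F : Sm (n + 1)) (i : Fin n) : slS (pD i.succ F) = pDS i (slS F) := by
  apply Subtype.ext; funext p
  have h : HasFDerivAt (fun q : ℝ × (Fin n → ℝ) => F.1 (consL n q))
      ((fderiv ℝ F.1 (consL n p)).comp (consL n)) p :=
    (Sm.diff_coe F (consL n p)).hasFDerivAt.comp p (consL n).hasFDerivAt
  have e : (slS F).1 = fun q => F.1 (consL n q) := by
    funext q; rw [consL_apply]; rfl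
  change fderiv ℝ F.1 (Fin.cons p.1 p.2 : Fin (n + 1) → ℝ) (Pi.single i.succ 1) =
    fderiv ℝ (slS F).1 p (0, Pi.single i 1)
  rw [e, h.fderiv, ContinuousLinearMap.comp_apply, consL_apply, consL_apply]
  congr 1
  funext j
  refine Fin.cases ?_ (fun j => ?_) j
  · simp [(Fin.succ_ne_zero i).symm]
  · simp [Pi.single_apply]

/-- a closed path, made into a function on the torus and sliced again, is the flat
reparametrisation of the path for parameters in `[0,1)` -/
lemma evS_slS_loopS (f : SmS n) (h : evS 1 f = evS 0 f) {s : ℝ} (hs : s ∈ Set.Icc (0 : ℝ) 1) :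
    evS s (slS (loopS f h)) = evS (stp s) f := by
  apply Subtype.ext; funext x
  change f.1 (stp (Int.fract ((Fin.cons s x : Fin (n + 1) → ℝ) 0)),
    fun i => (Fin.cons s x : Fin (n + 1) → ℝ) i.succ) = f.1 (stp s, x)
  simp only [Fin.cons_zero, Fin.cons_succ]
  rcases eq_or_lt_of_le hs.2 with h1 | h1
  · subst h1
    rw [Int.fract_one, stp_zero, stp_one]
    exact (congrArg (fun u : Sm n => u.1 x) h).symm
  · rw [Int.fract_eq_self.2 ⟨hs.1, h1⟩]

lemma evS_pDs_slS_loopS (f : SmS n) (h : evS 1 f = evS 0 f) {s : ℝ}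
    (hs : s ∈ Set.Ioo (0 : ℝ) 1) :
    evS s (pDs (slS (loopS f h))) = ((deriv stp s : ℝ) : ℂ) • evS (stp s) (pDs f) := by
  rw [← pDs_reparS stp stp_contDiff f s]
  apply Subtype.ext; funext x
  change fderiv ℝ (slS (loopS f h)).1 (s, x) (1, 0) =
    fderiv ℝ (reparS stp stp_contDiff f).1 (s, x) (1, 0)
  have e : (slS (loopS f h)).1 =ᶠ[nhds (s, x)] (reparS stp stp_contDiff f).1 := by
    have : ∀ᶠ p : ℝ × (Fin n → ℝ) in nhds (s, x), p.1 ∈ Set.Ioo (0 : ℝ) 1 :=
      continuousAt_fst.eventually (Ioo_mem_nhds hs.1 hs.2)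
    filter_upwards [this] with p hp
    exact congrArg (fun u : Sm n => u.1 p.2)
      (evS_slS_loopS f h (s := p.1) ⟨hp.1.le, hp.2.le⟩)
  rw [e.fderiv_eq]

end Scalar

section Mat

variable {ι κ : Type*} [Fintype ι] [DecidableEq ι] {n : ℕ}

omit [Fintype ι] [DecidableEq ι] in
lemma mapEv_ext {M N : Matrix ι κ (SmS n)} (h : ∀ s, M.map (evS s) = N.map (evS s)) :
    M = N := by
  ext1 i j
  exact SmS.ext_ev fun s => congrFun (congrFun (h s) i) j

omit [DecidableEq ι] in
lemma map_evS_mul (M N : Matrix ι ι (SmS n)) (s : ℝ) :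
    (M * N).map (evS s) = M.map (evS s) * N.map (evS s) := by
  ext1 i j
  simp only [Matrix.map_apply, Matrix.mul_apply, map_sum, map_mul]

omit [Fintype ι] in
lemma map_evS_one (s : ℝ) : (1 : Matrix ι ι (SmS n)).map (evS s) = 1 := by
  ext1 i j
  simp only [Matrix.map_apply, Matrix.one_apply]
  split_ifs <;> simp

lemma evU_val (s : ℝ) (G : (Matrix ι ι (SmS n))ˣ) :
    ((evU s G : (Matrix ι ι (Sm n))ˣ) : Matrix ι ι (Sm n)) =
      (G : Matrix ι ι (SmS n)).map (evS s) := rfl

lemma evU_inv (s : ℝ) (G : (Matrix ι ι (SmS n))ˣ) :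
    (((evU s G)⁻¹ : (Matrix ι ι (Sm n))ˣ) : Matrix ι ι (Sm n)) =
      ((G⁻¹ : (Matrix ι ι (SmS n))ˣ) : Matrix ι ι (SmS n)).map (evS s) := rfl

/-- entrywise concatenation -/
noncomputable def catM (M N : Matrix ι κ (SmS n)) : Matrix ι κ (SmS n) :=
  Matrix.of fun i j => catS (M i j) (N i j)

omit [Fintype ι] [DecidableEq ι] in
lemma catM_left {M N : Matrix ι κ (SmS n)} (h : M.map (evS 1) = N.map (evS 0)) {s : ℝ}
    (hs : s ≤ 2 / 3) : (catM M N).map (evS s) = M.map (evS (stp (2 * s))) := by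
  ext1 i j
  exact evS_catS_left _ _ (congrFun (congrFun h i) j) hs

omit [Fintype ι] [DecidableEq ι] in
lemma catM_right (M N : Matrix ι κ (SmS n)) {s : ℝ}
    (hs : 1 / 3 ≤ s) : (catM M N).map (evS s) = N.map (evS (stp (2 * s - 1))) := by
  ext1 i j
  exact evS_catS_right _ _ hs

/-- concatenation of paths of invertible matrices -/
noncomputable def catU (G₁ G₂ : (Matrix ι ι (SmS n))ˣ) (h : evU 1 G₁ = evU 0 G₂) :
    (Matrix ι ι (SmS n))ˣ where
  val := catM (G₁ : Matrix ι ι (SmS n)) (G₂ : Matrix ι ι (SmS n))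
  inv := catM ((G₁⁻¹ : (Matrix ι ι (SmS n))ˣ) : Matrix ι ι (SmS n))
    ((G₂⁻¹ : (Matrix ι ι (SmS n))ˣ) : Matrix ι ι (SmS n))
  val_inv := by
    have h1 := congrArg (fun u : (Matrix ι ι (Sm n))ˣ => (u : Matrix ι ι (Sm n))) h
    have h2 := congrArg (fun u : (Matrix ι ι (Sm n))ˣ => ((u⁻¹ : (Matrix ι ι (Sm n))ˣ) :
      Matrix ι ι (Sm n))) h
    simp only [evU_val, evU_inv] at h1 h2
    refine mapEv_ext fun s => ?_
    rw [map_evS_mul, map_evS_one]
    rcases le_total s (1 / 2) with hs | hs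
    · rw [catM_left h1 (by linarith), catM_left h2 (by linarith), ← map_evS_mul,
        Units.mul_inv, map_evS_one]
    · rw [catM_right _ _ (by linarith), catM_right _ _ (by linarith), ← map_evS_mul,
        Units.mul_inv, map_evS_one]
  inv_val := by
    have h1 := congrArg (fun u : (Matrix ι ι (Sm n))ˣ => (u : Matrix ι ι (Sm n))) h
    have h2 := congrArg (fun u : (Matrix ι ι (Sm n))ˣ => ((u⁻¹ : (Matrix ι ι (Sm n))ˣ) :
      Matrix ι ι (Sm n))) h
    simp only [evU_val, evU_inv] at h1 h2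
    refine mapEv_ext fun s => ?_
    rw [map_evS_mul, map_evS_one]
    rcases le_total s (1 / 2) with hs | hs
    · rw [catM_left h1 (by linarith), catM_left h2 (by linarith), ← map_evS_mul,
        Units.inv_mul, map_evS_one]
    · rw [catM_right _ _ (by linarith), catM_right _ _ (by linarith), ← map_evS_mul,
        Units.inv_mul, map_evS_one]

lemma catU_left (G₁ G₂ : (Matrix ι ι (SmS n))ˣ) (h : evU 1 G₁ = evU 0 G₂) {s : ℝ}
    (hs : s ≤ 2 / 3) : evU s (catU G₁ G₂ h) = evU (stp (2 * s)) G₁ := by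
  apply Units.ext
  exact catM_left (congrArg (fun u : (Matrix ι ι (Sm n))ˣ => (u : Matrix ι ι (Sm n))) h) hs

lemma catU_right (G₁ G₂ : (Matrix ι ι (SmS n))ˣ) (h : evU 1 G₁ = evU 0 G₂) {s : ℝ}
    (hs : 1 / 3 ≤ s) : evU s (catU G₁ G₂ h) = evU (stp (2 * s - 1)) G₂ := by
  apply Units.ext
  exact catM_right _ _ hs

lemma catU_zero (G₁ G₂ : (Matrix ι ι (SmS n))ˣ) (h : evU 1 G₁ = evU 0 G₂) :
    evU 0 (catU G₁ G₂ h) = evU 0 G₁ := by
  rw [catU_left G₁ G₂ h (by norm_num)]; simp

lemma catU_one (G₁ G₂ : (Matrix ι ι (SmS n))ˣ) (h : evU 1 G₁ = evU 0 G₂) :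
    evU 1 (catU G₁ G₂ h) = evU 1 G₂ := by
  rw [catU_right G₁ G₂ h (by norm_num)]; norm_num

omit [Fintype ι] [DecidableEq ι] in
/-- time derivative of a concatenation -/
lemma catM_pDs (M N : Matrix ι κ (SmS n)) (s : ℝ) :
    ((catM M N).map pDs).map (evS s) =
      ((2 * deriv stp (2 * s) : ℝ) : ℂ) • (M.map pDs).map (evS (stp (2 * s))) +
      ((2 * deriv stp (2 * s - 1) : ℝ) : ℂ) • (N.map pDs).map (evS (stp (2 * s - 1))) := by
  ext1 i j
  exact evS_pDs_catS _ _ s

/-- reparametrisation of a path of invertible matrices -/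
noncomputable def reparU (φ : ℝ → ℝ) (hφ : ContDiff ℝ ∞ φ) :
    (Matrix ι ι (SmS n))ˣ →* (Matrix ι ι (SmS n))ˣ :=
  Units.map ((reparS φ hφ : SmS n →⋆ₐ[ℂ] SmS n) : SmS n →+* SmS n).mapMatrix.toMonoidHom

lemma evU_reparU (φ : ℝ → ℝ) (hφ : ContDiff ℝ ∞ φ) (s : ℝ) (G : (Matrix ι ι (SmS n))ˣ) :
    evU s (reparU φ hφ G) = evU (φ s) G := rfl

lemma one_sub_contDiff : ContDiff ℝ ∞ (fun s : ℝ => 1 - s) := contDiff_const.sub contDiff_id

/-- the reversed path -/
noncomputable def revU (G : (Matrix ι ι (SmS n))ˣ) : (Matrix ι ι (SmS n))ˣ :=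
  reparU (fun s => 1 - s) one_sub_contDiff G

lemma evU_revU (s : ℝ) (G : (Matrix ι ι (SmS n))ˣ) : evU s (revU G) = evU (1 - s) G := rfl

/-- slicing an invertible matrix on `T^{n+1}` -/
noncomputable def slU : (Matrix ι ι (Sm (n + 1)))ˣ →* (Matrix ι ι (SmS n))ˣ :=
  Units.map ((slS : Sm (n + 1) →⋆ₐ[ℂ] SmS n) : Sm (n + 1) →+* SmS n).mapMatrix.toMonoidHom

lemma closed_apply {G : (Matrix ι ι (SmS n))ˣ} (h : evU 1 G = evU 0 G) (i j : ι) :
    evS 1 ((G : Matrix ι ι (SmS n)) i j) = evS 0 ((G : Matrix ι ι (SmS n)) i j) :=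
  congrFun (congrFun (congrArg (fun u : (Matrix ι ι (Sm n))ˣ => (u : Matrix ι ι (Sm n))) h) i) j

lemma closed_inv {G : (Matrix ι ι (SmS n))ˣ} (h : evU 1 G = evU 0 G) :
    evU 1 G⁻¹ = evU 0 G⁻¹ := by
  rw [map_inv, map_inv, h]

/-- entrywise closing of a product of closed paths -/
lemma loop_mul_aux {A B : (Matrix ι ι (SmS n))ˣ} (hA : evU 1 A = evU 0 A)
    (hB : evU 1 B = evU 0 B) (hAB : A * B = 1) :
    (Matrix.of fun i j => loopS ((A : Matrix ι ι (SmS n)) i j) (closed_apply hA i j)) *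
      (Matrix.of fun i j => loopS ((B : Matrix ι ι (SmS n)) i j) (closed_apply hB i j)) = 1 := by
  ext1 i j
  apply Subtype.ext; funext y
  change Sm.ev y (((Matrix.of fun i j => loopS ((A : Matrix ι ι (SmS n)) i j)
      (closed_apply hA i j)) * (Matrix.of fun i j => loopS ((B : Matrix ι ι (SmS n)) i j)
      (closed_apply hB i j))) i j) = Sm.ev y ((1 : Matrix ι ι (Sm (n + 1))) i j)
  have h0 : (A : Matrix ι ι (SmS n)) * (B : Matrix ι ι (SmS n)) = 1 := by
    rw [← Units.val_mul, hAB, Units.val_one]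
  have h1 := congrArg (fun M : Matrix ι ι (SmS n) =>
    Sm.ev (fun i : Fin n => y i.succ) (evS (stp (Int.fract (y 0))) (M i j))) h0
  simp only [Matrix.mul_apply, map_sum, map_mul] at h1 ⊢
  refine Eq.trans ?_ (h1.trans ?_)
  · rfl
  · simp only [Matrix.one_apply]
    split_ifs <;> simp

/-- a closed path of invertible matrices as an invertible matrix on `T^{n+1}` -/
noncomputable def loopU (G : (Matrix ι ι (SmS n))ˣ) (h : evU 1 G = evU 0 G) :
    (Matrix ι ι (Sm (n + 1)))ˣ where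
  val := Matrix.of fun i j => loopS ((G : Matrix ι ι (SmS n)) i j) (closed_apply h i j)
  inv := Matrix.of fun i j => loopS (((G⁻¹ : (Matrix ι ι (SmS n))ˣ) : Matrix ι ι (SmS n)) i j)
    (closed_apply (closed_inv h) i j)
  val_inv := loop_mul_aux h (closed_inv h) (mul_inv_cancel G)
  inv_val := loop_mul_aux (closed_inv h) h (inv_mul_cancel G)

lemma evU_slU_loopU (G : (Matrix ι ι (SmS n))ˣ) (h : evU 1 G = evU 0 G) {s : ℝ}
    (hs : s ∈ Set.Icc (0 : ℝ) 1) : evU s (slU (loopU G h)) = evU (stp s) G := by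
  apply Units.ext
  ext1 i j
  exact evS_slS_loopS _ (closed_apply h i j) hs

lemma slU_loopU_pDs (G : (Matrix ι ι (SmS n))ˣ) (h : evU 1 G = evU 0 G) {s : ℝ}
    (hs : s ∈ Set.Ioo (0 : ℝ) 1) :
    (((slU (loopU G h) : (Matrix ι ι (SmS n))ˣ) : Matrix ι ι (SmS n)).map pDs).map (evS s) =
      ((deriv stp s : ℝ) : ℂ) • ((G : Matrix ι ι (SmS n)).map pDs).map (evS (stp s)) := by
  ext1 i j
  exact evS_pDs_slS_loopS _ (closed_apply h i j) hs

end Mat

end Pool.Agent.PD4
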