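import Mathlib

/-!
# Project PD (MP_69cf13_gt), index block: abstract differential graded trace

`DGT Ω`: a `ℂ`-algebra `Ω` with a parity automorphism `γ` (`γ ω = (-1)^{deg ω} ω`), an odd
derivation `d` with `d² = 0`, and a closed graded trace `T`.  All formal identities about
`(G⁻¹ dG)^n` and `e (de)^{2k}` are proved here, without analysis.
-/

namespace Pool.Agent.PD4

/-- A `ℂ`-algebra with parity automorphism `γ`, differential `d`, closed graded trace `T`. -/
structure DGT (Ω : Type*) [Ring Ω] [Algebra ℂ Ω] where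
  γ : Ω →ₐ[ℂ] Ω
  d : Ω →ₗ[ℂ] Ω
  T : Ω →ₗ[ℂ] ℂ
  γγ : ∀ a, γ (γ a) = a
  γd : ∀ a, γ (d a) = - d (γ a)
  leib : ∀ a b, d (a * b) = d a * b + γ a * d b
  dd : ∀ a, d (d a) = 0
  Td : ∀ a, T (d a) = 0
  tr_odd : ∀ a b, γ a = -a → T (a * b) = T (γ b * a)
  tr_even : ∀ a b, γ a = a → T (a * b) = T (b * a)

/-- an even derivation of a `DGT` (commuting with `γ` and `d`) -/
structure DGT.EvenDer {Ω : Type*} [Ring Ω] [Algebra ℂ Ω] (S : DGT Ω) where
  D : Ω →ₗ[ℂ] Ω
  leib : ∀ a b, D (a * b) = D a * b + a * D b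
  γD : ∀ a, S.γ (D a) = D (S.γ a)
  dD : ∀ a, S.d (D a) = D (S.d a)

variable {Ω : Type*} [Ring Ω] [Algebra ℂ Ω] (S : DGT Ω)

/-- `d 1 = 0` -/
lemma DGT.d_one : S.d 1 = 0 := by
  have h := S.leib 1 1
  simpa using h

/-- `d` of the inverse -/
lemma DGT.d_inv {G G' : Ω} (h1 : G * G' = 1) (h2 : G' * G = 1) (hG : S.γ G = G) :
    S.d G' = - (G' * S.d G * G') := by
  have hG' : S.γ G' = G' := by
    have h3 : S.γ G' * G = 1 := by
      have := congrArg S.γ h2
      rwa [map_mul, hG, map_one] at this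
    calc S.γ G' = S.γ G' * (G * G') := by rw [h1, mul_one]
      _ = G' := by rw [← mul_assoc, h3, one_mul]
  have h := S.leib G' G
  rw [h2, S.d_one, hG'] at h
  have h4 : S.d G' * G = - (G' * S.d G) := eq_neg_of_add_eq_zero_left h.symm
  calc S.d G' = S.d G' * (G * G') := by rw [h1, mul_one]
    _ = (S.d G' * G) * G' := by rw [mul_assoc]
    _ = _ := by rw [h4, neg_mul]

/-- the inverse of an even element is even -/
lemma DGT.γ_inv {G G' : Ω} (h1 : G * G' = 1) (h2 : G' * G = 1) (hG : S.γ G = G) :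
    S.γ G' = G' := by
  have h3 : S.γ G' * G = 1 := by
    have := congrArg S.γ h2
    rwa [map_mul, hG, map_one] at this
  calc S.γ G' = S.γ G' * (G * G') := by rw [h1, mul_one]
    _ = G' := by rw [← mul_assoc, h3, one_mul]

/-- `A = G⁻¹ dG` is odd -/
lemma DGT.γ_mc {G G' : Ω} (h1 : G * G' = 1) (h2 : G' * G = 1) (hG : S.γ G = G) :
    S.γ (G' * S.d G) = - (G' * S.d G) := by
  rw [map_mul, S.γd, hG, S.γ_inv h1 h2 hG, mul_neg]

/-- Maurer–Cartan: `dA = - A²` for `A = G⁻¹ dG` -/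
lemma DGT.d_mc {G G' : Ω} (h1 : G * G' = 1) (h2 : G' * G = 1) (hG : S.γ G = G) :
    S.d (G' * S.d G) = - ((G' * S.d G) * (G' * S.d G)) := by
  rw [S.leib, S.d_inv h1 h2 hG, S.dd, mul_zero, add_zero]
  simp only [neg_mul, mul_assoc]

/-- `γ` of a power of an odd element -/
lemma DGT.γ_pow {A : Ω} (hA : S.γ A = -A) (m : ℕ) : S.γ (A ^ m) = (-1 : Ω) ^ m * A ^ m := by
  rw [map_pow, hA, neg_pow]

/-- `d (A^m)` for `dA = -A²`, `m` even -/
lemma DGT.d_pow_even {A : Ω} (hA : S.γ A = -A) (hd : S.d A = - (A * A)) {m : ℕ}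
    (hm : Even m) : S.d (A ^ m) = 0 := by
  obtain ⟨k, rfl⟩ := hm
  induction k with
  | zero => simpa using S.d_one
  | succ k ih =>
    have h2 : S.d (A * A) = 0 := by
      rw [S.leib, hd, hA]; noncomm_ring
    have e : A ^ (k + 1 + (k + 1)) = (A * A) * A ^ (k + k) := by
      rw [← pow_two, ← pow_add]; congr 1; ring
    rw [e, S.leib, h2, ih]; simp

/-- `d (A^m)` for `dA = -A²`, `m` odd -/
lemma DGT.d_pow_odd {A : Ω} (hA : S.γ A = -A) (hd : S.d A = - (A * A)) {m : ℕ}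
    (hm : Odd m) : S.d (A ^ m) = - A ^ (m + 1) := by
  obtain ⟨k, rfl⟩ := hm
  have e : A ^ (2 * k + 1) = A * A ^ (2 * k) := by rw [← pow_succ']
  rw [e, S.leib, hd, S.d_pow_even hA hd (even_two_mul k), mul_zero, add_zero, neg_mul,
    ← pow_two, ← pow_add]
  congr 2; ring

namespace DGT

open Finset

/-- `x` is even. -/
def Ev (x : Ω) : Prop := S.γ x = x

/-- `x` is odd. -/
def Od (x : Ω) : Prop := S.γ x = -x

theorem dg (x : Ω) : S.d (S.γ x) = - S.γ (S.d x) := by
  rw [S.γd, neg_neg]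

theorem Tcomm (x y : Ω) (hx : S.γ x = x) : S.T (x * y) = S.T (y * x) := S.tr_even x y hx

theorem Tanti (x y : Ω) (hx : S.γ x = -x) (hy : S.γ y = -y) : S.T (x * y) = - S.T (y * x) := by
  rw [S.tr_odd x y hx, hy, neg_mul, map_neg]

variable {S}

theorem EvenDer.Dg (X : S.EvenDer) (x : Ω) : X.D (S.γ x) = S.γ (X.D x) := (X.γD x).symm

theorem EvenDer.Dd (X : S.EvenDer) (x : Ω) : X.D (S.d x) = S.d (X.D x) := (X.dD x).symm

theorem Ev.mul {x y : Ω} (hx : S.Ev x) (hy : S.Ev y) : S.Ev (x * y) := by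
  unfold Ev at *
  rw [map_mul, hx, hy]

theorem Ev.mulOd {x y : Ω} (hx : S.Ev x) (hy : S.Od y) : S.Od (x * y) := by
  unfold Ev Od at *
  rw [map_mul, hx, hy, mul_neg]

theorem Od.mulEv {x y : Ω} (hx : S.Od x) (hy : S.Ev y) : S.Od (x * y) := by
  unfold Ev Od at *
  rw [map_mul, hx, hy, neg_mul]

theorem Od.mul {x y : Ω} (hx : S.Od x) (hy : S.Od y) : S.Ev (x * y) := by
  unfold Ev Od at *
  rw [map_mul, hx, hy, neg_mul_neg]

theorem Ev.add {x y : Ω} (hx : S.Ev x) (hy : S.Ev y) : S.Ev (x + y) := by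
  unfold Ev at *
  rw [map_add, hx, hy]

theorem Od.add {x y : Ω} (hx : S.Od x) (hy : S.Od y) : S.Od (x + y) := by
  unfold Od at *
  rw [map_add, hx, hy, neg_add]

theorem Ev.neg {x : Ω} (hx : S.Ev x) : S.Ev (-x) := by
  unfold Ev at *
  rw [map_neg, hx]

theorem Od.neg {x : Ω} (hx : S.Od x) : S.Od (-x) := by
  unfold Od at *
  rw [map_neg, hx]

theorem Ev.sub {x y : Ω} (hx : S.Ev x) (hy : S.Ev y) : S.Ev (x - y) := by
  unfold Ev at *
  rw [map_sub, hx, hy]

theorem Od.sub {x y : Ω} (hx : S.Od x) (hy : S.Od y) : S.Od (x - y) := by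
  unfold Od at *
  rw [map_sub, hx, hy]
  abel

theorem Ev.smul {x : Ω} (c : ℂ) (hx : S.Ev x) : S.Ev (c • x) := by
  unfold Ev at *
  rw [map_smul, hx]

theorem Od.smul {x : Ω} (c : ℂ) (hx : S.Od x) : S.Od (c • x) := by
  unfold Od at *
  rw [map_smul, hx, smul_neg]

variable (S) in
theorem ev_one : S.Ev (1 : Ω) := by
  unfold Ev
  rw [map_one]

theorem Ev.pow {x : Ω} (hx : S.Ev x) (n : ℕ) : S.Ev (x ^ n) := by
  unfold Ev at *
  rw [map_pow, hx]

theorem Od.sq {x : Ω} (hx : S.Od x) : S.Ev (x ^ 2) := by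
  rw [pow_two]; exact hx.mul hx

theorem Od.pow_even {x : Ω} (hx : S.Od x) (n : ℕ) : S.Ev (x ^ (2 * n)) := by
  rw [pow_mul]; exact hx.sq.pow n

theorem Od.pow_odd {x : Ω} (hx : S.Od x) (n : ℕ) : S.Od (x ^ (2 * n + 1)) := by
  rw [pow_succ]; exact (hx.pow_even n).mulOd hx

theorem Ev.d {x : Ω} (hx : S.Ev x) : S.Od (S.d x) := by
  unfold Ev Od at *
  have := S.dg x
  rw [hx] at this
  rw [this, neg_neg, ← this]

theorem Od.d {x : Ω} (hx : S.Od x) : S.Ev (S.d x) := by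
  unfold Ev Od at *
  have := S.dg x
  rw [hx, map_neg] at this
  exact (neg_injective this).symm

theorem Ev.D {x : Ω} (hx : S.Ev x) (X : S.EvenDer) : S.Ev (X.D x) := by
  unfold Ev at *
  rw [← X.Dg, hx]

theorem Od.D {x : Ω} (hx : S.Od x) (X : S.EvenDer) : S.Od (X.D x) := by
  unfold Od at *
  rw [← X.Dg, hx, map_neg]

theorem EvenDer.D_one (X : S.EvenDer) : X.D (1 : Ω) = 0 := by
  have h := X.leib 1 1
  rw [one_mul, mul_one, one_mul] at h
  have h2 : X.D (1 : Ω) + 0 = X.D 1 + X.D 1 := by rw [add_zero]; exact h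
  exact (add_left_cancel h2).symm

theorem Ev.leib {x : Ω} (hx : S.Ev x) (y : Ω) : S.d (x * y) = S.d x * y + x * S.d y := by
  unfold Ev at hx
  rw [S.leib, hx]

theorem Od.leib {x : Ω} (hx : S.Od x) (y : Ω) : S.d (x * y) = S.d x * y - x * S.d y := by
  unfold Od at hx
  rw [S.leib, hx, neg_mul, sub_eq_add_neg]

/-- cyclicity when the first factor is even -/
theorem Ev.cyc {x : Ω} (hx : S.Ev x) (y : Ω) : S.T (x * y) = S.T (y * x) :=
  S.Tcomm x y hx

/-- cyclicity when the second factor is even -/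
theorem Ev.cyc' {y : Ω} (hy : S.Ev y) (x : Ω) : S.T (x * y) = S.T (y * x) :=
  (S.Tcomm y x hy).symm

theorem Od.cyc {x y : Ω} (hx : S.Od x) (hy : S.Od y) : S.T (x * y) = - S.T (y * x) :=
  S.Tanti x y hx hy

/-- integration by parts, first factor even -/
theorem Ev.parts {x : Ω} (hx : S.Ev x) (y : Ω) : S.T (S.d x * y) = - S.T (x * S.d y) := by
  have h := S.Td (x * y)
  rw [hx.leib, map_add] at h
  exact eq_neg_of_add_eq_zero_left h

/-- integration by parts, first factor odd -/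
theorem Od.parts {x : Ω} (hx : S.Od x) (y : Ω) : S.T (S.d x * y) = S.T (x * S.d y) := by
  have h := S.Td (x * y)
  rw [hx.leib, map_sub] at h
  exact sub_eq_zero.mp h

theorem EvenDer.parts (X : S.EvenDer) (hX : ∀ a, S.T (X.D a) = 0) (x y : Ω) :
    S.T (X.D x * y) = - S.T (x * X.D y) := by
  have h := hX (x * y)
  rw [X.leib, map_add] at h
  exact eq_neg_of_add_eq_zero_left h

theorem EvenDer.D_pow (X : S.EvenDer) (x : Ω) (n : ℕ) :
    X.D (x ^ n) = ∑ j ∈ range n, x ^ j * X.D x * x ^ (n - 1 - j) := by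
  induction n with
  | zero => simp [X.D_one]
  | succ n ih =>
    rw [pow_succ, X.leib, ih, Finset.sum_range_succ, Finset.sum_mul]
    congr 1
    · refine Finset.sum_congr rfl fun j hj => ?_
      have hj' : j < n := Finset.mem_range.mp hj
      rw [mul_assoc, ← pow_succ]
      congr 2
      omega
    · simp

/-- the derivative of `A = G⁻¹ dG` -/
theorem EvenDer.D_mc (X : S.EvenDer) {G G' : Ω} (h1 : G * G' = 1) (h2 : G' * G = 1)
    (hG : S.γ G = G) :
    X.D (G' * S.d G) = S.d (G' * X.D G) + (G' * S.d G) * (G' * X.D G)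
      - (G' * X.D G) * (G' * S.d G) := by
  have hGe : S.Ev G := hG
  have hG' : S.Ev G' := S.γ_inv h1 h2 hG
  have hXG' : X.D G' = - (G' * X.D G * G') := by
    have h := congrArg X.D h2
    rw [X.D_one, X.leib] at h
    have h3 : X.D G' * G = - (G' * X.D G) := eq_neg_of_add_eq_zero_left h
    calc X.D G' = X.D G' * (G * G') := by rw [h1, mul_one]
      _ = _ := by rw [← mul_assoc, h3, neg_mul]
  rw [X.leib, hXG', X.Dd, hG'.leib, S.d_inv h1 h2 hG]
  noncomm_ring

/-- An even unit together with two commuting derivations. -/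
structure Frame (S : DGT Ω) where
  /-- the unit -/
  G : Ω
  /-- its inverse -/
  H : Ω
  GH : G * H = 1
  HG : H * G = 1
  gG : S.Ev G
  /-- first derivation -/
  X : S.EvenDer
  /-- second derivation -/
  Y : S.EvenDer
  XY : ∀ w, X.D (Y.D w) = Y.D (X.D w)
  TX : ∀ w, S.T (X.D w) = 0
  TY : ∀ w, S.T (Y.D w) = 0

namespace Frame

variable (F : S.Frame)

/-- Exchange the two derivations. -/
def swap : S.Frame where
  G := F.G
  H := F.H
  GH := F.GH
  HG := F.HG
  gG := F.gG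
  X := F.Y
  Y := F.X
  XY := fun w => (F.XY w).symm
  TX := F.TY
  TY := F.TX

/-- `G⁻¹ dG` -/
def A : Ω := F.H * S.d F.G

/-- `G⁻¹ ∂ₓG` -/
def a : Ω := F.H * F.X.D F.G

/-- `G⁻¹ ∂_yG` -/
def b : Ω := F.H * F.Y.D F.G

/-- `∂ₓ(G⁻¹ dG)` -/
def Ax : Ω := F.X.D F.A

/-- `∂_y(G⁻¹ dG)` -/
def Ay : Ω := F.Y.D F.A

@[simp] theorem swap_A : F.swap.A = F.A := rfl
@[simp] theorem swap_a : F.swap.a = F.b := rfl
@[simp] theorem swap_b : F.swap.b = F.a := rfl
@[simp] theorem swap_Ax : F.swap.Ax = F.Ay := rfl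
@[simp] theorem swap_Ay : F.swap.Ay = F.Ax := rfl

theorem gH : S.Ev F.H := by
  have h1 : S.γ F.H * F.G = 1 := by
    have h2 := congrArg S.γ F.HG
    rw [map_mul, map_one] at h2
    have h3 : S.γ F.G = F.G := F.gG
    rw [h3] at h2
    exact h2
  have : S.γ F.H = F.H := by
    calc S.γ F.H = S.γ F.H * (F.G * F.H) := by rw [F.GH, mul_one]
      _ = F.H := by rw [← mul_assoc, h1, one_mul]
  exact this

theorem odA : S.Od F.A := F.gH.mulOd F.gG.d

theorem eva : S.Ev F.a := F.gH.mul (F.gG.D F.X)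

theorem evb : S.Ev F.b := F.gH.mul (F.gG.D F.Y)

theorem odAx : S.Od F.Ax := F.odA.D F.X

theorem odAy : S.Od F.Ay := F.odA.D F.Y

theorem dG : S.d F.G = F.G * F.A := by
  unfold A
  rw [← mul_assoc, F.GH, one_mul]

theorem XG : F.X.D F.G = F.G * F.a := by
  unfold a
  rw [← mul_assoc, F.GH, one_mul]

theorem YG : F.Y.D F.G = F.G * F.b := by
  unfold b
  rw [← mul_assoc, F.GH, one_mul]

theorem dH : S.d F.H = - (F.A * F.H) := by
  have h := congrArg S.d F.HG
  rw [S.d_one, F.gH.leib] at h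
  have h2 : S.d F.H * F.G = - F.A := eq_neg_of_add_eq_zero_left h
  calc S.d F.H = S.d F.H * (F.G * F.H) := by rw [F.GH, mul_one]
    _ = - (F.A * F.H) := by rw [← mul_assoc, h2, neg_mul]

theorem XH : F.X.D F.H = - (F.a * F.H) := by
  have h := congrArg F.X.D F.HG
  rw [F.X.D_one, F.X.leib] at h
  have h2 : F.X.D F.H * F.G = - F.a := eq_neg_of_add_eq_zero_left h
  calc F.X.D F.H = F.X.D F.H * (F.G * F.H) := by rw [F.GH, mul_one]
    _ = - (F.a * F.H) := by rw [← mul_assoc, h2, neg_mul]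

theorem YH : F.Y.D F.H = - (F.b * F.H) := F.swap.XH

theorem dA : S.d F.A = - (F.A * F.A) := by
  have h : S.d F.A = S.d F.H * S.d F.G + F.H * S.d (S.d F.G) := F.gH.leib _
  rw [h, S.dd, mul_zero, add_zero, F.dH, neg_mul, mul_assoc]
  rfl

theorem Ax_eq : F.Ax = S.d F.a + F.A * F.a - F.a * F.A := by
  have h : F.Ax = F.X.D F.H * S.d F.G + F.H * F.X.D (S.d F.G) := F.X.leib _ _
  rw [h, F.XH, F.X.Dd, F.XG, F.gG.leib, mul_add, ← mul_assoc F.H F.G, F.HG, one_mul,
    ← mul_assoc F.H (S.d F.G)]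
  have h2 : -(F.a * F.H) * S.d F.G = - (F.a * F.A) := by
    rw [neg_mul, mul_assoc]; rfl
  rw [h2]
  have h3 : F.H * S.d F.G * F.a = F.A * F.a := rfl
  rw [h3]
  abel

theorem Ay_eq : F.Ay = S.d F.b + F.A * F.b - F.b * F.A := F.swap.Ax_eq

theorem Xb_sub_Ya : F.X.D F.b - F.Y.D F.a = F.b * F.a - F.a * F.b := by
  have h1 : F.X.D F.b = - (F.a * F.b) + F.H * F.X.D (F.Y.D F.G) := by
    have : F.X.D F.b = F.X.D F.H * F.Y.D F.G + F.H * F.X.D (F.Y.D F.G) := F.X.leib _ _
    rw [this, F.XH, neg_mul, mul_assoc]; rfl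
  have h2 : F.Y.D F.a = - (F.b * F.a) + F.H * F.Y.D (F.X.D F.G) := by
    have : F.Y.D F.a = F.Y.D F.H * F.X.D F.G + F.H * F.Y.D (F.X.D F.G) := F.Y.leib _ _
    rw [this, F.YH, neg_mul, mul_assoc]; rfl
  rw [h1, h2, F.XY]
  abel

theorem dAx : S.d F.Ax = - (F.Ax * F.A + F.A * F.Ax) := by
  have h : S.d F.Ax = F.X.D (S.d F.A) := (F.X.Dd _).symm
  rw [h, F.dA, map_neg, F.X.leib]
  rfl

theorem dAy : S.d F.Ay = - (F.Ay * F.A + F.A * F.Ay) := F.swap.dAx

theorem dA_sq : S.d (F.A ^ 2) = 0 := by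
  rw [pow_two, F.odA.leib, F.dA]
  noncomm_ring

theorem dA_even (m : ℕ) : S.d (F.A ^ (2 * m)) = 0 := by
  induction m with
  | zero => simp [S.d_one]
  | succ m ih =>
    rw [Nat.mul_succ, pow_add, (F.odA.pow_even m).leib, ih, F.dA_sq]
    simp

theorem dA_odd (m : ℕ) : S.d (F.A ^ (2 * m + 1)) = - F.A ^ (2 * m + 2) := by
  rw [pow_succ, (F.odA.pow_even m).leib, F.dA_even, F.dA]
  simp only [zero_mul, zero_add, mul_neg]
  rw [← mul_assoc, ← pow_succ, ← pow_succ]

/-- The trace of an even positive power vanishes. -/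
theorem T_even (m : ℕ) : S.T (F.A ^ (2 * m + 2)) = 0 := by
  have h := S.Td (F.A ^ (2 * m + 1))
  rw [F.dA_odd, map_neg, neg_eq_zero] at h
  exact h

/-- even closed elements commuting with `A` -/
structure Cl (P : Ω) : Prop where
  ev : S.Ev P
  dP : S.d P = 0
  AP : F.A * P = P * F.A

theorem cl_pow (m : ℕ) : F.Cl (F.A ^ (2 * m)) where
  ev := F.odA.pow_even m
  dP := F.dA_even m
  AP := by rw [← pow_succ', ← pow_succ]

variable {F}

theorem Cl.leib {P : Ω} (h : F.Cl P) (y : Ω) : S.d (P * y) = P * S.d y := by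
  rw [h.ev.leib, h.dP, zero_mul, zero_add]

/-- `R(m) = S(m)` for even `m`. -/
theorem R_even {P Q : Ω} (hP : F.Cl P) (hQ : F.Cl Q) :
    S.T (F.Ay * (P * F.Ax * Q * F.A)) = S.T (F.b * (P * F.Ax * Q * F.A * F.A)) := by
  have hw : S.d (P * F.Ax * Q * F.A) = - (F.A * (P * F.Ax * Q * F.A)) := by
    have h0 : P * F.Ax * Q * F.A = P * (F.Ax * (Q * F.A)) := by noncomm_ring
    have h1 : F.A * (P * F.Ax * Q * F.A) = P * F.A * F.Ax * Q * F.A := by
      simp only [← mul_assoc]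
      rw [hP.AP]
    rw [h1, h0, hP.leib, F.odAx.leib, hQ.leib, F.dA, F.dAx]
    have h2 : P * F.Ax * F.A * Q * F.A = P * F.Ax * Q * F.A * F.A := by
      rw [mul_assoc (P * F.Ax) F.A Q, hQ.AP]
      simp only [← mul_assoc]
    have h3 : P * (-(F.Ax * F.A + F.A * F.Ax) * (Q * F.A) - F.Ax * (Q * -(F.A * F.A)))
        = - (P * F.Ax * F.A * Q * F.A) - P * F.A * F.Ax * Q * F.A
          + P * F.Ax * Q * F.A * F.A := by noncomm_ring
    rw [h3, h2]
    abel
  have hev : S.Ev (P * F.Ax * Q * F.A) :=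
    ((hP.ev.mulOd F.odAx).mulEv hQ.ev).mul F.odA
  rw [F.Ay_eq, sub_mul, add_mul, map_sub, map_add, F.evb.parts, hw, mul_neg, map_neg, neg_neg]
  have h4 : F.A * F.b * (P * F.Ax * Q * F.A) = F.A * (F.b * (P * F.Ax * Q * F.A)) := by
    rw [mul_assoc]
  rw [h4, (F.evb.mul hev).cyc' F.A]
  have h5 : F.b * F.A * (P * F.Ax * Q * F.A) = F.b * (F.A * (P * F.Ax * Q * F.A)) := by
    rw [mul_assoc]
  rw [h5]
  have h6 : F.b * (P * F.Ax * Q * F.A) * F.A = F.b * (P * F.Ax * Q * F.A * F.A) := by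
    rw [mul_assoc]
  rw [h6]
  ring

/-- `R(m) = - S(m+1)` for odd `m`. -/
theorem R_odd {P Q : Ω} (hP : F.Cl P) (hQ : F.Cl Q) :
    S.T (F.Ay * (P * F.A * F.Ax * Q)) = - S.T (F.b * (P * F.A * F.A * F.Ax * Q)) := by
  have hw : S.d (P * F.A * F.Ax * Q) = P * F.A * F.Ax * Q * F.A := by
    have h0 : P * F.A * F.Ax * Q = P * (F.A * (F.Ax * Q)) := by noncomm_ring
    have h2 : P * F.A * F.Ax * Q * F.A = P * F.A * F.Ax * F.A * Q := by
      rw [mul_assoc (P * F.A * F.Ax) F.A Q, hQ.AP]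
      simp only [← mul_assoc]
    rw [h2, h0, hP.leib, F.odA.leib, F.odAx.leib, F.dA, F.dAx, hQ.dP]
    noncomm_ring
  have hev : S.Ev (P * F.A * F.Ax * Q) :=
    ((hP.ev.mulOd F.odA).mul F.odAx).mul hQ.ev
  rw [F.Ay_eq, sub_mul, add_mul, map_sub, map_add, F.evb.parts, hw]
  have h4 : F.A * F.b * (P * F.A * F.Ax * Q) = F.A * (F.b * (P * F.A * F.Ax * Q)) := by
    rw [mul_assoc]
  rw [h4, (F.evb.mul hev).cyc' F.A]
  have h5 : F.b * F.A * (P * F.A * F.Ax * Q) = F.b * (P * F.A * F.A * F.Ax * Q) := by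
    have : F.A * (P * F.A * F.Ax * Q) = P * F.A * F.A * F.Ax * Q := by
      simp only [← mul_assoc]
      rw [hP.AP]
    rw [mul_assoc, this]
  rw [h5]
  have h6 : F.b * (P * F.A * F.Ax * Q) * F.A = F.b * (P * F.A * F.Ax * Q * F.A) := by
    rw [mul_assoc]
  rw [h6]
  ring

/-- `S(j) = - S'(n-1-j)` for even `j`. -/
theorem S_even {P Q : Ω} (hP : F.Cl P) (hQ : F.Cl Q) :
    S.T (F.b * (P * F.Ax * Q)) = - S.T (F.a * (Q * F.Ay * P)) := by
  -- expand `Ax`
  have h1 : S.T (F.b * (P * S.d F.a * Q)) = - S.T (F.a * (Q * S.d F.b * P)) := by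
    have e1 : F.b * (P * S.d F.a * Q) = (F.b * P) * (S.d F.a * Q) := by noncomm_ring
    rw [e1, (F.evb.mul hP.ev).cyc]
    have e2 : S.d F.a * Q * (F.b * P) = S.d F.a * (Q * (F.b * P)) := by noncomm_ring
    rw [e2, F.eva.parts, hQ.leib, F.evb.leib, hP.dP, mul_zero, add_zero]
    congr 2
    noncomm_ring
  have h2 : S.T (F.b * (P * (F.A * F.a) * Q)) = S.T (F.a * (Q * (F.b * F.A) * P)) := by
    have e1 : F.b * (P * (F.A * F.a) * Q) = (F.b * P * F.A) * (F.a * Q) := by noncomm_ring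
    rw [e1, (F.eva.mul hQ.ev).cyc']
    congr 1
    calc F.a * Q * (F.b * P * F.A) = F.a * Q * F.b * (P * F.A) := by noncomm_ring
      _ = F.a * Q * F.b * (F.A * P) := by rw [hP.AP]
      _ = _ := by noncomm_ring
  have h3 : S.T (F.b * (P * (F.a * F.A) * Q)) = S.T (F.a * (Q * (F.A * F.b) * P)) := by
    have e1 : F.b * (P * (F.a * F.A) * Q) = (F.b * P) * (F.a * (F.A * Q)) := by noncomm_ring
    rw [e1, (F.evb.mul hP.ev).cyc, hQ.AP]
    congr 1
    noncomm_ring
  have hL : F.b * (P * F.Ax * Q) = F.b * (P * S.d F.a * Q) + F.b * (P * (F.A * F.a) * Q)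
      - F.b * (P * (F.a * F.A) * Q) := by
    rw [F.Ax_eq]; noncomm_ring
  have hR : F.a * (Q * F.Ay * P) = F.a * (Q * S.d F.b * P) + F.a * (Q * (F.A * F.b) * P)
      - F.a * (Q * (F.b * F.A) * P) := by
    rw [F.Ay_eq]; noncomm_ring
  rw [hL, hR]
  simp only [map_add, map_sub]
  rw [h1, h2, h3]
  ring

/-- `S(j) = S'(n-1-j) + P(n-1-j) - P(n-j)` for odd `j`. -/
theorem S_odd {P Q : Ω} (hP : F.Cl P) (hQ : F.Cl Q) :
    S.T (F.b * (P * F.A * F.Ax * Q * F.A)) = S.T (F.a * (Q * F.A * F.Ay * P * F.A))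
      + S.T (F.a * (Q * F.A * F.b * P * F.A * F.A))
      - S.T (F.a * (Q * F.A * F.A * F.b * P * F.A)) := by
  have h1 : S.T (F.b * (P * F.A * S.d F.a * Q * F.A)) =
      S.T (F.a * (Q * F.A * F.Ay * P * F.A)) := by
    have e1 : F.b * (P * F.A * S.d F.a * Q * F.A) = (F.b * P * F.A) * (S.d F.a * Q * F.A) := by
      noncomm_ring
    have ev1 : S.Ev (S.d F.a * Q * F.A) := (F.eva.d.mulEv hQ.ev).mul F.odA
    rw [e1, ev1.cyc']
    have e2 : S.d F.a * Q * F.A * (F.b * P * F.A) = S.d F.a * (Q * (F.A * (F.b * (P * F.A)))) := by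
      noncomm_ring
    rw [e2, F.eva.parts, hQ.leib, F.odA.leib, F.evb.leib, hP.leib, F.dA]
    have e3 : S.d F.b = F.Ay - F.A * F.b + F.b * F.A := by rw [F.Ay_eq]; abel
    rw [e3]
    have e4 : F.a * (Q * (-(F.A * F.A) * (F.b * (P * F.A)) -
        F.A * ((F.Ay - F.A * F.b + F.b * F.A) * (P * F.A) + F.b * (P * -(F.A * F.A)))))
        = - (F.a * (Q * F.A * F.Ay * P * F.A)) - F.a * Q * F.A * F.b * (F.A * P) * F.A
          + F.a * Q * F.A * F.b * (P * F.A) * F.A := by noncomm_ring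
    rw [e4, hP.AP]
    simp
  have h2 : S.T (F.b * (P * F.A * (F.A * F.a) * Q * F.A)) =
      S.T (F.a * (Q * F.A * F.b * P * F.A * F.A)) := by
    have e1 : F.b * (P * F.A * (F.A * F.a) * Q * F.A) = (F.b * P * F.A * F.A) * (F.a * Q * F.A) := by
      noncomm_ring
    have ev1 : S.Ev (F.b * P * F.A * F.A) := ((F.evb.mul hP.ev).mulOd F.odA).mul F.odA
    rw [e1, ev1.cyc]
    congr 1
    noncomm_ring
  have h3 : S.T (F.b * (P * F.A * (F.a * F.A) * Q * F.A)) =
      S.T (F.a * (Q * F.A * F.A * F.b * P * F.A)) := by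
    have e1 : F.b * (P * F.A * (F.a * F.A) * Q * F.A) =
        (F.b * P * F.A) * (F.a * (F.A * Q) * F.A) := by
      noncomm_ring
    have ev1 : S.Ev (F.a * (F.A * Q) * F.A) := (F.eva.mulOd (F.odA.mulEv hQ.ev)).mul F.odA
    rw [e1, ev1.cyc', hQ.AP]
    congr 1
    noncomm_ring
  have hL : F.b * (P * F.A * F.Ax * Q * F.A) = F.b * (P * F.A * S.d F.a * Q * F.A)
      + F.b * (P * F.A * (F.A * F.a) * Q * F.A)
      - F.b * (P * F.A * (F.a * F.A) * Q * F.A) := by
    rw [F.Ax_eq]; noncomm_ring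
  rw [hL]
  simp only [map_add, map_sub]
  rw [h1, h2, h3]

variable (F)

/-- `S(j)` -/
def s (k j : ℕ) : ℂ := S.T (F.b * (F.A ^ j * F.Ax * F.A ^ (2 * k - j)))

/-- `P(m)` -/
def p (k m : ℕ) : ℂ := S.T (F.a * (F.A ^ m * F.b * F.A ^ (2 * k + 1 - m)))

/-- `R(m)` -/
def r (k m : ℕ) : ℂ := S.T (F.Ay * (F.A ^ m * F.Ax * F.A ^ (2 * k - 1 - m)))

theorem r_even {k i : ℕ} (hi : i < k) : F.r k (2 * i) = F.s k (2 * i) := by
  obtain ⟨c, rfl⟩ := Nat.exists_eq_add_of_lt hi
  have h := R_even (F := F) (F.cl_pow i) (F.cl_pow c)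
  unfold r s
  have e1 : 2 * (i + c + 1) - 1 - 2 * i = 2 * c + 1 := by omega
  have e2 : 2 * (i + c + 1) - 2 * i = 2 * c + 1 + 1 := by omega
  rw [e1, e2, pow_succ, pow_succ]
  simp only [← mul_assoc] at h ⊢
  rw [h]
  rw [pow_succ]
  simp only [← mul_assoc]

theorem r_odd {k i : ℕ} (hi : i < k) : F.r k (2 * i + 1) = - F.s k (2 * (i + 1)) := by
  obtain ⟨c, rfl⟩ := Nat.exists_eq_add_of_lt hi
  have h := R_odd (F := F) (F.cl_pow i) (F.cl_pow c)
  unfold r s
  have e1 : 2 * (i + c + 1) - 1 - (2 * i + 1) = 2 * c := by omega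
  have e2 : 2 * (i + c + 1) - 2 * (i + 1) = 2 * c := by omega
  have e3 : 2 * (i + 1) = 2 * i + 1 + 1 := by ring
  rw [e1, e2, e3, pow_succ, pow_succ, pow_succ]
  simp only [← mul_assoc] at h ⊢
  exact h

theorem s_even {k i : ℕ} (hi : i ≤ k) : F.s k (2 * i) = - F.swap.s k (2 * (k - i)) := by
  obtain ⟨c, rfl⟩ := Nat.exists_eq_add_of_le hi
  have h := S_even (F := F) (F.cl_pow i) (F.cl_pow c)
  unfold s
  have e1 : 2 * (i + c) - 2 * i = 2 * c := by omega
  have e2 : 2 * (i + c - i) = 2 * c := by omega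
  have e3 : 2 * (i + c) - 2 * c = 2 * i := by omega
  rw [e1, e2, e3]
  exact h

theorem s_odd {k i : ℕ} (hi : i < k) : F.s k (2 * i + 1) =
    F.swap.s k (2 * (k - 1 - i) + 1) + F.p k (2 * (k - 1 - i) + 1)
      - F.p k (2 * (k - 1 - i) + 2) := by
  obtain ⟨c, rfl⟩ := Nat.exists_eq_add_of_lt hi
  have h := S_odd (F := F) (F.cl_pow i) (F.cl_pow c)
  unfold s p
  have e0 : i + c + 1 - 1 - i = c := by omega
  rw [e0]
  have e1 : 2 * (i + c + 1) - (2 * i + 1) = 2 * c + 1 := by omega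
  have e2 : 2 * (i + c + 1) - (2 * c + 1) = 2 * i + 1 := by omega
  have e3 : 2 * (i + c + 1) + 1 - (2 * c + 1) = 2 * i + 1 + 1 := by omega
  have e4 : 2 * (i + c + 1) + 1 - (2 * c + 2) = 2 * i + 1 := by omega
  have e5 : 2 * c + 2 = 2 * c + 1 + 1 := by ring
  rw [e1, e2, e3, e4, e5]
  simp only [pow_succ, ← mul_assoc, swap_b, swap_Ax, swap_A] at h ⊢
  exact h

/-- telescoping identity for (I1) -/
theorem tele (f : ℕ → ℂ) (k : ℕ) :
    (2 * k + 1) * f 0 - ∑ i ∈ range k, ((2 * k - 2 * i) * f i - (2 * k - 2 * i - 1) * f (i + 1))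
      = ∑ i ∈ range (k + 1), f i := by
  induction k with
  | zero => simp
  | succ k ih =>
    rw [Finset.sum_range_succ, Finset.sum_range_succ _ (k + 1), ← ih]
    have h1 : ∑ i ∈ range k, ((2 * ((k + 1 : ℕ) : ℂ) - 2 * i) * f i
          - (2 * ((k + 1 : ℕ) : ℂ) - 2 * i - 1) * f (i + 1))
        = ∑ i ∈ range k, ((2 * (k : ℂ) - 2 * i) * f i - (2 * k - 2 * i - 1) * f (i + 1))
          + 2 * (f 0 - f k) := by
      have h2 : f 0 - f k = - ∑ i ∈ range k, (f (i + 1) - f i) := by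
        rw [Finset.sum_range_sub]; ring
      rw [h2, mul_neg, Finset.mul_sum, ← sub_eq_add_neg, ← Finset.sum_sub_distrib]
      refine Finset.sum_congr rfl fun i _ => ?_
      push_cast
      ring
    rw [h1]
    push_cast
    ring

theorem sum_split (f : ℕ → ℂ) (k : ℕ) :
    ∑ i ∈ range (2 * k), f i = ∑ i ∈ range k, (f (2 * i) + f (2 * i + 1)) := by
  induction k with
  | zero => simp
  | succ k ih =>
    rw [Nat.mul_succ, Finset.sum_range_succ, Finset.sum_range_succ, ih, Finset.sum_range_succ,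
      add_assoc]

/-- Identity (I1). -/
theorem I1 (k : ℕ) :
    (2 * k + 1) * F.s k 0 - ∑ m ∈ range (2 * k), (2 * k - m : ℂ) * F.r k m
      = ∑ i ∈ range (k + 1), F.s k (2 * i) := by
  have h := tele (fun i => F.s k (2 * i)) k
  rw [← h, sum_split]
  congr 1
  refine Finset.sum_congr rfl fun i hi => ?_
  have hi' := Finset.mem_range.mp hi
  rw [F.r_even hi', F.r_odd hi']
  push_cast
  ring

theorem sum_s (k : ℕ) :
    ∑ j ∈ range (2 * k + 1), F.s k j = - S.T (F.X.D F.b * F.A ^ (2 * k + 1)) := by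
  rw [F.X.parts F.TX, neg_neg, F.X.D_pow, Finset.mul_sum, map_sum]
  refine Finset.sum_congr rfl fun j _ => ?_
  rfl

theorem sum_swap (k : ℕ) :
    ∑ j ∈ range (2 * k + 1), F.s k j - ∑ j ∈ range (2 * k + 1), F.swap.s k j
      = F.p k 0 - F.p k (2 * k + 1) := by
  rw [F.sum_s, F.swap.sum_s]
  have h1 : F.swap.X.D F.swap.b = F.Y.D F.a := rfl
  rw [h1, swap_A]
  have h2 : F.X.D F.b = F.Y.D F.a + (F.b * F.a - F.a * F.b) := by
    rw [← F.Xb_sub_Ya]; abel
  have h3 : F.p k 0 = S.T (F.a * F.b * F.A ^ (2 * k + 1)) := by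
    unfold p
    simp [mul_assoc]
  have h4 : F.p k (2 * k + 1) = S.T (F.b * F.a * F.A ^ (2 * k + 1)) := by
    unfold p
    rw [Nat.sub_self, pow_zero, mul_one]
    have e : F.a * (F.A ^ (2 * k + 1) * F.b) = (F.a * F.A ^ (2 * k + 1)) * F.b := by
      rw [mul_assoc]
    rw [e, F.evb.cyc', mul_assoc, ← mul_assoc]
  rw [h2, h3, h4, add_mul, sub_mul, map_add, map_sub]
  ring

/-- Identity (I2). -/
theorem I2 (k : ℕ) :
    2 * ∑ i ∈ range (k + 1), F.s k (2 * i) = ∑ m ∈ range (2 * k + 2), (-1 : ℂ) ^ m * F.p k m := by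
  have h0 := F.sum_swap k
  have hs : ∀ f : ℕ → ℂ, ∑ j ∈ range (2 * k + 1), f j =
      ∑ i ∈ range (k + 1), f (2 * i) + ∑ i ∈ range k, f (2 * i + 1) := by
    intro f
    rw [Finset.sum_range_succ, sum_split, Finset.sum_range_succ _ k, Finset.sum_add_distrib]
    ring
  rw [hs, hs] at h0
  have he : ∑ i ∈ range (k + 1), F.swap.s k (2 * i) = - ∑ i ∈ range (k + 1), F.s k (2 * i) := by
    rw [← Finset.sum_range_reflect, ← Finset.sum_neg_distrib]
    refine Finset.sum_congr rfl fun i hi => ?_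
    have hi' := Finset.mem_range.mp hi
    rw [F.s_even (by omega : i ≤ k), neg_neg]
    rfl
  have ho : ∑ i ∈ range k, F.s k (2 * i + 1) = ∑ i ∈ range k, (F.swap.s k (2 * i + 1)
      + F.p k (2 * i + 1) - F.p k (2 * i + 2)) := by
    rw [← Finset.sum_range_reflect]
    refine Finset.sum_congr rfl fun i hi => ?_
    have hi' := Finset.mem_range.mp hi
    rw [F.s_odd (by omega : k - 1 - i < k)]
    have e : k - 1 - (k - 1 - i) = i := by omega
    rw [e]
  rw [he, ho, Finset.sum_sub_distrib, Finset.sum_add_distrib] at h0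
  have hp : ∑ m ∈ range (2 * k + 2), (-1 : ℂ) ^ m * F.p k m
      = F.p k 0 - F.p k (2 * k + 1) - ∑ i ∈ range k, F.p k (2 * i + 1)
        + ∑ i ∈ range k, F.p k (2 * i + 2) := by
    have : 2 * k + 2 = 2 * (k + 1) := by ring
    rw [this, sum_split, Finset.sum_add_distrib]
    have e1 : ∑ i ∈ range (k + 1), (-1 : ℂ) ^ (2 * i) * F.p k (2 * i)
        = F.p k 0 + ∑ i ∈ range k, F.p k (2 * i + 2) := by
      rw [Finset.sum_range_succ']
      rw [add_comm]
      congr 1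
      · simp
      · refine Finset.sum_congr rfl fun i _ => ?_
        rw [pow_mul]
        norm_num
        rw [Nat.mul_succ]
    have e2 : ∑ i ∈ range (k + 1), (-1 : ℂ) ^ (2 * i + 1) * F.p k (2 * i + 1)
        = - F.p k (2 * k + 1) - ∑ i ∈ range k, F.p k (2 * i + 1) := by
      rw [Finset.sum_range_succ]
      simp [pow_mul, pow_succ]
      ring
    rw [e1, e2]
    ring
  rw [hp]
  linear_combination h0

/-- The formal identity: the first-order coefficient of the deformed odd Chern number. -/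
theorem formal (k : ℕ) :
    2 * ((2 * k + 1) * F.s k 0 - ∑ m ∈ range (2 * k), (2 * k - m : ℂ) * F.r k m)
      = ∑ m ∈ range (2 * k + 2), (-1 : ℂ) ^ m * F.p k m := by
  rw [F.I1, F.I2]

end Frame

end DGT

variable {Ω : Type*} [Ring Ω] [Algebra ℂ Ω] (S : DGT Ω)

/-- **Homotopy invariance, odd case** (formal part): for `n` odd and any even derivation `X`
(derivative in a parameter), `T (X (A^n)) = 0`, `A = G⁻¹ dG`. -/
theorem DGT.odd_variation (X : S.EvenDer) {G G' : Ω} (h1 : G * G' = 1) (h2 : G' * G = 1)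
    (hG : S.γ G = G) {n : ℕ} (hn : Odd n) :
    S.T (X.D ((G' * S.d G) ^ n)) = 0 := by
  obtain ⟨k, rfl⟩ := hn
  have hA := S.γ_mc h1 h2 hG
  have hd := S.d_mc h1 h2 hG
  have hAx := X.D_mc h1 h2 hG
  have ha : S.Ev (G' * X.D G) := by
    have e1 : S.Ev G' := S.γ_inv h1 h2 hG
    have e2 : S.Ev G := hG
    exact e1.mul (e2.D X)
  generalize hAA : G' * S.d G = A at hA hd hAx ⊢
  generalize G' * X.D G = α at ha hAx
  have hA' : S.Od A := hA
  rw [X.D_pow]
  rw [map_sum]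
  have key : ∀ j ∈ Finset.range (2 * k + 1),
      S.T (A ^ j * X.D A * A ^ (2 * k + 1 - 1 - j)) = S.T (X.D A * A ^ (2 * k)) := by
    intro j hj
    have hj' := Finset.mem_range.mp hj
    have hAxo : S.Od (X.D A) := hA'.D X
    rcases Nat.even_or_odd' j with ⟨i, rfl | rfl⟩
    · rw [mul_assoc, (hA'.pow_even i).cyc, mul_assoc, ← pow_add]
      congr 3
      omega
    · have e : 2 * k + 1 - 1 - (2 * i + 1) = 2 * (k - 1 - i) + 1 := by omega
      have hev : S.Ev (X.D A * A ^ (2 * (k - 1 - i) + 1)) := hAxo.mul (hA'.pow_odd _)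
      rw [e, mul_assoc, hev.cyc', mul_assoc, ← pow_add]
      congr 3
      omega
  rw [Finset.sum_congr rfl key, Finset.sum_const]
  have hz : S.T (X.D A * A ^ (2 * k)) = 0 := by
    have hP : S.Ev (A ^ (2 * k)) := hA'.pow_even k
    have hdP : S.d (A ^ (2 * k)) = 0 := S.d_pow_even hA hd (even_two_mul k)
    rw [hAx, sub_mul, add_mul, map_sub, map_add, ha.parts, hdP, mul_zero, map_zero, neg_zero,
      zero_add]
    have e1 : A * α * A ^ (2 * k) = A * (α * A ^ (2 * k)) := by rw [mul_assoc]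
    rw [e1, (ha.mul hP).cyc' A]
    have e2 : α * A ^ (2 * k) * A = α * A * A ^ (2 * k) := by
      rw [mul_assoc, mul_assoc, ← pow_succ, ← pow_succ']
    rw [e2, sub_self]
  rw [hz, smul_zero]

/-- the trace of `ė P` vanishes for an idempotent `e` and `P` commuting with `e` -/
lemma DGT.T_idem_der {e f P : Ω} (he : e * e = e) (hγ : S.γ e = e) (hf : f = f * e + e * f)
    (hP : e * P = P * e) : S.T (f * P) = 0 := by
  have he' : S.Ev e := hγ
  have h0 : e * f * e = 0 := by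
    have h := congrArg (fun x => e * x * e) hf
    have h2 : e * f * e = e * f * e + e * f * e := by
      calc e * f * e = e * (f * e + e * f) * e := h
        _ = e * f * (e * e) + (e * e) * f * e := by noncomm_ring
        _ = _ := by rw [he]
    have h3 : e * f * e + 0 = e * f * e + e * f * e := by rw [add_zero]; exact h2
    exact (add_left_cancel h3).symm
  have h1 : S.T (f * e * P) = 0 := by
    have e1 : f * e * P = (f * e * P) * e := by
      calc f * e * P = f * (e * e) * P := by rw [he]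
        _ = f * e * (e * P) := by noncomm_ring
        _ = f * e * (P * e) := by rw [hP]
        _ = _ := by noncomm_ring
    rw [e1, he'.cyc']
    have e2 : e * (f * e * P) = e * f * e * P := by noncomm_ring
    rw [e2, h0, zero_mul, map_zero]
  have h2 : S.T (e * f * P) = 0 := by
    have e1 : e * f * P = e * (f * P) := by rw [mul_assoc]
    rw [e1, he'.cyc, mul_assoc, ← hP, ← mul_assoc]
    exact h1
  rw [hf, add_mul, map_add, h1, h2, add_zero]

/-- **Homotopy invariance, even case** (formal part): for an even idempotent `e` and any even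
derivation `X`, `T (X (e (de)^{2k})) = 0`. -/
theorem DGT.even_variation (X : S.EvenDer) {e : Ω} (he : e * e = e) (hγ : S.γ e = e) (k : ℕ) :
    S.T (X.D (e * S.d e ^ (2 * k))) = 0 := by
  have he' : S.Ev e := hγ
  -- basic relations
  have hf : X.D e = X.D e * e + e * X.D e := by
    conv_lhs => rw [← he, X.leib]
  have hde : S.d e = S.d e * e + e * S.d e := by
    conv_lhs => rw [← he, he'.leib]
  have hod : S.Od (S.d e) := he'.d
  have hswap : S.d e * e = (1 - e) * S.d e := by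
    rw [sub_mul, one_mul]
    exact eq_sub_of_add_eq hde.symm
  have hcomm2 : e * (S.d e ^ 2) = (S.d e ^ 2) * e := by
    have e1 : S.d e ^ 2 * e = S.d e * (S.d e * e) := by rw [pow_two, mul_assoc]
    have e2 : S.d e * (1 - e) = e * S.d e := by
      rw [mul_sub, mul_one]
      exact sub_eq_of_eq_add (by rw [add_comm]; exact hde)
    rw [e1, hswap, ← mul_assoc, e2, mul_assoc, pow_two]
  have hcomm : ∀ i : ℕ, e * (S.d e ^ (2 * i)) = (S.d e ^ (2 * i)) * e := by
    intro i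
    rw [pow_mul]
    exact (Commute.pow_right (show Commute e (S.d e ^ 2) from hcomm2) i)
  have hdP : ∀ i : ℕ, S.d (S.d e ^ i) = 0 := by
    intro i
    induction i with
    | zero => rw [pow_zero]; exact S.d_one
    | succ i ih => rw [pow_succ', S.leib, S.dd, ih, zero_mul, mul_zero, add_zero]
  rw [X.leib, map_add, S.T_idem_der he hγ hf (hcomm k), zero_add]
  rcases k with _ | k
  · simp [X.D_one]
  -- expand the derivative of the power
  rw [pow_mul, X.D_pow, Finset.mul_sum, map_sum]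
  have hX2 : X.D (S.d e ^ 2) = S.d (X.D e) * S.d e + S.d e * S.d (X.D e) := by
    rw [pow_two, X.leib, X.Dd]
  set f := X.D e with hfdef
  have hfe : S.Ev f := he'.D X
  set P := S.d e ^ (2 * k) with hPdef
  have hPe : S.Ev P := hod.pow_even k
  have key : ∀ j ∈ Finset.range (k + 1),
      S.T (e * ((S.d e ^ 2) ^ j * X.D (S.d e ^ 2) * (S.d e ^ 2) ^ (k + 1 - 1 - j)))
        = S.T (e * P * (S.d f * S.d e + S.d e * S.d f)) := by
    intro j hj
    have hj' := Finset.mem_range.mp hj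
    rw [hX2, ← pow_mul, ← pow_mul, ← mul_assoc, (hod.pow_even _).cyc']
    congr 1
    have e1 : S.d e ^ (2 * (k + 1 - 1 - j)) * (e * (S.d e ^ (2 * j) *
        (S.d f * S.d e + S.d e * S.d f))) = (S.d e ^ (2 * (k + 1 - 1 - j)) * e) *
        S.d e ^ (2 * j) * (S.d f * S.d e + S.d e * S.d f) := by noncomm_ring
    rw [e1, ← hcomm]
    have e2 : e * S.d e ^ (2 * (k + 1 - 1 - j)) * S.d e ^ (2 * j) = e * P := by
      rw [mul_assoc, ← pow_add, hPdef]
      congr 2
      omega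
    rw [e2]
  rw [Finset.sum_congr rfl key, Finset.sum_const]
  have hz : S.T (e * P * (S.d f * S.d e + S.d e * S.d f)) = 0 := by
    have hcP : e * P = P * e := hcomm k
    have e1 : S.T (e * P * (S.d f * S.d e)) = - S.T ((1 - e) * P * S.d e * S.d f) := by
      have ho : S.Od (e * P * S.d f) := (he'.mul hPe).mulOd hfe.d
      rw [← mul_assoc, ho.cyc hod]
      congr 2
      calc S.d e * (e * P * S.d f) = (S.d e * e) * P * S.d f := by noncomm_ring
        _ = (1 - e) * (S.d e * P) * S.d f := by rw [hswap]; noncomm_ring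
        _ = (1 - e) * (P * S.d e) * S.d f := by rw [hPdef, ← pow_succ, ← pow_succ']
        _ = _ := by noncomm_ring
    have e2 : S.T (e * P * (S.d e * S.d f)) = S.T (e * P * S.d e * S.d f) := by
      rw [mul_assoc (e * P)]
    rw [mul_add, map_add, e1, e2, neg_add_eq_sub, ← map_sub, ← sub_mul, ← sub_mul, ← sub_mul]
    -- `ω = (2e-1) P de`
    have hω : S.Od ((e - (1 - e)) * P * S.d e) :=
      (((he'.sub (S.ev_one.sub he')).mul hPe)).mulOd hod
    have hp := hω.parts f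
    have hdω : S.d ((e - (1 - e)) * P * S.d e) = (2 : ℂ) • (S.d e ^ (2 * (k + 1))) := by
      have e3 : S.d (e - (1 - e)) = (2 : ℂ) • S.d e := by
        rw [map_sub, map_sub, S.d_one, two_smul]
        abel
      rw [mul_assoc, (he'.sub (S.ev_one.sub he')).leib, e3, hPe.leib, hPdef, hdP, S.dd]
      simp only [zero_mul, mul_zero, add_zero, smul_mul_assoc]
      congr 1
      rw [← pow_succ, ← pow_succ']
      rfl
    rw [← hp, hdω, smul_mul_assoc, map_smul, (hod.pow_even (k + 1)).cyc]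
    rw [S.T_idem_der he hγ hf (hcomm (k + 1)), smul_zero]
  rw [hz, smul_zero]

/-- **The quantisation identity**.  `n` odd; `A = G⁻¹ dG`, `α = G⁻¹ X G`, `β = G⁻¹ Y G`;
`X`, `Y` commuting even derivations with `T ∘ X = T ∘ Y = 0`. -/
theorem DGT.quant_identity (X Y : S.EvenDer) (hXY : ∀ a, X.D (Y.D a) = Y.D (X.D a))
    (hTX : ∀ a, S.T (X.D a) = 0) (hTY : ∀ a, S.T (Y.D a) = 0)
    {G G' : Ω} (h1 : G * G' = 1) (h2 : G' * G = 1) (hG : S.γ G = G) {n : ℕ} (hn : Odd n) :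
    -(n : ℂ) * S.T ((G' * Y.D G) * X.D (G' * S.d G) * (G' * S.d G) ^ (n - 1)) +
      ∑ m ∈ Finset.range (n - 1), ((n - 1 - m : ℕ) : ℂ) *
        S.T (Y.D (G' * S.d G) * (G' * S.d G) ^ m * X.D (G' * S.d G) *
          (G' * S.d G) ^ (n - 2 - m)) =
    - (1 / 2) * ∑ m ∈ Finset.range (n + 1), (-1 : ℂ) ^ m *
        S.T ((G' * X.D G) * (G' * S.d G) ^ m * (G' * Y.D G) * (G' * S.d G) ^ (n - m)) := by
  obtain ⟨k, rfl⟩ := hn
  have h := (Frame.mk G G' h1 h2 hG X Y hXY hTX hTY).formal k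
  unfold Frame.s Frame.r Frame.p Frame.Ay Frame.Ax Frame.a Frame.b Frame.A at h
  simp only [pow_zero, one_mul, Nat.sub_zero, ← mul_assoc] at h
  have e1 : 2 * k + 1 - 1 = 2 * k := by omega
  have e2 : ∀ m, 2 * k + 1 - 2 - m = 2 * k - 1 - m := fun m => by omega
  have e3 : 2 * k + 1 + 1 = 2 * k + 2 := rfl
  simp only [e1, e2, e3, ← mul_assoc]
  rw [← h]
  have e4 : ∑ m ∈ Finset.range (2 * k), ((2 * k - m : ℕ) : ℂ) *
        S.T (Y.D (G' * S.d G) * (G' * S.d G) ^ m * X.D (G' * S.d G) *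
          (G' * S.d G) ^ (2 * k - 1 - m)) = ∑ m ∈ Finset.range (2 * k), ((2 * k - m : ℂ)) *
        S.T (Y.D (G' * S.d G) * (G' * S.d G) ^ m * X.D (G' * S.d G) *
          (G' * S.d G) ^ (2 * k - 1 - m)) := by
    refine Finset.sum_congr rfl fun m hm => ?_
    have hm' := Finset.mem_range.mp hm
    rw [Nat.cast_sub hm'.le]
    push_cast
    rfl
  rw [e4]
  push_cast
  ring

/-- **Bott loop** (formal part): for an even idempotent `e` and a central constant `z ≠ 0` with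
`dz = 0` (a scalar), the element `G = 1 + (z-1) e` has `e A^{2k} = (z - 2 + z⁻¹)^k e (de)^{2k}`. -/
theorem DGT.bott_pow {e : Ω} (he : e * e = e) (hγ : S.γ e = e) (z z' : ℂ) (hz : z * z' = 1)
    (k : ℕ) :
    e * ((1 + (z' - 1) • e) * S.d (1 + (z - 1) • e)) ^ (2 * k) =
      (z - 2 + z') ^ k • (e * S.d e ^ (2 * k)) := by
  have he' : S.Ev e := hγ
  have hde : S.d e = S.d e * e + e * S.d e := by
    conv_lhs => rw [← he, he'.leib]
  have hswap : S.d e * e = (1 - e) * S.d e := by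
    rw [sub_mul, one_mul]
    exact eq_sub_of_add_eq hde.symm
  have h0 : S.d (1 + (z - 1) • e) = (z - 1) • S.d e := by
    rw [map_add, S.d_one, zero_add, map_smul]
  have hsq : ((1 + (z' - 1) • e) * S.d (1 + (z - 1) • e)) ^ 2 =
      (z - 2 + z') • (S.d e ^ 2) := by
    rw [h0, pow_two]
    have e1 : (1 + (z' - 1) • e) * (z - 1) • S.d e * ((1 + (z' - 1) • e) * (z - 1) • S.d e)
        = ((z - 1) * (z - 1)) • ((1 + (z' - 1) • e) * (S.d e + (z' - 1) • (S.d e * e)) *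
            S.d e) := by
      simp only [mul_smul_comm, smul_mul_assoc, smul_smul, mul_add, add_mul, one_mul,
        smul_add, mul_assoc]
      module
    rw [e1, hswap]
    have e2 : (1 + (z' - 1) • e) * (S.d e + (z' - 1) • ((1 - e) * S.d e)) = z' • S.d e := by
      have e3 : e * ((1 - e) * S.d e) = 0 := by
        rw [← mul_assoc, mul_sub, mul_one, he, sub_self, zero_mul]
      rw [add_mul, one_mul, smul_mul_assoc, mul_add, mul_smul_comm, e3, smul_zero, add_zero,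
        sub_mul, one_mul]
      module
    rw [e2, smul_mul_assoc, smul_smul, pow_two]
    congr 1
    linear_combination (z - 2) * hz
  rw [pow_mul, hsq, smul_pow, ← pow_mul, mul_smul_comm]

end Pool.Agent.PD4
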