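import Pool.Agent.PD4.Ix.Calc

/-!
# Project PD4, index block: adding variables to a calculus, words of one-forms

* `Calc.tail`: forget the first derivation; `Ext n → Ext (n+1)`, `Om R n → Om R (n+1)`;
  `TT (dx_0 ∧ Φ ω) = TT ω`.
* `Calc.TT_prod`: the trace of a product of `n` one-forms as a signed sum over permutations.
* `Calc.oddT_ext`: `∫ tr (G⁻¹dG)^{n+2}` in terms of the calculus in the last `n` variables.
* `Calc.quant_words_formal`: the antisymmetrised first order term.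
-/

open TensorProduct

namespace Pool.Agent.PD4

/-! ### adding one variable to the Grassmann algebra -/

/-- the inclusion `v ↦ (0, v)` -/
noncomputable def cons0 (n : ℕ) : (Fin n → ℂ) →ₗ[ℂ] (Fin (n + 1) → ℂ) where
  toFun v := Fin.cons 0 v
  map_add' v w := by
    funext i
    refine Fin.cases ?_ (fun j => ?_) i <;> simp
  map_smul' c v := by
    funext i
    refine Fin.cases ?_ (fun j => ?_) i <;> simp

@[simp] lemma cons0_zero {n : ℕ} (v : Fin n → ℂ) : cons0 n v 0 = 0 := rfl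

@[simp] lemma cons0_succ {n : ℕ} (v : Fin n → ℂ) (i : Fin n) : cons0 n v i.succ = v i := rfl

lemma cons0_single {n : ℕ} (i : Fin n) : cons0 n (Pi.single i 1) = Pi.single i.succ 1 := by
  funext j
  refine Fin.cases ?_ (fun j => ?_) j
  · rw [cons0_zero, Pi.single_eq_of_ne (Fin.succ_ne_zero i).symm]
  · rw [cons0_succ]
    by_cases h : j = i
    · subst h; simp
    · rw [Pi.single_eq_of_ne h, Pi.single_eq_of_ne (fun h' => h (Fin.succ_injective _ h'))]

/-- the inclusion of Grassmann algebras -/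
noncomputable def extS (n : ℕ) : Ext n →ₐ[ℂ] Ext (n + 1) := ExteriorAlgebra.map (cons0 n)

@[simp] lemma extS_dx {n : ℕ} (i : Fin n) : extS n (dx i) = dx i.succ := by
  unfold extS dx
  rw [ExteriorAlgebra.map_apply_ι, cons0_single]

/-- the value of the top coefficient on a product of vectors -/
lemma topc_iMulti {n m : ℕ} (v : Fin m → (Fin n → ℂ)) (h : m ≠ n) :
    topc n (ExteriorAlgebra.ιMulti ℂ m v) = 0 := by
  unfold topc
  rw [ExteriorAlgebra.liftAlternating_apply_ιMulti]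
  simp [h]

/-- `topc` vanishes on the image of `extS` -/
lemma topc_extS {n : ℕ} (w : Ext n) : topc (n + 1) (extS n w) = 0 := by
  have h : (topc (n + 1)) ∘ₗ (extS n).toLinearMap = 0 := by
    apply ExteriorAlgebra.lhom_ext
    intro m
    ext v
    show topc (n + 1) (extS n (ExteriorAlgebra.ιMulti ℂ m v)) = 0
    unfold extS
    rw [ExteriorAlgebra.map_apply_ιMulti]
    by_cases hm : m = n + 1
    · subst hm
      rw [topc_prod, Module.Basis.det_apply]
      apply Matrix.det_eq_zero_of_row_eq_zero 0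
      intro j
      simp [Module.Basis.toMatrix_apply]
    · exact topc_iMulti _ hm
  exact LinearMap.congr_fun h w

lemma dx_extS_iMulti {n m : ℕ} (v : Fin m → (Fin n → ℂ)) :
    (dx 0 : Ext (n + 1)) * extS n (ExteriorAlgebra.ιMulti ℂ m v) =
      ExteriorAlgebra.ιMulti ℂ (m + 1)
        (Fin.cons (Pi.single 0 1) (fun i => cons0 n (v i)) : Fin (m + 1) → (Fin (n + 1) → ℂ)) := by
  unfold extS
  rw [ExteriorAlgebra.map_apply_ιMulti, ExteriorAlgebra.ιMulti_apply,
    ExteriorAlgebra.ιMulti_apply, List.ofFn_succ, List.prod_cons]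
  rfl

lemma topc_dx_extS_aux {n m : ℕ} (v : Fin m → (Fin n → ℂ)) :
    topc (n + 1) (dx 0 * extS n (ExteriorAlgebra.ιMulti ℂ m v)) =
      topc n (ExteriorAlgebra.ιMulti ℂ m v) := by
  rw [dx_extS_iMulti]
  by_cases hm : m = n
  · subst hm
    rw [topc_prod, topc_prod, Module.Basis.det_apply, Module.Basis.det_apply,
      Matrix.det_succ_column_zero, Fin.sum_univ_succ]
    have h1 : ((Pi.basisFun ℂ (Fin (m + 1))).toMatrix
        (Fin.cons (Pi.single 0 1) (fun i => cons0 m (v i)) :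
          Fin (m + 1) → (Fin (m + 1) → ℂ))) 0 0 = 1 := by
      simp [Module.Basis.toMatrix_apply]
    have h2 : ((Pi.basisFun ℂ (Fin (m + 1))).toMatrix
        (Fin.cons (Pi.single 0 1) (fun i => cons0 m (v i)) :
          Fin (m + 1) → (Fin (m + 1) → ℂ))).submatrix ((0 : Fin (m + 1)).succAbove) Fin.succ
        = (Pi.basisFun ℂ (Fin m)).toMatrix v := by
      ext i j
      simp [Module.Basis.toMatrix_apply]
    have h3 : ∀ i : Fin m, ((Pi.basisFun ℂ (Fin (m + 1))).toMatrix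
        (Fin.cons (Pi.single 0 1) (fun i => cons0 m (v i)) :
          Fin (m + 1) → (Fin (m + 1) → ℂ))) i.succ 0 = 0 := by
      intro i
      simp [Module.Basis.toMatrix_apply]
    rw [h1, h2]
    simp only [h3, mul_zero, zero_mul, Finset.sum_const_zero, add_zero]
    simp
  · rw [topc_iMulti _ (by omega), topc_iMulti _ hm]

/-- `topc (dx_0 ∧ ω) = topc ω` -/
lemma topc_dx_extS {n : ℕ} (w : Ext n) : topc (n + 1) (dx 0 * extS n w) = topc n w := by
  have h : (topc (n + 1)) ∘ₗ (LinearMap.mulLeft ℂ (dx 0 : Ext (n + 1))) ∘ₗ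
      (extS n).toLinearMap = topc n := by
    apply ExteriorAlgebra.lhom_ext
    intro m
    ext v
    simp only [LinearMap.compAlternatingMap_apply, LinearMap.comp_apply,
      LinearMap.mulLeft_apply, AlgHom.toLinearMap_apply]
    exact topc_dx_extS_aux v
  exact LinearMap.congr_fun h w

lemma gr_extS {n : ℕ} (w : Ext n) : gr (n + 1) (extS n w) = extS n (gr n w) := by
  induction w using ExteriorAlgebra.induction with
  | algebraMap r => simp
  | ι v =>
    have h1 : extS n (ExteriorAlgebra.ι ℂ v) = ExteriorAlgebra.ι ℂ (cons0 n v) :=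
      ExteriorAlgebra.map_apply_ι _ _
    have h2 : ∀ (k : ℕ) (u : Fin k → ℂ),
        gr k (ExteriorAlgebra.ι ℂ u) = - ExteriorAlgebra.ι ℂ u :=
      fun k u => CliffordAlgebra.involute_ι _
    rw [h1, h2, h2, map_neg, h1]
  | mul a b ha hb => rw [map_mul, map_mul, map_mul, map_mul, ha, hb]
  | add a b ha hb => rw [map_add, map_add, map_add, map_add, ha, hb]

section

variable {R : Type*} [Ring R] [Algebra ℂ R] {n : ℕ}

/-- the inclusion of forms -/
noncomputable def omS (n : ℕ) : Om R n →ₐ[ℂ] Om R (n + 1) :=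
  Algebra.TensorProduct.map (AlgHom.id ℂ R) (extS n)

@[simp] lemma omS_tmul (a : R) (x : Ext n) :
    (omS n : Om R n →ₐ[ℂ] Om R (n + 1)) (a ⊗ₜ[ℂ] x) = a ⊗ₜ[ℂ] extS n x := rfl

lemma grO_omS (w : Om R n) : grO (omS n w) = omS n (grO w) := by
  induction w using Om.ind with
  | zero => simp
  | add a b ha hb => simp only [map_add, ha, hb]
  | tmul a x => simp [gr_extS]

/-- the one-form `dx_i` with coefficient `1` -/
noncomputable def odx (i : Fin n) : Om R n := (1 : R) ⊗ₜ[ℂ] (dx i : Ext n)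

lemma odx_mul (i : Fin n) (w : Om R n) : odx i * w = grO w * odx i := by
  unfold odx
  induction w using Om.ind with
  | zero => simp
  | add a b ha hb => rw [mul_add, map_add, add_mul, ha, hb]
  | tmul a x =>
    rw [grO_tmul, Algebra.TensorProduct.tmul_mul_tmul, Algebra.TensorProduct.tmul_mul_tmul,
      one_mul, mul_one, dx_mul]

lemma odx_sq (i : Fin n) : (odx i : Om R n) * odx i = 0 := by
  unfold odx
  rw [Algebra.TensorProduct.tmul_mul_tmul, dx_mul_self, TensorProduct.tmul_zero]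

lemma omS_odx (i : Fin n) : omS n (odx i : Om R n) = odx i.succ := by
  unfold odx
  rw [omS_tmul, extS_dx]

/-- forget the first derivation -/
def Calc.tail (C : Calc R (n + 1)) : Calc R n where
  D i := C.D i.succ
  leib i a b := C.leib i.succ a b
  comm i j a := C.comm i.succ j.succ a
  tr := C.tr
  tr_comm := C.tr_comm
  tr_D i a := C.tr_D i.succ a

lemma Calc.TT_omS (C : Calc R (n + 1)) (w : Om R n) : C.TT (omS n w) = 0 := by
  induction w using Om.ind with
  | zero => simp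
  | add a b ha hb => rw [map_add, map_add, ha, hb, add_zero]
  | tmul a x => rw [omS_tmul, C.TT_tmul, topc_extS, mul_zero]

lemma Calc.TT_odx_omS (C : Calc R (n + 1)) (w : Om R n) :
    C.TT (odx 0 * omS n w) = C.tail.TT w := by
  induction w using Om.ind with
  | zero => simp
  | add a b ha hb => rw [map_add, mul_add, map_add, map_add, ha, hb]
  | tmul a x =>
    unfold odx
    rw [omS_tmul, Algebra.TensorProduct.tmul_mul_tmul, one_mul, C.TT_tmul, topc_dx_extS,
      Calc.TT_tmul]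
    rfl

/-! ### products of one-forms -/

/-- product of one-forms -/
lemma oneForm_prod (m : ℕ) (a : Fin m → Fin n → R) :
    (List.ofFn fun j => (∑ i, a j i ⊗ₜ[ℂ] (dx i : Ext n))).prod =
      ∑ f : Fin m → Fin n, (List.ofFn fun j => a j (f j)).prod ⊗ₜ[ℂ]
        ((List.ofFn fun j => (dx (f j) : Ext n)).prod) := by
  induction m with
  | zero => simp [Algebra.TensorProduct.one_def]
  | succ m ih =>
    rw [List.ofFn_succ, List.prod_cons, ih, Finset.sum_mul_sum, ← Finset.sum_product',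
      ← (Fin.consEquiv fun _ : Fin (m + 1) => Fin n).sum_comp]
    refine Finset.sum_congr rfl fun p _ => ?_
    rw [Algebra.TensorProduct.tmul_mul_tmul]
    simp [Fin.consEquiv, List.ofFn_succ]

/-- the trace of a product of `n` one-forms -/
lemma Calc.TT_prod (C : Calc R n) (a : Fin n → Fin n → R) :
    C.TT ((List.ofFn fun j => (∑ i, a j i ⊗ₜ[ℂ] (dx i : Ext n))).prod) =
      ∑ σ : Equiv.Perm (Fin n), ((Equiv.Perm.sign σ : ℤ) : ℂ) *
        C.tr ((List.ofFn fun j : Fin n => a j (σ j)).prod) := by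
  rw [oneForm_prod, map_sum]
  have h1 : ∀ f : Fin n → Fin n, C.TT ((List.ofFn fun j => a j (f j)).prod ⊗ₜ[ℂ]
      ((List.ofFn fun j => (dx (f j) : Ext n)).prod))
      = topc n ((List.ofFn fun j => (dx (f j) : Ext n)).prod) *
        C.tr ((List.ofFn fun j => a j (f j)).prod) := by
    intro f
    rw [C.TT_tmul, mul_comm]
  simp only [h1]
  have h2 : ∑ σ : Equiv.Perm (Fin n), ((Equiv.Perm.sign σ : ℤ) : ℂ) *
        C.tr ((List.ofFn fun j : Fin n => a j (σ j)).prod) =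
      ∑ σ : Equiv.Perm (Fin n), (fun f : Fin n → Fin n =>
        topc n ((List.ofFn fun j => (dx (f j) : Ext n)).prod) *
          C.tr ((List.ofFn fun j => a j (f j)).prod)) σ := by
    refine Finset.sum_congr rfl fun σ _ => ?_
    simp only
    rw [topc_perm]
  rw [h2]
  symm
  apply Fintype.sum_of_injective (fun σ : Equiv.Perm (Fin n) => (σ : Fin n → Fin n))
  · exact DFunLike.coe_injective
  · intro f hf
    rw [topc_not_inj, zero_mul]
    intro hinj
    exact hf ⟨Equiv.ofBijective f (Finite.injective_iff_bijective.mp hinj), rfl⟩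
  · intro σ
    rfl

/-! ### list lemmas -/

lemma ofFn_one {M : Type*} [Monoid M] (A B : M) : ∀ (n : ℕ) (p : Fin n),
    (List.ofFn fun j : Fin n => if j = p then B else A).prod =
      A ^ (p : ℕ) * B * A ^ (n - 1 - (p : ℕ)) := by
  intro n
  induction n with
  | zero => intro p; exact p.elim0
  | succ n ih =>
    intro p
    rw [List.ofFn_succ, List.prod_cons]
    refine Fin.cases ?_ (fun q => ?_) p
    · have h : (fun i : Fin n => if i.succ = (0 : Fin (n + 1)) then B else A) = fun _ => A := by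
        funext i
        rw [if_neg (Fin.succ_ne_zero i)]
      rw [h, List.ofFn_const, List.prod_replicate]
      simp
    · have h : (fun i : Fin n => if i.succ = q.succ then B else A) =
          fun i => if i = q then B else A := by
        funext i
        simp [Fin.succ_inj]
      rw [h, ih, if_neg (Fin.succ_ne_zero q).symm]
      simp only [Fin.val_succ, ← mul_assoc, ← pow_succ']
      congr 2
      omega

lemma ofFn_two {M : Type*} [Monoid M] (A B D : M) : ∀ (n : ℕ) (p q : Fin n), p < q →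
    (List.ofFn fun j : Fin n => if j = p then B else if j = q then D else A).prod =
      A ^ (p : ℕ) * B * A ^ ((q : ℕ) - p - 1) * D * A ^ (n - 1 - (q : ℕ)) := by
  intro n
  induction n with
  | zero => intro p; exact p.elim0
  | succ n ih =>
    intro p q
    refine Fin.cases ?_ (fun p' => ?_) p
    · refine Fin.cases ?_ (fun q' => ?_) q
      · intro h; exact absurd h (lt_irrefl _)
      · intro _
        rw [List.ofFn_succ, List.prod_cons]
        have h : (fun i : Fin n => if i.succ = (0 : Fin (n + 1)) then B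
            else if i.succ = q'.succ then D else A) = fun i => if i = q' then D else A := by
          funext i
          rw [if_neg (Fin.succ_ne_zero i)]
          simp [Fin.succ_inj]
        rw [h, ofFn_one, if_pos rfl]
        have e1 : ((q'.succ : Fin (n + 1)) : ℕ) - ((0 : Fin (n + 1)) : ℕ) - 1 = q' := by
          simp
        have e2 : n + 1 - 1 - ((q'.succ : Fin (n + 1)) : ℕ) = n - 1 - q' := by
          rw [Fin.val_succ]; omega
        rw [e1, e2, Fin.val_zero, pow_zero, one_mul]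
        simp only [mul_assoc]
    · refine Fin.cases ?_ (fun q' => ?_) q
      · intro h; exact absurd h (by simp)
      · intro hpq
        rw [List.ofFn_succ, List.prod_cons]
        have h : (fun i : Fin n => if i.succ = p'.succ then B
            else if i.succ = q'.succ then D else A) =
            fun i => if i = p' then B else if i = q' then D else A := by
          funext i
          simp [Fin.succ_inj]
        rw [h, ih p' q' (by simpa using hpq), if_neg (Fin.succ_ne_zero p').symm,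
          if_neg (Fin.succ_ne_zero q').symm]
        have e1 : ((q'.succ : Fin (n + 1)) : ℕ) - ((p'.succ : Fin (n + 1)) : ℕ) - 1 =
            (q' : ℕ) - p' - 1 := by
          rw [Fin.val_succ, Fin.val_succ]; omega
        have e2 : n + 1 - 1 - ((q'.succ : Fin (n + 1)) : ℕ) = n - 1 - q' := by
          rw [Fin.val_succ]; omega
        rw [e1, e2, Fin.val_succ, pow_succ']
        simp only [mul_assoc]

/-- expansion of a power to first order in a nilpotent -/
lemma pow_add_nil {W : Type*} [Ring W] (B u : W) (hu : ∀ z, u * z * u = 0) (N : ℕ) :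
    (B + u) ^ N = B ^ N + ∑ j ∈ Finset.range N, B ^ j * u * B ^ (N - 1 - j) := by
  induction N with
  | zero => simp
  | succ N ih =>
    rw [pow_succ, ih, add_mul, mul_add, mul_add, Finset.sum_mul, Finset.sum_mul,
      Finset.sum_range_succ]
    have h1 : ∑ j ∈ Finset.range N, B ^ j * u * B ^ (N - 1 - j) * u = 0 := by
      refine Finset.sum_eq_zero fun j _ => ?_
      have e : B ^ j * u * B ^ (N - 1 - j) * u = B ^ j * (u * B ^ (N - 1 - j) * u) := by
        noncomm_ring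
      rw [e, hu, mul_zero]
    have h2 : ∑ j ∈ Finset.range N, B ^ j * u * B ^ (N - 1 - j) * B =
        ∑ j ∈ Finset.range N, B ^ j * u * B ^ (N + 1 - 1 - j) := by
      refine Finset.sum_congr rfl fun j hj => ?_
      have hj' := Finset.mem_range.mp hj
      rw [mul_assoc, ← pow_succ]
      congr 2
      omega
    have h3 : B ^ N * u = B ^ N * u * B ^ (N + 1 - 1 - N) := by simp
    rw [h1, h2, ← h3, pow_succ]
    abel

/-- trace of an odd power to first order in a nilpotent -/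
lemma DGT.T_pow_add {W : Type*} [Ring W] [Algebra ℂ W] (S : DGT W) {B u : W}
    (hu : ∀ z, u * z * u = 0) (hB : S.Od B) (ho : S.Od u) {N : ℕ} (hN : Odd N) :
    S.T ((B + u) ^ N) = S.T (B ^ N) + N * S.T (u * B ^ (N - 1)) := by
  obtain ⟨k, rfl⟩ := hN
  rw [pow_add_nil B u hu, map_add, map_sum]
  have key : ∀ j ∈ Finset.range (2 * k + 1),
      S.T (B ^ j * u * B ^ (2 * k + 1 - 1 - j)) = S.T (u * B ^ (2 * k + 1 - 1)) := by
    intro j hj
    have hj' := Finset.mem_range.mp hj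
    rcases Nat.even_or_odd' j with ⟨i, rfl | rfl⟩
    · rw [mul_assoc, (hB.pow_even i).cyc, mul_assoc, ← pow_add]
      congr 3
      omega
    · have e : 2 * k + 1 - 1 - (2 * i + 1) = 2 * (k - 1 - i) + 1 := by omega
      have hev : S.Ev (u * B ^ (2 * (k - 1 - i) + 1)) := ho.mul (hB.pow_odd _)
      rw [e, mul_assoc, hev.cyc', mul_assoc, ← pow_add]
      congr 3
      omega
  rw [Finset.sum_congr rfl key, Finset.sum_const, Finset.card_range, nsmul_eq_mul]

/-- `w dx = dx γ(w)` -/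
lemma mul_odx (i : Fin n) (w : Om R n) : w * odx i = odx i * grO w := by
  rw [odx_mul, grO_grO]

lemma odx_nil (i : Fin n) (c z : Om R n) : odx i * c * z * (odx i * c) = 0 := by
  have e : odx i * c * z * (odx i * c) = odx i * (c * z * odx i) * c := by noncomm_ring
  rw [e, mul_odx, ← mul_assoc, odx_sq, zero_mul, zero_mul]

/-- the one-form `G⁻¹ dG` -/
noncomputable def Calc.mc (C : Calc R n) (G : Rˣ) : Om R n :=
  ((G⁻¹ : Rˣ) : R) ⊗ₜ[ℂ] (1 : Ext n) * C.dd ((G : R) ⊗ₜ[ℂ] (1 : Ext n))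

lemma Calc.oddT_mc (C : Calc R n) (G : Rˣ) : C.oddT G = C.TT (C.mc G ^ n) := rfl

lemma Calc.mc_eq (C : Calc R n) (G : Rˣ) :
    C.mc G = ∑ i, (((G⁻¹ : Rˣ) : R) * C.D i (G : R)) ⊗ₜ[ℂ] (dx i : Ext n) := by
  unfold Calc.mc
  rw [C.dd_tmul, Finset.mul_sum]
  refine Finset.sum_congr rfl fun i _ => ?_
  rw [Algebra.TensorProduct.tmul_mul_tmul, one_mul, mul_one]

lemma grO_mc (C : Calc R n) (G : Rˣ) : grO (C.mc G) = - C.mc G := by
  rw [C.mc_eq, map_sum, ← Finset.sum_neg_distrib]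
  refine Finset.sum_congr rfl fun i _ => ?_
  rw [grO_tmul, gr_dx, TensorProduct.tmul_neg]

lemma omS_mc (C : Calc R (n + 1)) (G : Rˣ) :
    C.mc G = omS n (C.tail.mc G) +
      odx 0 * omS n ((((G⁻¹ : Rˣ) : R) * C.D 0 (G : R)) ⊗ₜ[ℂ] (1 : Ext n)) := by
  rw [C.mc_eq, Fin.sum_univ_succ, C.tail.mc_eq, map_sum]
  rw [add_comm (((((G⁻¹ : Rˣ) : R) * C.D 0 (G : R)) ⊗ₜ[ℂ] (dx 0 : Ext (n + 1))))]
  congr 1
  · refine Finset.sum_congr rfl fun i _ => ?_
    rw [omS_tmul, extS_dx]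
    rfl
  · unfold odx
    rw [omS_tmul, Algebra.TensorProduct.tmul_mul_tmul, one_mul, map_one, mul_one]

/-- one step: `T ((c ⊗ 1) A^{n+1})` in `n+1` variables, in terms of the last `n` variables -/
lemma Calc.TT_step (C : Calc R (n + 1)) (G : Rˣ) (c : R) (N : ℕ) :
    C.TT (omS n (c ⊗ₜ[ℂ] (1 : Ext n)) * C.mc G ^ (N + 1)) =
      ∑ m ∈ Finset.range (N + 1), (-1 : ℂ) ^ m * C.tail.TT (c ⊗ₜ[ℂ] (1 : Ext n) *
        C.tail.mc G ^ m * ((((G⁻¹ : Rˣ) : R) * C.D 0 (G : R)) ⊗ₜ[ℂ] (1 : Ext n)) *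
          C.tail.mc G ^ (N - m)) := by
  rw [omS_mc, pow_add_nil _ _ (fun z => odx_nil _ _ z), mul_add, map_add, ← map_pow,
    ← map_mul, C.TT_omS, zero_add, Finset.mul_sum, map_sum]
  refine Finset.sum_congr rfl fun m _ => ?_
  rw [← C.TT_odx_omS, ← map_pow, Nat.add_sub_cancel]
  have e : omS n (c ⊗ₜ[ℂ] (1 : Ext n)) * (omS n (C.tail.mc G ^ m) *
      (odx 0 * omS n ((((G⁻¹ : Rˣ) : R) * C.D 0 (G : R)) ⊗ₜ[ℂ] (1 : Ext n))) *
      omS n (C.tail.mc G) ^ (N - m)) =
      (-1 : ℂ) ^ m • (odx 0 * omS n (c ⊗ₜ[ℂ] (1 : Ext n) *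
        C.tail.mc G ^ m * ((((G⁻¹ : Rˣ) : R) * C.D 0 (G : R)) ⊗ₜ[ℂ] (1 : Ext n)) *
          C.tail.mc G ^ (N - m))) := by
    have e1 : omS n (c ⊗ₜ[ℂ] (1 : Ext n)) * (omS n (C.tail.mc G ^ m) *
      (odx 0 * omS n ((((G⁻¹ : Rˣ) : R) * C.D 0 (G : R)) ⊗ₜ[ℂ] (1 : Ext n))) *
      omS n (C.tail.mc G) ^ (N - m)) =
      (omS n (c ⊗ₜ[ℂ] (1 : Ext n) * C.tail.mc G ^ m) * odx 0) *
        omS n ((((G⁻¹ : Rˣ) : R) * C.D 0 (G : R)) ⊗ₜ[ℂ] (1 : Ext n)) *
          omS n (C.tail.mc G) ^ (N - m) := by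
      rw [map_mul]
      noncomm_ring
    have e2 : grO (omS n (c ⊗ₜ[ℂ] (1 : Ext n) * C.tail.mc G ^ m)) =
        (-1 : ℂ) ^ m • omS n (c ⊗ₜ[ℂ] (1 : Ext n) * C.tail.mc G ^ m) := by
      rw [grO_omS, map_mul, map_pow, grO_mc, grO_tmul, map_one, neg_pow]
      rcases Nat.even_or_odd m with h | h
      · rw [h.neg_one_pow, h.neg_one_pow, one_mul, one_smul]
      · rw [h.neg_one_pow, h.neg_one_pow, neg_one_mul, neg_one_smul, mul_neg, map_neg]
    rw [e1, mul_odx, e2, mul_smul_comm, smul_mul_assoc, smul_mul_assoc]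
    congr 1
    simp only [map_mul, map_pow, mul_assoc]
  rw [e, map_smul, smul_eq_mul]

/-- **The odd integrand in `n+2` variables** (`n` odd), in terms of the calculus in the last `n`
variables. -/
theorem Calc.oddT_ext (C : Calc R (n + 2)) (hn : Odd n) (G : Rˣ) :
    C.oddT G = ((n : ℂ) + 2) * ∑ m ∈ Finset.range (n + 1), (-1 : ℂ) ^ m *
      C.tail.tail.TT ((((G⁻¹ : Rˣ) : R) * C.D 0 (G : R)) ⊗ₜ[ℂ] (1 : Ext n) *
        C.tail.tail.mc G ^ m * ((((G⁻¹ : Rˣ) : R) * C.D 1 (G : R)) ⊗ₜ[ℂ] (1 : Ext n)) *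
          C.tail.tail.mc G ^ (n - m)) := by
  have hodd : Odd (n + 2) := by
    obtain ⟨k, hk⟩ := hn
    exact ⟨k + 1, by omega⟩
  rw [C.oddT_mc, omS_mc]
  set u : Om R (n + 2) := odx 0 *
    omS (n + 1) ((((G⁻¹ : Rˣ) : R) * C.D 0 (G : R)) ⊗ₜ[ℂ] (1 : Ext (n + 1))) with hu
  have hB : C.dgt.Od (omS (n + 1) (C.tail.mc G)) := by
    show grO (omS (n + 1) (C.tail.mc G)) = - omS (n + 1) (C.tail.mc G)
    rw [grO_omS, grO_mc, map_neg]
  have ho : C.dgt.Od u := by
    show grO u = - u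
    rw [hu, map_mul, grO_omS]
    unfold odx
    rw [grO_tmul, grO_tmul, gr_dx, map_one, TensorProduct.tmul_neg, neg_mul]
  have h := C.dgt.T_pow_add (fun z => odx_nil _ _ z) hB ho hodd
  have hT : C.dgt.T = C.TT := rfl
  rw [hT] at h
  rw [h, ← map_pow, C.TT_omS, zero_add]
  have e1 : n + 2 - 1 = n + 1 := by omega
  rw [e1, mul_assoc, ← map_pow, ← map_mul, C.TT_odx_omS]
  have e2 : (((G⁻¹ : Rˣ) : R) * C.D 0 (G : R)) ⊗ₜ[ℂ] (1 : Ext (n + 1)) =
      omS n ((((G⁻¹ : Rˣ) : R) * C.D 0 (G : R)) ⊗ₜ[ℂ] (1 : Ext n)) := by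
    rw [omS_tmul, map_one]
  rw [e2, C.tail.TT_step]
  push_cast
  rfl

/-! ### the words -/

/-- the first order term of the word `w` (general calculus; variables `0 = x`, `1 = y`) -/
noncomputable def Calc.word1 (C : Calc R (n + 2)) (G : Rˣ) (w : Fin n → Fin n) : ℂ :=
  (∑ p : Fin n, C.tr ((List.ofFn fun j : Fin n =>
      if j = p then (((G⁻¹ : Rˣ) : R) * C.D 1 (G : R)) *
          C.D 0 (((G⁻¹ : Rˣ) : R) * C.D (w j).succ.succ (G : R))
        else ((G⁻¹ : Rˣ) : R) * C.D (w j).succ.succ (G : R)).prod)) -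
  ∑ p : Fin n, ∑ q ∈ Finset.Ioi p, C.tr ((List.ofFn fun j : Fin n =>
      if j = p then C.D 1 (((G⁻¹ : Rˣ) : R) * C.D (w j).succ.succ (G : R))
      else if j = q then C.D 0 (((G⁻¹ : Rˣ) : R) * C.D (w j).succ.succ (G : R))
      else ((G⁻¹ : Rˣ) : R) * C.D (w j).succ.succ (G : R)).prod)

lemma sum_pairs (f : ℕ → ℂ) (n : ℕ) :
    ∑ p : Fin n, ∑ q ∈ Finset.Ioi p, f ((q : ℕ) - p - 1) =
      ∑ m ∈ Finset.range (n - 1), ((n - 1 - m : ℕ) : ℂ) * f m := by
  induction n with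
  | zero => simp
  | succ n ih =>
    rw [Fin.sum_univ_succ, Fin.Ioi_zero_eq_map, Finset.sum_map]
    have h1 : ∑ p : Fin n, ∑ q ∈ Finset.Ioi p.succ, f ((q : ℕ) - (p.succ : Fin (n + 1)) - 1) =
        ∑ p : Fin n, ∑ q ∈ Finset.Ioi p, f ((q : ℕ) - p - 1) := by
      refine Finset.sum_congr rfl fun p _ => ?_
      rw [Fin.Ioi_succ, Finset.sum_map]
      refine Finset.sum_congr rfl fun q _ => ?_
      congr 1
      simp only [Fin.val_succ, Fin.coe_succEmb]
      omega
    rw [h1, ih]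
    have h2 : ∑ q : Fin n, f ((((Fin.succEmb n) q : Fin (n + 1)) : ℕ) - (0 : Fin (n + 1)) - 1) =
        ∑ m ∈ Finset.range n, f m := by
      rw [Finset.sum_range]
      refine Finset.sum_congr rfl fun q _ => ?_
      congr 1
    rw [h2]
    rcases n with _ | n
    · simp
    · rw [Nat.add_sub_cancel, Nat.add_sub_cancel, Finset.sum_range_succ, Finset.sum_range_succ]
      have h3 : ∑ m ∈ Finset.range n, ((n + 1 - m : ℕ) : ℂ) * f m =
          ∑ m ∈ Finset.range n, f m + ∑ m ∈ Finset.range n, ((n - m : ℕ) : ℂ) * f m := by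
        rw [← Finset.sum_add_distrib]
        refine Finset.sum_congr rfl fun m hm => ?_
        have hm' := Finset.mem_range.mp hm
        rw [Nat.succ_sub hm'.le]
        push_cast
        ring
      rw [h3]
      simp
      ring

/-- derivatives of the Maurer-Cartan form -/
lemma Calc.liftD_mc (C : Calc R n) (δ : R →ₗ[ℂ] R) (G : Rˣ) :
    liftD δ (C.mc G) = ∑ i, δ (((G⁻¹ : Rˣ) : R) * C.D i (G : R)) ⊗ₜ[ℂ] (dx i : Ext n) := by
  rw [C.mc_eq, map_sum]
  refine Finset.sum_congr rfl fun i _ => ?_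
  rw [liftD_tmul]

/-- words with one special letter -/
lemma Calc.word_one (K : Calc R n) (a c : Fin n → R) (p : Fin n) :
    ∑ σ : Equiv.Perm (Fin n), ((Equiv.Perm.sign σ : ℤ) : ℂ) *
      K.tr ((List.ofFn fun j : Fin n => if j = p then c (σ j) else a (σ j)).prod) =
    K.TT ((∑ i, a i ⊗ₜ[ℂ] (dx i : Ext n)) ^ (p : ℕ) * (∑ i, c i ⊗ₜ[ℂ] (dx i : Ext n)) *
      (∑ i, a i ⊗ₜ[ℂ] (dx i : Ext n)) ^ (n - 1 - (p : ℕ))) := by
  have h := K.TT_prod (fun j i => if j = p then c i else a i)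
  rw [← h, ← ofFn_one]
  congr 3
  funext j
  by_cases hj : j = p
  · simp [hj]
  · simp [hj]

/-- words with two special letters -/
lemma Calc.word_two (K : Calc R n) (a c e : Fin n → R) (p q : Fin n) (hpq : p < q) :
    ∑ σ : Equiv.Perm (Fin n), ((Equiv.Perm.sign σ : ℤ) : ℂ) *
      K.tr ((List.ofFn fun j : Fin n =>
        if j = p then c (σ j) else if j = q then e (σ j) else a (σ j)).prod) =
    K.TT ((∑ i, a i ⊗ₜ[ℂ] (dx i : Ext n)) ^ (p : ℕ) * (∑ i, c i ⊗ₜ[ℂ] (dx i : Ext n)) *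
      (∑ i, a i ⊗ₜ[ℂ] (dx i : Ext n)) ^ ((q : ℕ) - p - 1) * (∑ i, e i ⊗ₜ[ℂ] (dx i : Ext n)) *
      (∑ i, a i ⊗ₜ[ℂ] (dx i : Ext n)) ^ (n - 1 - (q : ℕ))) := by
  have h := K.TT_prod (fun j i => if j = p then c i else if j = q then e i else a i)
  rw [← h, ← ofFn_two _ _ _ _ _ _ hpq]
  congr 3
  funext j
  by_cases hj : j = p
  · simp [hj]
  · by_cases hj2 : j = q
    · subst hj2
      simp [hj]
    · simp [hj, hj2]

/-- **(F)** formal identity: the antisymmetrised first order term. -/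
theorem Calc.sum_word1 (C : Calc R (n + 2)) (hn : Odd n) (G : Rˣ) :
    ∑ σ : Equiv.Perm (Fin n), ((Equiv.Perm.sign σ : ℤ) : ℂ) * C.word1 G σ =
      (1 / (2 * ((n : ℂ) + 2))) * C.oddT G := by
  -- the calculus in the last `n` variables and the derivations `∂_x`, `∂_y`
  set K : Calc R n := C.tail.tail with hK
  set X : K.dgt.EvenDer := K.evenDer (C.D 0) (C.leib 0) (fun i a => C.comm _ _ a) with hX
  set Y : K.dgt.EvenDer := K.evenDer (C.D 1) (C.leib 1) (fun i a => C.comm _ _ a) with hY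
  set b : Om R n := (((G⁻¹ : Rˣ) : R) * C.D 1 (G : R)) ⊗ₜ[ℂ] (1 : Ext n) with hb
  set A : Om R n := K.mc G with hA
  set Ax : Om R n := liftD (C.D 0) A with hAx
  set Ay : Om R n := liftD (C.D 1) A with hAy
  have hAeq : A = ∑ i, (((G⁻¹ : Rˣ) : R) * C.D i.succ.succ (G : R)) ⊗ₜ[ℂ] (dx i : Ext n) :=
    K.mc_eq G
  have hAxeq : Ax = ∑ i, C.D 0 (((G⁻¹ : Rˣ) : R) * C.D i.succ.succ (G : R)) ⊗ₜ[ℂ]
      (dx i : Ext n) := K.liftD_mc _ G
  have hAyeq : Ay = ∑ i, C.D 1 (((G⁻¹ : Rˣ) : R) * C.D i.succ.succ (G : R)) ⊗ₜ[ℂ]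
      (dx i : Ext n) := K.liftD_mc _ G
  have hbAx : b * Ax = ∑ i, ((((G⁻¹ : Rˣ) : R) * C.D 1 (G : R)) *
      C.D 0 (((G⁻¹ : Rˣ) : R) * C.D i.succ.succ (G : R))) ⊗ₜ[ℂ] (dx i : Ext n) := by
    rw [hAxeq, hb, Finset.mul_sum]
    refine Finset.sum_congr rfl fun i _ => ?_
    rw [Algebra.TensorProduct.tmul_mul_tmul, one_mul]
  have hAo : K.dgt.Od A := grO_mc K G
  have hAxo : K.dgt.Od Ax := hAo.D X
  have hAyo : K.dgt.Od Ay := hAo.D Y
  have hbe : K.dgt.Ev b := by
    show grO b = b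
    rw [hb, grO_tmul, map_one]
  have hT : K.dgt.T = K.TT := rfl
  obtain ⟨k, hk⟩ := hn
  -- one special letter
  have h1 : ∀ p : Fin n, ∑ σ : Equiv.Perm (Fin n), ((Equiv.Perm.sign σ : ℤ) : ℂ) *
      C.tr ((List.ofFn fun j : Fin n => if j = p then (((G⁻¹ : Rˣ) : R) * C.D 1 (G : R)) *
          C.D 0 (((G⁻¹ : Rˣ) : R) * C.D (σ j).succ.succ (G : R))
        else ((G⁻¹ : Rˣ) : R) * C.D (σ j).succ.succ (G : R)).prod) =
      K.TT (b * Ax * A ^ (n - 1)) := by
    intro p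
    have h := K.word_one (fun i => ((G⁻¹ : Rˣ) : R) * C.D i.succ.succ (G : R))
      (fun i => (((G⁻¹ : Rˣ) : R) * C.D 1 (G : R)) *
        C.D 0 (((G⁻¹ : Rˣ) : R) * C.D i.succ.succ (G : R))) p
    rw [← hAeq, ← hbAx] at h
    refine h.trans ?_
    have hp := p.isLt
    rcases Nat.even_or_odd' (p : ℕ) with ⟨i, hi | hi⟩
    · rw [← hT, hi, mul_assoc, (hAo.pow_even i).cyc, mul_assoc, ← pow_add]
      congr 3
      omega
    · have e : n - 1 - (p : ℕ) = 2 * (k - 1 - i) + 1 := by omega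
      have hev : K.dgt.Ev (b * Ax * A ^ (2 * (k - 1 - i) + 1)) :=
        (hbe.mulOd hAxo).mul (hAo.pow_odd _)
      rw [← hT, e, hi, mul_assoc, hev.cyc', mul_assoc, ← pow_add]
      congr 3
      omega
  -- two special letters
  have h2 : ∀ p q : Fin n, p < q → ∑ σ : Equiv.Perm (Fin n),
      ((Equiv.Perm.sign σ : ℤ) : ℂ) * C.tr ((List.ofFn fun j : Fin n =>
      if j = p then C.D 1 (((G⁻¹ : Rˣ) : R) * C.D (σ j).succ.succ (G : R))
      else if j = q then C.D 0 (((G⁻¹ : Rˣ) : R) * C.D (σ j).succ.succ (G : R))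
      else ((G⁻¹ : Rˣ) : R) * C.D (σ j).succ.succ (G : R)).prod) =
      K.TT (Ay * A ^ ((q : ℕ) - p - 1) * Ax * A ^ (n - 2 - ((q : ℕ) - p - 1))) := by
    intro p q hpq
    have h := K.word_two (fun i => ((G⁻¹ : Rˣ) : R) * C.D i.succ.succ (G : R))
      (fun i => C.D 1 (((G⁻¹ : Rˣ) : R) * C.D i.succ.succ (G : R)))
      (fun i => C.D 0 (((G⁻¹ : Rˣ) : R) * C.D i.succ.succ (G : R))) p q hpq
    rw [← hAeq, ← hAxeq, ← hAyeq] at h
    refine h.trans ?_
    have hpq' : (p : ℕ) < q := hpq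
    have hq := q.isLt
    obtain ⟨m, hm⟩ := Nat.exists_eq_add_of_lt hpq'
    have e1 : (q : ℕ) - p - 1 = m := by omega
    rw [e1]
    have e3 : A ^ (p : ℕ) * Ay * A ^ m * Ax * A ^ (n - 1 - (q : ℕ)) =
        A ^ (p : ℕ) * (Ay * A ^ m * Ax * A ^ (n - 1 - (q : ℕ))) := by
      simp only [mul_assoc]
    rw [e3, ← hT]
    rcases Nat.even_or_odd' (p : ℕ) with ⟨i, hi | hi⟩
    · rw [hi, (hAo.pow_even i).cyc, mul_assoc, ← pow_add]
      congr 3
      omega
    · have hev : K.dgt.Ev (Ay * A ^ m * Ax * A ^ (n - 1 - (q : ℕ))) := by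
        rcases Nat.even_or_odd' m with ⟨l, hl | hl⟩
        · have e : n - 1 - (q : ℕ) = 2 * (k - 1 - i - l) := by omega
          rw [e, hl]
          exact ((hAyo.mulEv (hAo.pow_even l)).mul hAxo).mul (hAo.pow_even _)
        · have e : n - 1 - (q : ℕ) = 2 * (k - 2 - i - l) + 1 := by omega
          rw [e, hl]
          exact ((hAyo.mul (hAo.pow_odd l)).mulOd hAxo).mul (hAo.pow_odd _)
      rw [hi, hev.cyc', mul_assoc, ← pow_add]
      congr 3
      omega
  -- collect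
  have hsum : ∑ σ : Equiv.Perm (Fin n), ((Equiv.Perm.sign σ : ℤ) : ℂ) * C.word1 G σ =
      (n : ℂ) * K.TT (b * Ax * A ^ (n - 1)) - ∑ m ∈ Finset.range (n - 1),
        ((n - 1 - m : ℕ) : ℂ) * K.TT (Ay * A ^ m * Ax * A ^ (n - 2 - m)) := by
    unfold Calc.word1
    simp only [mul_sub, Finset.sum_sub_distrib, Finset.mul_sum]
    congr 1
    · rw [Finset.sum_comm, Finset.sum_congr rfl fun p _ => h1 p]
      simp
    · rw [Finset.sum_comm, ← sum_pairs (fun m => K.TT (Ay * A ^ m * Ax * A ^ (n - 2 - m)))]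
      refine Finset.sum_congr rfl fun p _ => ?_
      rw [Finset.sum_comm]
      refine Finset.sum_congr rfl fun q hq => ?_
      exact h2 p q (Finset.mem_Ioi.mp hq)
  -- the formal identity
  have hG1 : (G : R) ⊗ₜ[ℂ] (1 : Ext n) * ((G⁻¹ : Rˣ) : R) ⊗ₜ[ℂ] (1 : Ext n) = 1 := by
    rw [Algebra.TensorProduct.tmul_mul_tmul, Units.mul_inv, one_mul]; rfl
  have hG2 : ((G⁻¹ : Rˣ) : R) ⊗ₜ[ℂ] (1 : Ext n) * (G : R) ⊗ₜ[ℂ] (1 : Ext n) = 1 := by
    rw [Algebra.TensorProduct.tmul_mul_tmul, Units.inv_mul, one_mul]; rfl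
  have hG3 : K.dgt.γ ((G : R) ⊗ₜ[ℂ] (1 : Ext n)) = (G : R) ⊗ₜ[ℂ] (1 : Ext n) := by
    show grO _ = _
    rw [grO_tmul, map_one]
  have hTD : ∀ i (w : Om R n), K.TT (liftD (C.D i) w) = 0 := by
    intro i w
    induction w using Om.ind with
    | zero => simp
    | add a b ha hb => rw [map_add, map_add, ha, hb, add_zero]
    | tmul a x =>
      rw [liftD_tmul, K.TT_tmul]
      have : K.tr (C.D i a) = 0 := C.tr_D i a
      rw [this, zero_mul]
  have hXY : ∀ w : Om R n, X.D (Y.D w) = Y.D (X.D w) := by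
    intro w
    show liftD (C.D 0) (liftD (C.D 1) w) = liftD (C.D 1) (liftD (C.D 0) w)
    induction w using Om.ind with
    | zero => simp
    | add a b ha hb => simp only [map_add, ha, hb]
    | tmul a x => rw [liftD_tmul, liftD_tmul, liftD_tmul, liftD_tmul, C.comm]
  have hform := K.dgt.quant_identity X Y hXY (hTD 0) (hTD 1) hG1 hG2 hG3 ⟨k, hk⟩
  have ea : ((G⁻¹ : Rˣ) : R) ⊗ₜ[ℂ] (1 : Ext n) * X.D ((G : R) ⊗ₜ[ℂ] (1 : Ext n)) =
      (((G⁻¹ : Rˣ) : R) * C.D 0 (G : R)) ⊗ₜ[ℂ] (1 : Ext n) := by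
    show _ * liftD (C.D 0) _ = _
    rw [liftD_tmul, Algebra.TensorProduct.tmul_mul_tmul, one_mul]
  have eb : ((G⁻¹ : Rˣ) : R) ⊗ₜ[ℂ] (1 : Ext n) * Y.D ((G : R) ⊗ₜ[ℂ] (1 : Ext n)) = b := by
    show _ * liftD (C.D 1) _ = _
    rw [liftD_tmul, Algebra.TensorProduct.tmul_mul_tmul, one_mul]
  have eA : ((G⁻¹ : Rˣ) : R) ⊗ₜ[ℂ] (1 : Ext n) * K.dgt.d ((G : R) ⊗ₜ[ℂ] (1 : Ext n)) = A := rfl
  have eX : X.D A = Ax := rfl
  have eY : Y.D A = Ay := rfl
  rw [ea, eb, eA, eX, eY, hT] at hform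
  rw [C.oddT_ext ⟨k, hk⟩, hsum]
  have hne : (n : ℂ) + 2 ≠ 0 := by
    have : ((n + 2 : ℕ) : ℂ) ≠ 0 := Nat.cast_ne_zero.mpr (by omega)
    simpa using this
  have e4 : (n : ℂ) * K.TT (b * Ax * A ^ (n - 1)) - ∑ m ∈ Finset.range (n - 1),
        ((n - 1 - m : ℕ) : ℂ) * K.TT (Ay * A ^ m * Ax * A ^ (n - 2 - m)) =
      (1 / 2) * ∑ m ∈ Finset.range (n + 1), (-1 : ℂ) ^ m * K.TT
        ((((G⁻¹ : Rˣ) : R) * C.D 0 (G : R)) ⊗ₜ[ℂ] (1 : Ext n) * A ^ m * b * A ^ (n - m)) := by
    linear_combination -hform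
  rw [e4]
  field_simp
  rfl

end

end Pool.Agent.PD4
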