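import Pool.Agent.PD4.Ix.QDefs
import Pool.Agent.PD4.Ix.Ext2

/-!
# Project PD4, index block: formal identity of the first order term (helper54)
-/

open MeasureTheory
open scoped ContDiff

namespace Pool.Agent.PD4

variable {ι : Type*} [Fintype ι] [DecidableEq ι] {n : ℕ}

/-- **(F)** formal identity: the antisymmetrised first order term (helper54) -/
theorem quant_formal (hn : Odd n) (G : (Matrix ι ι (Sm (n + 2)))ˣ) :
    ∑ σ : Equiv.Perm (Fin n), ((Equiv.Perm.sign σ : ℤ) : ℂ) * word1 G σ =
      (1 / (2 * ((n : ℂ) + 2))) * (matCalc ι (n + 2)).oddT G :=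
  (matCalc ι (n + 2)).sum_word1 hn G

end Pool.Agent.PD4
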