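import Pool.Agent.PD4.Ix.QDefs

/-!
# Project PD4, index block: slices, Fubini (helper82)
-/

open MeasureTheory
open scoped ContDiff

namespace Pool.Agent.PD4

theorem slice_apply {n : ℕ} (x y : ℝ) (f : Sm (n + 2)) (z : Fin n → ℝ) :
    (slice x y f).1 z = f.1 (Fin.cons x (Fin.cons y z : Fin (n + 1) → ℝ) : Fin (n + 2) → ℝ) := rfl

/-- one variable Fubini on the unit cube -/
theorem integral_Icc_cons {n : ℕ} {f : (Fin (n + 1) → ℝ) → ℂ} (hf : Continuous f) :
    ∫ x in Set.Icc (0 : Fin (n + 1) → ℝ) 1, f x =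
      ∫ t in (0 : ℝ)..1, ∫ z in Set.Icc (0 : Fin n → ℝ) 1, f (Fin.cons t z) := by
  have h1 : ∀ m : ℕ, (volume : Measure (Fin m → ℝ)).restrict (Set.Icc 0 1) =
      Measure.pi (fun _ => (volume : Measure ℝ).restrict (Set.Icc 0 1)) := by
    intro m
    rw [← Measure.restrict_pi_pi, Set.pi_univ_Icc]
    rfl
  rw [h1 (n + 1)]
  have h2 := measurePreserving_piFinSuccAbove
    (fun _ : Fin (n + 1) => (volume : Measure ℝ).restrict (Set.Icc 0 1)) 0
  rw [← h2.symm.integral_comp']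
  have h3 : ∀ p : ℝ × (Fin n → ℝ), (MeasurableEquiv.piFinSuccAbove (fun _ : Fin (n + 1) => ℝ) 0).symm
      p = Fin.cons p.1 p.2 := by
    intro p
    exact Fin.insertNth_zero' _ _
  have h4 : Integrable (fun p : ℝ × (Fin n → ℝ) => f (Fin.cons p.1 p.2))
      (((volume : Measure ℝ).restrict (Set.Icc 0 1)).prod
        (Measure.pi (fun _ : Fin n => (volume : Measure ℝ).restrict (Set.Icc 0 1)))) := by
    rw [← h1 n, Measure.prod_restrict]
    have h5 : Continuous (fun p : ℝ × (Fin n → ℝ) => f (Fin.cons p.1 p.2)) := by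
      apply hf.comp
      rw [continuous_pi_iff]
      intro i
      refine Fin.cases ?_ (fun i => ?_) i
      · simpa using continuous_fst
      · have h7 : (fun a : ℝ × (Fin n → ℝ) => (Fin.cons a.1 a.2 : Fin (n + 1) → ℝ) i.succ) =
            fun a => a.2 i := by
          funext a
          simp
        rw [h7]
        exact (continuous_apply i).comp continuous_snd
    exact h5.continuousOn.integrableOn_compact (isCompact_Icc.prod isCompact_Icc)
  rw [intervalIntegral.integral_of_le zero_le_one, ← integral_Icc_eq_integral_Ioc, h1 n]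
  have h6 : ∫ x, f ((MeasurableEquiv.piFinSuccAbove (fun _ : Fin (n + 1) => ℝ) 0).symm x)
      ∂(((volume : Measure ℝ).restrict (Set.Icc 0 1)).prod
        (Measure.pi (fun _ : Fin n => (volume : Measure ℝ).restrict (Set.Icc 0 1)))) =
      ∫ p : ℝ × (Fin n → ℝ), f (Fin.cons p.1 p.2)
      ∂(((volume : Measure ℝ).restrict (Set.Icc 0 1)).prod
        (Measure.pi (fun _ : Fin n => (volume : Measure ℝ).restrict (Set.Icc 0 1)))) := by
    apply integral_congr_ae
    filter_upwards with p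
    rw [h3 p]
  refine Eq.trans ?_ ((h6.trans (integral_prod _ h4)))
  rfl

/-- Fubini for the mean value -/
theorem mean_slice {n : ℕ} (f : Sm (n + 2)) :
    mean f = ∫ x in (0 : ℝ)..1, ∫ y in (0 : ℝ)..1, mean (slice x y f) := by
  rw [mean_apply, integral_Icc_cons (Sm.cont_coe f)]
  apply intervalIntegral.integral_congr
  intro x _
  have hc : Continuous (fun z : Fin (n + 1) → ℝ => f.1 (Fin.cons x z)) := by
    apply (Sm.cont_coe f).comp
    rw [continuous_pi_iff]
    intro i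
    refine Fin.cases ?_ (fun i => ?_) i
    · simpa using continuous_const
    · simpa using continuous_apply i
  exact integral_Icc_cons hc

/-- slices commute with the derivatives in `z` -/
theorem slice_pD {n : ℕ} (x y : ℝ) (i : Fin n) (f : Sm (n + 2)) :
    slice x y (pD i.succ.succ f) = pD i (slice x y f) := by
  apply Subtype.ext
  funext z
  rw [pD_apply, slice_apply, pD_apply]
  have hA : HasFDerivAt (fun z : Fin n → ℝ =>
      (Fin.cons x (Fin.cons y z : Fin (n + 1) → ℝ) : Fin (n + 2) → ℝ))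
      (fderiv ℝ (fun z : Fin n → ℝ =>
      (Fin.cons x (Fin.cons y z : Fin (n + 1) → ℝ) : Fin (n + 2) → ℝ)) z) z :=
    ((contDiff_cons2 contDiff_const contDiff_const contDiff_id).differentiable (by simp) z).hasFDerivAt
  have hA2 : fderiv ℝ (fun z : Fin n → ℝ =>
      (Fin.cons x (Fin.cons y z : Fin (n + 1) → ℝ) : Fin (n + 2) → ℝ)) z (Pi.single i 1) =
      Pi.single i.succ.succ 1 := by
    have h1 : HasDerivAt (fun t : ℝ => (Fin.cons x (Fin.cons y (z + t • Pi.single i (1 : ℝ)) :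
        Fin (n + 1) → ℝ) : Fin (n + 2) → ℝ)) (Pi.single i.succ.succ 1) 0 := by
      have h2 : (fun t : ℝ => (Fin.cons x (Fin.cons y (z + t • Pi.single i (1 : ℝ)) :
          Fin (n + 1) → ℝ) : Fin (n + 2) → ℝ)) = fun t =>
          (Fin.cons x (Fin.cons y z : Fin (n + 1) → ℝ) : Fin (n + 2) → ℝ) +
            t • Pi.single i.succ.succ (1 : ℝ) := by
        funext t
        have h3 : t • (Pi.single i (1 : ℝ) : Fin n → ℝ) = Pi.single i t := by
          rw [← Pi.single_smul, smul_eq_mul, mul_one]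
        have h4 : t • (Pi.single i.succ.succ (1 : ℝ) : Fin (n + 2) → ℝ) =
            Pi.single i.succ.succ t := by
          rw [← Pi.single_smul, smul_eq_mul, mul_one]
        rw [h3, h4, cons2_add_single]
      rw [h2]
      have h5 := ((hasDerivAt_id (0 : ℝ)).smul_const
        (Pi.single i.succ.succ (1 : ℝ) : Fin (n + 2) → ℝ)).const_add
        (Fin.cons x (Fin.cons y z : Fin (n + 1) → ℝ) : Fin (n + 2) → ℝ)
      simpa using h5
    have h6 : HasDerivAt (fun t : ℝ => z + t • (Pi.single i (1 : ℝ) : Fin n → ℝ))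
        (Pi.single i (1 : ℝ)) 0 := by
      have h5 := ((hasDerivAt_id (0 : ℝ)).smul_const
        (Pi.single i (1 : ℝ) : Fin n → ℝ)).const_add z
      simpa using h5
    have hA' := hA
    have h7 : z = z + (0 : ℝ) • (Pi.single i (1 : ℝ) : Fin n → ℝ) := by simp
    rw [h7] at hA'
    have h8 := hA'.comp_hasDerivAt (0 : ℝ) h6
    have h9 := h8.unique h1
    rw [← h7] at h9
    exact h9
  have h10 : HasFDerivAt (slice x y f).1 ((fderiv ℝ f.1 (Fin.cons x (Fin.cons y z :
      Fin (n + 1) → ℝ) : Fin (n + 2) → ℝ)).comp (fderiv ℝ (fun z : Fin n → ℝ =>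
      (Fin.cons x (Fin.cons y z : Fin (n + 1) → ℝ) : Fin (n + 2) → ℝ)) z)) z :=
    HasFDerivAt.comp z (Sm.diff_coe f _).hasFDerivAt hA
  rw [h10.fderiv, ContinuousLinearMap.comp_apply, hA2]

/-- the path of slices from `(x, y)` to `(x', y')` -/
noncomputable def sliceS {n : ℕ} (x y x' y' : ℝ) : Sm (n + 2) →⋆ₐ[ℂ] SmS n where
  toFun f := ⟨fun p => f.1 (Fin.cons (x + p.1 * (x' - x)) (Fin.cons (y + p.1 * (y' - y)) p.2 :
      Fin (n + 1) → ℝ) : Fin (n + 2) → ℝ),
    ⟨f.2.1.comp (contDiff_cons2 (contDiff_const.add (contDiff_fst.mul contDiff_const))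
        (contDiff_const.add (contDiff_fst.mul contDiff_const)) contDiff_snd), fun s z i => by
      have h := f.2.2 (Fin.cons (x + s * (x' - x)) (Fin.cons (y + s * (y' - y)) z :
        Fin (n + 1) → ℝ) : Fin (n + 2) → ℝ) i.succ.succ
      rw [← cons2_add_single] at h
      exact h⟩⟩
  map_one' := rfl
  map_mul' _ _ := rfl
  map_zero' := rfl
  map_add' _ _ := rfl
  commutes' _ := rfl
  map_star' _ := rfl

theorem evS_sliceS {n : ℕ} (x y x' y' s : ℝ) (f : Sm (n + 2)) :
    evS s (sliceS x y x' y' f) = slice (x + s * (x' - x)) (y + s * (y' - y)) f := rfl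

variable {ι : Type*} [Fintype ι] [DecidableEq ι] {n : ℕ}

/-- the slice of an invertible matrix -/
noncomputable abbrev sliceU (x y : ℝ) : (Matrix ι ι (Sm (n + 2)))ˣ →* (Matrix ι ι (Sm n))ˣ :=
  Units.map ((slice x y : Sm (n + 2) →⋆ₐ[ℂ] Sm n) : Sm (n + 2) →+* Sm n).mapMatrix.toMonoidHom

/-- the words of the slices -/
theorem slice_word (x y : ℝ) (G : (Matrix ι ι (Sm (n + 2)))ˣ) (w : Fin n → Fin n) :
    (List.ofFn fun j : Fin n => (((sliceU x y G)⁻¹ : (Matrix ι ι (Sm n))ˣ) : Matrix ι ι (Sm n)) *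
      (matCalc ι n).D (w j) ((sliceU x y G : (Matrix ι ι (Sm n))ˣ) : Matrix ι ι (Sm n))).prod =
    ((slice x y : Sm (n + 2) →⋆ₐ[ℂ] Sm n) : Sm (n + 2) →+* Sm n).mapMatrix
      ((List.ofFn fun j : Fin n => (((G⁻¹ : (Matrix ι ι (Sm (n + 2)))ˣ)) :
        Matrix ι ι (Sm (n + 2))) * (zCalc ι n).D (w j) (G : Matrix ι ι (Sm (n + 2)))).prod) := by
  rw [map_list_prod, List.map_ofFn]
  congr 1
  apply congrArg List.ofFn
  funext j
  simp only [Function.comp_apply, map_mul]
  congr 1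
  ext1 a b
  exact (slice_pD x y (w j) ((G : Matrix ι ι (Sm (n + 2))) a b)).symm

theorem trace_slice (x y : ℝ) (M : Matrix ι ι (Sm (n + 2))) :
    Matrix.trace (((slice x y : Sm (n + 2) →⋆ₐ[ℂ] Sm n) : Sm (n + 2) →+* Sm n).mapMatrix M) =
      slice x y (Matrix.trace M) := by
  simp only [Matrix.trace, Matrix.diag_apply, map_sum]
  rfl

theorem slice_oddT_eq (x y : ℝ) (G : (Matrix ι ι (Sm (n + 2)))ˣ) :
    (matCalc ι n).oddT (sliceU x y G) =
      mean (slice x y (∑ σ : Equiv.Perm (Fin n), ((Equiv.Perm.sign σ : ℤ) : ℂ) •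
        Matrix.trace ((List.ofFn fun j : Fin n => (((G⁻¹ : (Matrix ι ι (Sm (n + 2)))ˣ)) :
        Matrix ι ι (Sm (n + 2))) * (zCalc ι n).D (σ j) (G : Matrix ι ι (Sm (n + 2)))).prod))) := by
  rw [Calc.oddT_eq, map_sum, map_sum]
  apply Finset.sum_congr rfl
  intro σ _
  rw [map_smul, map_smul, smul_eq_mul, ← trace_slice, ← slice_word]
  rfl

/-- Fubini: the `z`-calculus is the mean over `(x, y)` of the calculus of the slices -/
theorem zCalc_oddT (G : (Matrix ι ι (Sm (n + 2)))ˣ) :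
    (zCalc ι n).oddT G = ∫ x in (0 : ℝ)..1, ∫ y in (0 : ℝ)..1, (matCalc ι n).oddT
      (Units.map ((slice x y : Sm (n + 2) →⋆ₐ[ℂ] Sm n) : Sm (n + 2) →+* Sm n).mapMatrix.toMonoidHom
        G) := by
  have h1 : ∀ x y : ℝ, (matCalc ι n).oddT
      (Units.map ((slice x y : Sm (n + 2) →⋆ₐ[ℂ] Sm n) : Sm (n + 2) →+* Sm n).mapMatrix.toMonoidHom
        G) = _ := fun x y => slice_oddT_eq x y G
  simp_rw [h1]
  rw [← mean_slice, Calc.oddT_eq, map_sum]
  apply Finset.sum_congr rfl
  intro σ _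
  rw [map_smul, smul_eq_mul]
  rfl

/-- the odd integrand of the slices does not depend on `(x, y)` -/
theorem slice_oddT (hn : Odd n) (G : (Matrix ι ι (Sm (n + 2)))ˣ) (x y x' y' : ℝ) :
    (matCalc ι n).oddT
      (Units.map ((slice x y : Sm (n + 2) →⋆ₐ[ℂ] Sm n) : Sm (n + 2) →+* Sm n).mapMatrix.toMonoidHom
        G) = (matCalc ι n).oddT
      (Units.map ((slice x' y' : Sm (n + 2) →⋆ₐ[ℂ] Sm n) :
        Sm (n + 2) →+* Sm n).mapMatrix.toMonoidHom G) := by
  have h := oddT_path hn (Units.map ((sliceS x y x' y' : Sm (n + 2) →⋆ₐ[ℂ] SmS n) :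
    Sm (n + 2) →+* SmS n).mapMatrix.toMonoidHom G) 0 1
  have h1 : ∀ s a b : ℝ, x + s * (x' - x) = a → y + s * (y' - y) = b →
      evU s (Units.map ((sliceS x y x' y' : Sm (n + 2) →⋆ₐ[ℂ] SmS n) :
        Sm (n + 2) →+* SmS n).mapMatrix.toMonoidHom G) =
      Units.map ((slice a b : Sm (n + 2) →⋆ₐ[ℂ] Sm n) :
        Sm (n + 2) →+* Sm n).mapMatrix.toMonoidHom G := by
    intro s a b ha hb
    subst ha hb
    ext i j
    rfl
  rw [h1 0 x y (by ring) (by ring), h1 1 x' y' (by ring) (by ring)] at h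
  exact h

end Pool.Agent.PD4
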