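import Pool.Agent.PD4.Ix.QWords
import Pool.Agent.PD4.Ix.QFormal
import Pool.Agent.PD4.Ix.QSlice
import Pool.Agent.H40.PD.DerDet

/-!
# Project PD4, index block: integrality of the odd Chern numbers on tori
-/

open MeasureTheory
open scoped ContDiff

namespace Pool.Agent.PD4

universe u

/-- the mean over the one dimensional torus as an interval integral -/
lemma mean_one (f : Sm 1) : mean f = ∫ t in (0 : ℝ)..1, f.1 (fun _ => t) := by
  have h := (volume_preserving_funUnique (Fin 1) ℝ).symm.setIntegral_preimage_emb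
    (MeasurableEquiv.measurableEmbedding _) f.1 (Set.Icc (0 : Fin 1 → ℝ) 1)
  have h2 : (⇑(MeasurableEquiv.funUnique (Fin 1) ℝ).symm) ⁻¹' (Set.Icc (0 : Fin 1 → ℝ) 1) =
      Set.Icc (0 : ℝ) 1 := by
    ext t
    simp only [Set.mem_preimage, Set.mem_Icc, Pi.le_def]
    constructor
    · rintro ⟨h1, h2⟩
      exact ⟨h1 0, h2 0⟩
    · rintro ⟨h1, h2⟩
      exact ⟨fun _ => h1, fun _ => h2⟩
  rw [h2] at h
  rw [intervalIntegral.integral_of_le zero_le_one, ← integral_Icc_eq_integral_Ioc]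
  exact h.symm

lemma oddT_one {ι : Type u} [Fintype ι] [DecidableEq ι] (G : (Matrix ι ι (Sm 1))ˣ) :
    (matCalc ι 1).oddT G = mean ((((G⁻¹ : (Matrix ι ι (Sm 1))ˣ) : Matrix ι ι (Sm 1)).det) *
      pD 0 (G : Matrix ι ι (Sm 1)).det) := by
  rw [Calc.oddT_eq, Fintype.sum_unique]
  have h1 : (default : Equiv.Perm (Fin 1)) = 1 := Subsingleton.elim _ _
  rw [h1]
  simp only [Equiv.Perm.sign_one, Units.val_one, Int.cast_one, one_mul, List.ofFn_succ,
    List.ofFn_zero, List.prod_cons, List.prod_nil, mul_one]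
  change mean ((((G⁻¹ : (Matrix ι ι (Sm 1))ˣ) : Matrix ι ι (Sm 1)) *
      (G : Matrix ι ι (Sm 1)).map (pD 0)).trace) = _
  rw [der_det_inv (pD 0) (fun a b => pD_leib 0 a b) (G : Matrix ι ι (Sm 1))
    ((G⁻¹ : (Matrix ι ι (Sm 1))ˣ) : Matrix ι ι (Sm 1)) (Units.mul_inv G)]

/-- base case: winding number of the determinant -/
theorem integrality_zero {ι : Type u} [Fintype ι] [DecidableEq ι]
    (G : (Matrix ι ι (Sm (2 * 0 + 1)))ˣ) : ∃ z : ℤ, oddCh 0 G = z := by
  change (Matrix ι ι (Sm 1))ˣ at G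
  set d : Sm 1 := (G : Matrix ι ι (Sm 1)).det with hd
  set d' : Sm 1 := ((G⁻¹ : (Matrix ι ι (Sm 1))ˣ) : Matrix ι ι (Sm 1)).det with hd'
  have hdd : d * d' = 1 := by
    rw [hd, hd', ← Matrix.det_mul, Units.mul_inv, Matrix.det_one]
  have hdx : ∀ x, d.1 x * d'.1 x = 1 := fun x => congrFun (congrArg Subtype.val hdd) x
  have hc : ContDiff ℝ ∞ (fun t : ℝ => (fun _ : Fin 1 => t)) :=
    contDiff_pi.mpr fun _ => contDiff_id
  have hf : ContDiff ℝ ∞ (fun t : ℝ => d.1 (fun _ => t)) := d.2.1.comp hc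
  have hder : ∀ t : ℝ, deriv (fun t : ℝ => d.1 (fun _ => t)) t = (pD 0 d).1 (fun _ => t) := by
    intro t
    have h1 : HasFDerivAt d.1 (fderiv ℝ d.1 (fun _ => t)) (fun _ : Fin 1 => t) :=
      (d.2.1.differentiable (by simp) _).hasFDerivAt
    have h2 : HasDerivAt (fun t : ℝ => (fun _ : Fin 1 => t)) (fun _ => 1) t :=
      hasDerivAt_pi.mpr fun _ => hasDerivAt_id t
    have h3 := (h1.comp_hasDerivAt t h2).deriv
    rw [show (fun t : ℝ => d.1 (fun _ => t)) = d.1 ∘ (fun t : ℝ => (fun _ : Fin 1 => t)) from rfl,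
      h3]
    change _ = fderiv ℝ d.1 (fun _ => t) (Pi.single 0 1)
    congr 1
    ext i
    rw [Subsingleton.elim i 0, Pi.single_eq_same]
  obtain ⟨z, hz⟩ := winding (fun t : ℝ => d.1 (fun _ => t)) hf
    (fun x h => by
      have h' : d.1 (fun _ => x) = 0 := h
      have := hdx (fun _ => x)
      rw [h', zero_mul] at this
      exact zero_ne_one this)
    (by
      have := d.2.2 (fun _ => 0) 0
      change d.1 (fun _ => 1) = d.1 (fun _ => 0)
      rw [← this]
      refine congrArg d.1 (funext fun i => ?_)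
      rw [Subsingleton.elim i 0]
      simp)
  refine ⟨z, ?_⟩
  have h1 : oddCh 0 G = cst 0 * mean (d' * pD 0 d) := by
    unfold oddCh
    congr 1
    exact oddT_one G
  have h2 : mean (d' * pD 0 d) = z * (2 * Real.pi * Complex.I) := by
    rw [mean_one, ← hz]
    refine intervalIntegral.integral_congr fun t _ => ?_
    simp only [hder]
    change d'.1 (fun _ => t) * (pD 0 d).1 (fun _ => t) = _
    rw [eq_div_iff, mul_comm, ← mul_assoc, hdx, one_mul]
    intro h
    have := hdx (fun _ => t)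
    rw [h, zero_mul] at this
    exact zero_ne_one this
  rw [h1, h2]
  unfold cst
  have hpi : (2 * Real.pi * Complex.I : ℂ) ≠ 0 := Complex.two_pi_I_ne_zero
  simp only [Nat.factorial_zero, Nat.cast_one, mul_zero, zero_add, Nat.factorial_one, pow_one,
    one_mul]
  field_simp

/-- **INTEGRALITY THEOREM**: `oddCh k G ∈ ℤ` for every smooth `G : T^{2k+1} → GL`. -/
theorem integrality {ι : Type u} [Fintype ι] [DecidableEq ι] (k : ℕ)
    (G : (Matrix ι ι (Sm (2 * k + 1)))ˣ) : ∃ z : ℤ, oddCh k G = z := by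
  induction k generalizing ι with
  | zero => exact integrality_zero G
  | succ k ih =>
    set n : ℕ := 2 * k + 1 with hn
    have hodd : Odd n := ⟨k, rfl⟩
    change (Matrix ι ι (Sm (n + 2)))ˣ at G
    obtain ⟨C, N₀, hw⟩ := quant_words G
    -- the integer `a`
    obtain ⟨a, ha⟩ := ih (Units.map ((slice 0 0 : Sm (n + 2) →⋆ₐ[ℂ] Sm n) :
      Sm (n + 2) →+* Sm n).mapMatrix.toMonoidHom G)
    have hz : cst k * (zCalc ι n).oddT G = a := by
      rw [zCalc_oddT, ← ha]
      unfold oddCh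
      congr 1
      have : ∀ x y : ℝ, (matCalc ι n).oddT
          (Units.map ((slice x y : Sm (n + 2) →⋆ₐ[ℂ] Sm n) :
            Sm (n + 2) →+* Sm n).mapMatrix.toMonoidHom G) = (matCalc ι n).oddT
          (Units.map ((slice 0 0 : Sm (n + 2) →⋆ₐ[ℂ] Sm n) :
            Sm (n + 2) →+* Sm n).mapMatrix.toMonoidHom G) :=
        fun x y => slice_oddT hodd G x y 0 0
      simp only [this, intervalIntegral.integral_const, sub_zero, one_smul]
      rfl
    -- the constant term
    have hb : cst k * ((1 / (2 * Real.pi * Complex.I)) *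
        ((1 / (2 * ((n : ℂ) + 2))) * (matCalc ι (n + 2)).oddT G)) = oddCh (k + 1) G := by
      unfold oddCh
      change _ = cst (k + 1) * (matCalc ι (n + 2)).oddT G
      rw [← mul_assoc, ← mul_assoc]
      congr 1
      unfold cst
      have h1 : ((k + 1).factorial : ℂ) = (k + 1 : ℂ) * (k.factorial : ℂ) := by
        rw [Nat.factorial_succ]; push_cast; ring
      have h2 : ((2 * (k + 1) + 1).factorial : ℂ) =
          (2 * (k : ℂ) + 3) * ((2 * (k : ℂ) + 2) * ((2 * k + 1).factorial : ℂ)) := by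
        rw [show 2 * (k + 1) + 1 = (2 * k + 1 + 1) + 1 by ring, Nat.factorial_succ,
          Nat.factorial_succ]
        push_cast; ring
      have h3 : ((2 * k + 1).factorial : ℂ) ≠ 0 := by
        exact_mod_cast Nat.factorial_ne_zero _
      have h4 : (2 * (k : ℂ) + 3) ≠ 0 := by
        have : ((2 * k + 3 : ℕ) : ℂ) ≠ 0 := Nat.cast_ne_zero.mpr (by omega)
        push_cast at this; exact this
      have h5 : ((k : ℂ) + 1) ≠ 0 := by
        have : ((k + 1 : ℕ) : ℂ) ≠ 0 := Nat.cast_ne_zero.mpr (by omega)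
        push_cast at this; exact this
      have hpi : (2 * Real.pi * Complex.I : ℂ) ≠ 0 := Complex.two_pi_I_ne_zero
      have hn' : (n : ℂ) = 2 * k + 1 := by rw [hn]; push_cast; ring
      rw [h1, h2, hn', pow_succ (2 * (Real.pi : ℂ) * Complex.I) (k + 1)]
      have h6 : (2 * (k : ℂ) + 2) = 2 * (k + 1) := by ring
      have h7 : (2 * (k : ℂ) + 1 + 2) = 2 * k + 3 := by ring
      rw [h6, h7]
      field_simp
    have key : ∀ N : ℕ, N₀ ≤ N → 0 < N → ∃ z : ℤ, ‖oddCh (k + 1) G - z‖ ≤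
        (‖cst k‖ * (Fintype.card (Equiv.Perm (Fin n)) * C)) / N := by
      intro N hN hN0
      obtain ⟨U, hU, hword⟩ := hw N hN hN0
      obtain ⟨b, hb'⟩ := ih U
      refine ⟨b - N * a, ?_⟩
      have hNC : (N : ℂ) ≠ 0 := by exact_mod_cast hN0.ne'
      have hNR : (0 : ℝ) < N := by exact_mod_cast hN0
      set W : (Fin n → Fin n) → ℂ := fun w => (matCalc (Fin N × ι) n).tr
        ((List.ofFn fun j : Fin n =>
              ((U⁻¹ : (Matrix (Fin N × ι) (Fin N × ι) (Sm n))ˣ) :
                Matrix (Fin N × ι) (Fin N × ι) (Sm n)) *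
              (pD (w j)).mapMatrix (U : Matrix (Fin N × ι) (Fin N × ι) (Sm n))).prod) with hW
      set V : (Fin n → Fin n) → ℂ := fun w =>
        (matCalc ι (n + 2)).tr ((List.ofFn fun j : Fin n => Az G (w j)).prod) with hV
      have hoU : (matCalc (Fin N × ι) n).oddT U =
          ∑ σ : Equiv.Perm (Fin n), ((Equiv.Perm.sign σ : ℤ) : ℂ) * W σ := by
        rw [Calc.oddT_eq]; rfl
      have hoz : (zCalc ι n).oddT G =
          ∑ σ : Equiv.Perm (Fin n), ((Equiv.Perm.sign σ : ℤ) : ℂ) * V σ := by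
        rw [Calc.oddT_eq]; rfl
      have hE : ‖∑ σ : Equiv.Perm (Fin n), ((Equiv.Perm.sign σ : ℤ) : ℂ) *
          ((1 / (N : ℂ)) * W σ - V σ - (1 / (2 * Real.pi * Complex.I * N)) * word1 G σ)‖ ≤
          Fintype.card (Equiv.Perm (Fin n)) * (C / (N : ℝ) ^ 2) := by
        refine (norm_sum_le _ _).trans ?_
        refine (Finset.sum_le_card_nsmul Finset.univ _ (C / (N : ℝ) ^ 2) fun σ _ => ?_).trans ?_
        · rw [norm_mul]
          have h1 : ‖((Equiv.Perm.sign σ : ℤ) : ℂ)‖ = 1 := by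
            rcases Int.units_eq_one_or (Equiv.Perm.sign σ) with h | h <;> rw [h] <;> simp
          rw [h1, one_mul]
          exact hword σ
        · rw [nsmul_eq_mul]; rfl
      have hsum : ∑ σ : Equiv.Perm (Fin n), ((Equiv.Perm.sign σ : ℤ) : ℂ) *
          ((1 / (N : ℂ)) * W σ - V σ - (1 / (2 * Real.pi * Complex.I * N)) * word1 G σ) =
          (1 / (N : ℂ)) * (matCalc (Fin N × ι) n).oddT U - (zCalc ι n).oddT G -
            (1 / (2 * Real.pi * Complex.I * N)) *
              ((1 / (2 * ((n : ℂ) + 2))) * (matCalc ι (n + 2)).oddT G) := by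
        rw [hoU, hoz, ← quant_formal hodd G, Finset.mul_sum, Finset.mul_sum,
          ← Finset.sum_sub_distrib, ← Finset.sum_sub_distrib]
        refine Finset.sum_congr rfl fun σ _ => ?_
        ring
      have hfin : oddCh (k + 1) G - ((b - N * a : ℤ) : ℂ) = - (cst k * N) *
          ∑ σ : Equiv.Perm (Fin n), ((Equiv.Perm.sign σ : ℤ) : ℂ) *
          ((1 / (N : ℂ)) * W σ - V σ - (1 / (2 * Real.pi * Complex.I * N)) * word1 G σ) := by
        rw [hsum, ← hb]
        push_cast
        rw [← hb', ← hz]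
        unfold oddCh
        have hpi : (2 * Real.pi * Complex.I : ℂ) ≠ 0 := Complex.two_pi_I_ne_zero
        have e1 : (N : ℂ) * (1 / N) = 1 := by field_simp
        have e2 : (N : ℂ) * (1 / (2 * Real.pi * Complex.I * N)) =
            1 / (2 * Real.pi * Complex.I) := by field_simp
        linear_combination (cst k * (matCalc (Fin N × ι) n).oddT U) * e1 -
          (cst k * ((1 / (2 * ((n : ℂ) + 2))) * (matCalc ι (n + 2)).oddT G)) * e2
      rw [hfin, norm_mul, norm_neg, norm_mul, Complex.norm_natCast]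
      calc ‖cst k‖ * N * _ ≤ ‖cst k‖ * N *
            (Fintype.card (Equiv.Perm (Fin n)) * (C / (N : ℝ) ^ 2)) :=
            mul_le_mul_of_nonneg_left hE (by positivity)
        _ = (‖cst k‖ * (Fintype.card (Equiv.Perm (Fin n)) * C)) / N := by
            field_simp
    exact int_of_approx _ _ N₀ key

end Pool.Agent.PD4
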