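import Pool.Agent.PD4.Ix.Sm

/-!
# Project PD4: Laurent polynomials and their evaluation on the torus
-/

open scoped ContDiff

namespace Pool.Agent.PD4

/-- real Laurent polynomials in `n` variables = the group ring `ℝ[ℤⁿ]` -/
abbrev Laurent (n : ℕ) := AddMonoidAlgebra ℝ (Fin n → ℤ)

/-- `⟨m, v⟩` -/
def dotv {n : ℕ} (v : Fin n → ℝ) (m : Fin n → ℤ) : ℝ := ∑ i, (m i : ℝ) * v i

lemma dotv_add {n : ℕ} (v : Fin n → ℝ) (m m' : Fin n → ℤ) :
    dotv v (m + m') = dotv v m + dotv v m' := by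
  simp only [dotv, Pi.add_apply, Int.cast_add, add_mul, Finset.sum_add_distrib]

lemma dotv_zero {n : ℕ} (v : Fin n → ℝ) : dotv v 0 = 0 := by simp [dotv]

lemma ex_zero {n : ℕ} : (Sm.ex 0 : Sm n) = 1 := by
  apply Subtype.ext
  funext x
  simp [Sm.ex]

lemma ex_add {n : ℕ} (m m' : Fin n → ℤ) : (Sm.ex (m + m') : Sm n) = Sm.ex m * Sm.ex m' := by
  apply Subtype.ext
  funext x
  change Complex.exp _ = Complex.exp _ * Complex.exp _
  rw [← Complex.exp_add]
  congr 1
  rw [← mul_add, ← Finset.sum_add_distrib]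
  congr 1
  refine Finset.sum_congr rfl fun i _ => ?_
  simp only [Pi.add_apply]
  push_cast
  ring

lemma ex_norm {n : ℕ} (m : Fin n → ℤ) (x : Fin n → ℝ) : ‖(Sm.ex m : Sm n).1 x‖ = 1 := by
  change ‖Complex.exp _‖ = 1
  have e : 2 * (Real.pi : ℂ) * Complex.I * ∑ i, (m i : ℂ) * (x i : ℂ) =
      ((2 * Real.pi * ∑ i, (m i : ℝ) * x i : ℝ) : ℂ) * Complex.I := by
    push_cast
    ring
  rw [e, Complex.norm_exp_ofReal_mul_I]

lemma ex_real {n : ℕ} (m : Fin n → ℤ) : Sm.IsReal (Sm.ex m : Sm n) := by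
  apply Subtype.ext
  funext x
  change Complex.exp _ = (starRingEnd ℂ) (Complex.exp _)
  rw [← Complex.exp_conj]
  congr 1
  simp only [map_mul, map_sum, Complex.conj_I, Complex.conj_ofReal, Pi.neg_apply,
    Complex.ofReal_neg, mul_neg, Finset.sum_neg_distrib, map_ofNat]
  simp

/-- evaluation on the torus with radii `exp(t v_i)`: `X^m ↦ exp(t ⟨m,v⟩) e(m·x)` -/
noncomputable def sev {n : ℕ} (v : Fin n → ℝ) (t : ℝ) : Laurent n →+* Sm n :=
  ((AddMonoidAlgebra.lift ℝ (Sm n) (Fin n → ℤ))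
    { toFun := fun m => (Real.exp (t * ∑ i, (m.toAdd i : ℝ) * v i) : ℂ) • Sm.ex m.toAdd
      map_one' := by
        change (Real.exp (t * dotv v 0) : ℂ) • Sm.ex 0 = 1
        rw [dotv_zero, ex_zero]
        simp
      map_mul' := fun m m' => by
        change (Real.exp (t * dotv v (m.toAdd + m'.toAdd)) : ℂ) • Sm.ex (m.toAdd + m'.toAdd) =
          ((Real.exp (t * dotv v m.toAdd) : ℂ) • Sm.ex m.toAdd) *
            ((Real.exp (t * dotv v m'.toAdd) : ℂ) • Sm.ex m'.toAdd)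
        rw [dotv_add, ex_add, mul_add, Real.exp_add, Complex.ofReal_mul, smul_mul_smul_comm] }
    ).toRingHom

/-- evaluation on the unit torus -/
noncomputable def lev {n : ℕ} : Laurent n →+* Sm n := sev 0 0

theorem sev_single {n : ℕ} (v : Fin n → ℝ) (t : ℝ) (m : Fin n → ℤ) (c : ℝ) :
    sev v t (AddMonoidAlgebra.single m c) =
      ((c * Real.exp (t * dotv v m) : ℝ) : ℂ) • (Sm.ex m : Sm n) := by
  change (AddMonoidAlgebra.lift ℝ (Sm n) (Fin n → ℤ)) _ (AddMonoidAlgebra.single m c) = _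
  rw [AddMonoidAlgebra.lift_single]
  change c • ((Real.exp (t * dotv v m) : ℂ) • Sm.ex m) = _
  rw [Complex.ofReal_mul, ← smul_smul]
  rfl

theorem lev_single {n : ℕ} (m : Fin n → ℤ) (c : ℝ) :
    lev (AddMonoidAlgebra.single m c) = (c : ℂ) • (Sm.ex m : Sm n) := by
  unfold lev
  rw [sev_single]
  simp

theorem sev_zero_left {n : ℕ} (v : Fin n → ℝ) : (sev v 0 : Laurent n →+* Sm n) = lev := by
  apply AddMonoidAlgebra.ringHom_ext
  · intro r
    unfold lev
    rw [sev_single, sev_single]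
    simp
  · intro m
    unfold lev
    rw [sev_single, sev_single]
    simp

end Pool.Agent.PD4
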