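import Pool.Agent.PD4.Ix.LoopC
import Pool.Agent.PD4.Ix.Integ

/-!
# Project PD4, index block: contribution of a path, closed chains of paths (helper21)

`pathInt k G`, for a path `G` of invertible matrices on `T^{2k}`:
`cst k (2k+1) ∫_0^1 T_s (α A^{2k}) ds`, `α = G⁻¹ ∂_s G`, `A = G⁻¹ dG`.

* `LoopA.lean`: `pathDens`, `pathInt`, `pathDens_continuous`, `pathInt_repar`, `pathInt_const`;
* `LoopB.lean`: `pathInt_real`, `pathInt_half`;
* `LoopC.lean`: `pathInt_loop`, `pathInt_cat`, `chain_cat`;
* here: `chain_integrality`.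
-/

open MeasureTheory TensorProduct
open scoped ContDiff

namespace Pool.Agent.PD4

universe u

variable {ι : Type u} [Fintype ι] [DecidableEq ι]

/-- a closed path has an integral contribution -/
theorem pathInt_closed (k : ℕ) (G : (Matrix ι ι (SmS (2 * k)))ˣ) (h : evU 1 G = evU 0 G) :
    ∃ z : ℤ, pathInt k G = z := by
  rw [pathInt_loop k G h]
  exact integrality k _

/-- **closed chains of paths have integral contribution** -/
theorem chain_integrality (k m : ℕ) [NeZero m] (G : Fin m → (Matrix ι ι (SmS (2 * k)))ˣ)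
    (h : ∀ i, evU 1 (G i) = evU 0 (G (i + 1))) : ∃ z : ℤ, ∑ i, pathInt k (G i) = z := by
  obtain _ | m := m
  · exact absurd rfl (NeZero.ne 0)
  obtain ⟨H, h0, h1, h2⟩ := chain_cat k m G (fun i => by
    rw [h i.castSucc, Fin.coeSucc_eq_succ])
  rw [← h2]
  refine pathInt_closed k H ?_
  rw [h0, h1, h (Fin.last m), Fin.last_add_one]

end Pool.Agent.PD4
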