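import Pool.Agent.PD4.Ix.Cat

/-!
# Project PD4, index block: the density of a path (helper21)

`Calc.densT b G = T (b (G⁻¹ dG)^n)`, `pathDens G s = densT (G_s⁻¹ ∂_s G) G_s`, `pathInt`.
Permutation formula, continuity, reparametrisation, paths constant on the torus.
-/

open MeasureTheory TensorProduct
open scoped ContDiff

namespace Pool.Agent.PD4

section Alg

variable {R : Type*} [Ring R] [Algebra ℂ R] {n : ℕ} (C : Calc R n)

/-- `T (b (G⁻¹ dG)^n)` -/
noncomputable def Calc.densT (b : R) (G : Rˣ) : ℂ :=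
  C.TT ((b ⊗ₜ[ℂ] (1 : Ext n)) *
      ((((G⁻¹ : Rˣ) : R) ⊗ₜ[ℂ] (1 : Ext n)) * C.dd ((G : R) ⊗ₜ[ℂ] (1 : Ext n))) ^ n)

/-- permutation formula -/
lemma Calc.densT_eq (b : R) (G : Rˣ) : C.densT b G =
    ∑ σ : Equiv.Perm (Fin n), ((Equiv.Perm.sign σ : ℤ) : ℂ) *
      C.tr (b * (List.ofFn fun j : Fin n => (((G⁻¹ : Rˣ) : R) * C.D (σ j) (G : R))).prod) := by
  unfold Calc.densT
  rw [← C.TT_pow b (fun i => ((G⁻¹ : Rˣ) : R) * C.D i (G : R)), C.dd_tmul, Finset.mul_sum]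
  congr 2
  congr 1
  refine Finset.sum_congr rfl fun i _ => ?_
  rw [Algebra.TensorProduct.tmul_mul_tmul, one_mul, mul_one]

lemma Calc.densT_smul (c : ℂ) (b : R) (G : Rˣ) : C.densT (c • b) G = c * C.densT b G := by
  unfold Calc.densT
  rw [← TensorProduct.smul_tmul', smul_mul_assoc, map_smul, smul_eq_mul]

lemma Calc.densT_zero (G : Rˣ) : C.densT 0 G = 0 := by
  unfold Calc.densT
  rw [TensorProduct.zero_tmul, zero_mul, map_zero]

/-- functoriality -/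
lemma Calc.densT_map {R' : Type*} [Ring R'] [Algebra ℂ R'] (C' : Calc R' n) (φ : R →ₐ[ℂ] R')
    (hD : ∀ i a, φ (C.D i a) = C'.D i (φ a)) (htr : ∀ a, C'.tr (φ a) = C.tr a)
    (b : R) (b' : R') (hb : b' = φ b) (G : Rˣ) (G' : R'ˣ) (hG : (G' : R') = φ G) :
    C'.densT b' G' = C.densT b G := by
  have hG' : ((G'⁻¹ : R'ˣ) : R') = φ ((G⁻¹ : Rˣ) : R) := by
    have h1 : (G' : R') * φ ((G⁻¹ : Rˣ) : R) = 1 := by
      rw [hG, ← map_mul, Units.mul_inv, map_one]
    calc ((G'⁻¹ : R'ˣ) : R') = ((G'⁻¹ : R'ˣ) : R') * ((G' : R') * φ ((G⁻¹ : Rˣ) : R)) := by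
          rw [h1, mul_one]
      _ = _ := by rw [← mul_assoc, Units.inv_mul, one_mul]
  unfold Calc.densT
  rw [← pth_TT_map C C' φ htr]
  congr 1
  rw [map_mul, map_pow, map_mul, pth_dd_map C C' φ hD,
    Algebra.TensorProduct.map_tmul, Algebra.TensorProduct.map_tmul,
    Algebra.TensorProduct.map_tmul, hG', hG, hb]
  simp only [map_one]

end Alg

variable {ι : Type*} [Fintype ι] [DecidableEq ι]

/-- the density `T_s (α A^n)` of a path -/
noncomputable def pathDens {n : ℕ} (G : (Matrix ι ι (SmS n))ˣ) (s : ℝ) : ℂ :=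
  (matCalcS ι n s).TT
    (((((G⁻¹ : (Matrix ι ι (SmS n))ˣ) : Matrix ι ι (SmS n)) *
        (pDs (n := n)).mapMatrix (G : Matrix ι ι (SmS n))) ⊗ₜ[ℂ] (1 : Ext n)) *
      ((((G⁻¹ : (Matrix ι ι (SmS n))ˣ) : Matrix ι ι (SmS n)) ⊗ₜ[ℂ] (1 : Ext n)) *
        (matCalcS ι n s).dd ((G : Matrix ι ι (SmS n)) ⊗ₜ[ℂ] (1 : Ext n))) ^ n)

/-- contribution of a path to the odd Chern number on `S¹ × T^{2k}` -/
noncomputable def pathInt (k : ℕ) (G : (Matrix ι ι (SmS (2 * k)))ˣ) : ℂ :=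
  cst k * (2 * k + 1) * ∫ s in (0 : ℝ)..1, pathDens G s

/-- the velocity of a path at time `s` -/
noncomputable def velU {n : ℕ} (s : ℝ) (G : (Matrix ι ι (SmS n))ˣ) : Matrix ι ι (Sm n) :=
  ((pDs (n := n)).mapMatrix (G : Matrix ι ι (SmS n))).map (evS s)

lemma pathDens_eq_densT {n : ℕ} (G : (Matrix ι ι (SmS n))ˣ) (s : ℝ) :
    pathDens G s = (matCalc ι n).densT
      ((((evU s G)⁻¹ : (Matrix ι ι (Sm n))ˣ) : Matrix ι ι (Sm n)) * velU s G) (evU s G) := by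
  symm
  refine Calc.densT_map (matCalcS ι n s) (matCalc ι n) _ (pth_hD s) (pth_htr s)
    (((G⁻¹ : (Matrix ι ι (SmS n))ˣ) : Matrix ι ι (SmS n)) *
        (pDs (n := n)).mapMatrix (G : Matrix ι ι (SmS n))) _ ?_ G (evU s G) rfl
  rw [map_mul]
  rw [← map_inv]
  rfl

/-- the density depends only on the value and the velocity -/
lemma pathDens_congr {n : ℕ} (G H : (Matrix ι ι (SmS n))ˣ) (s t : ℝ) (c : ℂ)
    (h : evU s G = evU t H) (h' : velU s G = c • velU t H) :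
    pathDens G s = c * pathDens H t := by
  rw [pathDens_eq_densT, pathDens_eq_densT, h, h', mul_smul_comm, Calc.densT_smul]

/-- the density is continuous in the parameter -/
lemma pathDens_continuous {n : ℕ} (G : (Matrix ι ι (SmS n))ˣ) : Continuous (pathDens G) := by
  have h : ∀ s : ℝ, DifferentiableAt ℝ (pathDens G) s := by
    intro s
    have h1 := hasDerivAt_TT (ι := ι) (((((G⁻¹ : (Matrix ι ι (SmS n))ˣ) : Matrix ι ι (SmS n)) *
        (pDs (n := n)).mapMatrix (G : Matrix ι ι (SmS n))) ⊗ₜ[ℂ] (1 : Ext n)) *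
      ((((G⁻¹ : (Matrix ι ι (SmS n))ˣ) : Matrix ι ι (SmS n)) ⊗ₜ[ℂ] (1 : Ext n)) *
        (matCalcS ι n s).dd ((G : Matrix ι ι (SmS n)) ⊗ₜ[ℂ] (1 : Ext n))) ^ n) s
    exact h1.differentiableAt
  have hd : Differentiable ℝ (pathDens G) := h
  exact hd.continuous

lemma velU_reparU {n : ℕ} (φ : ℝ → ℝ) (hφ : ContDiff ℝ ∞ φ) (G : (Matrix ι ι (SmS n))ˣ) (s : ℝ) :
    velU s (reparU φ hφ G) = ((deriv φ s : ℝ) : ℂ) • velU (φ s) G := by
  ext1 i j
  exact pDs_reparS φ hφ ((G : Matrix ι ι (SmS n)) i j) s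

lemma pathDens_reparU {n : ℕ} (φ : ℝ → ℝ) (hφ : ContDiff ℝ ∞ φ) (G : (Matrix ι ι (SmS n))ˣ)
    (s : ℝ) : pathDens (reparU φ hφ G) s = ((deriv φ s : ℝ) : ℂ) * pathDens G (φ s) :=
  pathDens_congr _ _ _ _ _ (evU_reparU φ hφ s G) (velU_reparU φ hφ G s)

/-- change of variables -/
lemma integral_repar {F : ℝ → ℂ} (hF : Continuous F) (φ : ℝ → ℝ) (hφ : ContDiff ℝ ∞ φ)
    (a b : ℝ) : ∫ s in a..b, ((deriv φ s : ℝ) : ℂ) * F (φ s) = ∫ u in (φ a)..(φ b), F u := by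
  have h := intervalIntegral.integral_deriv_smul_comp (a := a) (b := b) (f := φ)
    (f' := deriv φ) (g := F)
    (fun x _ => ((hφ.differentiable (by simp)) x).hasDerivAt)
    ((hφ.continuous_deriv (by simp)).continuousOn) hF
  rw [← h]
  refine intervalIntegral.integral_congr fun s _ => ?_
  simp only [Function.comp_apply]
  rw [Complex.real_smul]

/-- invariance under reparametrisation -/
lemma pathInt_repar (k : ℕ) (G : (Matrix ι ι (SmS (2 * k)))ˣ) (φ : ℝ → ℝ)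
    (hφ : ContDiff ℝ ∞ φ) (h0 : φ 0 = 0) (h1 : φ 1 = 1) :
    pathInt k (Units.map ((reparS φ hφ : SmS (2 * k) →⋆ₐ[ℂ] SmS (2 * k)) :
      SmS (2 * k) →+* SmS (2 * k)).mapMatrix.toMonoidHom G) = pathInt k G := by
  unfold pathInt
  congr 1
  have h := integral_repar (pathDens_continuous G) φ hφ 0 1
  rw [h0, h1] at h
  rw [← h]
  exact intervalIntegral.integral_congr fun s _ => pathDens_reparU φ hφ G s

/-- a path that does not depend on the torus variables contributes `0` -/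
lemma pathInt_const (k : ℕ) (hk : k ≠ 0) (G : (Matrix ι ι (SmS (2 * k)))ˣ)
    (hG : ∀ i, (pDS i).mapMatrix (G : Matrix ι ι (SmS (2 * k))) = 0) : pathInt k G = 0 := by
  have h : ∀ s, pathDens G s = 0 := by
    intro s
    unfold pathDens
    have h1 : (matCalcS ι (2 * k) s).dd ((G : Matrix ι ι (SmS (2 * k))) ⊗ₜ[ℂ]
        (1 : Ext (2 * k))) = 0 := by
      rw [Calc.dd_tmul]
      refine Finset.sum_eq_zero fun i _ => ?_
      have h2 : (matCalcS ι (2 * k) s).D i (G : Matrix ι ι (SmS (2 * k))) = 0 := hG i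
      rw [h2, TensorProduct.zero_tmul]
    rw [h1, mul_zero, zero_pow (by omega), mul_zero, map_zero]
  unfold pathInt
  simp only [h, intervalIntegral.integral_zero, mul_zero]

end Pool.Agent.PD4
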