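import Pool.Agent.PD4.Ix.LoopA
import Pool.Agent.PD4.Ix.RPath

/-!
# Project PD4, index block: Real paths and half loops (helper21)

* `pathInt_real`: a Real path contributes a purely imaginary number (`k` even);
* `pathInt_half`: the half loop `exp(iπ s p)` contributes `(-1)^k/2 · ch_k(p)`.
-/

open MeasureTheory TensorProduct
open scoped ContDiff

namespace Pool.Agent.PD4

variable {ι : Type*} [Fintype ι] [DecidableEq ι]

/-- naturality of the density under (semilinear) maps of the coefficients -/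
lemma densT_naturality {n : ℕ} (φ : Sm n →+* Sm n) (ψ : ℂ →+* ℂ) (ε : ℂ)
    (hD : ∀ i f, pD i (φ f) = ε • φ (pD i f)) (hm : ∀ f, mean (φ f) = ψ (mean f))
    (b : Matrix ι ι (Sm n)) (G : (Matrix ι ι (Sm n))ˣ) (hb : φ.mapMatrix b = b)
    (hG : φ.mapMatrix (G : Matrix ι ι (Sm n)) = (G : Matrix ι ι (Sm n))) :
    (matCalc ι n).densT b G = ε ^ n * ψ ((matCalc ι n).densT b G) := by
  conv_lhs => rw [Calc.densT_eq]
  rw [Calc.densT_eq, map_sum, Finset.mul_sum]
  refine Finset.sum_congr rfl fun σ _ => ?_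
  rw [map_mul ψ, map_intCast ψ]
  have hG' : φ.mapMatrix ((G⁻¹ : (Matrix ι ι (Sm n))ˣ) : Matrix ι ι (Sm n)) =
      ((G⁻¹ : (Matrix ι ι (Sm n))ˣ) : Matrix ι ι (Sm n)) := by
    have h1 : (G : Matrix ι ι (Sm n)) *
        φ.mapMatrix ((G⁻¹ : (Matrix ι ι (Sm n))ˣ) : Matrix ι ι (Sm n)) = 1 := by
      conv_lhs => rw [← hG]
      rw [← map_mul, Units.mul_inv, map_one]
    calc φ.mapMatrix ((G⁻¹ : (Matrix ι ι (Sm n))ˣ) : Matrix ι ι (Sm n)) =
        ((G⁻¹ : (Matrix ι ι (Sm n))ˣ) : Matrix ι ι (Sm n)) * ((G : Matrix ι ι (Sm n)) *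
          φ.mapMatrix ((G⁻¹ : (Matrix ι ι (Sm n))ˣ) : Matrix ι ι (Sm n))) := by
          rw [← mul_assoc, Units.inv_mul, one_mul]
      _ = _ := by rw [h1, mul_one]
  have h1 : ∀ j, ((G⁻¹ : (Matrix ι ι (Sm n))ˣ) : Matrix ι ι (Sm n)) *
      (matCalc ι n).D j (G : Matrix ι ι (Sm n)) =
      ε • φ.mapMatrix (((G⁻¹ : (Matrix ι ι (Sm n))ˣ) : Matrix ι ι (Sm n)) *
        (matCalc ι n).D j (G : Matrix ι ι (Sm n))) := by
    intro j
    rw [map_mul, hG', ← mul_smul_comm]
    congr 1
    conv_lhs => rw [← hG]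
    ext1 a c
    exact hD j ((G : Matrix ι ι (Sm n)) a c)
  have h2 : (List.ofFn fun j : Fin n => ((G⁻¹ : (Matrix ι ι (Sm n))ˣ) : Matrix ι ι (Sm n)) *
      (matCalc ι n).D (σ j) (G : Matrix ι ι (Sm n))).prod =
      ε ^ n • φ.mapMatrix (List.ofFn fun j : Fin n =>
        ((G⁻¹ : (Matrix ι ι (Sm n))ˣ) : Matrix ι ι (Sm n)) *
          (matCalc ι n).D (σ j) (G : Matrix ι ι (Sm n))).prod := by
    have h3 : ∀ L : List (Matrix ι ι (Sm n)),
        (L.map fun M => ε • φ.mapMatrix M).prod = ε ^ L.length • φ.mapMatrix L.prod := by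
      intro L
      induction L with
      | nil => simp
      | cons a L ih =>
        rw [List.map_cons, List.prod_cons, ih, List.prod_cons, map_mul, List.length_cons,
          pow_succ, smul_mul_smul_comm, mul_comm ε]
    have h4 := h3 (List.ofFn fun j : Fin n =>
        ((G⁻¹ : (Matrix ι ι (Sm n))ˣ) : Matrix ι ι (Sm n)) *
          (matCalc ι n).D (σ j) (G : Matrix ι ι (Sm n)))
    rw [List.length_ofFn, List.map_ofFn] at h4
    rw [← h4]
    congr 2
    funext j
    exact h1 (σ j)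
  have h6 : ∀ M : Matrix ι ι (Sm n), (matCalc ι n).tr (φ.mapMatrix M) =
      ψ ((matCalc ι n).tr M) := by
    intro M
    change mean (Matrix.trace (φ.mapMatrix M)) = ψ (mean (Matrix.trace M))
    rw [← hm]
    congr 1
    simp [Matrix.trace]
  conv_lhs => rw [h2, ← hb]
  rw [mul_smul_comm, ← map_mul, map_smul, h6, smul_eq_mul]
  ring

/-- the Real structure `f ↦ conj f(-x)` -/
noncomputable def realHom (n : ℕ) : Sm n →+* Sm n :=
  ((Sm.inv : Sm n →⋆ₐ[ℂ] Sm n) : Sm n →+* Sm n).comp (starRingEnd (Sm n))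

lemma realHom_apply {n : ℕ} (f : Sm n) : realHom n f = Sm.inv (star f) := rfl

lemma MReal.realHom {n : ℕ} {M : Matrix ι ι (Sm n)} (h : MReal M) :
    (realHom n).mapMatrix M = M := by
  ext1 i j
  change Sm.inv (star (M i j)) = M i j
  rw [map_star, h i j, star_star]

lemma densT_real {n : ℕ} (hn : Even n) (b : Matrix ι ι (Sm n)) (G : (Matrix ι ι (Sm n))ˣ)
    (hb : MReal b) (hG : MReal (G : Matrix ι ι (Sm n))) :
    (((matCalc ι n).densT b G).re : ℂ) = (matCalc ι n).densT b G := by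
  have h := densT_naturality (realHom n) (starRingEnd ℂ) (-1)
    (fun i f => by
      rw [realHom_apply, realHom_apply, pD_inv, pD_star, neg_smul, one_smul])
    (fun f => by
      rw [realHom_apply, mean_inv, mean_star]
      rfl) b G hb.realHom hG.realHom
  rw [hn.neg_one_pow, one_mul] at h
  exact Complex.conj_eq_iff_re.1 h.symm

lemma pDs_real {n : ℕ} (f : SmS n) (hf : ∀ s, Sm.IsReal (evS s f)) (s : ℝ) :
    Sm.IsReal (evS s (pDs f)) := by
  apply Subtype.ext
  funext x
  have hd : ∀ x : Fin n → ℝ, HasDerivAt (fun t => f.1 (t, x)) ((pDs f).1 (s, x)) s := by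
    intro x
    have h1 : HasFDerivAt (fun t : ℝ => ((t, x) : ℝ × (Fin n → ℝ)))
      (ContinuousLinearMap.inl ℝ ℝ (Fin n → ℝ)) s := hasFDerivAt_prodMk_left s x
    exact ((SmS.df f (s, x)).hasFDerivAt.comp s h1).hasDerivAt
  have h1 := hd (-x)
  have h2 := (hd x).star
  have h3 : (fun t => f.1 (t, -x)) = fun t => star (f.1 (t, x)) := by
    funext t
    exact congrFun (congrArg Subtype.val (hf t)) x
  rw [h3] at h1
  exact h1.unique h2

/-- the density of a Real path is real -/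
lemma pathDens_real {n : ℕ} (hn : Even n) (G : (Matrix ι ι (SmS n))ˣ)
    (hG : MRealS (G : Matrix ι ι (SmS n))) (s : ℝ) : ((pathDens G s).re : ℂ) = pathDens G s := by
  rw [pathDens_eq_densT]
  have hG1 : MReal ((evU s G : (Matrix ι ι (Sm n))ˣ) : Matrix ι ι (Sm n)) := hG s
  have hv : MReal (velU s G) := fun i j =>
    pDs_real ((G : Matrix ι ι (SmS n)) i j) (fun t => hG t i j) s
  have hmul : ∀ A B : Matrix ι ι (Sm n), (realHom n).mapMatrix A = A →
      (realHom n).mapMatrix B = B → MReal (A * B) := by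
    intro A B hA hB i j
    have h : (realHom n).mapMatrix (A * B) = A * B := by rw [map_mul, hA, hB]
    have h2 := congrFun (congrFun h i) j
    change Sm.inv (star ((A * B) i j)) = (A * B) i j at h2
    unfold Sm.IsReal
    conv_rhs => rw [← h2]
    rw [map_star, star_star]
  have hinv : (realHom n).mapMatrix (((evU s G)⁻¹ : (Matrix ι ι (Sm n))ˣ) :
      Matrix ι ι (Sm n)) = (((evU s G)⁻¹ : (Matrix ι ι (Sm n))ˣ) : Matrix ι ι (Sm n)) := by
    have h1 : ((evU s G : (Matrix ι ι (Sm n))ˣ) : Matrix ι ι (Sm n)) *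
        (realHom n).mapMatrix (((evU s G)⁻¹ : (Matrix ι ι (Sm n))ˣ) :
          Matrix ι ι (Sm n)) = 1 := by
      conv_lhs => rw [← hG1.realHom]
      rw [← map_mul, Units.mul_inv, map_one]
    calc (realHom n).mapMatrix (((evU s G)⁻¹ : (Matrix ι ι (Sm n))ˣ) : Matrix ι ι (Sm n)) =
        (((evU s G)⁻¹ : (Matrix ι ι (Sm n))ˣ) : Matrix ι ι (Sm n)) *
          (((evU s G : (Matrix ι ι (Sm n))ˣ) : Matrix ι ι (Sm n)) *
            (realHom n).mapMatrix (((evU s G)⁻¹ : (Matrix ι ι (Sm n))ˣ) :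
              Matrix ι ι (Sm n))) := by
          rw [← mul_assoc, Units.inv_mul, one_mul]
      _ = _ := by rw [h1, mul_one]
  exact densT_real hn _ _ (hmul _ _ hinv hv.realHom) hG1

lemma conj_cst (k : ℕ) (hk : Even k) : (starRingEnd ℂ) (cst k) = - cst k := by
  have h1 : (starRingEnd ℂ) (2 * (Real.pi : ℂ) * Complex.I) = -(2 * (Real.pi : ℂ) * Complex.I) := by
    rw [map_mul, map_mul, Complex.conj_I, Complex.conj_ofReal, map_ofNat]
    ring
  unfold cst
  rw [map_div₀, map_mul, map_pow, h1, map_natCast, map_natCast, (hk.add_one).neg_pow]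
  rw [mul_neg, div_neg]

/-- **a Real path contributes a purely imaginary number** (`k` even) -/
theorem pathInt_real (k : ℕ) (hk : Even k) (G : (Matrix ι ι (SmS (2 * k)))ˣ)
    (hG : MRealS (G : Matrix ι ι (SmS (2 * k)))) : (pathInt k G).re = 0 := by
  have h1 : ∫ s in (0 : ℝ)..1, pathDens G s =
      ((∫ s in (0 : ℝ)..1, (pathDens G s).re : ℝ) : ℂ) := by
    rw [← intervalIntegral.integral_ofReal]
    exact intervalIntegral.integral_congr fun s _ =>
      (pathDens_real (even_two_mul k) G hG s).symm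
  unfold pathInt
  rw [h1]
  have h2 : (starRingEnd ℂ) (cst k * (2 * k + 1) *
      ((∫ s in (0 : ℝ)..1, (pathDens G s).re : ℝ) : ℂ)) = - (cst k * (2 * k + 1) *
      ((∫ s in (0 : ℝ)..1, (pathDens G s).re : ℝ) : ℂ)) := by
    rw [map_mul, map_mul, conj_cst k hk, Complex.conj_ofReal, map_add, map_mul, map_natCast,
      map_one, map_ofNat]
    ring
  have h3 := congrArg Complex.re h2
  rw [Complex.conj_re, Complex.neg_re] at h3
  linarith

/-! ### the half loop -/

lemma pDs_eq_deriv {n : ℕ} (f : SmS n) (s : ℝ) (x : Fin n → ℝ) :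
    HasDerivAt (fun t => f.1 (t, x)) ((pDs f).1 (s, x)) s := by
  have h1 : HasFDerivAt (fun t : ℝ => ((t, x) : ℝ × (Fin n → ℝ)))
    (ContinuousLinearMap.inl ℝ ℝ (Fin n → ℝ)) s := hasFDerivAt_prodMk_left s x
  exact ((SmS.df f (s, x)).hasFDerivAt.comp s h1).hasDerivAt

lemma prod_half (k : ℕ) : (∏ i ∈ Finset.range k, (2 * (i : ℝ) + 1) / (2 * i + 2)) *
    (4 ^ k * (k.factorial : ℝ) ^ 2) = ((2 * k).factorial : ℝ) := by
  induction k with
  | zero => simp
  | succ k ih =>
    rw [Finset.prod_range_succ, show 2 * (k + 1) = (2 * k + 1) + 1 by ring,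
      Nat.factorial_succ (2 * k + 1), Nat.factorial_succ (2 * k), Nat.factorial_succ k]
    push_cast
    rw [← ih]
    have h : (2 * (k : ℝ) + 2) ≠ 0 := by positivity
    field_simp
    ring

lemma integral_half (k : ℕ) : ∫ s in (0 : ℝ)..1, (Real.sin (Real.pi / 2 * s)) ^ (2 * k) =
    ∏ i ∈ Finset.range k, (2 * (i : ℝ) + 1) / (2 * i + 2) := by
  have hpi : Real.pi ≠ 0 := Real.pi_ne_zero
  have h1 := intervalIntegral.integral_comp_mul_left (a := 0) (b := 1)
    (fun u => (Real.sin u) ^ (2 * k)) (c := Real.pi / 2) (by positivity)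
  rw [h1, mul_zero, mul_one]
  have h2 : ∫ u in (Real.pi / 2)..Real.pi, (Real.sin u) ^ (2 * k) =
      ∫ u in (0 : ℝ)..(Real.pi / 2), (Real.sin u) ^ (2 * k) := by
    have h3 := intervalIntegral.integral_comp_sub_left (a := 0) (b := Real.pi / 2)
      (fun u => (Real.sin u) ^ (2 * k)) Real.pi
    simp only [Real.sin_pi_sub, sub_zero] at h3
    rw [h3]
    congr 1
    ring
  have hc : Continuous (fun u : ℝ => (Real.sin u) ^ (2 * k)) := Real.continuous_sin.pow _
  have h4 := intervalIntegral.integral_add_adjacent_intervals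
    (hc.intervalIntegrable (μ := volume) 0 (Real.pi / 2))
    (hc.intervalIntegrable (μ := volume) (Real.pi / 2) Real.pi)
  rw [h2, integral_sin_pow_even] at h4
  have h5 : ∫ u in (0 : ℝ)..(Real.pi / 2), (Real.sin u) ^ (2 * k) =
      (Real.pi * ∏ i ∈ Finset.range k, (2 * (i : ℝ) + 1) / (2 * i + 2)) / 2 := by linarith
  rw [smul_eq_mul, h5]
  set P := ∏ i ∈ Finset.range k, (2 * (i : ℝ) + 1) / (2 * i + 2) with hP
  field_simp

/-- the integral of `(z - 2 + z⁻¹)^k` over the half circle -/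
lemma integral_half_z (k : ℕ) : (∫ s in (0 : ℝ)..1, (Complex.exp (Real.pi * Complex.I * s) - 2 +
    Complex.exp (-(Real.pi * Complex.I * s))) ^ k) * (k.factorial : ℂ) ^ 2 =
    (-1) ^ k * ((2 * k).factorial : ℂ) := by
  have h1 : ∀ s : ℝ, (Complex.exp (Real.pi * Complex.I * s) - 2 +
      Complex.exp (-(Real.pi * Complex.I * s))) ^ k =
      (((-4) ^ k * (Real.sin (Real.pi / 2 * s)) ^ (2 * k) : ℝ) : ℂ) := by
    intro s
    have h2 : Complex.exp (Real.pi * Complex.I * s) - 2 +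
      Complex.exp (-(Real.pi * Complex.I * s)) = ((-4 * (Real.sin (Real.pi / 2 * s)) ^ 2 : ℝ) : ℂ) := by
      have e1 : (Real.pi * Complex.I * s : ℂ) = ((Real.pi * s : ℝ) : ℂ) * Complex.I := by
        push_cast; ring
      have e2 : Complex.exp (((Real.pi * s : ℝ) : ℂ) * Complex.I) +
          Complex.exp (-(((Real.pi * s : ℝ) : ℂ) * Complex.I)) =
          ((2 * Real.cos (Real.pi * s) : ℝ) : ℂ) := by
        push_cast
        rw [Complex.two_cos, neg_mul]
      have e3 : Real.cos (Real.pi * s) = 1 - 2 * (Real.sin (Real.pi / 2 * s)) ^ 2 := by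
        have e4 : Real.pi * s = 2 * (Real.pi / 2 * s) := by ring
        rw [e4, Real.cos_two_mul, Real.cos_sq']
        ring
      rw [e1]
      have e5 : Complex.exp (((Real.pi * s : ℝ) : ℂ) * Complex.I) - 2 +
          Complex.exp (-(((Real.pi * s : ℝ) : ℂ) * Complex.I)) =
          (Complex.exp (((Real.pi * s : ℝ) : ℂ) * Complex.I) +
          Complex.exp (-(((Real.pi * s : ℝ) : ℂ) * Complex.I))) - 2 := by ring
      rw [e5, e2, e3]
      push_cast
      ring
    rw [h2, ← Complex.ofReal_pow, mul_pow, ← pow_mul]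
  simp only [h1]
  rw [intervalIntegral.integral_ofReal, intervalIntegral.integral_const_mul, integral_half]
  have h3 := prod_half k
  have h4 : ((∏ i ∈ Finset.range k, (2 * (i : ℝ) + 1) / (2 * i + 2) : ℝ) : ℂ) *
      (4 ^ k * (k.factorial : ℂ) ^ 2) = ((2 * k).factorial : ℂ) := by
    have := congrArg (fun r : ℝ => (r : ℂ)) h3
    push_cast at this
    push_cast
    exact this
  rw [← h4, Complex.ofReal_mul]
  have h5 : (((-4) ^ k : ℝ) : ℂ) = (-1) ^ k * 4 ^ k := by
    push_cast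
    rw [← mul_pow]
    norm_num
  rw [h5]
  ring

lemma contDiff_half :
    ContDiff ℝ ∞ (fun s : ℝ => Complex.exp (Real.pi * Complex.I * s) - 1) :=
  (ContDiff.cexp (contDiff_const.mul Complex.ofRealCLM.contDiff)).sub contDiff_const

lemma pathDens_half (k : ℕ) (p : Matrix ι ι (Sm (2 * k))) (hp : p * p = p)
    (G : (Matrix ι ι (SmS (2 * k)))ˣ)
    (hG : (G : Matrix ι ι (SmS (2 * k))) = 1 +
      (fS _ contDiff_half : SmS (2 * k)) • p.map (cS (n := 2 * k))) (s : ℝ) :
    pathDens G s = (Real.pi * Complex.I * (matCalc ι (2 * k)).evenT p) *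
      (Complex.exp (Real.pi * Complex.I * s) - 2 +
        Complex.exp (-(Real.pi * Complex.I * s))) ^ k := by
  set z : ℂ := Complex.exp (Real.pi * Complex.I * s) with hz
  set z' : ℂ := Complex.exp (-(Real.pi * Complex.I * s)) with hz'
  have hzz : z * z' = 1 := by rw [hz, hz', ← Complex.exp_add, add_neg_cancel, Complex.exp_zero]
  have hE : ((evU s G : (Matrix ι ι (Sm (2 * k)))ˣ) : Matrix ι ι (Sm (2 * k))) =
      1 + (z - 1) • p := by
    change (G : Matrix ι ι (SmS (2 * k))).map (evS s) = _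
    rw [hG]
    ext1 i j
    rw [Matrix.map_apply, Matrix.add_apply, Matrix.add_apply, Matrix.smul_apply, Matrix.smul_apply,
      Matrix.map_apply, map_add, smul_eq_mul, map_mul, evS_cS]
    congr 1
    rw [Matrix.one_apply, Matrix.one_apply]
    split_ifs
    · exact map_one _
    · exact map_zero _
  have hV : velU s G = (Real.pi * Complex.I * z) • p := by
    ext1 i j
    apply Subtype.ext
    funext x
    have h1 := pDs_eq_deriv ((G : Matrix ι ι (SmS (2 * k))) i j) s x
    have h2 : (fun t => ((G : Matrix ι ι (SmS (2 * k))) i j).1 (t, x)) =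
        fun t : ℝ => ((1 : Matrix ι ι (SmS (2 * k))) i j).1 (0, x) +
          (Complex.exp (Real.pi * Complex.I * t) - 1) * (p i j).1 x := by
      funext t
      rw [hG]
      simp only [Matrix.add_apply, Matrix.smul_apply, Matrix.map_apply, smul_eq_mul]
      change ((1 : Matrix ι ι (SmS (2 * k))) i j).1 (t, x) + _ = _
      rw [Matrix.one_apply]
      split_ifs <;> rfl
    have h3 : HasDerivAt (fun t : ℝ => ((1 : Matrix ι ι (SmS (2 * k))) i j).1 (0, x) +
          (Complex.exp (Real.pi * Complex.I * t) - 1) * (p i j).1 x)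
          ((Real.pi * Complex.I * z) * (p i j).1 x) s := by
      have h4 : HasDerivAt (fun t : ℝ => (Real.pi * Complex.I * t : ℂ)) (Real.pi * Complex.I) s := by
        have := (Complex.ofRealCLM.hasDerivAt (x := s)).const_mul (Real.pi * Complex.I : ℂ)
        simpa using this
      have h5 := (((h4.cexp.sub_const 1).mul_const ((p i j).1 x)).const_add
        (((1 : Matrix ι ι (SmS (2 * k))) i j).1 (0, x)))
      have e : (Real.pi * Complex.I * z) * (p i j).1 x =
          Complex.exp (Real.pi * Complex.I * s) * (Real.pi * Complex.I) * (p i j).1 x := by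
        rw [hz]; ring
      rw [e]
      exact h5
    rw [h2] at h1
    exact h1.unique h3
  have hI : (((evU s G)⁻¹ : (Matrix ι ι (Sm (2 * k)))ˣ) : Matrix ι ι (Sm (2 * k))) =
      1 + (z' - 1) • p := by
    have h1 : ((evU s G : (Matrix ι ι (Sm (2 * k)))ˣ) : Matrix ι ι (Sm (2 * k))) *
        (1 + (z' - 1) • p) = 1 := by
      rw [hE, mul_add, mul_one, add_mul, one_mul, smul_mul_smul_comm, hp]
      have h2 : (z - 1) * (z' - 1) = 2 - z - z' := by
        linear_combination hzz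
      rw [h2]
      module
    calc (((evU s G)⁻¹ : (Matrix ι ι (Sm (2 * k)))ˣ) : Matrix ι ι (Sm (2 * k))) =
        (((evU s G)⁻¹ : (Matrix ι ι (Sm (2 * k)))ˣ) : Matrix ι ι (Sm (2 * k))) *
        (((evU s G : (Matrix ι ι (Sm (2 * k)))ˣ) : Matrix ι ι (Sm (2 * k))) *
        (1 + (z' - 1) • p)) := by rw [h1, mul_one]
      _ = _ := by rw [← mul_assoc, Units.inv_mul, one_mul]
  have hα : (((evU s G)⁻¹ : (Matrix ι ι (Sm (2 * k)))ˣ) : Matrix ι ι (Sm (2 * k))) *
      velU s G = (Real.pi * Complex.I) • p := by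
    rw [hI, hV, add_mul, one_mul, smul_mul_smul_comm, hp, ← add_smul]
    congr 1
    linear_combination (Real.pi * Complex.I) * hzz
  rw [pathDens_eq_densT, hα, Calc.densT_smul]
  unfold Calc.densT
  rw [hI, hE]
  have h1 : ∀ c : ℂ, (1 + (c - 1) • p) ⊗ₜ[ℂ] (1 : Ext (2 * k)) =
      (1 : Om (Matrix ι ι (Sm (2 * k))) (2 * k)) + (c - 1) • (p ⊗ₜ[ℂ] (1 : Ext (2 * k))) := by
    intro c
    rw [TensorProduct.add_tmul, ← TensorProduct.smul_tmul']
    rfl
  rw [h1, h1]
  have h2 := (matCalc ι (2 * k)).dgt.bott_pow (e := p ⊗ₜ[ℂ] (1 : Ext (2 * k)))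
    (by rw [Algebra.TensorProduct.tmul_mul_tmul, hp, one_mul])
    (by
      change grO (p ⊗ₜ[ℂ] (1 : Ext (2 * k))) = _
      rw [grO_tmul, map_one]) z z' hzz k
  have h3 := congrArg (matCalc ι (2 * k)).TT h2
  rw [map_smul, smul_eq_mul] at h3
  have h4 : (matCalc ι (2 * k)).dgt.d = (matCalc ι (2 * k)).dd := rfl
  rw [h4] at h3
  rw [h3]
  unfold Calc.evenT
  ring

/-- **the half loop** `exp (iπ s p)`, `s ∈ [0,1]`, contributes `(-1)^k/2 · ch_k(p)` -/
theorem pathInt_half (k : ℕ) (p : Matrix ι ι (Sm (2 * k))) (hp : p * p = p)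
    (G : (Matrix ι ι (SmS (2 * k)))ˣ)
    (hG : (G : Matrix ι ι (SmS (2 * k))) = 1 +
      (fS _ contDiff_half : SmS (2 * k)) • p.map (cS (n := 2 * k))) :
    pathInt k G = (-1) ^ k / 2 * evenCh k p := by
  unfold pathInt evenCh
  simp only [pathDens_half k p hp G hG]
  rw [intervalIntegral.integral_const_mul]
  have h1 := integral_half_z k
  have hk : (k.factorial : ℂ) ≠ 0 := by exact_mod_cast Nat.factorial_ne_zero _
  have h2 : (∫ s in (0 : ℝ)..1, (Complex.exp (Real.pi * Complex.I * s) - 2 +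
    Complex.exp (-(Real.pi * Complex.I * s))) ^ k) =
    (-1) ^ k * ((2 * k).factorial : ℂ) / (k.factorial : ℂ) ^ 2 := by
    rw [← h1]
    field_simp
  rw [h2]
  unfold cst
  have h3 : ((2 * k + 1).factorial : ℂ) = (2 * k + 1) * ((2 * k).factorial : ℂ) := by
    rw [Nat.factorial_succ]; push_cast; ring
  have h4 : ((2 * k).factorial : ℂ) ≠ 0 := by exact_mod_cast Nat.factorial_ne_zero _
  have h5 : (2 * (k : ℂ) + 1) ≠ 0 := by
    have : ((2 * k + 1 : ℕ) : ℂ) ≠ 0 := Nat.cast_ne_zero.mpr (by omega)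
    push_cast at this; exact this
  have hpi : (2 * Real.pi * Complex.I : ℂ) ≠ 0 := Complex.two_pi_I_ne_zero
  rw [h3, pow_succ]
  set w : ℂ := 2 * Real.pi * Complex.I with hw
  have h6 : (Real.pi * Complex.I : ℂ) = w / 2 := by rw [hw]; ring
  rw [h6]
  field_simp

end Pool.Agent.PD4
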