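import Pool.Agent.PD4.Ix.LoopB
import Pool.Agent.PD4.Ix.Ext2
import Pool.Agent.PD4.Ix.QSlice

/-!
# Project PD4, index block: closed paths and concatenation (helper21)

* `Calc.oddT_tail`: the odd integrand in `n+1` variables in terms of the last `n` variables;
* `pathInt_loop`: `pathInt` of a closed path is the odd Chern number of the loop;
* `pathInt_cat`: additivity under concatenation; `chain_cat`: chains.
-/

open MeasureTheory TensorProduct
open scoped ContDiff

namespace Pool.Agent.PD4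

section Alg

variable {R : Type*} [Ring R] [Algebra ℂ R] {n : ℕ}

/-- the odd integrand in `n+1` variables (`n` even) in terms of the last `n` variables -/
theorem Calc.oddT_tail (C : Calc R (n + 1)) (hn : Even n) (G : Rˣ) :
    C.oddT G = ((n : ℂ) + 1) * C.tail.densT (((G⁻¹ : Rˣ) : R) * C.D 0 (G : R)) G := by
  have hodd : Odd (n + 1) := hn.add_one
  rw [C.oddT_mc, omS_mc]
  set u : Om R (n + 1) := odx 0 *
    omS n ((((G⁻¹ : Rˣ) : R) * C.D 0 (G : R)) ⊗ₜ[ℂ] (1 : Ext n)) with hu
  have hB : C.dgt.Od (omS n (C.tail.mc G)) := by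
    change grO (omS n (C.tail.mc G)) = - omS n (C.tail.mc G)
    rw [grO_omS, grO_mc, map_neg]
  have ho : C.dgt.Od u := by
    change grO u = - u
    rw [hu, map_mul, grO_omS]
    unfold odx
    rw [grO_tmul, grO_tmul, gr_dx, map_one, TensorProduct.tmul_neg, neg_mul]
  have h := C.dgt.T_pow_add (fun z => odx_nil _ _ z) hB ho hodd
  have hT : C.dgt.T = C.TT := rfl
  rw [hT] at h
  rw [h, ← map_pow, C.TT_omS, zero_add, Nat.add_sub_cancel, mul_assoc, ← map_pow, ← map_mul,
    C.TT_odx_omS]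
  push_cast
  rfl

end Alg

/-- Fubini in the first variable -/
lemma mean_slS {n : ℕ} (F : Sm (n + 1)) :
    mean F = ∫ s in (0 : ℝ)..1, mean (evS s (slS F)) := by
  rw [mean_apply, integral_Icc_cons (Sm.cont_coe F)]
  rfl

lemma mean_evS_continuous {n : ℕ} (f : SmS n) : Continuous (fun s => mean (evS s f)) := by
  have hd : Differentiable ℝ (fun s => mean (evS s f)) :=
    fun s => (hasDerivAt_mean f s).differentiableAt
  exact hd.continuous

variable {ι : Type*} [Fintype ι] [DecidableEq ι]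

lemma pathDens_slU {n : ℕ} (L : (Matrix ι ι (Sm (n + 1)))ˣ) (s : ℝ) :
    pathDens (slU L) s = ∑ σ : Equiv.Perm (Fin n), ((Equiv.Perm.sign σ : ℤ) : ℂ) *
      mean (evS s (slS (Matrix.trace
        (((L⁻¹ : (Matrix ι ι (Sm (n + 1)))ˣ) : Matrix ι ι (Sm (n + 1))) *
          (pD 0).mapMatrix (L : Matrix ι ι (Sm (n + 1))) *
        (List.ofFn fun j : Fin n =>
          (((L⁻¹ : (Matrix ι ι (Sm (n + 1)))ˣ) : Matrix ι ι (Sm (n + 1))) *
          (pD (σ j).succ).mapMatrix (L : Matrix ι ι (Sm (n + 1))))).prod)))) := by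
  have h0 : pathDens (slU L) s = (matCalcS ι n s).densT
      ((((slU L)⁻¹ : (Matrix ι ι (SmS n))ˣ) : Matrix ι ι (SmS n)) *
        (pDs (n := n)).mapMatrix ((slU L : (Matrix ι ι (SmS n))ˣ) : Matrix ι ι (SmS n)))
      (slU L) := rfl
  rw [h0, Calc.densT_eq]
  refine Finset.sum_congr rfl fun σ _ => ?_
  congr 1
  set Φ : Matrix ι ι (Sm (n + 1)) →+* Matrix ι ι (SmS n) :=
    ((slS : Sm (n + 1) →⋆ₐ[ℂ] SmS n) : Sm (n + 1) →+* SmS n).mapMatrix with hΦ
  have e1 : ((slU L : (Matrix ι ι (SmS n))ˣ) : Matrix ι ι (SmS n)) =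
      Φ (L : Matrix ι ι (Sm (n + 1))) := rfl
  have e2 : (((slU L)⁻¹ : (Matrix ι ι (SmS n))ˣ) : Matrix ι ι (SmS n)) =
      Φ ((L⁻¹ : (Matrix ι ι (Sm (n + 1)))ˣ) : Matrix ι ι (Sm (n + 1))) := by
    rw [← map_inv]
    rfl
  have e3 : (pDs (n := n)).mapMatrix ((slU L : (Matrix ι ι (SmS n))ˣ) : Matrix ι ι (SmS n)) =
      Φ ((pD 0).mapMatrix (L : Matrix ι ι (Sm (n + 1)))) := by
    ext1 i j
    exact (slS_pD_zero ((L : Matrix ι ι (Sm (n + 1))) i j)).symm
  have e4 : ∀ i : Fin n, (matCalcS ι n s).D i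
      ((slU L : (Matrix ι ι (SmS n))ˣ) : Matrix ι ι (SmS n)) =
      Φ ((pD i.succ).mapMatrix (L : Matrix ι ι (Sm (n + 1)))) := by
    intro i
    ext1 a b
    exact (slS_pD_succ ((L : Matrix ι ι (Sm (n + 1))) a b) i).symm
  have e5 : (List.ofFn fun j : Fin n =>
      ((((slU L)⁻¹ : (Matrix ι ι (SmS n))ˣ) : Matrix ι ι (SmS n)) *
        (matCalcS ι n s).D (σ j) ((slU L : (Matrix ι ι (SmS n))ˣ) :
          Matrix ι ι (SmS n)))).prod =
      Φ (List.ofFn fun j : Fin n =>
          (((L⁻¹ : (Matrix ι ι (Sm (n + 1)))ˣ) : Matrix ι ι (Sm (n + 1))) *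
          (pD (σ j).succ).mapMatrix (L : Matrix ι ι (Sm (n + 1))))).prod := by
    rw [map_list_prod, List.map_ofFn]
    congr 2
    funext j
    rw [e4, e2, Function.comp_apply, map_mul]
  have e6 : ∀ M : Matrix ι ι (Sm (n + 1)), (matCalcS ι n s).tr (Φ M) =
      mean (evS s (slS (Matrix.trace M))) := by
    intro M
    change mean (evS s (Matrix.trace (Φ M))) = _
    congr 2
    simp only [Matrix.trace, Matrix.diag_apply, map_sum]
    rfl
  rw [e5, e3, e2, ← map_mul, ← map_mul, e6]

/-- Fubini for the density -/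
lemma tail_densT {n : ℕ} (L : (Matrix ι ι (Sm (n + 1)))ˣ) :
    (matCalc ι (n + 1)).tail.densT
      (((L⁻¹ : (Matrix ι ι (Sm (n + 1)))ˣ) : Matrix ι ι (Sm (n + 1))) *
        (matCalc ι (n + 1)).D 0 (L : Matrix ι ι (Sm (n + 1)))) L =
      ∫ s in (0 : ℝ)..1, pathDens (slU L) s := by
  simp only [pathDens_slU]
  rw [intervalIntegral.integral_finsetSum]
  · rw [Calc.densT_eq]
    refine Finset.sum_congr rfl fun σ _ => ?_
    rw [intervalIntegral.integral_const_mul, ← mean_slS]
    rfl
  · intro σ _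
    exact (continuous_const.mul (mean_evS_continuous _)).intervalIntegrable _ _

/-- **closed paths**: the contribution of a closed path is the odd Chern number of the loop -/
theorem pathInt_loop (k : ℕ) (G : (Matrix ι ι (SmS (2 * k)))ˣ) (h : evU 1 G = evU 0 G) :
    pathInt k G = oddCh k (loopU G h) := by
  unfold oddCh
  rw [Calc.oddT_tail _ (even_two_mul k), tail_densT]
  unfold pathInt
  have h1 : ∫ s in (0 : ℝ)..1, pathDens (slU (loopU G h)) s = ∫ s in (0 : ℝ)..1, pathDens G s := by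
    have h2 := integral_repar (pathDens_continuous G) stp stp_contDiff 0 1
    rw [stp_zero, stp_one] at h2
    rw [← h2]
    have h3 : Set.EqOn (pathDens (slU (loopU G h)))
        (fun s => ((deriv stp s : ℝ) : ℂ) * pathDens G (stp s)) (Set.Icc 0 1) := by
      have h4 : Set.EqOn (pathDens (slU (loopU G h)))
        (fun s => ((deriv stp s : ℝ) : ℂ) * pathDens G (stp s)) (Set.Ioo 0 1) := by
        intro s hs
        exact pathDens_congr _ _ _ _ _ (evU_slU_loopU G h ⟨hs.1.le, hs.2.le⟩)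
          (slU_loopU_pDs G h hs)
      have hc : Continuous (fun s => ((deriv stp s : ℝ) : ℂ) * pathDens G (stp s)) :=
        (Complex.continuous_ofReal.comp (stp_contDiff.continuous_deriv (by simp))).mul
          ((pathDens_continuous G).comp stp_contDiff.continuous)
      have h5 := h4.closure (pathDens_continuous _) hc
      rwa [closure_Ioo (by norm_num)] at h5
    refine intervalIntegral.integral_congr fun s hs => h3 ?_
    rwa [Set.uIcc_of_le zero_le_one] at hs
  rw [h1]
  push_cast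
  ring

/-- **additivity** under concatenation -/
theorem pathInt_cat (k : ℕ) (G₁ G₂ : (Matrix ι ι (SmS (2 * k)))ˣ) (h : evU 1 G₁ = evU 0 G₂) :
    pathInt k (catU G₁ G₂ h) = pathInt k G₁ + pathInt k G₂ := by
  unfold pathInt
  rw [← mul_add]
  congr 1
  have hc := (pathDens_continuous (catU G₁ G₂ h))
  rw [← intervalIntegral.integral_add_adjacent_intervals
    (hc.intervalIntegrable (μ := volume) 0 (1 / 2)) (hc.intervalIntegrable (μ := volume) (1 / 2) 1)]
  have hd : ∀ b s : ℝ, deriv (fun s => stp (2 * s + b)) s = 2 * deriv stp (2 * s + b) := by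
    intro b s
    have h1 : HasDerivAt stp (deriv stp (2 * s + b)) (2 * s + b) :=
      (stp_contDiff.differentiable (by simp) _).hasDerivAt
    have h2 : HasDerivAt (fun s : ℝ => 2 * s + b) 2 s := by
      simpa using ((hasDerivAt_id s).const_mul 2).add_const b
    have h3 := (h1.comp s h2).deriv
    change deriv (fun s => stp (2 * s + b)) s = _ at h3
    rw [h3]; ring
  have hv : ∀ s : ℝ, velU s (catU G₁ G₂ h) =
      ((2 * deriv stp (2 * s) : ℝ) : ℂ) • velU (stp (2 * s)) G₁ +
      ((2 * deriv stp (2 * s - 1) : ℝ) : ℂ) • velU (stp (2 * s - 1)) G₂ :=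
    fun s => catM_pDs _ _ s
  congr 1
  · have h2 := integral_repar (pathDens_continuous G₁) (fun s => stp (2 * s + 0))
      (stp_mul_contDiff 2 0) 0 (1 / 2)
    have e0 : stp (2 * 0 + 0) = 0 := by rw [mul_zero, add_zero, stp_zero]
    have e1 : stp (2 * (1 / 2) + 0) = 1 := by norm_num
    rw [e0, e1] at h2
    rw [← h2]
    refine intervalIntegral.integral_congr fun s hs => ?_
    rw [Set.uIcc_of_le (by norm_num)] at hs
    have hs2 := hs.2
    have h5 : deriv (fun s => stp (2 * s + 0)) s = 2 * deriv stp (2 * s) := by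
      rw [hd, add_zero]
    change pathDens (catU G₁ G₂ h) s =
      ((deriv (fun s => stp (2 * s + 0)) s : ℝ) : ℂ) * pathDens G₁ (stp (2 * s + 0))
    rw [h5, add_zero]
    refine pathDens_congr _ _ _ _ _ (catU_left _ _ _ (by linarith)) ?_
    rw [hv, stp_deriv_left (s := 2 * s - 1) (by linarith)]
    simp
  · have h2 := integral_repar (pathDens_continuous G₂) (fun s => stp (2 * s + (-1)))
      (stp_mul_contDiff 2 (-1)) (1 / 2) 1
    have e0 : stp (2 * (1 / 2) + (-1)) = 0 := by norm_num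
    have e1 : stp (2 * 1 + (-1)) = 1 := by norm_num
    rw [e0, e1] at h2
    rw [← h2]
    refine intervalIntegral.integral_congr fun s hs => ?_
    rw [Set.uIcc_of_le (by norm_num)] at hs
    have hs1 := hs.1
    have h5 : deriv (fun s => stp (2 * s + (-1))) s = 2 * deriv stp (2 * s - 1) := by
      rw [hd, ← sub_eq_add_neg]
    change pathDens (catU G₁ G₂ h) s =
      ((deriv (fun s => stp (2 * s + (-1))) s : ℝ) : ℂ) * pathDens G₂ (stp (2 * s + (-1)))
    rw [h5, ← sub_eq_add_neg]
    refine pathDens_congr _ _ _ _ _ (catU_right _ _ _ (by linarith)) ?_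
    rw [hv, stp_deriv_right (s := 2 * s) (by linarith)]
    simp

/-- chains of paths -/
lemma chain_cat (k m : ℕ) (G : Fin (m + 1) → (Matrix ι ι (SmS (2 * k)))ˣ)
    (h : ∀ i : Fin m, evU 1 (G i.castSucc) = evU 0 (G i.succ)) :
    ∃ H : (Matrix ι ι (SmS (2 * k)))ˣ, evU 0 H = evU 0 (G 0) ∧
      evU 1 H = evU 1 (G (Fin.last m)) ∧ pathInt k H = ∑ i, pathInt k (G i) := by
  induction m with
  | zero => exact ⟨G 0, rfl, rfl, by simp⟩
  | succ m ih =>
    obtain ⟨H, h0, h1, h2⟩ := ih (fun i => G i.castSucc) (fun i => by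
      have h3 := h i.castSucc
      rw [Fin.succ_castSucc] at h3
      exact h3)
    have h4 : evU 1 H = evU 0 (G (Fin.last (m + 1))) := by
      rw [h1]
      exact h (Fin.last m)
    refine ⟨catU H (G (Fin.last (m + 1))) h4, ?_, ?_, ?_⟩
    · rw [catU_zero, h0]
      rfl
    · rw [catU_one]
    · rw [pathInt_cat, h2, Fin.sum_univ_castSucc (n := m + 1)]

end Pool.Agent.PD4
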