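import Pool.Agent.PD4.Ix.Loop
import Pool.Agent.PD4.Ix.Laurent
import Pool.Agent.PD4.Ix.RPath
import Pool.Agent.H95.PD.NegProjSm

/-!
# Project PD4, index block: three explicit paths for the parity theorem (helper26)
-/

open Matrix
open scoped ContDiff ComplexOrder MatrixOrder

namespace Pool.Agent.PD4

variable {ι : Type*} [Fintype ι] [DecidableEq ι] {n : ℕ}

/-! ### the half loop -/

lemma contDiff_half' :
    ContDiff ℝ ∞ (fun s : ℝ => Complex.exp (-(Real.pi * Complex.I * s)) - 1) :=
  (ContDiff.cexp (contDiff_const.mul Complex.ofRealCLM.contDiff).neg).sub contDiff_const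

lemma half_mul : (fS _ contDiff_half : SmS n) + fS _ contDiff_half' +
    fS _ contDiff_half * fS _ contDiff_half' = 0 := by
  apply Subtype.ext
  funext p
  show (Complex.exp (Real.pi * Complex.I * p.1) - 1) +
    (Complex.exp (-(Real.pi * Complex.I * p.1)) - 1) +
    (Complex.exp (Real.pi * Complex.I * p.1) - 1) *
      (Complex.exp (-(Real.pi * Complex.I * p.1)) - 1) = 0
  have h : Complex.exp (Real.pi * Complex.I * p.1) * Complex.exp (-(Real.pi * Complex.I * p.1))
      = 1 := by rw [← Complex.exp_add, add_neg_cancel, Complex.exp_zero]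
  linear_combination h

/-- the half loop `exp(iπ s p)` as a unit -/
noncomputable def halfU (p : Matrix ι ι (Sm n)) (hp : p * p = p) : (Matrix ι ι (SmS n))ˣ where
  val := 1 + (fS _ contDiff_half : SmS n) • p.map (cS (n := n))
  inv := 1 + (fS _ contDiff_half' : SmS n) • p.map (cS (n := n))
  val_inv := by
    have hP : p.map (cS (n := n)) * p.map (cS (n := n)) = p.map (cS (n := n)) := by
      rw [← Matrix.map_mul, hp]
    have h := half_mul (n := n)
    rw [Matrix.add_mul, Matrix.mul_add, Matrix.mul_add, Matrix.one_mul, Matrix.one_mul,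
      Matrix.mul_one, Matrix.smul_mul, Matrix.mul_smul, hP, smul_smul]
    have : (1 : Matrix ι ι (SmS n)) + (fS _ contDiff_half' : SmS n) • p.map (cS (n := n)) +
        ((fS _ contDiff_half : SmS n) • p.map (cS (n := n)) +
          ((fS _ contDiff_half : SmS n) * fS _ contDiff_half') • p.map (cS (n := n))) =
        1 + ((fS _ contDiff_half : SmS n) + fS _ contDiff_half' +
          fS _ contDiff_half * fS _ contDiff_half') • p.map (cS (n := n)) := by
      rw [add_smul, add_smul]; abel
    rw [this, h, zero_smul, add_zero]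
  inv_val := by
    have hP : p.map (cS (n := n)) * p.map (cS (n := n)) = p.map (cS (n := n)) := by
      rw [← Matrix.map_mul, hp]
    have h := half_mul (n := n)
    rw [Matrix.add_mul, Matrix.mul_add, Matrix.mul_add, Matrix.one_mul, Matrix.one_mul,
      Matrix.mul_one, Matrix.smul_mul, Matrix.mul_smul, hP, smul_smul]
    have : (1 : Matrix ι ι (SmS n)) + (fS _ contDiff_half : SmS n) • p.map (cS (n := n)) +
        ((fS _ contDiff_half' : SmS n) • p.map (cS (n := n)) +
          ((fS _ contDiff_half' : SmS n) * fS _ contDiff_half) • p.map (cS (n := n))) =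
        1 + ((fS _ contDiff_half : SmS n) + fS _ contDiff_half' +
          fS _ contDiff_half * fS _ contDiff_half') • p.map (cS (n := n)) := by
      rw [add_smul, add_smul, mul_comm (fS _ contDiff_half' : SmS n)]; abel
    rw [this, h, zero_smul, add_zero]

lemma halfU_zero (p : Matrix ι ι (Sm n)) (hp : p * p = p) :
    ((halfU p hp : (Matrix ι ι (SmS n))ˣ) : Matrix ι ι (SmS n)).map (evS 0) = 1 := by
  apply mev_injective
  intro x
  ext i j
  show ((1 : Matrix ι ι (SmS n)) i j).1 (0, x) +
    (Complex.exp (Real.pi * Complex.I * (0 : ℝ)) - 1) * (p i j).1 x =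
      ((1 : Matrix ι ι (Sm n)) i j).1 x
  rw [Complex.ofReal_zero, mul_zero, Complex.exp_zero, sub_self, zero_mul, add_zero]
  by_cases h : i = j
  · subst h; simp
  · simp [h]

lemma halfU_one (p : Matrix ι ι (Sm n)) (hp : p * p = p) :
    ((halfU p hp : (Matrix ι ι (SmS n))ˣ) : Matrix ι ι (SmS n)).map (evS 1) =
      1 - (2 : ℂ) • p := by
  apply mev_injective
  intro x
  ext i j
  show ((1 : Matrix ι ι (SmS n)) i j).1 (1, x) +
    (Complex.exp (Real.pi * Complex.I * (1 : ℝ)) - 1) * (p i j).1 x =
      ((1 : Matrix ι ι (Sm n)) i j).1 x - (2 : ℂ) * (p i j).1 x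
  rw [Complex.ofReal_one, mul_one, Complex.exp_pi_mul_I]
  have h1 : ((1 : Matrix ι ι (SmS n)) i j).1 (1, x) = ((1 : Matrix ι ι (Sm n)) i j).1 x := by
    by_cases h : i = j
    · subst h; simp
    · simp [h]
  rw [h1]; ring

/-! ### the path from `1 - 2p` to `M` -/

/-- the smooth step as a path -/
noncomputable def stepS (n : ℕ) : SmS n :=
  fS (fun s => (Real.smoothTransition s : ℂ))
    (Complex.ofRealCLM.contDiff.comp Real.smoothTransition.contDiff)

lemma stepS_apply (s : ℝ) (x : Fin n → ℝ) : (stepS n).1 (s, x) = (Real.smoothTransition s : ℂ) :=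
  rfl

theorem rpath_negProj (M : Matrix ι ι (Sm n)) (hM : Mᴴ = M) (hu : IsUnit M) (hr : MReal M) :
    RPath (1 - (2 : ℂ) • negProj M hM hu) M := by
  set p := negProj M hM hu with hp
  set a := absSm M hM hu with ha
  have hpi : p * p = p := negProj_idem M hM hu
  set G : Matrix ι ι (SmS n) :=
    ((1 - stepS n) • (1 : Matrix ι ι (SmS n)) + stepS n • a.map (cS (n := n))) *
      (1 - (2 : ℂ) • p.map (cS (n := n))) with hG
  have hev : ∀ (s : ℝ) (x : Fin n → ℝ), mev x (G.map (evS s)) =
      ((1 - (Real.smoothTransition s : ℂ)) • (1 : Matrix ι ι ℂ) +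
        (Real.smoothTransition s : ℂ) • mev x a) * (1 - (2 : ℂ) • mev x p) := by
    intro s x
    have h1 : G.map (evS s) = (((1 - stepS n) • (1 : Matrix ι ι (SmS n)) +
        stepS n • a.map (cS (n := n))).map (evS s)) *
        ((1 - (2 : ℂ) • p.map (cS (n := n))).map (evS s)) := by
      rw [hG]; exact Matrix.map_mul
    rw [h1, mev_mul]
    congr 1
    · ext i j
      show (((1 - stepS n) * (1 : Matrix ι ι (SmS n)) i j).1 (s, x) +
        (stepS n).1 (s, x) * (a i j).1 x) = _
      have : ((1 - stepS n) * (1 : Matrix ι ι (SmS n)) i j).1 (s, x) =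
          (1 - (Real.smoothTransition s : ℂ)) * ((1 : Matrix ι ι (SmS n)) i j).1 (s, x) := rfl
      rw [this]
      by_cases h : i = j
      · subst h; simp [stepS_apply]
      · simp [h, stepS_apply]
    · ext i j
      show ((1 : Matrix ι ι (SmS n)) i j).1 (s, x) - (2 : ℂ) * (p i j).1 x = _
      by_cases h : i = j
      · subst h; simp
      · simp [h]
  have hinv : ∀ x, (1 - (2 : ℂ) • mev x p) * (1 - (2 : ℂ) • mev x p) = 1 := by
    intro x
    have hpx : mev x p * mev x p = mev x p := by rw [← mev_mul, hpi]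
    rw [Matrix.sub_mul, Matrix.mul_sub, Matrix.mul_sub, Matrix.one_mul, Matrix.mul_one,
      Matrix.one_mul, Matrix.smul_mul, Matrix.mul_smul, hpx, smul_smul]
    have : (2 : ℂ) * 2 = 2 + 2 := by norm_num
    rw [this, add_smul]; abel
  have hunit : IsUnit G := by
    apply isUnit_of_pointwiseS
    intro s
    apply isUnit_of_pointwise
    intro x
    rw [hev]
    refine IsUnit.mul ?_ ⟨⟨_, _, hinv x, hinv x⟩, rfl⟩
    have h0 : 0 ≤ Real.smoothTransition s := Real.smoothTransition.nonneg s
    have h1 : Real.smoothTransition s ≤ 1 := Real.smoothTransition.le_one s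
    have hpd : (mev x a).PosDef := absSm_posDef M hM hu x
    have hone : (1 : Matrix ι ι ℂ).PosDef := Matrix.PosDef.one
    rcases h0.eq_or_lt with h | h
    · rw [← h]; simp
    rcases h1.eq_or_lt with h' | h'
    · rw [h']; simpa using hpd.isUnit
    · refine Matrix.PosDef.isUnit ?_
      refine Matrix.PosDef.add ?_ ?_
      · refine hone.smul ?_
        have : (0 : ℝ) < 1 - Real.smoothTransition s := by linarith
        rw [← Complex.ofReal_one, ← Complex.ofReal_sub]
        exact_mod_cast this
      · refine hpd.smul ?_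
        exact_mod_cast h
  obtain ⟨u, huG⟩ := hunit
  refine ⟨u, ?_, ?_, ?_⟩
  · intro s
    rw [huG]
    apply real_of_mev
    intro x
    have key : ∀ A B : Matrix ι ι ℂ, (A * B).map (starRingEnd ℂ) =
        A.map (starRingEnd ℂ) * B.map (starRingEnd ℂ) := fun A B => Matrix.map_mul
    have hpr := negProj_real M hM hu hr
    have har := absSm_real M hM hu hr
    rw [hev, hev, key, mev_of_real har, mev_of_real hpr]
    congr 1
    · ext i j
      simp only [Matrix.map_apply, Matrix.add_apply, Matrix.smul_apply, smul_eq_mul, map_add,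
        map_mul, map_sub, map_one, Complex.conj_ofReal]
      congr 2
      by_cases hij : i = j
      · subst hij; simp
      · simp [hij]
    · ext i j
      simp only [Matrix.map_apply, Matrix.sub_apply, Matrix.smul_apply, smul_eq_mul, map_sub,
        map_mul]
      congr 1
      · by_cases hij : i = j
        · subst hij; simp
        · simp [hij]
      · rw [show (starRingEnd ℂ) (2 : ℂ) = 2 from by
          rw [show (2 : ℂ) = ((2 : ℝ) : ℂ) by norm_num]; exact Complex.conj_ofReal 2]
  · rw [huG]
    apply mev_injective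
    intro x
    rw [hev, Real.smoothTransition.zero_of_nonpos le_rfl]
    simp only [Complex.ofReal_zero, sub_zero, one_smul, zero_smul, add_zero, Matrix.one_mul]
    rw [mev_sub, mev_smul, mev_one]
  · rw [huG]
    apply mev_injective
    intro x
    rw [hev, Real.smoothTransition.one_of_one_le le_rfl]
    simp only [Complex.ofReal_one, sub_self, zero_smul, zero_add, one_smul]
    conv_rhs => rw [← abs_mul_negProj M hM hu, mev_mul, mev_sub, mev_smul, mev_one]

/-! ### constant paths -/

/-- the determinant polynomial of the segment -/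
lemma seg_det (C : Matrix ι ι ℂ) (hC : C.det ≠ 0) :
    {z : ℂ | ((1 - z) • C + z • (1 : Matrix ι ι ℂ)).det = 0}.Finite := by
  classical
  set P : Polynomial ℂ := ((1 - Polynomial.X : Polynomial ℂ) • C.map (Polynomial.C) +
    (Polynomial.X : Polynomial ℂ) • (1 : Matrix ι ι (Polynomial ℂ))).det with hP
  have he : ∀ z : ℂ, P.eval z = ((1 - z) • C + z • (1 : Matrix ι ι ℂ)).det := by
    intro z
    have h := RingHom.map_det (Polynomial.evalRingHom z)
      ((1 - Polynomial.X : Polynomial ℂ) • C.map (Polynomial.C) +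
        (Polynomial.X : Polynomial ℂ) • (1 : Matrix ι ι (Polynomial ℂ)))
    rw [← hP] at h
    rw [← Polynomial.coe_evalRingHom, h]
    congr 1
    ext i j
    by_cases hij : i = j
    · subst hij
      simp [RingHom.mapMatrix_apply]
    · simp [RingHom.mapMatrix_apply, hij]
  have hP0 : P ≠ 0 := by
    intro h0
    have h1 := he 0
    rw [h0] at h1
    simp only [Polynomial.eval_zero, sub_zero, one_smul, zero_smul, add_zero] at h1
    exact hC h1.symm
  refine (P.roots.toFinset.finite_toSet).subset ?_
  intro z hz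
  simp only [Finset.mem_coe, Multiset.mem_toFinset, Polynomial.mem_roots hP0,
    Polynomial.IsRoot.def]
  rw [he]; exact hz

/-- a slope for which the arc from `0` to `1` avoids a finite set -/
lemma exists_slope (Z : Set ℂ) (hZ : Z.Finite) (h0 : (0 : ℂ) ∉ Z) (h1 : (1 : ℂ) ∉ Z) :
    ∃ c : ℝ, ∀ s ∈ Set.Icc (0 : ℝ) 1, ((s : ℂ) + Complex.I * (c * (s * (1 - s)) : ℝ)) ∉ Z := by
  classical
  have hfin : ((fun z : ℂ => z.im / (z.re * (1 - z.re))) '' Z).Finite := hZ.image _
  obtain ⟨c, hc⟩ := hfin.infinite_compl.nonempty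
  refine ⟨c, fun s hs hmem => ?_⟩
  have hre : ((s : ℂ) + Complex.I * (c * (s * (1 - s)) : ℝ)).re = s := by
    simp [Complex.mul_re]
  have him : ((s : ℂ) + Complex.I * (c * (s * (1 - s)) : ℝ)).im = c * (s * (1 - s)) := by
    simp only [Complex.add_im, Complex.ofReal_im, zero_add, Complex.mul_im, Complex.I_re,
      Complex.I_im, Complex.ofReal_re, Complex.ofReal_im]
    ring
  rcases hs.1.eq_or_lt with h | h
  · apply h0; rw [← h] at hmem; simpa using hmem
  rcases hs.2.eq_or_lt with h' | h'
  · apply h1; rw [h'] at hmem; simpa using hmem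
  apply hc
  refine ⟨_, hmem, ?_⟩
  simp only [hre, him]
  have : s * (1 - s) ≠ 0 := (mul_pos h (by linarith)).ne'
  field_simp

/-- an invertible complex matrix is joined to `1` by a path of constant matrices -/
theorem const_path (C : Matrix ι ι ℝ) (hC : C.det ≠ 0) :
    ∃ G : (Matrix ι ι (SmS n))ˣ, (∀ i, (pDS i).mapMatrix (G : Matrix ι ι (SmS n)) = 0) ∧
      (G : Matrix ι ι (SmS n)).map (evS 0) = cMat C ∧
      (G : Matrix ι ι (SmS n)).map (evS 1) = 1 := by
  set C' : Matrix ι ι ℂ := C.map (fun r : ℝ => (r : ℂ)) with hC'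
  have hdet : C'.det ≠ 0 := by
    have h := RingHom.map_det Complex.ofRealHom C
    have h2 : C'.det = ((C.det : ℝ) : ℂ) := h.symm
    rw [h2]; exact_mod_cast hC
  obtain ⟨c, hc⟩ := exists_slope _ (seg_det C' hdet)
    (by simpa using hdet) (by simp)
  set ζ : ℝ → ℂ := fun s => ((Real.smoothTransition s : ℝ) : ℂ) + Complex.I *
    ((c * (Real.smoothTransition s * (1 - Real.smoothTransition s)) : ℝ) : ℂ) with hζ
  have hζs : ContDiff ℝ ∞ ζ := by
    have ht : ContDiff ℝ ∞ Real.smoothTransition := Real.smoothTransition.contDiff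
    exact (Complex.ofRealCLM.contDiff.comp ht).add (contDiff_const.mul
      (Complex.ofRealCLM.contDiff.comp (contDiff_const.mul (ht.mul (contDiff_const.sub ht)))))
  set G : Matrix ι ι (SmS n) := Matrix.of fun i j =>
    (1 - fS ζ hζs) * algebraMap ℂ (SmS n) (C' i j) + fS ζ hζs *
      algebraMap ℂ (SmS n) ((1 : Matrix ι ι ℂ) i j) with hG
  have hev : ∀ (s : ℝ) (x : Fin n → ℝ), mev x (G.map (evS s)) =
      (1 - ζ s) • C' + ζ s • (1 : Matrix ι ι ℂ) := by
    intro s x
    ext i j
    rfl
  have hunit : IsUnit G := by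
    apply isUnit_of_pointwiseS
    intro s
    apply isUnit_of_pointwise
    intro x
    rw [hev, Matrix.isUnit_iff_isUnit_det, isUnit_iff_ne_zero]
    exact hc _ ⟨Real.smoothTransition.nonneg s, Real.smoothTransition.le_one s⟩
  obtain ⟨u, huG⟩ := hunit
  refine ⟨u, ?_, ?_, ?_⟩
  · intro k
    rw [huG]
    ext i j : 1
    apply Subtype.ext
    funext p
    show fderiv ℝ (fun q : ℝ × (Fin n → ℝ) => (1 - ζ q.1) * C' i j + ζ q.1 *
      (1 : Matrix ι ι ℂ) i j) p (0, Pi.single k 1) = 0
    have hd : HasFDerivAt (fun q : ℝ × (Fin n → ℝ) => (1 - ζ q.1) * C' i j + ζ q.1 *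
        (1 : Matrix ι ι ℂ) i j)
        ((fderiv ℝ (fun s : ℝ => (1 - ζ s) * C' i j + ζ s * (1 : Matrix ι ι ℂ) i j) p.1).comp
          (ContinuousLinearMap.fst ℝ ℝ (Fin n → ℝ))) p := by
      have h1 : DifferentiableAt ℝ (fun s : ℝ => (1 - ζ s) * C' i j + ζ s *
          (1 : Matrix ι ι ℂ) i j) p.1 := by
        have hz : DifferentiableAt ℝ ζ p.1 := (hζs.differentiable (by simp)).differentiableAt
        exact (((differentiableAt_const _).sub hz).mul_const _).add (hz.mul_const _)
      exact h1.hasFDerivAt.comp p (ContinuousLinearMap.fst ℝ ℝ (Fin n → ℝ)).hasFDerivAt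
    rw [hd.fderiv]
    simp
  · rw [huG]
    apply mev_injective
    intro x
    rw [hev]
    have : ζ 0 = 0 := by simp [hζ, Real.smoothTransition.zero_of_nonpos le_rfl]
    rw [this]
    ext i j
    simp [cMat, hC']
  · rw [huG]
    apply mev_injective
    intro x
    rw [hev, mev_one]
    have : ζ 1 = 1 := by simp [hζ, Real.smoothTransition.one_of_one_le le_rfl]
    rw [this]
    simp

end Pool.Agent.PD4
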