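import Pool.Agent.PD4.Ix.Sm

/-!
# Project PD4, index block: paths of smooth periodic functions, homotopy invariance

`SmS n`: smooth functions `ℝ × ℝⁿ → ℂ`, periodic in the `ℝⁿ` variables (smooth paths of smooth
functions on the torus), derivations `pDS i` (torus variables) and `pDs` (path parameter),
evaluation `evS s : SmS n → Sm n`.
-/

open MeasureTheory
open scoped ContDiff TensorProduct

namespace Pool.Agent.PD4

/-- smooth functions on `ℝ × ℝⁿ`, periodic in the second variable -/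
def SmS (n : ℕ) : StarSubalgebra ℂ ((ℝ × (Fin n → ℝ)) → ℂ) where
  carrier := {f | ContDiff ℝ ∞ f ∧
    ∀ (s : ℝ) (x : Fin n → ℝ) (i : Fin n), f (s, x + Pi.single i 1) = f (s, x)}
  mul_mem' := by
    rintro f g ⟨hf, hf'⟩ ⟨hg, hg'⟩
    exact ⟨hf.mul hg, fun s x i => by simp only [Pi.mul_apply, hf', hg']⟩
  add_mem' := by
    rintro f g ⟨hf, hf'⟩ ⟨hg, hg'⟩
    exact ⟨hf.add hg, fun s x i => by simp only [Pi.add_apply, hf', hg']⟩
  algebraMap_mem' := fun r => ⟨contDiff_const, fun _ _ _ => rfl⟩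
  star_mem' := by
    rintro f ⟨hf, hf'⟩
    exact ⟨Complex.conjCLE.contDiff.comp hf, fun s x i => by
      simp only [Pi.star_apply, hf']⟩

lemma two_le_infty : (2 : WithTop ℕ∞) ≤ ∞ := by
  change ((2 : ℕ∞) : WithTop ℕ∞) ≤ ((⊤ : ℕ∞) : WithTop ℕ∞)
  exact WithTop.coe_le_coe.2 le_top

lemma SmS.cd {n : ℕ} (f : SmS n) : ContDiff ℝ ∞ f.1 := f.2.1

lemma SmS.df {n : ℕ} (f : SmS n) : Differentiable ℝ f.1 :=
  (SmS.cd f).differentiable (by simp)

/-- directional derivative of a path of functions -/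
noncomputable def SmS.dv {n : ℕ} (v : ℝ × (Fin n → ℝ)) : SmS n →ₗ[ℂ] SmS n where
  toFun f := ⟨fun p => fderiv ℝ f.1 p v, by
    refine ⟨((SmS.cd f).fderiv_right (m := ∞) (by simp)).clm_apply contDiff_const, ?_⟩
    intro s x i
    have h : (fun p : ℝ × (Fin n → ℝ) => f.1 (p + (0, Pi.single i 1))) = f.1 := by
      funext p
      have h1 : p + (0, Pi.single i 1) = (p.1, p.2 + Pi.single i 1) := by
        ext <;> simp
      rw [h1]
      exact f.2.2 p.1 p.2 i
    have h2 := fderiv_comp_add_right (𝕜 := ℝ) (f := f.1) (x := (s, x)) (0, Pi.single i 1)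
    rw [h] at h2
    have h3 : ((s, x) : ℝ × (Fin n → ℝ)) + (0, Pi.single i 1) = (s, x + Pi.single i 1) := by
      simp
    rw [h3] at h2
    simp only [h2]⟩
  map_add' f g := by
    apply Subtype.ext; funext p
    change fderiv ℝ (f.1 + g.1) p v = fderiv ℝ f.1 p v + fderiv ℝ g.1 p v
    rw [fderiv_add (SmS.df f p) (SmS.df g p)]; rfl
  map_smul' c f := by
    apply Subtype.ext; funext p
    change fderiv ℝ (c • f.1) p v = c • fderiv ℝ f.1 p v
    rw [fderiv_const_smul (SmS.df f p)]; rfl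

lemma SmS.dv_apply {n : ℕ} (v : ℝ × (Fin n → ℝ)) (f : SmS n) (p : ℝ × (Fin n → ℝ)) :
    (SmS.dv v f).1 p = fderiv ℝ f.1 p v := rfl

lemma SmS.dv_leib {n : ℕ} (v : ℝ × (Fin n → ℝ)) (f g : SmS n) :
    SmS.dv v (f * g) = SmS.dv v f * g + f * SmS.dv v g := by
  apply Subtype.ext; funext p
  change fderiv ℝ (fun q => f.1 q * g.1 q) p v = fderiv ℝ f.1 p v * g.1 p + f.1 p * fderiv ℝ g.1 p v
  rw [fderiv_fun_mul (SmS.df f p) (SmS.df g p)]
  simp only [add_apply, smul_apply, smul_eq_mul]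
  ring

lemma SmS.dv_comm {n : ℕ} (v w : ℝ × (Fin n → ℝ)) (f : SmS n) :
    SmS.dv v (SmS.dv w f) = SmS.dv w (SmS.dv v f) := by
  apply Subtype.ext; funext p
  have hd : DifferentiableAt ℝ (fderiv ℝ f.1) p :=
    (((SmS.cd f).fderiv_right (m := ∞) (by simp)).differentiable (by simp)) p
  have key : ∀ a b : ℝ × (Fin n → ℝ),
      fderiv ℝ (fun q => fderiv ℝ f.1 q b) p a = fderiv ℝ (fderiv ℝ f.1) p a b := by
    intro a b
    rw [fderiv_clm_apply hd (differentiableAt_const b)]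
    simp
  change fderiv ℝ (fun q => fderiv ℝ f.1 q w) p v = fderiv ℝ (fun q => fderiv ℝ f.1 q v) p w
  rw [key, key]
  exact ((SmS.cd f).contDiffAt.isSymmSndFDerivAt (by simpa using two_le_infty)) v w

/-- evaluation of a path at the parameter `s` -/
noncomputable def evS {n : ℕ} (s : ℝ) : SmS n →⋆ₐ[ℂ] Sm n where
  toFun f := ⟨fun x => f.1 (s, x),
    (SmS.cd f).comp (contDiff_prodMk_right s), fun x i => f.2.2 s x i⟩
  map_one' := rfl
  map_mul' _ _ := rfl
  map_zero' := rfl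
  map_add' _ _ := rfl
  commutes' _ := rfl
  map_star' _ := rfl

/-- constant paths -/
noncomputable def cS {n : ℕ} : Sm n →⋆ₐ[ℂ] SmS n where
  toFun f := ⟨fun p => f.1 p.2, f.2.1.comp contDiff_snd, fun _ x i => f.2.2 x i⟩
  map_one' := rfl
  map_mul' _ _ := rfl
  map_zero' := rfl
  map_add' _ _ := rfl
  commutes' _ := rfl
  map_star' _ := rfl

@[simp] lemma evS_cS {n : ℕ} (s : ℝ) (f : Sm n) : evS s (cS f) = f := rfl

/-- a smooth function of the path parameter alone -/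
noncomputable def fS {n : ℕ} (φ : ℝ → ℂ) (hφ : ContDiff ℝ ∞ φ) : SmS n :=
  ⟨fun p => φ p.1, hφ.comp contDiff_fst, fun _ _ _ => rfl⟩

/-- reparametrisation of a path -/
noncomputable def reparS {n : ℕ} (φ : ℝ → ℝ) (hφ : ContDiff ℝ ∞ φ) : SmS n →⋆ₐ[ℂ] SmS n where
  toFun f := ⟨fun p => f.1 (φ p.1, p.2),
    (SmS.cd f).comp ((hφ.comp contDiff_fst).prodMk contDiff_snd), fun s x i => f.2.2 (φ s) x i⟩
  map_one' := rfl
  map_mul' _ _ := rfl
  map_zero' := rfl
  map_add' _ _ := rfl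
  commutes' _ := rfl
  map_star' _ := rfl

lemma evS_reparS {n : ℕ} (φ : ℝ → ℝ) (hφ : ContDiff ℝ ∞ φ) (s : ℝ) (f : SmS n) :
    evS s (reparS φ hφ f) = evS (φ s) f := rfl

/-- derivative in the torus variable `x_i` -/
noncomputable def pDS {n : ℕ} (i : Fin n) : SmS n →ₗ[ℂ] SmS n := SmS.dv (0, Pi.single i 1)

/-- derivative in the path parameter -/
noncomputable def pDs {n : ℕ} : SmS n →ₗ[ℂ] SmS n := SmS.dv (1, 0)

lemma pDS_leib {n : ℕ} (i : Fin n) (f g : SmS n) :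
    pDS i (f * g) = pDS i f * g + f * pDS i g := SmS.dv_leib _ f g

lemma pDs_leib {n : ℕ} (f g : SmS n) : pDs (f * g) = pDs f * g + f * pDs g :=
  SmS.dv_leib _ f g

lemma pDS_comm {n : ℕ} (i j : Fin n) (f : SmS n) : pDS i (pDS j f) = pDS j (pDS i f) :=
  SmS.dv_comm _ _ f

lemma pDs_comm {n : ℕ} (i : Fin n) (f : SmS n) : pDS i (pDs f) = pDs (pDS i f) :=
  SmS.dv_comm _ _ f

lemma evS_pDS {n : ℕ} (s : ℝ) (i : Fin n) (f : SmS n) : evS s (pDS i f) = pD i (evS s f) := by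
  apply Subtype.ext; funext x
  change fderiv ℝ f.1 (s, x) (0, Pi.single i 1) = fderiv ℝ (fun y => f.1 (s, y)) x (Pi.single i 1)
  have h : HasFDerivAt (fun y : Fin n → ℝ => ((s, y) : ℝ × (Fin n → ℝ)))
      (ContinuousLinearMap.inr ℝ ℝ (Fin n → ℝ)) x := hasFDerivAt_prodMk_right s x
  have h2 := ((SmS.df f (s, x)).hasFDerivAt.comp x h).fderiv
  change fderiv ℝ (fun y => f.1 (s, y)) x = _ at h2
  rw [h2]; rfl

lemma pDs_cS {n : ℕ} (f : Sm n) : pDs (cS f) = 0 := by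
  apply Subtype.ext; funext p
  change fderiv ℝ (fun q : ℝ × (Fin n → ℝ) => f.1 q.2) p (1, 0) = 0
  have hf : DifferentiableAt ℝ f.1 p.2 := (f.2.1.differentiable (by simp)) p.2
  have h2 := (hf.hasFDerivAt.comp p (hasFDerivAt_snd (𝕜 := ℝ) (p := p))).fderiv
  change fderiv ℝ (fun q : ℝ × (Fin n → ℝ) => f.1 q.2) p = _ at h2
  rw [h2]; simp

lemma pDs_reparS {n : ℕ} (φ : ℝ → ℝ) (hφ : ContDiff ℝ ∞ φ) (f : SmS n) (s : ℝ) :
    evS s (pDs (reparS φ hφ f)) = ((deriv φ s : ℝ) : ℂ) • evS (φ s) (pDs f) := by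
  apply Subtype.ext; funext x
  change fderiv ℝ (fun q : ℝ × (Fin n → ℝ) => f.1 (φ q.1, q.2)) (s, x) (1, 0) =
    ((deriv φ s : ℝ) : ℂ) • fderiv ℝ f.1 (φ s, x) (1, 0)
  have hd : HasDerivAt φ (deriv φ s) s :=
    ((hφ.differentiable (by simp)) s).hasDerivAt
  have h1 : HasFDerivAt (fun q : ℝ × (Fin n → ℝ) => φ q.1)
      (((ContinuousLinearMap.toSpanSingleton ℝ (deriv φ s))).comp
        (ContinuousLinearMap.fst ℝ ℝ (Fin n → ℝ))) (s, x) :=
    hd.hasFDerivAt.comp (s, x) hasFDerivAt_fst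
  have h2 := h1.prodMk (hasFDerivAt_snd (𝕜 := ℝ) (E := ℝ) (F := Fin n → ℝ) (p := (s, x)))
  have h3 := ((SmS.df f (φ s, x)).hasFDerivAt.comp (s, x) h2).fderiv
  change fderiv ℝ (fun q : ℝ × (Fin n → ℝ) => f.1 (φ q.1, q.2)) (s, x) = _ at h3
  rw [h3]
  have h4 : ((deriv φ s, 0) : ℝ × (Fin n → ℝ)) = deriv φ s • ((1, 0) : ℝ × (Fin n → ℝ)) := by
    ext <;> simp
  simp only [ContinuousLinearMap.comp_apply, ContinuousLinearMap.prod_apply,
    ContinuousLinearMap.coe_fst', ContinuousLinearMap.coe_snd',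
    ContinuousLinearMap.toSpanSingleton_apply, one_smul]
  rw [h4, map_smul]
  rfl

/-- derivative under the mean -/
lemma hasDerivAt_mean {n : ℕ} (f : SmS n) (s : ℝ) :
    HasDerivAt (fun s => mean (evS s f)) (mean (evS s (pDs f))) s := by
  have hcont : Continuous (pDs f).1 := (SmS.cd (pDs f)).continuous
  have hK : IsCompact (Set.Icc (s - 1) (s + 1) ×ˢ Set.Icc (0 : Fin n → ℝ) 1) :=
    isCompact_Icc.prod isCompact_Icc
  obtain ⟨C, hC⟩ := hK.exists_bound_of_continuousOn hcont.continuousOn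
  have hd : ∀ (x : Fin n → ℝ) (t : ℝ), HasDerivAt (fun t => f.1 (t, x)) ((pDs f).1 (t, x)) t := by
    intro x t
    have h1 : HasFDerivAt (fun t : ℝ => ((t, x) : ℝ × (Fin n → ℝ)))
      (ContinuousLinearMap.inl ℝ ℝ (Fin n → ℝ)) t := hasFDerivAt_prodMk_left t x
    have h2 := ((SmS.df f (t, x)).hasFDerivAt.comp t h1).hasDerivAt
    exact h2
  have key := hasDerivAt_integral_of_dominated_loc_of_deriv_le
    (μ := volume.restrict (Set.Icc (0 : Fin n → ℝ) 1)) (x₀ := s) (bound := fun _ => C)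
    (F := fun t x => f.1 (t, x)) (F' := fun t x => (pDs f).1 (t, x))
    (Icc_mem_nhds (show s - 1 < s by linarith) (show s < s + 1 by linarith))
    (Filter.Eventually.of_forall fun t =>
      ((SmS.cd f).continuous.comp (by fun_prop : Continuous fun x => (t, x))).aestronglyMeasurable)
    (Sm.integrableOn (evS s f))
    ((hcont.comp (by fun_prop : Continuous fun x => (s, x))).aestronglyMeasurable)
    ((ae_restrict_iff' measurableSet_Icc).2 (Filter.Eventually.of_forall fun x hx t ht =>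
      hC (t, x) ⟨ht, hx⟩))
    ((integrableOn_const_iff (μ := volume) (C := C)).2 (Or.inr
      (isCompact_Icc.measure_lt_top)))
    (Filter.Eventually.of_forall fun x t _ => hd x t)
  exact key.2

/-- a nowhere vanishing element of `SmS n` is a unit -/
lemma SmS.isUnit {n : ℕ} (f : SmS n) (hf : ∀ p, f.1 p ≠ 0) : IsUnit f := by
  let g : SmS n := ⟨fun x => (f.1 x)⁻¹, f.2.1.inv hf, fun s x i => congrArg _ (f.2.2 s x i)⟩
  have h : f * g = 1 := by
    apply Subtype.ext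
    funext x
    exact mul_inv_cancel₀ (hf x)
  exact IsUnit.of_mul_eq_one g h

section Mat

variable {ι : Type*} [Fintype ι] [DecidableEq ι] {n : ℕ}

/-- a matrix of paths which is invertible at each point is a unit -/
lemma isUnit_of_pointwiseS (M : Matrix ι ι (SmS n)) (h : ∀ s, IsUnit (M.map (evS s))) :
    IsUnit M := by
  rw [Matrix.isUnit_iff_isUnit_det]
  apply SmS.isUnit
  rintro ⟨s, x⟩
  have h1 : evS s M.det = (M.map (evS s)).det :=
    RingHom.map_det ((evS s : SmS n →⋆ₐ[ℂ] Sm n) : SmS n →+* Sm n) M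
  have h2 := ((Matrix.isUnit_iff_isUnit_det _).1 (h s)).map (Sm.ev x : Sm n →⋆ₐ[ℂ] ℂ)
  rw [← h1] at h2
  exact h2.ne_zero

/-- the calculus on matrices of paths, at a fixed parameter `s` -/
noncomputable def matCalcS (ι : Type*) [Fintype ι] [DecidableEq ι] (n : ℕ) (s : ℝ) :
    Calc (Matrix ι ι (SmS n)) n where
  D i := (pDS i).mapMatrix
  leib i a b := by
    ext1 j k
    simp only [LinearMap.mapMatrix_apply, Matrix.map_apply, Matrix.mul_apply, Matrix.add_apply,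
      map_sum, pDS_leib, Finset.sum_add_distrib]
  comm i j a := by
    ext1 k l
    exact pDS_comm i j (a k l)
  tr := mean ∘ₗ ((evS s).toAlgHom.toLinearMap) ∘ₗ Matrix.traceLinearMap ι ℂ (SmS n)
  tr_comm a b := by
    simp only [LinearMap.comp_apply, Matrix.traceLinearMap_apply]
    rw [Matrix.trace_mul_comm]
  tr_D i a := by
    simp only [LinearMap.comp_apply, Matrix.traceLinearMap_apply, Matrix.trace,
      Matrix.diag_apply, LinearMap.mapMatrix_apply, Matrix.map_apply, map_sum]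
    refine Finset.sum_eq_zero fun j _ => ?_
    change mean (evS s (pDS i (a j j))) = 0
    rw [evS_pDS, mean_pD]

/-- evaluation of an invertible matrix of paths -/
noncomputable def evU (s : ℝ) : (Matrix ι ι (SmS n))ˣ →* (Matrix ι ι (Sm n))ˣ :=
  Units.map ((evS s : SmS n →⋆ₐ[ℂ] Sm n) : SmS n →+* Sm n).mapMatrix.toMonoidHom

/-! ### functoriality of the integrands -/

lemma pth_dd_tmul {R : Type*} [Ring R] [Algebra ℂ R] {m : ℕ} (C : Calc R m) (r : R)
    (w : Ext m) : C.dd (r ⊗ₜ[ℂ] w) = ∑ i, (C.D i r) ⊗ₜ[ℂ] (dx i * w) := by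
  simp only [Calc.dd, LinearMap.sum_apply, LinearMap.comp_apply, LinearMap.mulLeft_apply, liftD,
    LinearMap.rTensor_tmul, Algebra.TensorProduct.tmul_mul_tmul, one_mul]

lemma pth_TT_tmul {R : Type*} [Ring R] [Algebra ℂ R] {m : ℕ} (C : Calc R m) (r : R)
    (w : Ext m) : C.TT (r ⊗ₜ[ℂ] w) = C.tr r * topc m w := by
  simp only [Calc.TT, LinearMap.comp_apply, TensorProduct.map_tmul, LinearMap.mul'_apply]

section Functor

variable {R R' : Type*} [Ring R] [Algebra ℂ R] [Ring R'] [Algebra ℂ R'] {m : ℕ}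
  (C : Calc R m) (C' : Calc R' m) (φ : R →ₐ[ℂ] R')

lemma pth_dd_map (hD : ∀ i a, φ (C.D i a) = C'.D i (φ a)) (a : Om R m) :
    Algebra.TensorProduct.map φ (AlgHom.id ℂ (Ext m)) (C.dd a) =
      C'.dd (Algebra.TensorProduct.map φ (AlgHom.id ℂ (Ext m)) a) := by
  induction a using TensorProduct.induction_on with
  | zero => simp only [map_zero]
  | tmul r w =>
    simp only [pth_dd_tmul, map_sum, Algebra.TensorProduct.map_tmul, hD, AlgHom.coe_id, id_eq]
  | add a b ha hb => simp only [map_add, ha, hb]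

lemma pth_TT_map (htr : ∀ a, C'.tr (φ a) = C.tr a) (a : Om R m) :
    C'.TT (Algebra.TensorProduct.map φ (AlgHom.id ℂ (Ext m)) a) = C.TT a := by
  induction a using TensorProduct.induction_on with
  | zero => simp only [map_zero]
  | tmul r w =>
    simp only [pth_TT_tmul, Algebra.TensorProduct.map_tmul, htr, AlgHom.coe_id, id_eq]
  | add a b ha hb => simp only [map_add, ha, hb]

/-- the odd integrand is functorial -/
theorem Calc.oddT_map (hD : ∀ i a, φ (C.D i a) = C'.D i (φ a))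
    (htr : ∀ a, C'.tr (φ a) = C.tr a) (G : Rˣ) (G' : R'ˣ) (hG : (G' : R') = φ G) :
    C'.oddT G' = C.oddT G := by
  have hG' : ((G'⁻¹ : R'ˣ) : R') = φ ((G⁻¹ : Rˣ) : R) := by
    have h1 : (G' : R') * φ ((G⁻¹ : Rˣ) : R) = 1 := by
      rw [hG, ← map_mul, Units.mul_inv, map_one]
    calc ((G'⁻¹ : R'ˣ) : R') = ((G'⁻¹ : R'ˣ) : R') * ((G' : R') * φ ((G⁻¹ : Rˣ) : R)) := by
          rw [h1, mul_one]
      _ = _ := by rw [← mul_assoc, Units.inv_mul, one_mul]
  unfold Calc.oddT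
  rw [← pth_TT_map C C' φ htr]
  congr 1
  rw [map_pow, map_mul, pth_dd_map C C' φ hD,
    Algebra.TensorProduct.map_tmul, Algebra.TensorProduct.map_tmul, hG', hG]
  simp only [map_one]

/-- the even integrand is functorial -/
theorem Calc.evenT_map (hD : ∀ i a, φ (C.D i a) = C'.D i (φ a))
    (htr : ∀ a, C'.tr (φ a) = C.tr a) (e : R) :
    C'.evenT (φ e) = C.evenT e := by
  unfold Calc.evenT
  rw [← pth_TT_map C C' φ htr]
  congr 1
  rw [map_mul, map_pow, pth_dd_map C C' φ hD,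
    Algebra.TensorProduct.map_tmul]
  simp only [map_one]

end Functor

lemma pth_hD (s : ℝ) (i : Fin n) (a : Matrix ι ι (SmS n)) :
    (evS s : SmS n →⋆ₐ[ℂ] Sm n).toAlgHom.mapMatrix ((matCalcS ι n s).D i a) =
      (matCalc ι n).D i ((evS s : SmS n →⋆ₐ[ℂ] Sm n).toAlgHom.mapMatrix a) := by
  ext1 j k
  exact evS_pDS s i (a j k)

lemma pth_htr (s : ℝ) (a : Matrix ι ι (SmS n)) :
    (matCalc ι n).tr ((evS s : SmS n →⋆ₐ[ℂ] Sm n).toAlgHom.mapMatrix a) =
      (matCalcS ι n s).tr a := by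
  change mean (Matrix.trace (a.map (evS s))) = mean (evS s (Matrix.trace a))
  simp only [Matrix.trace, Matrix.diag_apply, Matrix.map_apply, map_sum]

lemma oddT_evU (s : ℝ) (G : (Matrix ι ι (SmS n))ˣ) :
    (matCalc ι n).oddT (evU s G) = (matCalcS ι n s).oddT G :=
  Calc.oddT_map (matCalcS ι n s) (matCalc ι n) _ (pth_hD s) (pth_htr s) G (evU s G) rfl

lemma evenT_evS (s : ℝ) (e : Matrix ι ι (SmS n)) :
    (matCalc ι n).evenT (e.map (evS s)) = (matCalcS ι n s).evenT e :=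
  Calc.evenT_map (matCalcS ι n s) (matCalc ι n) _ (pth_hD s) (pth_htr s) e

/-- the time derivative as an even derivation -/
noncomputable def dtDer (ι : Type*) [Fintype ι] [DecidableEq ι] (n : ℕ) (s : ℝ) :
    (matCalcS ι n s).dgt.EvenDer :=
  (matCalcS ι n s).evenDer (pDs.mapMatrix : Matrix ι ι (SmS n) →ₗ[ℂ] Matrix ι ι (SmS n))
    (by
      intro a b
      ext1 j k
      simp only [LinearMap.mapMatrix_apply, Matrix.map_apply, Matrix.mul_apply, Matrix.add_apply,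
        map_sum, pDs_leib, Finset.sum_add_distrib])
    (by
      intro i a
      ext1 j k
      exact pDs_comm i (a j k))

/-- derivative of the graded trace at time `s` -/
lemma hasDerivAt_TT (F : Om (Matrix ι ι (SmS n)) n) (s : ℝ) :
    HasDerivAt (fun s => (matCalcS ι n s).TT F) ((matCalcS ι n s).TT
      (liftD (pDs.mapMatrix : Matrix ι ι (SmS n) →ₗ[ℂ] Matrix ι ι (SmS n)) F)) s := by
  induction F using TensorProduct.induction_on with
  | zero => simpa only [map_zero] using hasDerivAt_const s (0 : ℂ)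
  | tmul r w =>
    simp only [liftD, LinearMap.rTensor_tmul, pth_TT_tmul]
    have h := (hasDerivAt_mean (Matrix.trace r) s).mul_const (topc n w)
    have e : (matCalcS ι n s).tr
        ((pDs.mapMatrix : Matrix ι ι (SmS n) →ₗ[ℂ] Matrix ι ι (SmS n)) r) =
        mean (evS s (pDs (Matrix.trace r))) := by
      change mean (evS s (Matrix.trace (r.map pDs))) = _
      simp only [Matrix.trace, Matrix.diag_apply, Matrix.map_apply, map_sum]
    rw [e]
    exact h
  | add a b ha hb => simpa only [map_add] using ha.fun_add hb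

/-- **homotopy invariance, odd case** -/
theorem oddT_path (hn : Odd n) (G : (Matrix ι ι (SmS n))ˣ) (s t : ℝ) :
    (matCalc ι n).oddT (evU s G) = (matCalc ι n).oddT (evU t G) := by
  rw [oddT_evU, oddT_evU]
  have hd : ∀ r : ℝ, HasDerivAt (fun r => (matCalcS ι n r).oddT G) 0 r := by
    intro r
    have h1 := hasDerivAt_TT (ι := ι) (((((G⁻¹ : (Matrix ι ι (SmS n))ˣ) : Matrix ι ι (SmS n)) ⊗ₜ[ℂ]
      (1 : Ext n) * (matCalcS ι n r).dd ((G : Matrix ι ι (SmS n)) ⊗ₜ[ℂ] (1 : Ext n))) ^ n)) r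
    have h2 : (matCalcS ι n r).TT
        (liftD (pDs.mapMatrix : Matrix ι ι (SmS n) →ₗ[ℂ] Matrix ι ι (SmS n))
        (((((G⁻¹ : (Matrix ι ι (SmS n))ˣ) : Matrix ι ι (SmS n)) ⊗ₜ[ℂ]
      (1 : Ext n) * (matCalcS ι n r).dd ((G : Matrix ι ι (SmS n)) ⊗ₜ[ℂ] (1 : Ext n))) ^ n))) = 0 := by
      have e1 : ((G : Matrix ι ι (SmS n)) ⊗ₜ[ℂ] (1 : Ext n)) *
          (((G⁻¹ : (Matrix ι ι (SmS n))ˣ) : Matrix ι ι (SmS n)) ⊗ₜ[ℂ] (1 : Ext n)) = 1 := by
        rw [Algebra.TensorProduct.tmul_mul_tmul, Units.mul_inv, one_mul]; rfl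
      have e2 : (((G⁻¹ : (Matrix ι ι (SmS n))ˣ) : Matrix ι ι (SmS n)) ⊗ₜ[ℂ] (1 : Ext n)) *
          ((G : Matrix ι ι (SmS n)) ⊗ₜ[ℂ] (1 : Ext n)) = 1 := by
        rw [Algebra.TensorProduct.tmul_mul_tmul, Units.inv_mul, one_mul]; rfl
      have e3 : (matCalcS ι n r).dgt.γ ((G : Matrix ι ι (SmS n)) ⊗ₜ[ℂ] (1 : Ext n)) =
          (G : Matrix ι ι (SmS n)) ⊗ₜ[ℂ] (1 : Ext n) := by
        change Algebra.TensorProduct.map _ _ _ = _
        rw [Algebra.TensorProduct.map_tmul, map_one]; rfl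
      exact (matCalcS ι n r).dgt.odd_variation (dtDer ι n r) e1 e2 e3 hn
    rw [h2] at h1
    exact h1
  exact is_const_of_deriv_eq_zero (fun r => (hd r).differentiableAt) (fun r => (hd r).deriv) s t

/-- **homotopy invariance, even case** -/
theorem evenT_path (hn : Even n) (e : Matrix ι ι (SmS n)) (he : e * e = e) (s t : ℝ) :
    (matCalc ι n).evenT (e.map (evS s)) = (matCalc ι n).evenT (e.map (evS t)) := by
  rw [evenT_evS, evenT_evS]
  obtain ⟨k, hk⟩ := hn
  have hk2 : n = 2 * k := by omega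
  have hd : ∀ r : ℝ, HasDerivAt (fun r => (matCalcS ι n r).evenT e) 0 r := by
    intro r
    have h1 := hasDerivAt_TT (ι := ι) ((e ⊗ₜ[ℂ] (1 : Ext n)) *
      (matCalcS ι n r).dd (e ⊗ₜ[ℂ] (1 : Ext n)) ^ n) r
    have h2 : (matCalcS ι n r).TT
        (liftD (pDs.mapMatrix : Matrix ι ι (SmS n) →ₗ[ℂ] Matrix ι ι (SmS n))
        ((e ⊗ₜ[ℂ] (1 : Ext n)) * (matCalcS ι n r).dd (e ⊗ₜ[ℂ] (1 : Ext n)) ^ n)) = 0 := by
      have e1 : (e ⊗ₜ[ℂ] (1 : Ext n)) * (e ⊗ₜ[ℂ] (1 : Ext n)) = (e ⊗ₜ[ℂ] (1 : Ext n)) := by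
        rw [Algebra.TensorProduct.tmul_mul_tmul, he, one_mul]
      have e3 : (matCalcS ι n r).dgt.γ (e ⊗ₜ[ℂ] (1 : Ext n)) = e ⊗ₜ[ℂ] (1 : Ext n) := by
        change Algebra.TensorProduct.map _ _ _ = _
        rw [Algebra.TensorProduct.map_tmul, map_one]; rfl
      have h3 := (matCalcS ι n r).dgt.even_variation (dtDer ι n r) e1 e3 k
      rw [← hk2] at h3
      exact h3
    rw [h2] at h1
    exact h1
  exact is_const_of_deriv_eq_zero (fun r => (hd r).differentiableAt) (fun r => (hd r).deriv) s t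

end Mat

end Pool.Agent.PD4
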