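import Mathlib

/-!
# Project PD4, index block: abstract first order symbol calculus

`QSys R A`: linear maps `Op N : R → A N` into seminormed algebras with
`Op f Op g = Op (f g) - ε Op (∂_y f ∂_x g) + O(N⁻²)`, `ε = 1/(2πi N)`.  Output `QSys.words`: the
first order expansion of the words `tr (U⁻¹ Op(D_{w 0} G) ⋯ U⁻¹ Op(D_{w (n-1)} G))`,
`U = Op G`.
-/

namespace Pool.Agent.PD4

/-- `ε = 1/(2πi N)` -/
noncomputable def qeps (N : ℕ) : ℂ := 1 / (2 * Real.pi * Complex.I * N)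

lemma norm_qeps_le {N : ℕ} (hN : 0 < N) : ‖qeps N‖ ≤ 1 / N := by
  unfold qeps
  rw [norm_div, norm_one, norm_mul, norm_mul, norm_mul, Complex.norm_I, Complex.norm_natCast,
    Complex.norm_real, Complex.norm_ofNat, Real.norm_of_nonneg Real.pi_pos.le, mul_one]
  have h : (N : ℝ) ≤ 2 * Real.pi * N := by
    have h1 : (1 : ℝ) ≤ 2 * Real.pi := by linarith [Real.pi_gt_three]
    have h2 : (0 : ℝ) ≤ N := Nat.cast_nonneg N
    nlinarith
  exact one_div_le_one_div_of_le (Nat.cast_pos.mpr hN) h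

/-- abstract quantisation system -/
structure QSys (R : Type*) [Ring R] [Algebra ℂ R] (A : ℕ → Type*) [∀ N, Ring (A N)]
    [∀ N, Algebra ℂ (A N)] where
  Dx : R →ₗ[ℂ] R
  Dy : R →ₗ[ℂ] R
  leibx : ∀ a b, Dx (a * b) = Dx a * b + a * Dx b
  leiby : ∀ a b, Dy (a * b) = Dy a * b + a * Dy b
  Op : ∀ N, R →ₗ[ℂ] A N
  Op_one : ∀ N, 0 < N → Op N 1 = 1
  nu : ∀ N, A N → ℝ
  nu_nonneg : ∀ N a, 0 ≤ nu N a
  nu_add : ∀ N a b, nu N (a + b) ≤ nu N a + nu N b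
  nu_mul : ∀ N a b, nu N (a * b) ≤ nu N a * nu N b
  nu_smul : ∀ N (c : ℂ) a, nu N (c • a) ≤ ‖c‖ * nu N a
  H1 : ∀ f, ∃ C : ℝ, ∀ N, 0 < N → nu N (Op N f) ≤ C
  H2 : ∀ f g, ∃ C : ℝ, ∀ N, 0 < N →
    nu N (Op N f * Op N g - Op N (f * g) + qeps N • Op N (Dy f * Dx g)) ≤ C / (N : ℝ) ^ 2
  unit_of_small : ∀ N (E : A N), nu N E ≤ 1 / 2 → IsUnit (1 + E)

namespace QSys

variable {R : Type*} [Ring R] [Algebra ℂ R] {A : ℕ → Type*} [∀ N, Ring (A N)]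
  [∀ N, Algebra ℂ (A N)] (Q : QSys R A)

/-- negligible sequences: `O(N⁻²)` -/
def Neg (X : ∀ N, A N) : Prop :=
  ∃ (C : ℝ) (N₀ : ℕ), ∀ N, N₀ ≤ N → 0 < N → Q.nu N (X N) ≤ C / (N : ℝ) ^ 2

/-- bounded sequences -/
def Bd (X : ∀ N, A N) : Prop :=
  ∃ (C : ℝ) (N₀ : ℕ), ∀ N, N₀ ≤ N → 0 < N → Q.nu N (X N) ≤ C

variable {Q}

lemma nu_neg (N : ℕ) (a : A N) : Q.nu N (-a) ≤ Q.nu N a := by
  have h := Q.nu_smul N (-1) a
  simpa using h

lemma Neg.add {X Y : ∀ N, A N} (hX : Q.Neg X) (hY : Q.Neg Y) : Q.Neg (fun N => X N + Y N) := by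
  obtain ⟨C, N₀, h⟩ := hX
  obtain ⟨C', N₁, h'⟩ := hY
  refine ⟨C + C', max N₀ N₁, fun N hN h0 => ?_⟩
  have h1 := h N ((le_max_left _ _).trans hN) h0
  have h2 := h' N ((le_max_right _ _).trans hN) h0
  calc Q.nu N (X N + Y N) ≤ Q.nu N (X N) + Q.nu N (Y N) := Q.nu_add _ _ _
    _ ≤ C / (N : ℝ) ^ 2 + C' / (N : ℝ) ^ 2 := add_le_add h1 h2
    _ = (C + C') / (N : ℝ) ^ 2 := by ring

lemma Neg.smul {X : ∀ N, A N} (c : ℕ → ℂ) (hc : ∀ N, 0 < N → ‖c N‖ ≤ 1) (hX : Q.Neg X) :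
    Q.Neg (fun N => c N • X N) := by
  obtain ⟨C, N₀, h⟩ := hX
  refine ⟨C, N₀, fun N hN h0 => ?_⟩
  calc Q.nu N (c N • X N) ≤ ‖c N‖ * Q.nu N (X N) := Q.nu_smul _ _ _
    _ ≤ 1 * Q.nu N (X N) := mul_le_mul_of_nonneg_right (hc N h0) (Q.nu_nonneg _ _)
    _ ≤ C / (N : ℝ) ^ 2 := by rw [one_mul]; exact h N hN h0

lemma Neg.neg {X : ∀ N, A N} (hX : Q.Neg X) : Q.Neg (fun N => - X N) := by
  obtain ⟨C, N₀, h⟩ := hX
  exact ⟨C, N₀, fun N hN h0 => (nu_neg N _).trans (h N hN h0)⟩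

lemma Neg.sub {X Y : ∀ N, A N} (hX : Q.Neg X) (hY : Q.Neg Y) : Q.Neg (fun N => X N - Y N) := by
  have h := hX.add hY.neg
  simpa [sub_eq_add_neg] using h

lemma Neg.congr {X Y : ∀ N, A N} (hX : Q.Neg X) (h : ∀ N, 0 < N → X N = Y N) : Q.Neg Y := by
  obtain ⟨C, N₀, hC⟩ := hX
  exact ⟨C, N₀, fun N hN h0 => by rw [← h N h0]; exact hC N hN h0⟩

lemma Bd.congr {X Y : ∀ N, A N} (hX : Q.Bd X) (h : ∀ N, 0 < N → X N = Y N) : Q.Bd Y := by
  obtain ⟨C, N₀, hC⟩ := hX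
  exact ⟨C, N₀, fun N hN h0 => by rw [← h N h0]; exact hC N hN h0⟩

lemma Bd.add {X Y : ∀ N, A N} (hX : Q.Bd X) (hY : Q.Bd Y) : Q.Bd (fun N => X N + Y N) := by
  obtain ⟨C, N₀, h⟩ := hX
  obtain ⟨C', N₁, h'⟩ := hY
  refine ⟨C + C', max N₀ N₁, fun N hN h0 => ?_⟩
  have h1 := h N ((le_max_left _ _).trans hN) h0
  have h2 := h' N ((le_max_right _ _).trans hN) h0
  exact (Q.nu_add _ _ _).trans (add_le_add h1 h2)

lemma Bd.smul {X : ∀ N, A N} (c : ℕ → ℂ) (hc : ∀ N, 0 < N → ‖c N‖ ≤ 1) (hX : Q.Bd X) :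
    Q.Bd (fun N => c N • X N) := by
  obtain ⟨C, N₀, h⟩ := hX
  refine ⟨C, N₀, fun N hN h0 => ?_⟩
  calc Q.nu N (c N • X N) ≤ ‖c N‖ * Q.nu N (X N) := Q.nu_smul _ _ _
    _ ≤ 1 * Q.nu N (X N) := mul_le_mul_of_nonneg_right (hc N h0) (Q.nu_nonneg _ _)
    _ ≤ C := by rw [one_mul]; exact h N hN h0

lemma Bd.mul {X Y : ∀ N, A N} (hX : Q.Bd X) (hY : Q.Bd Y) : Q.Bd (fun N => X N * Y N) := by
  obtain ⟨C, N₀, h⟩ := hX
  obtain ⟨C', N₁, h'⟩ := hY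
  refine ⟨C * C', max N₀ N₁, fun N hN h0 => ?_⟩
  have h1 := h N ((le_max_left _ _).trans hN) h0
  have h2 := h' N ((le_max_right _ _).trans hN) h0
  exact (Q.nu_mul _ _ _).trans (mul_le_mul h1 h2 (Q.nu_nonneg _ _)
    ((Q.nu_nonneg _ _).trans h1))

lemma Neg.mul_bd {X Y : ∀ N, A N} (hX : Q.Neg X) (hY : Q.Bd Y) :
    Q.Neg (fun N => X N * Y N) := by
  obtain ⟨C, N₀, h⟩ := hX
  obtain ⟨C', N₁, h'⟩ := hY
  refine ⟨C * C', max N₀ N₁, fun N hN h0 => ?_⟩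
  have h1 := h N ((le_max_left _ _).trans hN) h0
  have h2 := h' N ((le_max_right _ _).trans hN) h0
  calc Q.nu N (X N * Y N) ≤ Q.nu N (X N) * Q.nu N (Y N) := Q.nu_mul _ _ _
    _ ≤ C / (N : ℝ) ^ 2 * C' := mul_le_mul h1 h2 (Q.nu_nonneg _ _)
      ((Q.nu_nonneg _ _).trans h1)
    _ = C * C' / (N : ℝ) ^ 2 := by ring

lemma Bd.mul_neg {X Y : ∀ N, A N} (hX : Q.Bd X) (hY : Q.Neg Y) :
    Q.Neg (fun N => X N * Y N) := by
  obtain ⟨C, N₀, h⟩ := hX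
  obtain ⟨C', N₁, h'⟩ := hY
  refine ⟨C * C', max N₀ N₁, fun N hN h0 => ?_⟩
  have h1 := h N ((le_max_left _ _).trans hN) h0
  have h2 := h' N ((le_max_right _ _).trans hN) h0
  calc Q.nu N (X N * Y N) ≤ Q.nu N (X N) * Q.nu N (Y N) := Q.nu_mul _ _ _
    _ ≤ C * (C' / (N : ℝ) ^ 2) := mul_le_mul h1 h2 (Q.nu_nonneg _ _)
      ((Q.nu_nonneg _ _).trans h1)
    _ = C * C' / (N : ℝ) ^ 2 := by ring

lemma Neg.bd {X : ∀ N, A N} (hX : Q.Neg X) : Q.Bd X := by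
  obtain ⟨C, N₀, h⟩ := hX
  refine ⟨|C|, N₀, fun N hN h0 => (h N hN h0).trans ?_⟩
  have h1 : (1 : ℝ) ≤ (N : ℝ) ^ 2 := one_le_pow₀ (by exact_mod_cast h0)
  calc C / (N : ℝ) ^ 2 ≤ |C| / (N : ℝ) ^ 2 :=
        div_le_div_of_nonneg_right (le_abs_self C) (by positivity)
    _ ≤ |C| := div_le_self (abs_nonneg C) h1

lemma qeps_le_one {N : ℕ} (hN : 0 < N) : ‖qeps N‖ ≤ 1 := by
  refine (norm_qeps_le hN).trans ?_
  rw [div_le_one (Nat.cast_pos.mpr hN)]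
  exact_mod_cast hN

lemma Bd.sq_smul {X : ∀ N, A N} (hX : Q.Bd X) : Q.Neg (fun N => (qeps N * qeps N) • X N) := by
  obtain ⟨C, N₀, h⟩ := hX
  refine ⟨C, N₀, fun N hN h0 => ?_⟩
  have h1 := norm_qeps_le h0
  have h2 : ‖qeps N * qeps N‖ ≤ 1 / (N : ℝ) ^ 2 := by
    rw [norm_mul, pow_two, ← one_div_mul_one_div]
    exact mul_le_mul h1 h1 (norm_nonneg _) (by positivity)
  have h3 : 0 ≤ C := (Q.nu_nonneg _ _).trans (h N hN h0)
  calc Q.nu N ((qeps N * qeps N) • X N) ≤ ‖qeps N * qeps N‖ * Q.nu N (X N) := Q.nu_smul _ _ _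
    _ ≤ 1 / (N : ℝ) ^ 2 * C := mul_le_mul h2 (h N hN h0) (Q.nu_nonneg _ _) (by positivity)
    _ = C / (N : ℝ) ^ 2 := by ring

lemma bd_Op (f : R) : Q.Bd (fun N => Q.Op N f) := by
  obtain ⟨C, h⟩ := Q.H1 f
  exact ⟨C, 0, fun N _ h0 => h N h0⟩

lemma neg_Op_mul (f g : R) : Q.Neg (fun N => Q.Op N f * Q.Op N g - Q.Op N (f * g) +
    qeps N • Q.Op N (Q.Dy f * Q.Dx g)) := by
  obtain ⟨C, h⟩ := Q.H2 f g
  exact ⟨C, 0, fun N _ h0 => h N h0⟩

lemma neg_eps_Op_mul (f g : R) :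
    Q.Neg (fun N => qeps N • (Q.Op N f * Q.Op N g - Q.Op N (f * g))) := by
  have h1 := (neg_Op_mul (Q := Q) f g).smul (fun N => qeps N) (fun N h0 => qeps_le_one h0)
  have h2 := (bd_Op (Q := Q) (Q.Dy f * Q.Dx g)).sq_smul
  refine (h1.sub h2).congr fun N _ => ?_
  module

variable (Q)

/-- `X N = Op f + ε Op g + O(N⁻²)` -/
def Sym (X : ∀ N, A N) (f g : R) : Prop :=
  Q.Neg (fun N => X N - (Q.Op N f + qeps N • Q.Op N g))

variable {Q}

lemma Sym.congr {X Y : ∀ N, A N} {f g : R} (h : Q.Sym X f g) (hXY : ∀ N, 0 < N → X N = Y N) :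
    Q.Sym Y f g :=
  Neg.congr h fun N h0 => by rw [hXY N h0]

lemma bd_sym (f g : R) : Q.Bd (fun N => Q.Op N f + qeps N • Q.Op N g) :=
  (bd_Op f).add ((bd_Op g).smul _ fun _ h0 => qeps_le_one h0)

lemma Sym.bd {X : ∀ N, A N} {f g : R} (h : Q.Sym X f g) : Q.Bd X := by
  have h1 := (Neg.bd h).add (bd_sym (Q := Q) f g)
  exact h1.congr fun N _ => by abel

lemma sym_Op (f : R) : Q.Sym (fun N => Q.Op N f) f 0 := by
  refine ⟨0, 0, fun N _ _ => ?_⟩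
  show Q.nu N (Q.Op N f - (Q.Op N f + qeps N • Q.Op N 0)) ≤ _
  rw [map_zero, smul_zero, add_zero, sub_self]
  have h := Q.nu_smul N 0 0
  simpa using h

lemma sym_pair (f g : R) : Q.Sym (fun N => Q.Op N f + qeps N • Q.Op N g) f g := by
  refine ⟨0, 0, fun N _ _ => ?_⟩
  show Q.nu N (Q.Op N f + qeps N • Q.Op N g - (Q.Op N f + qeps N • Q.Op N g)) ≤ _
  rw [sub_self]
  have h := Q.nu_smul N 0 0
  simpa using h

/-- product rule for symbols -/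
theorem Sym.mul {X Y : ∀ N, A N} {f g f' g' : R} (hX : Q.Sym X f g) (hY : Q.Sym Y f' g') :
    Q.Sym (fun N => X N * Y N) (f * f') (f * g' + g * f' - Q.Dy f * Q.Dx f') := by
  have h1 := Neg.mul_bd hX hY.bd
  have h2 := (bd_sym (Q := Q) f g).mul_neg hY
  have h3 := neg_Op_mul (Q := Q) f f'
  have h4 := neg_eps_Op_mul (Q := Q) f g'
  have h5 := neg_eps_Op_mul (Q := Q) g f'
  have h6 := ((bd_Op (Q := Q) g).mul (bd_Op g')).sq_smul
  refine (((((h1.add h2).add h3).add h4).add h5).add h6).congr fun N _ => ?_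
  simp only [map_add, map_sub, sub_mul, mul_sub, add_mul, mul_add, smul_mul_assoc,
    mul_smul_comm, smul_smul, smul_add, smul_sub]
  abel

/-- the first order term of a product -/
noncomputable def F1 (Q : QSys R A) {m : ℕ} (a b : Fin m → R) : R :=
  (∑ p : Fin m, (List.ofFn fun j : Fin m => if j = p then b j else a j).prod) -
  ∑ p : Fin m, ∑ q ∈ Finset.Ioi p, (List.ofFn fun j : Fin m =>
    if j = p then Q.Dy (a j) else if j = q then Q.Dx (a j) else a j).prod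

lemma Dx_one : Q.Dx 1 = 0 := by
  have h := Q.leibx 1 1
  rw [one_mul, mul_one, one_mul] at h
  have h2 : Q.Dx (1 : R) + 0 = Q.Dx 1 + Q.Dx 1 := by rw [add_zero]; exact h
  exact (add_left_cancel h2).symm

lemma Dy_one : Q.Dy 1 = 0 := by
  have h := Q.leiby 1 1
  rw [one_mul, mul_one, one_mul] at h
  have h2 : Q.Dy (1 : R) + 0 = Q.Dy 1 + Q.Dy 1 := by rw [add_zero]; exact h
  exact (add_left_cancel h2).symm

lemma Dx_prod : ∀ (m : ℕ) (a : Fin m → R), Q.Dx (List.ofFn a).prod =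
    ∑ q : Fin m, (List.ofFn fun j : Fin m => if j = q then Q.Dx (a j) else a j).prod := by
  intro m
  induction m with
  | zero => intro a; simp [Dx_one]
  | succ m ih =>
    intro a
    rw [List.ofFn_succ, List.prod_cons, Q.leibx, ih, Fin.sum_univ_succ]
    congr 1
    · rw [List.ofFn_succ, List.prod_cons, if_pos rfl]
      congr 3
    · rw [Finset.mul_sum]
      refine Finset.sum_congr rfl fun q _ => ?_
      rw [List.ofFn_succ, List.prod_cons, if_neg (Fin.succ_ne_zero q).symm]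
      congr 3
      funext i
      simp [Fin.succ_inj]

lemma F1_succ {m : ℕ} (a b : Fin (m + 1) → R) : F1 Q a b =
    a 0 * F1 Q (fun j => a j.succ) (fun j => b j.succ) +
      b 0 * (List.ofFn fun j : Fin m => a j.succ).prod -
      Q.Dy (a 0) * Q.Dx (List.ofFn fun j : Fin m => a j.succ).prod := by
  unfold F1
  rw [Fin.sum_univ_succ, Fin.sum_univ_succ (f := fun p => ∑ q ∈ Finset.Ioi p, _),
    Fin.Ioi_zero_eq_map, Finset.sum_map]
  have h1 : (List.ofFn fun j : Fin (m + 1) => if j = 0 then b j else a j).prod =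
      b 0 * (List.ofFn fun j : Fin m => a j.succ).prod := by
    rw [List.ofFn_succ, List.prod_cons, if_pos rfl]
    congr 3
  have h2 : ∀ p : Fin m, (List.ofFn fun j : Fin (m + 1) =>
      if j = p.succ then b j else a j).prod = a 0 * (List.ofFn fun j : Fin m =>
        if j = p then b j.succ else a j.succ).prod := by
    intro p
    rw [List.ofFn_succ, List.prod_cons, if_neg (Fin.succ_ne_zero p).symm]
    congr 3
    funext i
    simp [Fin.succ_inj]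
  have h3 : ∀ q : Fin m, (List.ofFn fun j : Fin (m + 1) => if j = 0 then Q.Dy (a j)
      else if j = (Fin.succEmb m) q then Q.Dx (a j) else a j).prod =
      Q.Dy (a 0) * (List.ofFn fun j : Fin m =>
        if j = q then Q.Dx (a j.succ) else a j.succ).prod := by
    intro q
    rw [List.ofFn_succ, List.prod_cons, if_pos rfl]
    congr 3
    funext i
    simp [Fin.succ_inj]
  have h4 : ∀ p : Fin m, ∑ q ∈ Finset.Ioi p.succ, (List.ofFn fun j : Fin (m + 1) =>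
      if j = p.succ then Q.Dy (a j) else if j = q then Q.Dx (a j) else a j).prod =
      a 0 * ∑ q ∈ Finset.Ioi p, (List.ofFn fun j : Fin m =>
        if j = p then Q.Dy (a j.succ) else if j = q then Q.Dx (a j.succ) else a j.succ).prod := by
    intro p
    rw [Fin.Ioi_succ, Finset.sum_map, Finset.mul_sum]
    refine Finset.sum_congr rfl fun q _ => ?_
    rw [List.ofFn_succ, List.prod_cons, if_neg (Fin.succ_ne_zero p).symm,
      if_neg (by simpa using (Fin.succ_ne_zero q).symm)]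
    congr 3
    funext i
    simp [Fin.succ_inj]
  rw [h1, Finset.sum_congr rfl fun p _ => h2 p, Finset.sum_congr rfl fun q _ => h3 q,
    Finset.sum_congr rfl fun p _ => h4 p, Dx_prod, ← Finset.mul_sum, ← Finset.mul_sum,
    ← Finset.mul_sum, mul_sub]
  abel

/-- symbol of a product of a list -/
theorem sym_prod : ∀ (m : ℕ) (X : Fin m → ∀ N, A N) (a b : Fin m → R),
    (∀ j, Q.Sym (X j) (a j) (b j)) →
    Q.Sym (fun N => (List.ofFn fun j => X j N).prod) (List.ofFn a).prod (F1 Q a b) := by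
  intro m
  induction m with
  | zero =>
    intro X a b _
    have h := sym_Op (Q := Q) 1
    have e : F1 Q a b = 0 := by simp [F1]
    rw [e]
    refine h.congr fun N h0 => ?_
    simp [Q.Op_one N h0]
  | succ m ih =>
    intro X a b h
    have h1 := ih (fun j => X j.succ) (fun j => a j.succ) (fun j => b j.succ)
      (fun j => h j.succ)
    have h2 := (h 0).mul h1
    rw [F1_succ, List.ofFn_succ, List.prod_cons]
    refine h2.congr fun N _ => ?_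
    rw [List.ofFn_succ, List.prod_cons]

/-- the derivative of the inverse -/
lemma Dx_inv (G : Rˣ) : Q.Dx ((G⁻¹ : Rˣ) : R) =
    - (((G⁻¹ : Rˣ) : R) * Q.Dx (G : R) * ((G⁻¹ : Rˣ) : R)) := by
  have h := congrArg Q.Dx (Units.inv_mul G)
  rw [Dx_one, Q.leibx] at h
  have h3 : Q.Dx ((G⁻¹ : Rˣ) : R) * G = - (((G⁻¹ : Rˣ) : R) * Q.Dx (G : R)) :=
    eq_neg_of_add_eq_zero_left h
  calc Q.Dx ((G⁻¹ : Rˣ) : R) = Q.Dx ((G⁻¹ : Rˣ) : R) * ((G : R) * ((G⁻¹ : Rˣ) : R)) := by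
        rw [Units.mul_inv, mul_one]
    _ = _ := by rw [← mul_assoc, h3, neg_mul]

lemma Dy_inv (G : Rˣ) : Q.Dy ((G⁻¹ : Rˣ) : R) =
    - (((G⁻¹ : Rˣ) : R) * Q.Dy (G : R) * ((G⁻¹ : Rˣ) : R)) := by
  have h := congrArg Q.Dy (Units.inv_mul G)
  rw [Dy_one, Q.leiby] at h
  have h3 : Q.Dy ((G⁻¹ : Rˣ) : R) * G = - (((G⁻¹ : Rˣ) : R) * Q.Dy (G : R)) :=
    eq_neg_of_add_eq_zero_left h
  calc Q.Dy ((G⁻¹ : Rˣ) : R) = Q.Dy ((G⁻¹ : Rˣ) : R) * ((G : R) * ((G⁻¹ : Rˣ) : R)) := by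
        rw [Units.mul_inv, mul_one]
    _ = _ := by rw [← mul_assoc, h3, neg_mul]

/-- first order symbol of the inverse -/
noncomputable def hinv (Q : QSys R A) (G : Rˣ) : R :=
  - (((G⁻¹ : Rˣ) : R) * Q.Dy (G : R) * ((G⁻¹ : Rˣ) : R) * Q.Dx (G : R) * ((G⁻¹ : Rˣ) : R))

/-- the approximate inverse -/
noncomputable def Binv (Q : QSys R A) (G : Rˣ) (N : ℕ) : A N :=
  Q.Op N ((G⁻¹ : Rˣ) : R) + qeps N • Q.Op N (hinv Q G)

lemma neg_right (G : Rˣ) : Q.Neg (fun N => Q.Op N (G : R) * Binv Q G N - 1) := by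
  have h := (sym_Op (Q := Q) (G : R)).mul (sym_pair ((G⁻¹ : Rˣ) : R) (hinv Q G))
  have e1 : (G : R) * ((G⁻¹ : Rˣ) : R) = 1 := Units.mul_inv G
  have e2 : (G : R) * hinv Q G + 0 * ((G⁻¹ : Rˣ) : R) -
      Q.Dy (G : R) * Q.Dx ((G⁻¹ : Rˣ) : R) = 0 := by
    unfold hinv
    rw [Dx_inv]
    have e3 : (G : R) * -(((G⁻¹ : Rˣ) : R) * Q.Dy (G : R) * ((G⁻¹ : Rˣ) : R) * Q.Dx (G : R) *
        ((G⁻¹ : Rˣ) : R)) = - (((G : R) * ((G⁻¹ : Rˣ) : R)) * Q.Dy (G : R) *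
          ((G⁻¹ : Rˣ) : R) * Q.Dx (G : R) * ((G⁻¹ : Rˣ) : R)) := by noncomm_ring
    rw [e3, e1]
    noncomm_ring
  rw [e1, e2] at h
  refine Neg.congr h fun N h0 => ?_
  rw [Q.Op_one N h0, map_zero, smul_zero, add_zero]
  rfl

lemma neg_left (G : Rˣ) : Q.Neg (fun N => Binv Q G N * Q.Op N (G : R) - 1) := by
  have h := (sym_pair ((G⁻¹ : Rˣ) : R) (hinv Q G)).mul (sym_Op (Q := Q) (G : R))
  have e1 : ((G⁻¹ : Rˣ) : R) * (G : R) = 1 := Units.inv_mul G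
  have e2 : ((G⁻¹ : Rˣ) : R) * 0 + hinv Q G * (G : R) -
      Q.Dy ((G⁻¹ : Rˣ) : R) * Q.Dx (G : R) = 0 := by
    unfold hinv
    rw [Dy_inv]
    have e3 : -(((G⁻¹ : Rˣ) : R) * Q.Dy (G : R) * ((G⁻¹ : Rˣ) : R) * Q.Dx (G : R) *
        ((G⁻¹ : Rˣ) : R)) * (G : R) = - (((G⁻¹ : Rˣ) : R) * Q.Dy (G : R) *
          ((G⁻¹ : Rˣ) : R) * Q.Dx (G : R) * (((G⁻¹ : Rˣ) : R) * (G : R))) := by noncomm_ring
    rw [e3, e1]
    noncomm_ring
  rw [e1, e2] at h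
  refine Neg.congr h fun N h0 => ?_
  rw [Q.Op_one N h0, map_zero, smul_zero, add_zero]
  rfl

/-- `Op G` is invertible for large `N` -/
lemma isUnit_Op (G : Rˣ) : ∃ N₀ : ℕ, ∀ N, N₀ ≤ N → 0 < N → IsUnit (Q.Op N (G : R)) ∧
    Q.nu N (Q.Op N (G : R) * Binv Q G N - 1) ≤ 1 / 2 := by
  obtain ⟨C, N₀, h⟩ := neg_right (Q := Q) G
  obtain ⟨C', N₁, h'⟩ := neg_left (Q := Q) G
  obtain ⟨N₂, hN₂⟩ := exists_nat_ge (2 * |C| + 2 * |C'|)
  refine ⟨max (max N₀ N₁) N₂, fun N hN h0 => ?_⟩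
  have hN0 : N₀ ≤ N := ((le_max_left _ _).trans (le_max_left _ _)).trans hN
  have hN1 : N₁ ≤ N := ((le_max_right _ _).trans (le_max_left _ _)).trans hN
  have hN2 : N₂ ≤ N := (le_max_right _ _).trans hN
  have hNr : (N₂ : ℝ) ≤ N := by exact_mod_cast hN2
  have hN1r : (1 : ℝ) ≤ N := by exact_mod_cast h0
  have hsq : (N : ℝ) ≤ (N : ℝ) ^ 2 := by nlinarith
  have hpos : (0 : ℝ) < (N : ℝ) ^ 2 := by positivity
  have b1 : C / (N : ℝ) ^ 2 ≤ 1 / 2 := by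
    rw [div_le_div_iff₀ hpos (by norm_num)]
    have := le_abs_self C
    have := abs_nonneg C'
    linarith
  have b2 : C' / (N : ℝ) ^ 2 ≤ 1 / 2 := by
    rw [div_le_div_iff₀ hpos (by norm_num)]
    have := le_abs_self C'
    have := abs_nonneg C
    linarith
  have u1 := Q.unit_of_small N _ ((h N hN0 h0).trans b1)
  have u2 := Q.unit_of_small N _ ((h' N hN1 h0).trans b2)
  rw [add_sub_cancel] at u1 u2
  refine ⟨?_, (h N hN0 h0).trans b1⟩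
  obtain ⟨v1, hv1⟩ := u1
  obtain ⟨v2, hv2⟩ := u2
  -- right inverse and left inverse
  have r1 : Q.Op N (G : R) * (Binv Q G N * ((v1⁻¹ : (A N)ˣ) : A N)) = 1 := by
    rw [← mul_assoc, ← hv1, Units.mul_inv]
  have l1 : (((v2⁻¹ : (A N)ˣ) : A N) * Binv Q G N) * Q.Op N (G : R) = 1 := by
    rw [mul_assoc, ← hv2, Units.inv_mul]
  have heq : ((v2⁻¹ : (A N)ˣ) : A N) * Binv Q G N = Binv Q G N * ((v1⁻¹ : (A N)ˣ) : A N) :=
    left_inv_eq_right_inv l1 r1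
  exact ⟨⟨Q.Op N (G : R), Binv Q G N * ((v1⁻¹ : (A N)ˣ) : A N), r1, by rw [← heq]; exact l1⟩,
    rfl⟩

/-- symbol of the inverse: any sequence that is inverse to `Op G` for large `N` -/
theorem sym_inv (G : Rˣ) {V : ∀ N, A N} {N₁ : ℕ}
    (hV : ∀ N, N₁ ≤ N → 0 < N → V N * Q.Op N (G : R) = 1 ∧ Q.Op N (G : R) * V N = 1) :
    Q.Sym V ((G⁻¹ : Rˣ) : R) (hinv Q G) := by
  obtain ⟨C, N₀, h⟩ := neg_right (Q := Q) G
  obtain ⟨N₂, h2⟩ := isUnit_Op (Q := Q) G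
  obtain ⟨C', N₃, h3⟩ := bd_sym (Q := Q) ((G⁻¹ : Rˣ) : R) (hinv Q G)
  refine ⟨2 * |C'| * |C|, max (max N₀ N₁) (max N₂ N₃), fun N hN h0 => ?_⟩
  have hN0 : N₀ ≤ N := ((le_max_left _ _).trans (le_max_left _ _)).trans hN
  have hN1 : N₁ ≤ N := ((le_max_right _ _).trans (le_max_left _ _)).trans hN
  have hN2 : N₂ ≤ N := ((le_max_left _ _).trans (le_max_right _ _)).trans hN
  have hN3 : N₃ ≤ N := ((le_max_right _ _).trans (le_max_right _ _)).trans hN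
  have e1 := h N hN0 h0
  have e2 := (h2 N hN2 h0).2
  have e3 := h3 N hN3 h0
  obtain ⟨v1, v2⟩ := hV N hN1 h0
  set E := Q.Op N (G : R) * Binv Q G N - 1 with hE
  have key : V N - Binv Q G N = - (V N * E) := by
    rw [hE, mul_sub, mul_one, ← mul_assoc, v1, one_mul]
    abel
  have e3' : Q.nu N (Binv Q G N) ≤ |C'| := e3.trans (le_abs_self C')
  have hVb : Q.nu N (V N) ≤ 2 * |C'| := by
    have a1 : Q.nu N (V N) ≤ Q.nu N (Binv Q G N) + Q.nu N (V N) * Q.nu N E := by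
      have a2 : V N = Binv Q G N + - (V N * E) := by rw [← key]; abel
      calc Q.nu N (V N) = Q.nu N (Binv Q G N + - (V N * E)) := by rw [← a2]
        _ ≤ Q.nu N (Binv Q G N) + Q.nu N (- (V N * E)) := Q.nu_add _ _ _
        _ ≤ Q.nu N (Binv Q G N) + Q.nu N (V N * E) := by
            have := nu_neg (Q := Q) N (V N * E)
            linarith
        _ ≤ _ := by
            have := Q.nu_mul N (V N) E
            linarith
    have a3 : Q.nu N (V N) * Q.nu N E ≤ Q.nu N (V N) * (1 / 2) :=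
      mul_le_mul_of_nonneg_left e2 (Q.nu_nonneg _ _)
    linarith
  have hgoal : Q.nu N (V N - Binv Q G N) ≤ 2 * |C'| * |C| / (N : ℝ) ^ 2 := by
    rw [key]
    calc Q.nu N (- (V N * E)) ≤ Q.nu N (V N * E) := nu_neg N _
      _ ≤ Q.nu N (V N) * Q.nu N E := Q.nu_mul _ _ _
      _ ≤ 2 * |C'| * (|C| / (N : ℝ) ^ 2) := by
          refine mul_le_mul hVb (e1.trans ?_) (Q.nu_nonneg _ _) (by positivity)
          exact div_le_div_of_nonneg_right (le_abs_self C) (by positivity)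
      _ = _ := by ring
  exact hgoal

/-- symbol of `U⁻¹ Op(D G)` -/
theorem sym_mc (G : Rˣ) (g : R) {V : ∀ N, A N} {N₁ : ℕ}
    (hV : ∀ N, N₁ ≤ N → 0 < N → V N * Q.Op N (G : R) = 1 ∧ Q.Op N (G : R) * V N = 1) :
    Q.Sym (fun N => V N * Q.Op N g) (((G⁻¹ : Rˣ) : R) * g)
      ((((G⁻¹ : Rˣ) : R) * Q.Dy (G : R)) * Q.Dx (((G⁻¹ : Rˣ) : R) * g)) := by
  have h := (sym_inv G hV).mul (sym_Op g)
  have e : ((G⁻¹ : Rˣ) : R) * 0 + hinv Q G * g - Q.Dy ((G⁻¹ : Rˣ) : R) * Q.Dx g =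
      (((G⁻¹ : Rˣ) : R) * Q.Dy (G : R)) * Q.Dx (((G⁻¹ : Rˣ) : R) * g) := by
    unfold hinv
    rw [Dy_inv, Q.leibx, Dx_inv]
    noncomm_ring
  rw [e] at h
  exact h

/-- **first order expansion of the words** -/
theorem words (tr : R →ₗ[ℂ] ℂ) (t : ∀ N, A N →ₗ[ℂ] ℂ) (K : ℝ) (hK : 0 ≤ K)
    (ht : ∀ N a, 0 < N → ‖t N a‖ ≤ K * Q.nu N a)
    (htr : ∀ f, ∃ C : ℝ, ∀ N, 0 < N → ‖t N (Q.Op N f) - tr f‖ ≤ C / (N : ℝ) ^ 2)
    (G : Rˣ) {n : ℕ} (g : Fin n → R) :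
    ∃ (C : ℝ) (N₀ : ℕ), ∀ N : ℕ, N₀ ≤ N → 0 < N →
      ∃ U : (A N)ˣ, (U : A N) = Q.Op N (G : R) ∧ ∀ w : Fin n → Fin n,
        ‖t N (List.ofFn fun j : Fin n => ((U⁻¹ : (A N)ˣ) : A N) * Q.Op N (g (w j))).prod -
          tr (List.ofFn fun j : Fin n => ((G⁻¹ : Rˣ) : R) * g (w j)).prod -
          qeps N * tr (F1 Q (fun j : Fin n => ((G⁻¹ : Rˣ) : R) * g (w j))
            (fun j : Fin n => (((G⁻¹ : Rˣ) : R) * Q.Dy (G : R)) *
              Q.Dx (((G⁻¹ : Rˣ) : R) * g (w j))))‖ ≤ C / (N : ℝ) ^ 2 := by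
  classical
  obtain ⟨N₁, hu⟩ := isUnit_Op (Q := Q) G
  -- a sequence of inverses
  have hex : ∀ N : ℕ, ∃ v : A N, (N₁ ≤ N → 0 < N →
      v * Q.Op N (G : R) = 1 ∧ Q.Op N (G : R) * v = 1) := by
    intro N
    by_cases h : N₁ ≤ N ∧ 0 < N
    · obtain ⟨u, hu'⟩ := (hu N h.1 h.2).1
      exact ⟨((u⁻¹ : (A N)ˣ) : A N), fun _ _ => by rw [← hu']; exact ⟨u.inv_mul, u.mul_inv⟩⟩
    · exact ⟨0, fun h1 h2 => absurd ⟨h1, h2⟩ h⟩
  choose V hV using hex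
  -- the error for one word
  have hw : ∀ w : Fin n → Fin n, ∃ (C : ℝ) (N₀ : ℕ), 0 ≤ C ∧ ∀ N : ℕ, N₀ ≤ N → 0 < N →
      ‖t N (List.ofFn fun j : Fin n => V N * Q.Op N (g (w j))).prod -
          tr (List.ofFn fun j : Fin n => ((G⁻¹ : Rˣ) : R) * g (w j)).prod -
          qeps N * tr (F1 Q (fun j : Fin n => ((G⁻¹ : Rˣ) : R) * g (w j))
            (fun j : Fin n => (((G⁻¹ : Rˣ) : R) * Q.Dy (G : R)) *
              Q.Dx (((G⁻¹ : Rˣ) : R) * g (w j))))‖ ≤ C / (N : ℝ) ^ 2 := by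
    intro w
    have h := sym_prod (Q := Q) n (fun j N => V N * Q.Op N (g (w j)))
      (fun j => ((G⁻¹ : Rˣ) : R) * g (w j))
      (fun j => (((G⁻¹ : Rˣ) : R) * Q.Dy (G : R)) * Q.Dx (((G⁻¹ : Rˣ) : R) * g (w j)))
      (fun j => sym_mc G _ hV)
    set P := (List.ofFn fun j : Fin n => ((G⁻¹ : Rˣ) : R) * g (w j)).prod with hP
    set F := F1 Q (fun j : Fin n => ((G⁻¹ : Rˣ) : R) * g (w j))
            (fun j : Fin n => (((G⁻¹ : Rˣ) : R) * Q.Dy (G : R)) *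
              Q.Dx (((G⁻¹ : Rˣ) : R) * g (w j))) with hF
    obtain ⟨C, N₀, hC⟩ := h
    obtain ⟨C1, h1⟩ := htr P
    obtain ⟨C2, h2⟩ := htr F
    refine ⟨K * |C| + |C1| + |C2|, N₀, by positivity, fun N hN h0 => ?_⟩
    have hpos : (0 : ℝ) < (N : ℝ) ^ 2 := by
      have : (0 : ℝ) < N := by exact_mod_cast h0
      positivity
    have b0 := hC N hN h0
    have b1 := h1 N h0
    have b2 := h2 N h0
    set W := (List.ofFn fun j : Fin n => V N * Q.Op N (g (w j))).prod with hW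
    have e : t N W - tr P - qeps N * tr F =
        t N (W - (Q.Op N P + qeps N • Q.Op N F)) + (t N (Q.Op N P) - tr P) +
          qeps N * (t N (Q.Op N F) - tr F) := by
      rw [map_sub, map_add, map_smul, smul_eq_mul]
      ring
    have b3 : ‖t N (W - (Q.Op N P + qeps N • Q.Op N F))‖ ≤ K * (|C| / (N : ℝ) ^ 2) :=
      (ht N _ h0).trans (mul_le_mul_of_nonneg_left
        (b0.trans (div_le_div_of_nonneg_right (le_abs_self C) hpos.le)) hK)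
    have b4 : ‖qeps N * (t N (Q.Op N F) - tr F)‖ ≤ |C2| / (N : ℝ) ^ 2 := by
      rw [norm_mul]
      calc ‖qeps N‖ * ‖t N (Q.Op N F) - tr F‖ ≤ 1 * (|C2| / (N : ℝ) ^ 2) :=
            mul_le_mul (qeps_le_one h0)
              (b2.trans (div_le_div_of_nonneg_right (le_abs_self C2) hpos.le))
              (norm_nonneg _) zero_le_one
        _ = _ := one_mul _
    rw [e]
    calc _ ≤ ‖t N (W - (Q.Op N P + qeps N • Q.Op N F))‖ + ‖t N (Q.Op N P) - tr P‖ +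
          ‖qeps N * (t N (Q.Op N F) - tr F)‖ := norm_add₃_le
      _ ≤ K * (|C| / (N : ℝ) ^ 2) + |C1| / (N : ℝ) ^ 2 + |C2| / (N : ℝ) ^ 2 :=
          add_le_add (add_le_add b3
            (b1.trans (div_le_div_of_nonneg_right (le_abs_self C1) hpos.le))) b4
      _ = _ := by ring
  choose C N₀ hC0 hC using hw
  refine ⟨∑ w, C w, max N₁ (∑ w, N₀ w), fun N hN h0 => ?_⟩
  have hN1 : N₁ ≤ N := (le_max_left _ _).trans hN
  obtain ⟨v1, v2⟩ := hV N hN1 h0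
  refine ⟨⟨Q.Op N (G : R), V N, v2, v1⟩, rfl, fun w => ?_⟩
  have hNw : N₀ w ≤ N :=
    (Finset.single_le_sum (fun i _ => Nat.zero_le (N₀ i)) (Finset.mem_univ w)).trans
      ((le_max_right _ _).trans hN)
  have hpos : (0 : ℝ) ≤ (N : ℝ) ^ 2 := by positivity
  refine (hC w N hNw h0).trans (div_le_div_of_nonneg_right ?_ hpos)
  exact Finset.single_le_sum (fun i _ => hC0 i) (Finset.mem_univ w)

end QSys

end Pool.Agent.PD4
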