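import Pool.Agent.PD4.Ix.Path

/-!
# Project PD4, index block: quantisation of one pair of variables (definitions)

Variables of `Sm (n+2)`: `0 = x`, `1 = y`, `i+2 = z_i`.  `opN N f` is the `N × N` matrix
`(1/N) ∑_l f(l/N, k/N, z) e(l(j-k)/N)` over `Sm n`.
-/

open MeasureTheory
open scoped ContDiff

namespace Pool.Agent.PD4

theorem contDiff_cons2 {E : Type*} [NormedAddCommGroup E] [NormedSpace ℝ E] {n : ℕ}
    {a b : E → ℝ} {c : E → (Fin n → ℝ)} (ha : ContDiff ℝ ∞ a) (hb : ContDiff ℝ ∞ b)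
    (hc : ContDiff ℝ ∞ c) :
    ContDiff ℝ ∞ (fun z => (Fin.cons (a z) (Fin.cons (b z) (c z) : Fin (n + 1) → ℝ) :
      Fin (n + 2) → ℝ)) := by
  rw [contDiff_pi]
  intro i
  refine Fin.cases ?_ (fun i => ?_) i
  · simpa using ha
  · refine Fin.cases ?_ (fun i => ?_) i
    · simpa using hb
    · simpa using (contDiff_pi.mp hc i)

theorem cons2_add_single {n : ℕ} (x y : ℝ) (z : Fin n → ℝ) (i : Fin n) (t : ℝ) :
    (Fin.cons x (Fin.cons y (z + Pi.single i t) : Fin (n + 1) → ℝ) : Fin (n + 2) → ℝ) =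
      (Fin.cons x (Fin.cons y z : Fin (n + 1) → ℝ) : Fin (n + 2) → ℝ) +
        Pi.single i.succ.succ t := by
  funext j
  refine Fin.cases ?_ (fun j => ?_) j
  · simp
  · refine Fin.cases ?_ (fun j => ?_) j
    · simp only [Fin.cons_succ, Fin.cons_zero, Pi.add_apply]
      rw [Pi.single_eq_of_ne, add_zero]
      intro h
      exact absurd (Fin.succ_injective _ h).symm (Fin.succ_ne_zero _)
    · simp only [Fin.cons_succ, Pi.add_apply]
      by_cases h : j = i
      · subst h; simp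
      · rw [Pi.single_eq_of_ne h, Pi.single_eq_of_ne]
        intro h'
        exact h (Fin.succ_injective _ (Fin.succ_injective _ h'))

/-- restriction of `f : Sm (n+2)` to fixed values of the first two variables -/
noncomputable def slice {n : ℕ} (x y : ℝ) : Sm (n + 2) →⋆ₐ[ℂ] Sm n where
  toFun f := ⟨fun z => f.1 (Fin.cons x (Fin.cons y z : Fin (n + 1) → ℝ) : Fin (n + 2) → ℝ),
    ⟨f.2.1.comp (contDiff_cons2 contDiff_const contDiff_const contDiff_id), fun z i => by
      have h := f.2.2 (Fin.cons x (Fin.cons y z : Fin (n + 1) → ℝ) : Fin (n + 2) → ℝ) i.succ.succ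
      rw [← cons2_add_single] at h
      exact h⟩⟩
  map_one' := rfl
  map_mul' _ _ := rfl
  map_zero' := rfl
  map_add' _ _ := rfl
  commutes' _ := rfl
  map_star' _ := rfl

/-- the quantised function: an `N × N` matrix over `Sm n` -/
noncomputable def opN {n : ℕ} (N : ℕ) (f : Sm (n + 2)) : Matrix (Fin N) (Fin N) (Sm n) :=
  fun j k => (1 / (N : ℂ)) • ∑ l : Fin N,
    Complex.exp (2 * Real.pi * Complex.I * (((l : ℕ) : ℂ) * (((j : ℕ) : ℂ) - ((k : ℕ) : ℂ)) / N)) •
      slice ((l : ℕ) / (N : ℝ)) ((k : ℕ) / (N : ℝ)) f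

section

variable {ι : Type*} [Fintype ι] [DecidableEq ι] {n : ℕ}

/-- the quantised matrix function -/
noncomputable def OpM (N : ℕ) (M : Matrix ι ι (Sm (n + 2))) :
    Matrix (Fin N × ι) (Fin N × ι) (Sm n) :=
  fun p q => opN N (M p.2 q.2) p.1 q.1

/-- the calculus in the variables `z` only, on matrices over `Sm (n+2)` (the trace is still the
mean over all variables) -/
noncomputable def zCalc (ι : Type*) [Fintype ι] [DecidableEq ι] (n : ℕ) :
    Calc (Matrix ι ι (Sm (n + 2))) n where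
  D i := (pD i.succ.succ).mapMatrix
  leib := by intro i a b; exact (matCalc ι (n + 2)).leib i.succ.succ a b
  comm := by intro i j a; exact (matCalc ι (n + 2)).comm i.succ.succ j.succ.succ a
  tr := (matCalc ι (n + 2)).tr
  tr_comm := (matCalc ι (n + 2)).tr_comm
  tr_D := fun i a => (matCalc ι (n + 2)).tr_D i.succ.succ a

/-- the component `A_i = G⁻¹ ∂_{z_i} G` -/
noncomputable def Az (G : (Matrix ι ι (Sm (n + 2)))ˣ) (i : Fin n) : Matrix ι ι (Sm (n + 2)) :=
  ((G⁻¹ : (Matrix ι ι (Sm (n + 2)))ˣ) : Matrix ι ι (Sm (n + 2))) *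
    (pD i.succ.succ).mapMatrix (G : Matrix ι ι (Sm (n + 2)))

/-- `β = G⁻¹ ∂_y G` -/
noncomputable def By (G : (Matrix ι ι (Sm (n + 2)))ˣ) : Matrix ι ι (Sm (n + 2)) :=
  ((G⁻¹ : (Matrix ι ι (Sm (n + 2)))ˣ) : Matrix ι ι (Sm (n + 2))) *
    (pD 1).mapMatrix (G : Matrix ι ι (Sm (n + 2)))

/-- the first order term of the word `w` -/
noncomputable def word1 (G : (Matrix ι ι (Sm (n + 2)))ˣ) (w : Fin n → Fin n) : ℂ :=
  (∑ p : Fin n, (matCalc ι (n + 2)).tr ((List.ofFn fun j : Fin n =>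
      if j = p then By G * (pD 0).mapMatrix (Az G (w j)) else Az G (w j)).prod)) -
  ∑ p : Fin n, ∑ q ∈ Finset.Ioi p, (matCalc ι (n + 2)).tr ((List.ofFn fun j : Fin n =>
      if j = p then (pD 1).mapMatrix (Az G (w j))
      else if j = q then (pD 0).mapMatrix (Az G (w j)) else Az G (w j)).prod)

end

end Pool.Agent.PD4
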