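import Pool.Agent.PD4.Ix.QSlice

/-!
# Project PD4, index block: the norm of the quantised matrices, linearity of `OpM`
-/

open MeasureTheory
open scoped ContDiff

set_option linter.unusedSectionVars false

namespace Pool.Agent.PD4

/-- an element of `Sm n` is bounded -/
lemma Sm.bdd {n : ℕ} (f : Sm n) : ∃ C : ℝ, ∀ z, ‖f.1 z‖ ≤ C := by
  obtain ⟨C, hC⟩ := (isCompact_Icc (a := (0 : Fin n → ℝ)) (b := 1)).exists_bound_of_continuousOn
    (Sm.cont_coe f).continuousOn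
  refine ⟨C, fun z => ?_⟩
  have h := Sm.per f (fun i => ⌊z i⌋) (fun i => Int.fract (z i))
  have e : (fun i => Int.fract (z i)) + (fun i => ((⌊z i⌋ : ℤ) : ℝ)) = z := by
    funext i
    simp [Int.fract_add_floor]
  rw [e] at h
  rw [h]
  apply hC
  constructor
  · intro i
    exact Int.fract_nonneg _
  · intro i
    exact (Int.fract_lt_one _).le

section

variable {κ : Type*} [Fintype κ] [DecidableEq κ] {n : ℕ}

/-- row sum norm of a complex matrix -/
noncomputable def rsn (B : Matrix κ κ ℂ) : ℝ :=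
  ((Finset.univ.sup fun i => ∑ j, ‖B i j‖₊ : NNReal) : ℝ)

lemma rsn_nonneg (B : Matrix κ κ ℂ) : 0 ≤ rsn B := NNReal.coe_nonneg _

lemma row_le_rsn (B : Matrix κ κ ℂ) (i : κ) : ∑ j, ‖B i j‖ ≤ rsn B := by
  have h : (∑ j, ‖B i j‖₊ : NNReal) ≤ Finset.univ.sup fun i => ∑ j, ‖B i j‖₊ :=
    Finset.le_sup (f := fun i => ∑ j, ‖B i j‖₊) (Finset.mem_univ i)
  have h2 := NNReal.coe_le_coe.mpr h
  rw [NNReal.coe_sum] at h2
  exact h2

lemma rsn_le {B : Matrix κ κ ℂ} {c : ℝ} (hc : 0 ≤ c) (h : ∀ i, ∑ j, ‖B i j‖ ≤ c) : rsn B ≤ c := by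
  unfold rsn
  lift c to NNReal using hc
  rw [NNReal.coe_le_coe]
  refine Finset.sup_le fun i _ => ?_
  rw [← NNReal.coe_le_coe, NNReal.coe_sum]
  exact h i

lemma entry_le_rsn (B : Matrix κ κ ℂ) (i j : κ) : ‖B i j‖ ≤ rsn B :=
  (Finset.single_le_sum (f := fun j => ‖B i j‖) (fun _ _ => norm_nonneg _)
    (Finset.mem_univ j)).trans (row_le_rsn B i)

lemma rsn_add (B C : Matrix κ κ ℂ) : rsn (B + C) ≤ rsn B + rsn C := by
  refine rsn_le (add_nonneg (rsn_nonneg _) (rsn_nonneg _)) fun i => ?_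
  calc ∑ j, ‖(B + C) i j‖ ≤ ∑ j, (‖B i j‖ + ‖C i j‖) :=
        Finset.sum_le_sum fun j _ => norm_add_le _ _
    _ = ∑ j, ‖B i j‖ + ∑ j, ‖C i j‖ := Finset.sum_add_distrib
    _ ≤ _ := add_le_add (row_le_rsn B i) (row_le_rsn C i)

lemma rsn_smul (c : ℂ) (B : Matrix κ κ ℂ) : rsn (c • B) ≤ ‖c‖ * rsn B := by
  refine rsn_le (mul_nonneg (norm_nonneg _) (rsn_nonneg _)) fun i => ?_
  calc ∑ j, ‖(c • B) i j‖ = ‖c‖ * ∑ j, ‖B i j‖ := by
        rw [Finset.mul_sum]
        refine Finset.sum_congr rfl fun j _ => ?_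
        rw [Matrix.smul_apply, norm_smul]
    _ ≤ _ := mul_le_mul_of_nonneg_left (row_le_rsn B i) (norm_nonneg _)

lemma rsn_mul (B C : Matrix κ κ ℂ) : rsn (B * C) ≤ rsn B * rsn C := by
  refine rsn_le (mul_nonneg (rsn_nonneg _) (rsn_nonneg _)) fun i => ?_
  calc ∑ j, ‖(B * C) i j‖ ≤ ∑ j, ∑ k, ‖B i k‖ * ‖C k j‖ := by
        refine Finset.sum_le_sum fun j _ => ?_
        rw [Matrix.mul_apply]
        refine (norm_sum_le _ _).trans (Finset.sum_le_sum fun k _ => ?_)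
        rw [norm_mul]
    _ = ∑ k, ‖B i k‖ * ∑ j, ‖C k j‖ := by
        rw [Finset.sum_comm]
        refine Finset.sum_congr rfl fun k _ => ?_
        rw [Finset.mul_sum]
    _ ≤ ∑ k, ‖B i k‖ * rsn C :=
        Finset.sum_le_sum fun k _ => mul_le_mul_of_nonneg_left (row_le_rsn C k) (norm_nonneg _)
    _ = (∑ k, ‖B i k‖) * rsn C := by rw [Finset.sum_mul]
    _ ≤ _ := mul_le_mul_of_nonneg_right (row_le_rsn B i) (rsn_nonneg _)

lemma isUnit_one_add_of_rsn {B : Matrix κ κ ℂ} (h : rsn B ≤ 1 / 2) : IsUnit (1 + B) := by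
  rw [← Matrix.mulVec_injective_iff_isUnit]
  have hz : ∀ v : κ → ℂ, (1 + B).mulVec v = 0 → v = 0 := by
    intro v hv
    rw [Matrix.add_mulVec, Matrix.one_mulVec] at hv
    have hv2 : v = - B.mulVec v := eq_neg_of_add_eq_zero_left hv
    have hb : ‖v‖ ≤ 1 / 2 * ‖v‖ := by
      rw [pi_norm_le_iff_of_nonneg (by positivity)]
      intro i
      calc ‖v i‖ = ‖B.mulVec v i‖ := by
            conv_lhs => rw [hv2]
            rw [Pi.neg_apply, norm_neg]
        _ ≤ ∑ j, ‖B i j‖ * ‖v j‖ := by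
            unfold Matrix.mulVec dotProduct
            refine (norm_sum_le _ _).trans (Finset.sum_le_sum fun j _ => ?_)
            rw [norm_mul]
        _ ≤ ∑ j, ‖B i j‖ * ‖v‖ :=
            Finset.sum_le_sum fun j _ =>
              mul_le_mul_of_nonneg_left (norm_le_pi_norm v j) (norm_nonneg _)
        _ = (∑ j, ‖B i j‖) * ‖v‖ := by rw [Finset.sum_mul]
        _ ≤ 1 / 2 * ‖v‖ :=
            mul_le_mul_of_nonneg_right ((row_le_rsn B i).trans h) (norm_nonneg _)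
    have hn : ‖v‖ ≤ 0 := by linarith
    exact norm_le_zero_iff.mp hn
  intro v w hvw
  have h1 := hz (v - w) (by rw [Matrix.mulVec_sub, sub_eq_zero]; exact hvw)
  exact sub_eq_zero.mp h1

/-- the norm of a matrix of smooth functions: supremum of the row sum norms -/
noncomputable def qnu (M : Matrix κ κ (Sm n)) : ℝ := ⨆ z : Fin n → ℝ, rsn (mev z M)

lemma qnu_bdd (M : Matrix κ κ (Sm n)) : BddAbove (Set.range fun z : Fin n → ℝ => rsn (mev z M)) := by
  have h : ∀ p : κ × κ, ∃ C : ℝ, ∀ z, ‖(M p.1 p.2).1 z‖ ≤ C := fun p => Sm.bdd _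
  choose C hC using h
  refine ⟨∑ p, |C p|, ?_⟩
  rintro _ ⟨z, rfl⟩
  refine rsn_le (Finset.sum_nonneg fun _ _ => abs_nonneg _) fun i => ?_
  calc ∑ j, ‖mev z M i j‖ ≤ ∑ j, |C (i, j)| :=
        Finset.sum_le_sum fun j _ => (hC (i, j) z).trans (le_abs_self _)
    _ ≤ ∑ i, ∑ j, |C (i, j)| :=
        Finset.single_le_sum (f := fun i => ∑ j, |C (i, j)|)
          (fun _ _ => Finset.sum_nonneg fun _ _ => abs_nonneg _) (Finset.mem_univ i)
    _ = ∑ p : κ × κ, |C p| := by rw [Fintype.sum_prod_type]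

lemma le_qnu (M : Matrix κ κ (Sm n)) (z : Fin n → ℝ) : rsn (mev z M) ≤ qnu M :=
  le_ciSup (qnu_bdd M) z

lemma qnu_le {M : Matrix κ κ (Sm n)} {c : ℝ} (h : ∀ z, rsn (mev z M) ≤ c) : qnu M ≤ c :=
  ciSup_le h

lemma qnu_nonneg (M : Matrix κ κ (Sm n)) : 0 ≤ qnu M :=
  (rsn_nonneg _).trans (le_qnu M 0)

lemma mev_add' (z : Fin n → ℝ) (M K : Matrix κ κ (Sm n)) :
    mev z (M + K) = mev z M + mev z K := rfl

lemma mev_smul' (z : Fin n → ℝ) (c : ℂ) (M : Matrix κ κ (Sm n)) :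
    mev z (c • M) = c • mev z M := rfl

lemma mev_mul' (z : Fin n → ℝ) (M K : Matrix κ κ (Sm n)) :
    mev z (M * K) = mev z M * mev z K := by
  have h := (((Sm.ev z : Sm n →⋆ₐ[ℂ] ℂ) : Sm n →+* ℂ).mapMatrix (m := κ)).map_mul M K
  exact h

lemma mev_one' (z : Fin n → ℝ) : mev z (1 : Matrix κ κ (Sm n)) = 1 := by
  have h := (((Sm.ev z : Sm n →⋆ₐ[ℂ] ℂ) : Sm n →+* ℂ).mapMatrix (m := κ)).map_one
  exact h

lemma qnu_add (M K : Matrix κ κ (Sm n)) : qnu (M + K) ≤ qnu M + qnu K :=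
  qnu_le fun z => (rsn_add _ _).trans (add_le_add (le_qnu M z) (le_qnu K z))

lemma qnu_smul (c : ℂ) (M : Matrix κ κ (Sm n)) : qnu (c • M) ≤ ‖c‖ * qnu M :=
  qnu_le fun z => (rsn_smul c (mev z M)).trans
    (mul_le_mul_of_nonneg_left (le_qnu M z) (norm_nonneg _))

lemma qnu_mul (M K : Matrix κ κ (Sm n)) : qnu (M * K) ≤ qnu M * qnu K :=
  qnu_le fun z => by
    rw [mev_mul']
    exact (rsn_mul _ _).trans (mul_le_mul (le_qnu M z) (le_qnu K z) (rsn_nonneg _)
      (qnu_nonneg M))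

lemma isUnit_one_add_of_qnu {E : Matrix κ κ (Sm n)} (h : qnu E ≤ 1 / 2) : IsUnit (1 + E) := by
  apply isUnit_of_pointwise
  intro z
  rw [mev_add', mev_one']
  exact isUnit_one_add_of_rsn ((le_qnu E z).trans h)

/-- the mean is bounded by the supremum -/
lemma norm_mean_le {f : Sm n} {c : ℝ} (h : ∀ z, ‖f.1 z‖ ≤ c) : ‖mean f‖ ≤ c := by
  rw [mean_apply]
  have h1 := norm_setIntegral_le_of_norm_le_const (μ := volume) (s := Set.Icc (0 : Fin n → ℝ) 1)
    (f := f.1) (C := c) (by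
      rw [Real.volume_Icc_pi]
      simp) (fun z _ => h z)
  refine h1.trans ?_
  have h2 : (volume (Set.Icc (0 : Fin n → ℝ) 1)).toReal = 1 := by
    rw [Real.volume_Icc_pi]
    simp
  have h3 : volume.real (Set.Icc (0 : Fin n → ℝ) 1) = 1 := h2
  rw [h3, mul_one]

end

section

variable {ι : Type*} [Fintype ι] [DecidableEq ι] {n : ℕ}

/-- the normalised trace is bounded by the norm -/
lemma norm_trace_le (N : ℕ) (hN : 0 < N) (M : Matrix (Fin N × ι) (Fin N × ι) (Sm n)) :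
    ‖(1 / (N : ℂ)) * (matCalc (Fin N × ι) n).tr M‖ ≤ (Fintype.card ι : ℝ) * qnu M := by
  have h1 : (matCalc (Fin N × ι) n).tr M = mean M.trace := rfl
  have h2 : ‖mean M.trace‖ ≤ (N : ℝ) * Fintype.card ι * qnu M := by
    apply norm_mean_le
    intro z
    have e : (M.trace).1 z = ∑ p, (M p p).1 z := by
      have : Sm.ev z M.trace = ∑ p, Sm.ev z (M p p) := by
        rw [Matrix.trace, map_sum]
        rfl
      exact this
    rw [e]
    calc ‖∑ p, (M p p).1 z‖ ≤ ∑ p : Fin N × ι, ‖(M p p).1 z‖ := norm_sum_le _ _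
      _ ≤ ∑ p : Fin N × ι, qnu M :=
          Finset.sum_le_sum fun p _ => (entry_le_rsn (mev z M) p p).trans (le_qnu M z)
      _ = _ := by
          rw [Finset.sum_const, Finset.card_univ, Fintype.card_prod, Fintype.card_fin,
            nsmul_eq_mul]
          push_cast
          ring
  have hN' : (0 : ℝ) < N := by exact_mod_cast hN
  rw [h1, norm_mul, norm_div, norm_one, Complex.norm_natCast]
  calc 1 / (N : ℝ) * ‖mean M.trace‖ ≤ 1 / (N : ℝ) * ((N : ℝ) * Fintype.card ι * qnu M) :=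
        mul_le_mul_of_nonneg_left h2 (by positivity)
    _ = _ := by field_simp

lemma opN_add (N : ℕ) (f g : Sm (n + 2)) : opN N (f + g) = opN N f + opN N g := by
  funext j k
  simp only [opN, Matrix.add_apply, map_add, smul_add, Finset.sum_add_distrib]

lemma opN_smul (N : ℕ) (c : ℂ) (f : Sm (n + 2)) : opN N (c • f) = c • opN N f := by
  funext j k
  simp only [opN, Matrix.smul_apply, map_smul, Finset.smul_sum, smul_smul]
  refine Finset.sum_congr rfl fun l _ => ?_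
  congr 1
  ring

lemma opN_zero (N : ℕ) : opN N (0 : Sm (n + 2)) = 0 := by
  have h := opN_smul N (0 : ℂ) (0 : Sm (n + 2))
  rw [zero_smul, zero_smul] at h
  exact h

/-- `OpM` as a linear map -/
noncomputable def OpL (N : ℕ) : Matrix ι ι (Sm (n + 2)) →ₗ[ℂ]
    Matrix (Fin N × ι) (Fin N × ι) (Sm n) where
  toFun := OpM N
  map_add' M K := by
    funext p q
    simp only [OpM, Matrix.add_apply, opN_add]
  map_smul' c M := by
    funext p q
    simp only [OpM, Matrix.smul_apply, opN_smul, RingHom.id_apply]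

/-- the sum of the `N`-th roots of unity -/
lemma sum_exp_eq (N : ℕ) (hN : 0 < N) (j k : Fin N) :
    (1 / (N : ℂ)) * ∑ l : Fin N,
      Complex.exp (2 * Real.pi * Complex.I * (((l : ℕ) : ℂ) *
        (((j : ℕ) : ℂ) - ((k : ℕ) : ℂ)) / N)) = if j = k then 1 else 0 := by
  have hN' : (N : ℂ) ≠ 0 := Nat.cast_ne_zero.mpr hN.ne'
  by_cases hjk : j = k
  · subst hjk
    simp [hN']
  · rw [if_neg hjk]
    set ζ := Complex.exp (2 * Real.pi * Complex.I * ((((j : ℕ) : ℂ) - ((k : ℕ) : ℂ)) / N)) with hζ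
    have h1 : ∀ l : Fin N, Complex.exp (2 * Real.pi * Complex.I * (((l : ℕ) : ℂ) *
        (((j : ℕ) : ℂ) - ((k : ℕ) : ℂ)) / N)) = ζ ^ (l : ℕ) := by
      intro l
      rw [hζ, ← Complex.exp_nat_mul]
      congr 1
      ring
    simp only [h1]
    rw [Fin.sum_univ_eq_sum_range (fun l => ζ ^ l) N]
    have hζ1 : ζ ≠ 1 := by
      intro h
      rw [hζ, Complex.exp_eq_one_iff] at h
      obtain ⟨m, hm⟩ := h
      have h2pi : (2 * Real.pi * Complex.I : ℂ) ≠ 0 := Complex.two_pi_I_ne_zero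
      have h3 : (((j : ℕ) : ℂ) - ((k : ℕ) : ℂ)) / N = m := by
        apply mul_left_cancel₀ h2pi
        rw [hm]
        ring
      have h4 : (((j : ℕ) : ℂ) - ((k : ℕ) : ℂ)) = m * N := by
        rw [← h3]
        field_simp
      have h5 : ((j : ℕ) : ℤ) - ((k : ℕ) : ℤ) = m * N := by
        have h6 : ((((j : ℕ) : ℤ) - ((k : ℕ) : ℤ) : ℤ) : ℂ) = ((m * N : ℤ) : ℂ) := by
          push_cast
          exact h4
        exact_mod_cast h6
      have hj := j.isLt
      have hk := k.isLt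
      have hne : (j : ℕ) ≠ (k : ℕ) := fun h => hjk (Fin.ext h)
      rcases lt_trichotomy m 0 with hm0 | hm0 | hm0
      · have : m * N ≤ -1 * N := by
          apply mul_le_mul_of_nonneg_right (by omega) (by omega)
        omega
      · rw [hm0] at h5
        omega
      · have : 1 * (N : ℤ) ≤ m * N := by
          apply mul_le_mul_of_nonneg_right (by omega) (by omega)
        omega
    have hζN : ζ ^ N = 1 := by
      rw [hζ, ← Complex.exp_nat_mul, Complex.exp_eq_one_iff]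
      refine ⟨((j : ℕ) : ℤ) - ((k : ℕ) : ℤ), ?_⟩
      push_cast
      field_simp
    have h2 := mul_geom_sum ζ N
    rw [hζN, sub_self] at h2
    have h3 : ∑ l ∈ Finset.range N, ζ ^ l = 0 := by
      rcases mul_eq_zero.mp h2 with h | h
      · exact absurd (sub_eq_zero.mp h) hζ1
      · exact h
    rw [h3, mul_zero]

lemma opN_one (N : ℕ) (hN : 0 < N) : opN N (1 : Sm (n + 2)) = 1 := by
  funext j k
  have h : opN N (1 : Sm (n + 2)) j k = ((1 / (N : ℂ)) * ∑ l : Fin N,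
      Complex.exp (2 * Real.pi * Complex.I * (((l : ℕ) : ℂ) *
        (((j : ℕ) : ℂ) - ((k : ℕ) : ℂ)) / N))) • (1 : Sm n) := by
    simp only [opN, map_one]
    rw [← Finset.sum_smul, smul_smul]
  rw [h, sum_exp_eq N hN, Matrix.one_apply]
  split_ifs <;> simp

lemma OpM_one (N : ℕ) (hN : 0 < N) : OpM N (1 : Matrix ι ι (Sm (n + 2))) = 1 := by
  funext p q
  unfold OpM
  by_cases h : p.2 = q.2
  · rw [h, Matrix.one_apply_eq, opN_one N hN]
    by_cases h1 : p.1 = q.1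
    · rw [h1, Matrix.one_apply_eq, show p = q from Prod.ext h1 h, Matrix.one_apply_eq]
    · rw [Matrix.one_apply_ne h1, Matrix.one_apply_ne (fun hpq => h1 (by rw [hpq]))]
  · rw [Matrix.one_apply_ne h, opN_zero, Matrix.one_apply_ne (fun hpq => h (by rw [hpq]))]
    rfl

/-- `OpM` commutes with the derivatives in `z` -/
lemma pD_OpM (N : ℕ) (i : Fin n) (M : Matrix ι ι (Sm (n + 2))) :
    (pD i).mapMatrix (OpM N M) = OpM N ((pD i.succ.succ).mapMatrix M) := by
  funext p q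
  show pD i (opN N (M p.2 q.2) p.1 q.1) = opN N (pD i.succ.succ (M p.2 q.2)) p.1 q.1
  simp only [opN, map_smul, map_sum, slice_pD]

end

end Pool.Agent.PD4
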