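import Pool.Agent.PD4.Ix.QDefs
import Pool.Agent.H56.QZ.Quant

/-!
# Project PD4, index block: first order expansion of the quantised words (helper56)
-/

open MeasureTheory
open scoped ContDiff

set_option linter.unusedSectionVars false

namespace Pool.Agent.PD4

namespace QW

variable {n : ℕ} {ι : Type*} [Fintype ι] [DecidableEq ι]

lemma tr_def (κ : Type*) [Fintype κ] [DecidableEq κ] (m : ℕ) (A : Matrix κ κ (Sm m)) :
    (matCalc κ m).tr A = mean A.trace := rfl

lemma tr_OpM {N : ℕ} (hN : 0 < N) (M : Matrix ι ι (Sm (n + 2))) :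
    ‖(1 / (N : ℂ)) * (matCalc (Fin N × ι) n).tr (OpM N M) - (matCalc ι (n + 2)).tr M‖ ≤
      (∑ a, TC (M a a)) / (N : ℝ) ^ 2 := by
  have e1 : (matCalc (Fin N × ι) n).tr (OpM N M) =
      ∑ a, mean (∑ j, opN N (M a a) j j) := by
    rw [tr_def, ← map_sum]
    congr 1
    unfold Matrix.trace
    rw [Fintype.sum_prod_type, Finset.sum_comm]
    rfl
  have e2 : (matCalc ι (n + 2)).tr M = ∑ a, mean (M a a) := by
    rw [tr_def, Matrix.trace, map_sum]
    rfl
  rw [e1, e2, Finset.mul_sum, ← Finset.sum_sub_distrib, Finset.sum_div]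
  refine (norm_sum_le _ _).trans (Finset.sum_le_sum fun a _ => ?_)
  have e3 : (1 / (N : ℂ)) * mean (∑ j, opN N (M a a) j j) =
      mean ((1 / (N : ℂ)) • ∑ j, opN N (M a a) j j) := by
    rw [map_smul, smul_eq_mul]
  rw [e3]
  refine norm_mean_sub_le fun z => ?_
  rw [Sm.smul_apply, Sm.sum_apply]
  simp only [opN_apply]
  exact dop_trace hN (M a a) z

lemma tr_small {N : ℕ} (hN : 0 < N) (R : Matrix (Fin N × ι) (Fin N × ι) (Sm n)) {C : ℝ}
    (h : ∀ z, rn (mev z R) ≤ C) :
    ‖(1 / (N : ℂ)) * (matCalc (Fin N × ι) n).tr R‖ ≤ Fintype.card ι * C := by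
  have hNr : (0 : ℝ) < N := by exact_mod_cast hN
  rw [norm_mul, norm_div, norm_one, Complex.norm_natCast, one_div, inv_mul_le_iff₀ hNr, tr_def]
  refine norm_mean_le fun z => ?_
  rw [← mev_trace]
  refine (trace_le _).trans ?_
  rw [Fintype.card_prod, Fintype.card_fin]
  push_cast
  rw [mul_assoc]
  exact mul_le_mul_of_nonneg_left (mul_le_mul_of_nonneg_left (h z) (by positivity)) hNr.le

lemma TC_nonneg (f : Sm (n + 2)) : 0 ≤ TC f :=
  mul_nonneg (add_nonneg (add_nonneg (bd_nonneg _) (bd_nonneg _)) (KK_nonneg _)) Wt_nonneg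

/-- trace of a symbol -/
theorem trace_symb {A : Seq ι n} {a b : Matrix ι ι (Sm (n + 2))} (h : Symb A a b) :
    ∃ C : ℝ, 0 ≤ C ∧ ∃ N₀ : ℕ, ∀ N, N₀ ≤ N → 0 < N →
      ‖(1 / (N : ℂ)) * (matCalc (Fin N × ι) n).tr (A N) - (matCalc ι (n + 2)).tr a -
        ep N * (matCalc ι (n + 2)).tr b‖ ≤ C / (N : ℝ) ^ 2 := by
  obtain ⟨C, hC, N₀, h1⟩ := h
  refine ⟨(∑ i, TC (a i i)) + (∑ i, TC (b i i)) + Fintype.card ι * C,
    add_nonneg (add_nonneg (Finset.sum_nonneg fun i _ => TC_nonneg _)
      (Finset.sum_nonneg fun i _ => TC_nonneg _)) (by positivity), N₀, fun N hN hN' => ?_⟩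
  have hNr : (1 : ℝ) ≤ N := by exact_mod_cast hN'
  set R := A N - (OpM N a + ep N • OpM N b) with hR
  have e1 : A N = OpM N a + ep N • OpM N b + R := by rw [hR]; abel
  have e2 : (1 / (N : ℂ)) * (matCalc (Fin N × ι) n).tr (A N) - (matCalc ι (n + 2)).tr a -
        ep N * (matCalc ι (n + 2)).tr b =
      ((1 / (N : ℂ)) * (matCalc (Fin N × ι) n).tr (OpM N a) - (matCalc ι (n + 2)).tr a) +
      ep N * ((1 / (N : ℂ)) * (matCalc (Fin N × ι) n).tr (OpM N b) -
        (matCalc ι (n + 2)).tr b) + (1 / (N : ℂ)) * (matCalc (Fin N × ι) n).tr R := by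
    rw [e1, map_add, map_add, map_smul, smul_eq_mul]
    ring
  rw [e2]
  have b1 := tr_OpM hN' a
  have b2 := tr_OpM hN' b
  have b3 : ‖(1 / (N : ℂ)) * (matCalc (Fin N × ι) n).tr R‖ ≤
      Fintype.card ι * (C / (N : ℝ) ^ 2) := tr_small hN' R fun z => h1 N hN hN' z
  have b4 : ‖ep N‖ ≤ 1 := (norm_ep_le N hN').trans (by
    rw [div_le_one (by positivity)]; exact hNr)
  have b5 : ‖ep N * ((1 / (N : ℂ)) * (matCalc (Fin N × ι) n).tr (OpM N b) -
        (matCalc ι (n + 2)).tr b)‖ ≤ (∑ i, TC (b i i)) / (N : ℝ) ^ 2 := by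
    rw [norm_mul]
    calc _ ≤ 1 * ((∑ i, TC (b i i)) / (N : ℝ) ^ 2) :=
          mul_le_mul b4 b2 (norm_nonneg _) zero_le_one
      _ = _ := one_mul _
  refine (norm_add_le _ _).trans ((add_le_add ((norm_add_le _ _).trans (add_le_add b1 b5))
    b3).trans (le_of_eq ?_))
  ring

/-! ### the first order term of a word -/

section comb

variable {R : Type*} [Ring R]

/-- first order term for general letters -/
def fo {m : ℕ} (A B X Y : Fin m → R) : R :=
  (∑ p : Fin m, (List.ofFn fun j : Fin m => if j = p then B j else A j).prod) -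
    ∑ p : Fin m, ∑ q ∈ Finset.Ioi p, (List.ofFn fun j : Fin m =>
      if j = p then Y j else if j = q then X j else A j).prod

/-- sum of the words with one letter replaced -/
def one {m : ℕ} (A X : Fin m → R) : R :=
  ∑ q : Fin m, (List.ofFn fun j : Fin m => if j = q then X j else A j).prod

lemma one_succ {m : ℕ} (A X : Fin (m + 1) → R) :
    one A X = X 0 * (List.ofFn fun j : Fin m => A j.succ).prod +
      A 0 * one (fun j : Fin m => A j.succ) (fun j => X j.succ) := by
  unfold one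
  rw [Fin.sum_univ_succ, Finset.mul_sum]
  congr 1
  · rw [List.ofFn_succ, List.prod_cons]
    simp [Fin.succ_ne_zero]
  · refine Finset.sum_congr rfl fun q _ => ?_
    rw [List.ofFn_succ, List.prod_cons, if_neg (Fin.succ_ne_zero q).symm]
    simp only [Fin.succ_inj]

lemma fo_succ {m : ℕ} (A B X Y : Fin (m + 1) → R) :
    fo A B X Y = A 0 * fo (fun j : Fin m => A j.succ) (fun j => B j.succ) (fun j => X j.succ)
      (fun j => Y j.succ) + B 0 * (List.ofFn fun j : Fin m => A j.succ).prod -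
      Y 0 * one (fun j : Fin m => A j.succ) (fun j => X j.succ) := by
  have h1 : (∑ p : Fin (m + 1), (List.ofFn fun j : Fin (m + 1) =>
      if j = p then B j else A j).prod) = B 0 * (List.ofFn fun j : Fin m => A j.succ).prod +
      A 0 * ∑ p : Fin m, (List.ofFn fun j : Fin m => if j = p then B j.succ else A j.succ).prod :=
    one_succ A B
  have h2 : (∑ p : Fin (m + 1), ∑ q ∈ Finset.Ioi p, (List.ofFn fun j : Fin (m + 1) =>
      if j = p then Y j else if j = q then X j else A j).prod) =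
      Y 0 * one (fun j : Fin m => A j.succ) (fun j => X j.succ) +
      A 0 * ∑ p : Fin m, ∑ q ∈ Finset.Ioi p, (List.ofFn fun j : Fin m =>
        if j = p then Y j.succ else if j = q then X j.succ else A j.succ).prod := by
    rw [Fin.sum_univ_succ, Fin.sum_Ioi_zero]
    congr 1
    · unfold one
      rw [Finset.mul_sum]
      refine Finset.sum_congr rfl fun q _ => ?_
      rw [List.ofFn_succ, List.prod_cons, if_pos rfl]
      simp only [Fin.succ_ne_zero, if_false, Fin.succ_inj]
    · rw [Finset.mul_sum]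
      refine Finset.sum_congr rfl fun p _ => ?_
      rw [Fin.sum_Ioi_succ, Finset.mul_sum]
      refine Finset.sum_congr rfl fun q _ => ?_
      rw [List.ofFn_succ, List.prod_cons, if_neg (Fin.succ_ne_zero p).symm,
        if_neg (Fin.succ_ne_zero q).symm]
      simp only [Fin.succ_inj]
  unfold fo
  rw [h1, h2]
  rw [mul_sub]
  abel

end comb

lemma W0_deriv (G : (Matrix ι ι (Sm (n + 2)))ˣ) {m : ℕ} (w : Fin m → Fin n) :
    (pD 0).mapMatrix (W0 G (List.ofFn w)) =
      one (fun j => Az G (w j)) (fun j => (pD 0).mapMatrix (Az G (w j))) := by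
  induction m with
  | zero =>
    have : W0 G (List.ofFn w) = 1 := by simp [W0]
    rw [this, mapMatrix_one]
    simp [one]
  | succ m ih =>
    rw [one_succ, ← ih (fun j => w j.succ)]
    have e1 : W0 G (List.ofFn w) = Az G (w 0) * W0 G (List.ofFn fun j => w j.succ) := by
      simp [W0, List.ofFn_succ]
    rw [e1, mapMatrix_leib]
    congr 2
    simp [W0, List.map_ofFn, Function.comp_def]

lemma W1_eq (G : (Matrix ι ι (Sm (n + 2)))ˣ) {m : ℕ} (w : Fin m → Fin n) :
    W1 G (List.ofFn w) =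
      fo (fun j => Az G (w j)) (fun j => Bz G (w j)) (fun j => (pD 0).mapMatrix (Az G (w j)))
        (fun j => (pD 1).mapMatrix (Az G (w j))) := by
  induction m with
  | zero => simp [W1, fo]
  | succ m ih =>
    rw [fo_succ, ← ih (fun j => w j.succ), ← W0_deriv G (fun j => w j.succ), List.ofFn_succ, W1]
    congr 3
    simp [W0, List.map_ofFn, Function.comp_def]

lemma word1_eq (G : (Matrix ι ι (Sm (n + 2)))ˣ) (w : Fin n → Fin n) :
    (matCalc ι (n + 2)).tr (W1 G (List.ofFn w)) = word1 G w := by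
  rw [W1_eq, fo, map_sub, map_sum, map_sum, word1]
  simp only [map_sum]
  rfl

end QW

open QW

variable {ι : Type*} [Fintype ι] [DecidableEq ι] {n : ℕ}

/-- **(Q)** quantisation, first order expansion of the words (helper56) -/
theorem quant_words (G : (Matrix ι ι (Sm (n + 2)))ˣ) :
    ∃ (C : ℝ) (N₀ : ℕ), ∀ N : ℕ, N₀ ≤ N → 0 < N →
      ∃ U : (Matrix (Fin N × ι) (Fin N × ι) (Sm n))ˣ,
        (U : Matrix (Fin N × ι) (Fin N × ι) (Sm n)) = OpM N (G : Matrix ι ι (Sm (n + 2))) ∧
        ∀ w : Fin n → Fin n,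
          ‖(1 / (N : ℂ)) * (matCalc (Fin N × ι) n).tr ((List.ofFn fun j : Fin n =>
              ((U⁻¹ : (Matrix (Fin N × ι) (Fin N × ι) (Sm n))ˣ) :
                Matrix (Fin N × ι) (Fin N × ι) (Sm n)) *
              (pD (w j)).mapMatrix (U : Matrix (Fin N × ι) (Fin N × ι) (Sm n))).prod) -
            (matCalc ι (n + 2)).tr ((List.ofFn fun j : Fin n => Az G (w j)).prod) -
            (1 / (2 * Real.pi * Complex.I * N)) * word1 G w‖ ≤ C / (N : ℝ) ^ 2 := by
  classical
  have hw := fun w : Fin n → Fin n => trace_symb (word_symb G (List.ofFn w))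
  choose C hC N₀ hN₀ using hw
  obtain ⟨N₁, hN₁⟩ := (inv_symb G).1
  refine ⟨∑ w, C w, max N₁ (Finset.univ.sup N₀), fun N hN hN' => ?_⟩
  have hu := hN₁ N (le_of_max_le_left hN) hN'
  refine ⟨hu.unit, hu.unit_spec, fun w => ?_⟩
  have h1 := hN₀ w N ((Finset.le_sup (Finset.mem_univ w)).trans (le_of_max_le_right hN)) hN'
  have e1 : ((hu.unit⁻¹ : (Matrix (Fin N × ι) (Fin N × ι) (Sm n))ˣ) :
      Matrix (Fin N × ι) (Fin N × ι) (Sm n)) =
      Ring.inverse (OpM N (G : Matrix ι ι (Sm (n + 2)))) := by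
    rw [← Ring.inverse_unit hu.unit]
    rfl
  rw [e1, hu.unit_spec]
  rw [word1_eq] at h1
  have e2 : W0 G (List.ofFn w) = (List.ofFn fun j : Fin n => Az G (w j)).prod := by
    simp [W0, List.map_ofFn, Function.comp_def]
  rw [e2, List.map_ofFn] at h1
  refine le_trans h1 ?_
  exact div_le_div_of_nonneg_right (Finset.single_le_sum (fun w _ => hC w) (Finset.mem_univ w))
    (by positivity)

end Pool.Agent.PD4
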