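import Pool.Agent.PD4.Ix.Calc

/-!
# Project PD, index block: smooth periodic functions

* `Sm n`: smooth functions `ℝⁿ → ℂ`, `1`-periodic in each variable (= smooth functions on the
  torus), a `⋆`-algebra with commuting derivations `pD i` and mean value `mean`.
(Paths of such functions: `SmS n`, file `Path.lean`.)
-/

open MeasureTheory
open scoped ContDiff

namespace Pool.Agent.PD4

/-! ### function level lemmas -/

theorem fpd_contDiff {n : ℕ} {f : (Fin n → ℝ) → ℂ} (hf : ContDiff ℝ ∞ f) (v : Fin n → ℝ) :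
    ContDiff ℝ ∞ (fun x => fderiv ℝ f x v) :=
  (hf.fderiv_right (m := ∞) (by simp)).clm_apply contDiff_const

theorem fpd_periodic {n : ℕ} {f : (Fin n → ℝ) → ℂ} {v : Fin n → ℝ} (hf : ∀ x, f (x + v) = f x)
    (w x : Fin n → ℝ) : fderiv ℝ f (x + v) w = fderiv ℝ f x w := by
  have h : (fun y => f (y + v)) = f := funext hf
  conv_rhs => rw [← h]
  rw [fderiv_comp_add_right]

theorem fpd_comm {n : ℕ} {f : (Fin n → ℝ) → ℂ} (hf : ContDiff ℝ ∞ f) (v w x : Fin n → ℝ) :
    fderiv ℝ (fun y => fderiv ℝ f y w) x v = fderiv ℝ (fun y => fderiv ℝ f y v) x w := by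
  have hd : DifferentiableAt ℝ (fderiv ℝ f) x :=
    ((hf.fderiv_right (m := ∞) (by simp)).differentiable (by simp)) x
  have key : ∀ a b : Fin n → ℝ, fderiv ℝ (fun y => fderiv ℝ f y b) x a =
      fderiv ℝ (fderiv ℝ f) x a b := by
    intro a b
    rw [fderiv_clm_apply hd (by fun_prop)]
    simp
  rw [key, key]
  have hs : IsSymmSndFDerivAt ℝ f x := by
    apply ContDiffAt.isSymmSndFDerivAt (n := ∞) hf.contDiffAt
    simp only [minSmoothness_of_isRCLikeNormedField]
    exact WithTop.coe_le_coe.2 (le_top : (2 : ℕ∞) ≤ ⊤)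
  exact hs _ _

theorem fpd_star {n : ℕ} {f : (Fin n → ℝ) → ℂ} {x : Fin n → ℝ} (hf : DifferentiableAt ℝ f x)
    (v : Fin n → ℝ) :
    fderiv ℝ (fun y => (starRingEnd ℂ) (f y)) x v = (starRingEnd ℂ) (fderiv ℝ f x v) := by
  have h : HasFDerivAt (fun y => (starRingEnd ℂ) (f y))
      ((Complex.conjCLE : ℂ →L[ℝ] ℂ).comp (fderiv ℝ f x)) x :=
    (Complex.conjCLE : ℂ →L[ℝ] ℂ).hasFDerivAt.comp x hf.hasFDerivAt
  rw [h.fderiv]
  simp

/-- integral of a derivative over the unit cube: boundary terms -/
theorem integral_fpd {n : ℕ} {f : (Fin (n + 1) → ℝ) → ℂ} (hf : ContDiff ℝ ∞ f)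
    (i : Fin (n + 1)) :
    ∫ x in Set.Icc (0 : Fin (n + 1) → ℝ) 1, fderiv ℝ f x (Pi.single i 1) =
      (∫ y in Set.Icc (0 : Fin n → ℝ) 1, f (i.insertNth 1 y)) -
        ∫ y in Set.Icc (0 : Fin n → ℝ) 1, f (i.insertNth 0 y) := by
  classical
  have hd : Differentiable ℝ f := hf.differentiable (by simp)
  have hc : Continuous (fun x => fderiv ℝ f x (Pi.single i 1)) := (fpd_contDiff hf _).continuous
  have h := integral_divergence_of_hasFDerivAt_off_countable' (E := ℂ) (0 : Fin (n + 1) → ℝ) 1
    (by intro j; simp) (fun j => if j = i then f else 0)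
    (fun j x => if j = i then fderiv ℝ f x else 0) ∅ Set.countable_empty
    (by
      intro j
      by_cases hj : j = i
      · simp only [hj, if_true]
        exact hf.continuous.continuousOn
      · simp only [hj, if_false]
        exact continuousOn_const)
    (by
      intro x _ j
      by_cases hj : j = i
      · simp only [hj, if_true]
        exact (hd x).hasFDerivAt
      · simp only [hj, if_false]
        exact hasFDerivAt_const 0 x)
    (by
      have e : (fun x => ∑ j : Fin (n + 1), (if j = i then fderiv ℝ f x else 0)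
          (Pi.single j (1 : ℝ))) = fun x => fderiv ℝ f x (Pi.single i 1) := by
        funext x
        rw [Finset.sum_eq_single i]
        · simp
        · intro j _ hj
          simp [hj]
        · simp
      rw [e]
      exact hc.continuousOn.integrableOn_compact isCompact_Icc)
  have e1 : ∀ x : Fin (n + 1) → ℝ, (∑ j : Fin (n + 1), (if j = i then fderiv ℝ f x else 0)
      (Pi.single j (1 : ℝ))) = fderiv ℝ f x (Pi.single i 1) := by
    intro x
    rw [Finset.sum_eq_single i]
    · simp
    · intro j _ hj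
      simp [hj]
    · simp
  simp only [e1] at h
  rw [h, Finset.sum_eq_single i]
  · simp
  · intro j _ hj
    simp [hj]
  · simp

/-- smooth periodic functions (period `1` in each variable) -/
def Sm (n : ℕ) : StarSubalgebra ℂ ((Fin n → ℝ) → ℂ) where
  carrier := {f | ContDiff ℝ ∞ f ∧ ∀ (x : Fin n → ℝ) (i : Fin n), f (x + Pi.single i 1) = f x}
  mul_mem' := by
    rintro f g ⟨hf, hf'⟩ ⟨hg, hg'⟩
    exact ⟨hf.mul hg, fun x i => by simp only [Pi.mul_apply, hf', hg']⟩
  add_mem' := by
    rintro f g ⟨hf, hf'⟩ ⟨hg, hg'⟩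
    exact ⟨hf.add hg, fun x i => by simp only [Pi.add_apply, hf', hg']⟩
  algebraMap_mem' := fun r => ⟨contDiff_const, fun _ _ => rfl⟩
  star_mem' := by
    rintro f ⟨hf, hf'⟩
    exact ⟨Complex.conjCLE.contDiff.comp hf, fun x i => by
      simp only [Pi.star_apply, hf']⟩

instance (n : ℕ) : CoeFun (Sm n) (fun _ => (Fin n → ℝ) → ℂ) := ⟨fun f => f.1⟩

/-- partial derivative `∂/∂x_i` -/
noncomputable def pD {n : ℕ} (i : Fin n) : Sm n →ₗ[ℂ] Sm n where
  toFun f := ⟨fun x => fderiv ℝ f.1 x (Pi.single i 1),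
    fpd_contDiff f.2.1 _, fun x j => fpd_periodic (fun y => f.2.2 y j) _ _⟩
  map_add' f g := by
    apply Subtype.ext
    funext x
    change fderiv ℝ (f.1 + g.1) x (Pi.single i 1) = _
    rw [fderiv_add (f.2.1.differentiable (by simp) x) (g.2.1.differentiable (by simp) x)]
    rfl
  map_smul' c f := by
    apply Subtype.ext
    funext x
    change fderiv ℝ (c • f.1) x (Pi.single i 1) = _
    rw [fderiv_const_smul (f.2.1.differentiable (by simp) x)]
    rfl

theorem pD_apply {n : ℕ} (i : Fin n) (f : Sm n) (x : Fin n → ℝ) :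
    (pD i f).1 x = fderiv ℝ f.1 x (Pi.single i 1) := rfl

theorem Sm.contDiff_coe {n : ℕ} (f : Sm n) : ContDiff ℝ ∞ f.1 := f.2.1

theorem Sm.diff_coe {n : ℕ} (f : Sm n) : Differentiable ℝ f.1 := f.2.1.differentiable (by simp)

theorem Sm.cont_coe {n : ℕ} (f : Sm n) : Continuous f.1 := f.2.1.continuous

theorem Sm.integrableOn {n : ℕ} (f : Sm n) :
    IntegrableOn f.1 (Set.Icc (0 : Fin n → ℝ) 1) volume :=
  (Sm.cont_coe f).continuousOn.integrableOn_compact isCompact_Icc

/-- periodicity under all integer vectors -/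
theorem Sm.per {n : ℕ} (f : Sm n) (k : Fin n → ℤ) (x : Fin n → ℝ) :
    f.1 (x + fun i => (k i : ℝ)) = f.1 x := by
  let S : AddSubgroup (Fin n → ℝ) :=
    { carrier := {v | ∀ x, f.1 (x + v) = f.1 x}
      zero_mem' := fun x => by rw [add_zero]
      add_mem' := by
        intro v w hv hw x
        rw [← add_assoc, hw, hv]
      neg_mem' := by
        intro v hv x
        have := hv (x + -v)
        rw [neg_add_cancel_right] at this
        exact this.symm }
  have h1 : ∀ i : Fin n, (Pi.single i 1 : Fin n → ℝ) ∈ S := fun i x => f.2.2 x i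
  have h2 : (fun i => (k i : ℝ)) = ∑ i, k i • (Pi.single i 1 : Fin n → ℝ) := by
    funext j
    rw [Finset.sum_apply, Finset.sum_eq_single j]
    · simp
    · intro i _ hij
      simp [Pi.single_apply, hij.symm]
    · simp
  have h3 : (fun i => (k i : ℝ)) ∈ S := by
    rw [h2]
    exact S.sum_mem fun i _ => S.zsmul_mem (h1 i) _
  exact h3 x

/-- mean value over the torus -/
noncomputable def mean {n : ℕ} : Sm n →ₗ[ℂ] ℂ where
  toFun f := ∫ x in Set.Icc (0 : Fin n → ℝ) 1, f.1 x
  map_add' f g := by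
    change ∫ x in Set.Icc (0 : Fin n → ℝ) 1, (f.1 x + g.1 x) = _
    exact integral_add (Sm.integrableOn f) (Sm.integrableOn g)
  map_smul' c f := by
    change ∫ x in Set.Icc (0 : Fin n → ℝ) 1, (c * f.1 x) = c * _
    exact integral_const_mul c _

theorem mean_apply {n : ℕ} (f : Sm n) : mean f = ∫ x in Set.Icc (0 : Fin n → ℝ) 1, f.1 x := rfl

lemma pD_leib {n : ℕ} (i : Fin n) (f g : Sm n) : pD i (f * g) = pD i f * g + f * pD i g := by
  apply Subtype.ext
  funext x
  change fderiv ℝ (f.1 * g.1) x (Pi.single i 1) =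
    fderiv ℝ f.1 x (Pi.single i 1) * g.1 x + f.1 x * fderiv ℝ g.1 x (Pi.single i 1)
  rw [fderiv_mul (Sm.diff_coe f x) (Sm.diff_coe g x)]
  simp only [ContinuousLinearMap.add_apply, ContinuousLinearMap.smul_apply, smul_eq_mul]
  ring

lemma pD_comm {n : ℕ} (i j : Fin n) (f : Sm n) : pD i (pD j f) = pD j (pD i f) := by
  apply Subtype.ext
  funext x
  exact fpd_comm f.2.1 _ _ _

lemma mean_pD {n : ℕ} (i : Fin n) (f : Sm n) : mean (pD i f) = 0 := by
  obtain _ | n := n
  · exact i.elim0
  rw [mean_apply]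
  refine (integral_fpd f.2.1 i).trans ?_
  rw [sub_eq_zero]
  refine setIntegral_congr_fun measurableSet_Icc fun y _ => ?_
  have e : (i.insertNth 1 y : Fin (n + 1) → ℝ) =
      (i.insertNth 0 y : Fin (n + 1) → ℝ) + Pi.single i 1 := by
    funext j
    refine Fin.succAboveCases i ?_ (fun j => ?_) j
    · simp
    · simp
  change f.1 (i.insertNth 1 y) = f.1 (i.insertNth 0 y)
  rw [e]
  exact f.2.2 _ i

lemma pD_star {n : ℕ} (i : Fin n) (f : Sm n) : pD i (star f) = star (pD i f) := by
  apply Subtype.ext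
  funext x
  exact fpd_star (Sm.diff_coe f x) _

lemma mean_star {n : ℕ} (f : Sm n) : mean (star f) = star (mean f) := by
  rw [mean_apply, mean_apply]
  exact integral_conj

/-- a nowhere vanishing element of `Sm n` is a unit -/
lemma Sm.isUnit {n : ℕ} (f : Sm n) (hf : ∀ x, f.1 x ≠ 0) : IsUnit f := by
  let g : Sm n := ⟨fun x => (f.1 x)⁻¹, f.2.1.inv hf, fun x i => congrArg _ (f.2.2 x i)⟩
  have h : f * g = 1 := by
    apply Subtype.ext
    funext x
    exact mul_inv_cancel₀ (hf x)
  exact IsUnit.of_mul_eq_one g h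

/-- evaluation at a point -/
def Sm.ev {n : ℕ} (x : Fin n → ℝ) : Sm n →⋆ₐ[ℂ] ℂ where
  toFun f := f.1 x
  map_one' := rfl
  map_mul' _ _ := rfl
  map_zero' := rfl
  map_add' _ _ := rfl
  commutes' _ := rfl
  map_star' _ := rfl

/-- the exponential `e(m·x) = exp(2πi m·x)`, a unit of `Sm n` -/
noncomputable def Sm.ex {n : ℕ} (m : Fin n → ℤ) : Sm n :=
  ⟨fun x => Complex.exp (2 * Real.pi * Complex.I * ∑ i, (m i : ℂ) * (x i : ℂ)), by
    constructor
    · have h : ContDiff ℝ ∞ (fun x : Fin n → ℝ =>
          2 * (Real.pi : ℂ) * Complex.I * ∑ i, (m i : ℂ) * (x i : ℂ)) := by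
        refine contDiff_const.mul (ContDiff.sum fun i _ => contDiff_const.mul ?_)
        exact Complex.ofRealCLM.contDiff.comp (contDiff_apply ℝ ℝ i)
      exact Complex.contDiff_exp.comp h
    · intro x i
      have e : 2 * (Real.pi : ℂ) * Complex.I *
          ∑ j, (m j : ℂ) * (((x + Pi.single i 1 : Fin n → ℝ) j : ℝ) : ℂ) =
          2 * (Real.pi : ℂ) * Complex.I * ∑ j, (m j : ℂ) * (x j : ℂ) +
            (m i : ℂ) * (2 * (Real.pi : ℂ) * Complex.I) := by
        have e1 : ∑ j, (m j : ℂ) * (((x + Pi.single i 1 : Fin n → ℝ) j : ℝ) : ℂ) =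
            ∑ j, (m j : ℂ) * (x j : ℂ) + (m i : ℂ) := by
          have e2 : ∀ j, (m j : ℂ) * (((x + Pi.single i 1 : Fin n → ℝ) j : ℝ) : ℂ) =
              (m j : ℂ) * (x j : ℂ) + (if j = i then (m i : ℂ) else 0) := by
            intro j
            by_cases h : j = i
            · subst h
              simp [mul_add]
            · simp [h, Pi.single_apply]
          rw [Finset.sum_congr rfl fun j _ => e2 j, Finset.sum_add_distrib]
          simp
        rw [e1]
        ring
      change Complex.exp (2 * (Real.pi : ℂ) * Complex.I *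
          ∑ j, (m j : ℂ) * (((x + Pi.single i 1 : Fin n → ℝ) j : ℝ) : ℂ)) = _
      rw [e, Complex.exp_add, Complex.exp_int_mul_two_pi_mul_I, mul_one]⟩

/-- the inversion `x ↦ -x` -/
noncomputable def Sm.inv {n : ℕ} : Sm n →⋆ₐ[ℂ] Sm n where
  toFun f := ⟨fun x => f.1 (-x), f.2.1.comp contDiff_neg, fun x i => by
    have := f.2.2 (-(x + Pi.single i 1)) i
    rw [neg_add, neg_add_cancel_right] at this
    change f.1 (-(x + Pi.single i 1)) = f.1 (-x)
    rw [neg_add]
    exact this.symm⟩
  map_one' := rfl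
  map_mul' _ _ := rfl
  map_zero' := rfl
  map_add' _ _ := rfl
  commutes' _ := rfl
  map_star' _ := rfl

lemma mean_inv {n : ℕ} (f : Sm n) : mean (Sm.inv f) = mean f := by
  rw [mean_apply, mean_apply]
  have e1 : ∀ x : Fin n → ℝ, (Sm.inv f).1 x = f.1 (1 - x) := by
    intro x
    have h := Sm.per f (fun _ => 1) (-x)
    have e : (-x + fun _ => ((1 : ℤ) : ℝ)) = 1 - x := by
      funext j
      simp
      ring
    rw [e] at h
    exact h.symm
  simp only [e1]
  have hp : (fun x : Fin n → ℝ => 1 - x) ⁻¹' Set.Icc 0 1 = Set.Icc 0 1 := by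
    rw [Set.preimage_const_sub_Icc]
    simp
  have hm := Measure.measurePreserving_sub_left (volume : Measure (Fin n → ℝ)) 1
  have := hm.setIntegral_preimage_emb (MeasurableEquiv.subLeft 1).measurableEmbedding f.1
    (Set.Icc 0 1)
  rw [hp] at this
  exact this

lemma pD_inv {n : ℕ} (i : Fin n) (f : Sm n) : pD i (Sm.inv f) = - Sm.inv (pD i f) := by
  apply Subtype.ext
  funext x
  change fderiv ℝ (fun y => f.1 (-y)) x (Pi.single i 1) =
    -(fderiv ℝ f.1 (-x) (Pi.single i 1))
  have h : HasFDerivAt (fun y => f.1 (-y)) ((fderiv ℝ f.1 (-x)).comp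
      (-ContinuousLinearMap.id ℝ (Fin n → ℝ))) x :=
    (Sm.diff_coe f (-x)).hasFDerivAt.comp x (hasFDerivAt_id x).neg
  rw [h.fderiv]
  simp

/-- a smooth function is Real if `f(-x) = conj f(x)` -/
def Sm.IsReal {n : ℕ} (f : Sm n) : Prop := Sm.inv f = star f

/-- restriction to the coordinate subtorus through the origin (more generally pull back along
an injection of the index sets) -/
noncomputable def Sm.restr {m n : ℕ} (s : Fin m ↪ Fin n) : Sm n →⋆ₐ[ℂ] Sm m where
  toFun f := ⟨fun y => f.1 (fun i => ∑ j, if s j = i then y j else 0), by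
    constructor
    · refine f.2.1.comp (contDiff_pi.2 fun i => ContDiff.sum fun j _ => ?_)
      by_cases h : s j = i
      · simp only [h, if_true]
        exact contDiff_apply ℝ ℝ j
      · simp only [h, if_false]
        exact contDiff_const
    · intro y k
      have e : (fun i => ∑ j, if s j = i then (y + Pi.single k 1 : Fin m → ℝ) j else 0) =
          (fun i => ∑ j, if s j = i then y j else 0) + Pi.single (s k) 1 := by
        funext i
        have e2 : ∀ j, (if s j = i then (y + Pi.single k 1 : Fin m → ℝ) j else 0) =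
            (if s j = i then y j else 0) + (if j = k then (if s k = i then (1 : ℝ) else 0) else 0) := by
          intro j
          by_cases h : j = k
          · subst h
            by_cases h' : s j = i <;> simp [h']
          · by_cases h' : s j = i <;> simp [h', h, Pi.single_apply]
        rw [Finset.sum_congr rfl fun j _ => e2 j, Finset.sum_add_distrib]
        simp [Pi.single_apply, eq_comm]
      change f.1 (fun i => ∑ j, if s j = i then (y + Pi.single k 1 : Fin m → ℝ) j else 0) = _
      rw [e]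
      exact f.2.2 _ _⟩
  map_one' := rfl
  map_mul' _ _ := rfl
  map_zero' := rfl
  map_add' _ _ := rfl
  commutes' _ := rfl
  map_star' _ := rfl

/-! ### matrices -/

section Mat

variable {ι : Type*} [Fintype ι] [DecidableEq ι]

/-- the calculus on matrix-valued smooth functions on the torus -/
noncomputable def matCalc (ι : Type*) [Fintype ι] [DecidableEq ι] (n : ℕ) :
    Calc (Matrix ι ι (Sm n)) n where
  D i := (pD i).mapMatrix
  leib i a b := by
    ext1 j k
    simp only [LinearMap.mapMatrix_apply, Matrix.map_apply, Matrix.mul_apply, Matrix.add_apply,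
      map_sum, pD_leib, Finset.sum_add_distrib]
  comm i j a := by
    ext1 k l
    exact pD_comm i j (a k l)
  tr := mean ∘ₗ Matrix.traceLinearMap ι ℂ (Sm n)
  tr_comm a b := by
    simp only [LinearMap.comp_apply, Matrix.traceLinearMap_apply]
    rw [Matrix.trace_mul_comm]
  tr_D i a := by
    simp only [LinearMap.comp_apply, Matrix.traceLinearMap_apply, Matrix.trace,
      Matrix.diag_apply, LinearMap.mapMatrix_apply, Matrix.map_apply, map_sum, mean_pD,
      Finset.sum_const_zero]

/-- evaluate a matrix of smooth functions at a point -/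
def mev {n : ℕ} {κ : Type*} (x : Fin n → ℝ) (M : Matrix ι κ (Sm n)) : Matrix ι κ ℂ :=
  M.map fun f => f.1 x

/-- a matrix of smooth functions which is invertible at each point is a unit -/
lemma isUnit_of_pointwise {n : ℕ} (M : Matrix ι ι (Sm n)) (h : ∀ x, IsUnit (mev x M)) :
    IsUnit M := by
  rw [Matrix.isUnit_iff_isUnit_det]
  apply Sm.isUnit
  intro x
  have h1 : (M.det).1 x = (mev x M).det := by
    have := RingHom.map_det ((Sm.ev x : Sm n →⋆ₐ[ℂ] ℂ) : Sm n →+* ℂ) M
    exact this
  rw [h1]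
  have h2 := (Matrix.isUnit_iff_isUnit_det _).1 (h x)
  exact h2.ne_zero

/-- Real matrix functions: `M(-x) = conj M(x)` entrywise -/
def MReal {n : ℕ} {κ : Type*} (M : Matrix ι κ (Sm n)) : Prop :=
  ∀ i j, Sm.IsReal (M i j)

/-- normalising constant of the odd Chern number on `T^{2k+1}` -/
noncomputable def cst (k : ℕ) : ℂ :=
  (k.factorial : ℂ) / (((2 * k + 1).factorial : ℂ) * (2 * Real.pi * Complex.I) ^ (k + 1))

/-- the odd Chern number of `G : T^{2k+1} → GL` -/
noncomputable def oddCh (k : ℕ) (G : (Matrix ι ι (Sm (2 * k + 1)))ˣ) : ℂ :=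
  cst k * (matCalc ι (2 * k + 1)).oddT G

/-- the even Chern number `ch_k` of an idempotent on `T^{2k}` -/
noncomputable def evenCh (k : ℕ) (e : Matrix ι ι (Sm (2 * k))) : ℂ :=
  1 / ((k.factorial : ℂ) * (2 * Real.pi * Complex.I) ^ k) * (matCalc ι (2 * k)).evenT e

end Mat

end Pool.Agent.PD4
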