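import Pool.Agent.PD4.Ix.TropDefs

/-!
# Project PD4, index block: tropical part, analysis (helper40)

Leading terms of Laurent polynomials and rational functions on the tori with radii `e^{t v_i}`,
`t → ∞`.
-/

open Filter Topology
open scoped ContDiff

namespace Pool.Agent.PD4

/-- there are directions with all `m · v` different -/
theorem exists_generic (n : ℕ) : ∃ v : Fin n → ℝ, Function.Injective (dotv v) := by
  have h1 : (n : Cardinal) ≤ Module.rank ℚ ℝ := by
    rw [Real.rank_rat_real]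
    exact (Cardinal.nat_lt_continuum n).le
  obtain ⟨s, hs, hli⟩ := le_rank_iff_exists_linearIndependent.mp h1
  have h2 : Cardinal.mk s = n := hs
  obtain ⟨e⟩ : Nonempty (Fin n ≃ s) := by
    have := Cardinal.eq.mp (show Cardinal.mk (ULift.{0} (Fin n)) = Cardinal.mk s by simp [h2])
    obtain ⟨e⟩ := this
    exact ⟨Equiv.ulift.symm.trans e⟩
  have hli' : LinearIndependent ℚ (fun i : Fin n => ((e i : s) : ℝ)) :=
    hli.comp e e.injective
  refine ⟨fun i => ((e i : s) : ℝ), fun m m' h0 => ?_⟩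
  rw [Fintype.linearIndependent_iff] at hli'
  have h3 : ∑ i, (((m i : ℤ) : ℝ) - ((m' i : ℤ) : ℝ)) * ((e i : s) : ℝ) = 0 := by
    simp only [sub_mul, Finset.sum_sub_distrib]
    exact sub_eq_zero.mpr h0
  have := hli' (fun i => (m i : ℚ) - (m' i : ℚ)) (by
    rw [← h3]
    refine Finset.sum_congr rfl fun i _ => ?_
    rw [Rat.smul_def]; push_cast; rfl)
  funext i
  have hi := this i
  exact_mod_cast sub_eq_zero.mp hi

lemma dotv_neg {n : ℕ} (v : Fin n → ℝ) (m : Fin n → ℤ) : dotv v (-m) = - dotv v m := by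
  simp [dotv, Finset.sum_neg_distrib]

lemma dotv_negv {n : ℕ} (v : Fin n → ℝ) (m : Fin n → ℤ) : dotv (-v) m = - dotv v m := by
  simp [dotv, Finset.sum_neg_distrib]

/-- `f t ~ c e^{t (m·v)} e(m·x)` uniformly on the torus -/
def Lead {n : ℕ} (v : Fin n → ℝ) (f : ℝ → Sm n) (m : Fin n → ℤ) (c : ℝ) : Prop :=
  c ≠ 0 ∧ ∀ ε : ℝ, 0 < ε → ∀ᶠ t in (atTop : Filter ℝ), ∀ x,
    ‖(f t).1 x - ((c * Real.exp (t * dotv v m) : ℝ) : ℂ) * (Sm.ex m : Sm n).1 x‖ ≤
      ε * Real.exp (t * dotv v m)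

section

variable {n : ℕ} {v : Fin n → ℝ}

lemma ex_addx (m m' : Fin n → ℤ) (x : Fin n → ℝ) :
    (Sm.ex (m + m') : Sm n).1 x = (Sm.ex m : Sm n).1 x * (Sm.ex m' : Sm n).1 x := by
  rw [ex_add]; rfl

lemma ex_zerox (x : Fin n → ℝ) : (Sm.ex (0 : Fin n → ℤ) : Sm n).1 x = 1 := by
  rw [ex_zero]; rfl

lemma ex_ne_zero (m : Fin n → ℤ) (x : Fin n → ℝ) : (Sm.ex m : Sm n).1 x ≠ 0 := by
  intro h
  have := ex_norm m x
  rw [h, norm_zero] at this
  exact zero_ne_one this

theorem Lead.congr {f g : ℝ → Sm n} {m : Fin n → ℤ} {c : ℝ} (h : Lead v f m c)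
    (e : f =ᶠ[atTop] g) : Lead v g m c := by
  refine ⟨h.1, fun ε hε => ?_⟩
  filter_upwards [h.2 ε hε, e] with t ht hte x
  rw [← hte]; exact ht x

theorem Lead.mul {f g : ℝ → Sm n} {m m' : Fin n → ℤ} {c c' : ℝ} (h : Lead v f m c)
    (h' : Lead v g m' c') : Lead v (fun t => f t * g t) (m + m') (c * c') := by
  refine ⟨mul_ne_zero h.1 h'.1, fun ε hε => ?_⟩
  have hc0 : 0 < |c| := abs_pos.mpr h.1
  have hc0' : 0 < |c'| := abs_pos.mpr h'.1
  set δ : ℝ := min 1 (ε / (|c| + |c'| + 1)) with hδ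
  have hδ0 : 0 < δ := lt_min one_pos (by positivity)
  have hδ1 : δ ≤ 1 := min_le_left _ _
  have hδε : δ * (|c| + |c'| + 1) ≤ ε := by
    have := min_le_right 1 (ε / (|c| + |c'| + 1))
    rw [← hδ, le_div_iff₀ (by positivity)] at this
    exact this
  filter_upwards [h.2 δ hδ0, h'.2 δ hδ0] with t h1 h2 x
  have e1 := h1 x
  have e2 := h2 x
  have n1 := ex_norm m x
  have n2 := ex_norm m' x
  have hE : Real.exp (t * dotv v (m + m')) =
      Real.exp (t * dotv v m) * Real.exp (t * dotv v m') := by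
    rw [dotv_add, mul_add, Real.exp_add]
  have p1 := Real.exp_pos (t * dotv v m)
  have p2 := Real.exp_pos (t * dotv v m')
  rw [ex_addx, hE]
  set a := (f t).1 x
  set b := (g t).1 x
  set u := (Sm.ex m : Sm n).1 x
  set w := (Sm.ex m' : Sm n).1 x
  set E := Real.exp (t * dotv v m)
  set E' := Real.exp (t * dotv v m')
  have hval : (f t * g t).1 x = a * b := rfl
  change ‖a * b - ((c * c' * (E * E') : ℝ) : ℂ) * (u * w)‖ ≤ ε * (E * E')
  have hb : ‖b‖ ≤ (|c'| + δ) * E' := by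
    calc ‖b‖ = ‖(b - ((c' * E' : ℝ) : ℂ) * w) + ((c' * E' : ℝ) : ℂ) * w‖ := by
          rw [sub_add_cancel]
      _ ≤ ‖b - ((c' * E' : ℝ) : ℂ) * w‖ + ‖((c' * E' : ℝ) : ℂ) * w‖ := norm_add_le _ _
      _ ≤ δ * E' + |c'| * E' := by
          rw [norm_mul, n2, mul_one, Complex.norm_real, Real.norm_eq_abs, abs_mul,
            abs_of_pos p2]
          linarith
      _ = (|c'| + δ) * E' := by ring
  have hid : a * b - ((c * c' * (E * E') : ℝ) : ℂ) * (u * w) =
      (a - ((c * E : ℝ) : ℂ) * u) * b +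
        (((c * E : ℝ) : ℂ) * u) * (b - ((c' * E' : ℝ) : ℂ) * w) := by
    push_cast; ring
  rw [hid]
  calc ‖(a - ((c * E : ℝ) : ℂ) * u) * b +
        (((c * E : ℝ) : ℂ) * u) * (b - ((c' * E' : ℝ) : ℂ) * w)‖
      ≤ ‖a - ((c * E : ℝ) : ℂ) * u‖ * ‖b‖ +
          ‖((c * E : ℝ) : ℂ) * u‖ * ‖b - ((c' * E' : ℝ) : ℂ) * w‖ := by
        refine (norm_add_le _ _).trans ?_
        rw [norm_mul, norm_mul]
    _ ≤ (δ * E) * ((|c'| + δ) * E') + (|c| * E) * (δ * E') := by
        have : ‖((c * E : ℝ) : ℂ) * u‖ = |c| * E := by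
          rw [norm_mul, n1, mul_one, Complex.norm_real, Real.norm_eq_abs, abs_mul,
            abs_of_pos p1]
        rw [this]
        gcongr
    _ = (δ * (|c| + |c'| + δ)) * (E * E') := by ring
    _ ≤ ε * (E * E') := by
        have : δ * (|c| + |c'| + δ) ≤ ε := by
          have : δ * (|c| + |c'| + δ) ≤ δ * (|c| + |c'| + 1) := by gcongr
          linarith
        exact mul_le_mul_of_nonneg_right this (by positivity)

theorem Lead.one : Lead v (fun _ => (1 : Sm n)) 0 1 := by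
  refine ⟨one_ne_zero, fun ε hε => Eventually.of_forall fun t x => ?_⟩
  have : ((1 : Sm n)).1 x = 1 := rfl
  rw [this, ex_zerox, dotv_zero]
  simp [hε.le]

theorem Lead.prodS {κ : Type*} (s : Finset κ) {f : κ → ℝ → Sm n} {m : κ → Fin n → ℤ}
    {c : κ → ℝ} (h : ∀ i ∈ s, Lead v (f i) (m i) (c i)) :
    Lead v (fun t => ∏ i ∈ s, f i t) (∑ i ∈ s, m i) (∏ i ∈ s, c i) := by
  classical
  induction s using Finset.induction_on with
  | empty => simpa using Lead.one
  | insert a s ha ih =>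
    rw [Finset.sum_insert ha, Finset.prod_insert ha]
    have h1 := (h a (Finset.mem_insert_self a s)).mul
      (ih fun i hi => h i (Finset.mem_insert_of_mem hi))
    refine h1.congr (Eventually.of_forall fun t => ?_)
    simp only
    rw [Finset.prod_insert ha]

theorem Lead.prod {κ : Type*} [Fintype κ] {f : κ → ℝ → Sm n} {m : κ → Fin n → ℤ} {c : κ → ℝ}
    (h : ∀ i, Lead v (f i) (m i) (c i)) :
    Lead v (fun t => ∏ i, f i t) (∑ i, m i) (∏ i, c i) :=
  Lead.prodS Finset.univ fun i _ => h i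

theorem Lead.inv {f g : ℝ → Sm n} {m : Fin n → ℤ} {c : ℝ} (h : Lead v f m c)
    (e : ∀ᶠ t in (atTop : Filter ℝ), f t * g t = 1) : Lead v g (-m) c⁻¹ := by
  refine ⟨inv_ne_zero h.1, fun ε hε => ?_⟩
  have hc0 : 0 < |c| := abs_pos.mpr h.1
  set δ : ℝ := min (|c| / 2) (ε * |c| ^ 2 / 2) with hδ
  have hδ0 : 0 < δ := lt_min (by positivity) (by positivity)
  have hδ1 : δ ≤ |c| / 2 := min_le_left _ _
  have hδε : δ ≤ ε * |c| ^ 2 / 2 := min_le_right _ _
  filter_upwards [h.2 δ hδ0, e] with t h1 h3 x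
  have e1 := h1 x
  have e3 : (f t).1 x * (g t).1 x = 1 := congrFun (congrArg Subtype.val h3) x
  have n1 := ex_norm m x
  have hu : (Sm.ex m : Sm n).1 x * (Sm.ex (-m) : Sm n).1 x = 1 := by
    rw [← ex_addx, add_neg_cancel, ex_zerox]
  have n2 := ex_norm (-m) x
  have hE : Real.exp (t * dotv v (-m)) = (Real.exp (t * dotv v m))⁻¹ := by
    rw [dotv_neg, mul_neg, Real.exp_neg]
  have p1 := Real.exp_pos (t * dotv v m)
  rw [hE]
  set a := (f t).1 x
  set b := (g t).1 x
  set u := (Sm.ex m : Sm n).1 x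
  set w := (Sm.ex (-m) : Sm n).1 x
  set E := Real.exp (t * dotv v m)
  have ha : |c| * E / 2 ≤ ‖a‖ := by
    have : ‖((c * E : ℝ) : ℂ) * u‖ ≤ ‖a‖ + ‖a - ((c * E : ℝ) : ℂ) * u‖ := by
      calc ‖((c * E : ℝ) : ℂ) * u‖ = ‖a - (a - ((c * E : ℝ) : ℂ) * u)‖ := by
            rw [sub_sub_cancel]
        _ ≤ ‖a‖ + ‖a - ((c * E : ℝ) : ℂ) * u‖ := norm_sub_le _ _
    rw [norm_mul, n1, mul_one, Complex.norm_real, Real.norm_eq_abs, abs_mul,
      abs_of_pos p1] at this
    have h4 : δ * E ≤ |c| / 2 * E := by gcongr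
    nlinarith
  have hb : ‖b‖ ≤ 2 / (|c| * E) := by
    have h4 : ‖a‖ * ‖b‖ = 1 := by rw [← norm_mul, e3, norm_one]
    rw [le_div_iff₀ (by positivity)]
    have : |c| * E / 2 * ‖b‖ ≤ 1 := by
      calc |c| * E / 2 * ‖b‖ ≤ ‖a‖ * ‖b‖ := mul_le_mul_of_nonneg_right ha (norm_nonneg _)
        _ = 1 := h4
    linarith
  have hEC : (E : ℂ) ≠ 0 := by exact_mod_cast p1.ne'
  have hcC : (c : ℂ) ≠ 0 := by exact_mod_cast h.1
  have hid : b - ((c⁻¹ * E⁻¹ : ℝ) : ℂ) * w =
      - (b * ((c⁻¹ * E⁻¹ : ℝ) : ℂ) * w * (a - ((c * E : ℝ) : ℂ) * u)) := by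
    have h5 : ((c⁻¹ * E⁻¹ : ℝ) : ℂ) * ((c * E : ℝ) : ℂ) = 1 := by
      push_cast
      field_simp
    linear_combination (((c⁻¹ * E⁻¹ : ℝ) : ℂ) * w) * e3 -
      (b * ((c⁻¹ * E⁻¹ : ℝ) : ℂ) * ((c * E : ℝ) : ℂ)) * hu - b * h5
  rw [hid, norm_neg, norm_mul, norm_mul, norm_mul, n2, mul_one, Complex.norm_real,
    Real.norm_eq_abs, abs_mul, abs_inv, abs_inv, abs_of_pos p1]
  calc ‖b‖ * (|c|⁻¹ * E⁻¹) * ‖a - ((c * E : ℝ) : ℂ) * u‖
      ≤ (2 / (|c| * E)) * (|c|⁻¹ * E⁻¹) * (δ * E) := by gcongr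
    _ = (δ * (2 / |c| ^ 2)) * E⁻¹ := by field_simp
    _ ≤ (ε * |c| ^ 2 / 2 * (2 / |c| ^ 2)) * E⁻¹ := by gcongr
    _ = ε * E⁻¹ := by field_simp

theorem Lead.ne_zero {f : ℝ → Sm n} {m : Fin n → ℤ} {c : ℝ} (h : Lead v f m c) :
    ∀ᶠ t in (atTop : Filter ℝ), ∀ x, (f t).1 x ≠ 0 := by
  have hc0 : 0 < |c| := abs_pos.mpr h.1
  filter_upwards [h.2 (|c| / 2) (by positivity)] with t h2 x h0
  have := h2 x
  have p1 := Real.exp_pos (t * dotv v m)
  rw [h0, zero_sub, norm_neg, norm_mul, ex_norm, mul_one, Complex.norm_real,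
    Real.norm_eq_abs, abs_mul, Real.abs_exp] at this
  nlinarith [mul_pos hc0 p1]

theorem Lead.isUnit {f : ℝ → Sm n} {m : Fin n → ℤ} {c : ℝ} (h : Lead v f m c) :
    ∀ᶠ t in (atTop : Filter ℝ), IsUnit (f t) := by
  filter_upwards [h.ne_zero] with t ht
  exact Sm.isUnit _ ht

/-- a point where two different exponentials are opposite -/
lemma exists_opposite {m m' : Fin n → ℤ} (h : m ≠ m') :
    ∃ x, (Sm.ex m : Sm n).1 x = - (Sm.ex m' : Sm n).1 x := by
  obtain ⟨i, hi⟩ := Function.ne_iff.mp h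
  have hk : ((m i - m' i : ℤ) : ℂ) ≠ 0 := by exact_mod_cast sub_ne_zero.mpr hi
  refine ⟨Pi.single i (1 / (2 * ((m i - m' i : ℤ) : ℝ))), ?_⟩
  have h1 : ∀ l : Fin n → ℤ,
      (Sm.ex l : Sm n).1 (Pi.single i (1 / (2 * ((m i - m' i : ℤ) : ℝ)))) =
      Complex.exp (2 * Real.pi * Complex.I * ((l i : ℂ) * (1 / (2 * ((m i - m' i : ℤ) : ℂ))))) := by
    intro l
    change Complex.exp (2 * Real.pi * Complex.I * ∑ j, (l j : ℂ) *
      ((Pi.single i (1 / (2 * ((m i - m' i : ℤ) : ℝ))) : Fin n → ℝ) j : ℂ)) = _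
    congr 2
    rw [Finset.sum_eq_single i]
    · rw [Pi.single_eq_same]; push_cast; ring
    · intro j _ hj
      rw [Pi.single_eq_of_ne hj]; simp
    · simp
  rw [h1, h1]
  have h2 : 2 * (Real.pi : ℂ) * Complex.I * ((m i : ℂ) * (1 / (2 * ((m i - m' i : ℤ) : ℂ)))) =
      2 * (Real.pi : ℂ) * Complex.I * ((m' i : ℂ) * (1 / (2 * ((m i - m' i : ℤ) : ℂ)))) +
        Real.pi * Complex.I := by
    field_simp
    push_cast
    ring
  rw [h2, Complex.exp_add, Complex.exp_pi_mul_I]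
  ring

theorem Lead.unique' {f : ℝ → Sm n} {m m' : Fin n → ℤ}
    {c c' : ℝ} (h : Lead v f m c) (h' : Lead v f m' c') : m = m' ∧ c = c' := by
  have hc0 : 0 < |c| := abs_pos.mpr h.1
  have hc0' : 0 < |c'| := abs_pos.mpr h'.1
  have key : ∀ ε : ℝ, 0 < ε → ∃ t : ℝ, ∀ y : Fin n → ℝ,
      ‖((c * Real.exp (t * dotv v m) : ℝ) : ℂ) * (Sm.ex m : Sm n).1 y -
        ((c' * Real.exp (t * dotv v m') : ℝ) : ℂ) * (Sm.ex m' : Sm n).1 y‖ ≤
      ε * (Real.exp (t * dotv v m) + Real.exp (t * dotv v m')) := by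
    intro ε hε
    obtain ⟨t, h3, h4⟩ := ((h.2 ε hε).and (h'.2 ε hε)).exists
    refine ⟨t, fun y => ?_⟩
    have e1 := h3 y
    have e2 := h4 y
    calc ‖((c * Real.exp (t * dotv v m) : ℝ) : ℂ) * (Sm.ex m : Sm n).1 y -
          ((c' * Real.exp (t * dotv v m') : ℝ) : ℂ) * (Sm.ex m' : Sm n).1 y‖
        = ‖((f t).1 y - ((c' * Real.exp (t * dotv v m') : ℝ) : ℂ) * (Sm.ex m' : Sm n).1 y) -
            ((f t).1 y - ((c * Real.exp (t * dotv v m) : ℝ) : ℂ) * (Sm.ex m : Sm n).1 y)‖ := by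
          congr 1; ring
      _ ≤ ‖(f t).1 y - ((c' * Real.exp (t * dotv v m') : ℝ) : ℂ) * (Sm.ex m' : Sm n).1 y‖ +
            ‖(f t).1 y - ((c * Real.exp (t * dotv v m) : ℝ) : ℂ) * (Sm.ex m : Sm n).1 y‖ :=
          norm_sub_le _ _
      _ ≤ ε * Real.exp (t * dotv v m') + ε * Real.exp (t * dotv v m) := add_le_add e2 e1
      _ = _ := by ring
  have z1 : ∀ l : Fin n → ℤ, (Sm.ex l : Sm n).1 (0 : Fin n → ℝ) = 1 := by
    intro l
    change Complex.exp (2 * Real.pi * Complex.I * ∑ j, (l j : ℂ) *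
      (((0 : Fin n → ℝ) j : ℝ) : ℂ)) = 1
    simp
  have hm : m = m' := by
    by_contra hne
    obtain ⟨x, hx⟩ := exists_opposite hne
    obtain ⟨t, ht⟩ := key (min |c| |c'| / 4) (by positivity)
    have k1 := ht 0
    have k2 := ht x
    have p1 := Real.exp_pos (t * dotv v m)
    have p2 := Real.exp_pos (t * dotv v m')
    rw [z1, z1, mul_one, mul_one, ← Complex.ofReal_sub, Complex.norm_real,
      Real.norm_eq_abs] at k1
    rw [hx] at k2
    set E := Real.exp (t * dotv v m)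
    set E' := Real.exp (t * dotv v m')
    have k3 : ((c * E : ℝ) : ℂ) * -(Sm.ex m' : Sm n).1 x -
        ((c' * E' : ℝ) : ℂ) * (Sm.ex m' : Sm n).1 x =
        -(((c * E + c' * E' : ℝ) : ℂ) * (Sm.ex m' : Sm n).1 x) := by push_cast; ring
    rw [k3, norm_neg, norm_mul, ex_norm, mul_one, Complex.norm_real, Real.norm_eq_abs] at k2
    have b1 : min |c| |c'| ≤ |c| := min_le_left _ _
    have b2 : min |c| |c'| ≤ |c'| := min_le_right _ _
    have a1 : 0 < |c| * E := mul_pos hc0 p1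
    have a2 : 0 < |c'| * E' := mul_pos hc0' p2
    have b3 : min |c| |c'| / 4 * (E + E') ≤ (|c| * E + |c'| * E') / 4 := by
      nlinarith [mul_le_mul_of_nonneg_right b1 p1.le, mul_le_mul_of_nonneg_right b2 p2.le]
    have a3 : 2 * (|c| * E) ≤ |c * E + c' * E'| + |c * E - c' * E'| := by
      have := abs_add_le (c * E + c' * E') (c * E - c' * E')
      have e : c * E + c' * E' + (c * E - c' * E') = 2 * (c * E) := by ring
      rw [e, abs_mul, abs_two, abs_mul, abs_of_pos p1] at this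
      exact this
    have a4 : 2 * (|c'| * E') ≤ |c * E + c' * E'| + |c * E - c' * E'| := by
      have := abs_sub (c * E + c' * E') (c * E - c' * E')
      have e : c * E + c' * E' - (c * E - c' * E') = 2 * (c' * E') := by ring
      rw [e, abs_mul, abs_two, abs_mul, abs_of_pos p2] at this
      exact this
    linarith
  subst hm
  refine ⟨rfl, ?_⟩
  by_contra hne
  have hd : 0 < |c - c'| := abs_pos.mpr (sub_ne_zero.mpr hne)
  obtain ⟨t, ht⟩ := key (|c - c'| / 4) (by positivity)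
  have k1 := ht 0
  have p1 := Real.exp_pos (t * dotv v m)
  rw [z1, mul_one, mul_one, ← Complex.ofReal_sub, Complex.norm_real,
      Real.norm_eq_abs, ← sub_mul, abs_mul, abs_of_pos p1] at k1
  nlinarith [mul_pos hd p1]

theorem Lead.unique (_hv : Function.Injective (dotv v)) {f : ℝ → Sm n} {m m' : Fin n → ℤ}
    {c c' : ℝ} (h : Lead v f m c) (h' : Lead v f m' c') : m = m' ∧ c = c' :=
  Lead.unique' h h'

/-- evaluation formula -/
lemma sev_val (v : Fin n → ℝ) (t : ℝ) (p : Laurent n) (x : Fin n → ℝ) :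
    (sev v t p).1 x =
      ∑ m ∈ p.coeff.support,
        (p.coeff m : ℂ) * (Real.exp (t * dotv v m) : ℂ) * (Sm.ex m : Sm n).1 x := by
  have h : sev v t p = ∑ m ∈ p.coeff.support,
      (p.coeff m) • ((Real.exp (t * dotv v m) : ℂ) • (Sm.ex m : Sm n)) := by
    change (AddMonoidAlgebra.lift ℝ (Sm n) (Fin n → ℤ)) _ p = _
    rw [AddMonoidAlgebra.lift_apply]
    rfl
  rw [h]
  have h2 : ∀ (s : Finset (Fin n → ℤ)) (f : (Fin n → ℤ) → Sm n),
      (∑ m ∈ s, f m).1 x = ∑ m ∈ s, (f m).1 x := by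
    intro s f
    exact map_sum (Sm.ev x) f s
  rw [h2]
  refine Finset.sum_congr rfl fun m _ => ?_
  change ((p.coeff m : ℝ) : ℂ) * ((Real.exp (t * dotv v m) : ℂ) * (Sm.ex m : Sm n).1 x) = _
  ring

theorem lead_sev' (hv : Function.Injective (dotv v)) (p : Laurent n) (hp : p ≠ 0) :
    ∃ m ∈ p.coeff.support, (∀ m' ∈ p.coeff.support, dotv v m' ≤ dotv v m) ∧
      Lead v (fun t => sev v t p) m (p.coeff m) := by
  have hne : p.coeff.support.Nonempty := by
    rw [Finsupp.support_nonempty_iff]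
    exact fun h => hp (AddMonoidAlgebra.coeff_eq_zero.mp h)
  obtain ⟨m₀, hm₀, hmax⟩ := Finset.exists_max_image p.coeff.support (dotv v) hne
  have hp0 : p.coeff m₀ ≠ 0 := Finsupp.mem_support_iff.mp hm₀
  refine ⟨m₀, hm₀, hmax, hp0, fun ε hε => ?_⟩
  have hlim : Tendsto (fun t : ℝ => ∑ m ∈ p.coeff.support.erase m₀,
      |p.coeff m| * Real.exp (t * (dotv v m - dotv v m₀))) atTop (nhds 0) := by
    rw [← Finset.sum_const_zero (s := p.coeff.support.erase m₀) (M := ℝ)]
    refine tendsto_finsetSum _ fun m hm => ?_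
    have hmne : m ≠ m₀ := Finset.ne_of_mem_erase hm
    have hlt : dotv v m - dotv v m₀ < 0 := by
      have h1 := hmax m (Finset.mem_of_mem_erase hm)
      rcases h1.lt_or_eq with h | h
      · linarith
      · exact absurd (hv h) hmne
    rw [← mul_zero |p.coeff m|]
    refine Tendsto.const_mul _ (Real.tendsto_exp_atBot.comp ?_)
    exact tendsto_id.atTop_mul_const_of_neg hlt
  have hev := hlim.eventually (gt_mem_nhds hε)
  filter_upwards [hev] with t ht x
  rw [sev_val, ← Finset.add_sum_erase _ _ hm₀]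
  have hid : ∀ A B : ℂ, ((p.coeff m₀ : ℝ) : ℂ) * A * B +
      (∑ m ∈ p.coeff.support.erase m₀,
        (p.coeff m : ℂ) * (Real.exp (t * dotv v m) : ℂ) * (Sm.ex m : Sm n).1 x) -
      ((p.coeff m₀ : ℝ) : ℂ) * A * B = ∑ m ∈ p.coeff.support.erase m₀,
        (p.coeff m : ℂ) * (Real.exp (t * dotv v m) : ℂ) * (Sm.ex m : Sm n).1 x := by
    intro A B; ring
  rw [Complex.ofReal_mul, hid]
  calc ‖∑ m ∈ p.coeff.support.erase m₀,
        (p.coeff m : ℂ) * (Real.exp (t * dotv v m) : ℂ) * (Sm.ex m : Sm n).1 x‖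
      ≤ ∑ m ∈ p.coeff.support.erase m₀, |p.coeff m| * Real.exp (t * dotv v m) := by
        refine (norm_sum_le _ _).trans (Finset.sum_le_sum fun m _ => ?_)
        rw [norm_mul, norm_mul, ex_norm, mul_one, Complex.norm_real, Complex.norm_real,
          Real.norm_eq_abs, Real.norm_eq_abs, Real.abs_exp]
    _ = (∑ m ∈ p.coeff.support.erase m₀,
          |p.coeff m| * Real.exp (t * (dotv v m - dotv v m₀))) * Real.exp (t * dotv v m₀) := by
        rw [Finset.sum_mul]
        refine Finset.sum_congr rfl fun m _ => ?_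
        rw [mul_assoc, ← Real.exp_add]
        congr 2; ring
    _ ≤ ε * Real.exp (t * dotv v m₀) :=
        mul_le_mul_of_nonneg_right ht.le (Real.exp_pos _).le

theorem lead_sev (hv : Function.Injective (dotv v)) (p : Laurent n) (hp : p ≠ 0) :
    ∃ m c, Lead v (fun t => sev v t p) m c := by
  obtain ⟨m, _, _, h⟩ := lead_sev' hv p hp
  exact ⟨m, _, h⟩

theorem lead_single (b : Fin n → ℤ) {c : ℝ} (hc : c ≠ 0) :
    Lead v (fun t => sev v t (AddMonoidAlgebra.single b c)) b c := by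
  refine ⟨hc, fun ε hε => Eventually.of_forall fun t x => ?_⟩
  simp only [sev_single]
  change ‖((c * Real.exp (t * dotv v b) : ℝ) : ℂ) * (Sm.ex b : Sm n).1 x - _‖ ≤ _
  rw [sub_self, norm_zero]
  positivity

/-- the germ at infinity of the values of a Laurent polynomial -/
noncomputable def gP (v : Fin n → ℝ) : Laurent n →+* Germ (atTop : Filter ℝ) (Sm n) :=
  (Germ.coeRingHom atTop).comp (RingHom.pi fun t => sev v t)

theorem gP_apply (p : Laurent n) :
    gP v p = ((fun t => sev v t p : ℝ → Sm n) : Germ (atTop : Filter ℝ) (Sm n)) := rfl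

/-- inverse of an eventually invertible family -/
noncomputable def invF (f : ℝ → Sm n) : ℝ → Sm n := fun t =>
  open Classical in if h : IsUnit (f t) then ((h.unit⁻¹ : (Sm n)ˣ) : Sm n) else 0

lemma mul_invF {f : ℝ → Sm n} {t : ℝ} (h : IsUnit (f t)) : f t * invF f t = 1 := by
  unfold invF
  rw [dif_pos h]
  exact h.mul_val_inv

theorem gP_isUnit (hv : Function.Injective (dotv v)) (p : nonZeroDivisors (Laurent n)) :
    IsUnit (gP v p.1) := by
  obtain ⟨m, c, hm⟩ := lead_sev hv p.1 (nonZeroDivisors.ne_zero p.2)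
  refine IsUnit.of_mul_eq_one
    ((invF (fun t => sev v t p.1) : ℝ → Sm n) : Germ (atTop : Filter ℝ) (Sm n)) ?_
  change (((fun t => sev v t p.1 * invF (fun t => sev v t p.1) t : ℝ → Sm n)) :
    Germ (atTop : Filter ℝ) (Sm n)) =
    ((fun _ => (1 : Sm n) : ℝ → Sm n) : Germ (atTop : Filter ℝ) (Sm n))
  rw [Germ.coe_eq]
  filter_upwards [hm.isUnit] with t ht
  exact mul_invF (f := fun t => sev v t p.1) ht

/-- the germ at infinity of the values of a rational function -/
noncomputable def gK (hv : Function.Injective (dotv v)) :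
    FractionRing (Laurent n) →+* Germ (atTop : Filter ℝ) (Sm n) :=
  IsLocalization.lift (M := nonZeroDivisors (Laurent n)) (gP_isUnit hv)

theorem gK_algebraMap (hv : Function.Injective (dotv v)) (p : Laurent n) :
    gK hv (algebraMap (Laurent n) (FractionRing (Laurent n)) p) = gP v p :=
  IsLocalization.lift_eq _ _

lemma isReal_invF {f : ℝ → Sm n} (hf : ∀ t, Sm.IsReal (f t)) (t : ℝ) :
    Sm.IsReal (invF f t) := by
  by_cases h : IsUnit (f t)
  · have h1 := mul_invF h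
    have h2 := hf t
    unfold Sm.IsReal at h2 ⊢
    have h3 : star (f t) * Sm.inv (invF f t) = 1 := by
      rw [← h2, ← map_mul, h1, map_one]
    have h4 : star (f t) * star (invF f t) = 1 := by
      rw [mul_comm, ← star_mul, h1, star_one]
    exact (h.star).mul_left_cancel (h3.trans h4.symm)
  · unfold invF
    rw [dif_neg h]
    unfold Sm.IsReal
    rw [map_zero, star_zero]

/-- good representatives -/
theorem gK_rep (hv : Function.Injective (dotv v)) (d : FractionRing (Laurent n)) :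
    ∃ f : ℝ → Sm n, gK hv d = (f : Germ (atTop : Filter ℝ) (Sm n)) ∧
      (∀ t, Sm.IsReal (f t)) ∧ (d ≠ 0 → ∃ m c, Lead v f m c) := by
  obtain ⟨p, q, hq, rfl⟩ := IsFractionRing.div_surjective (A := Laurent n) d
  have hq0 : q ≠ 0 := nonZeroDivisors.ne_zero hq
  have hqK : algebraMap (Laurent n) (FractionRing (Laurent n)) q ≠ 0 := by
    simpa using hq0
  obtain ⟨m', c', hm'⟩ := lead_sev hv q hq0
  have hqinv : ∀ᶠ t in (atTop : Filter ℝ),
      sev v t q * invF (fun t => sev v t q) t = 1 := by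
    filter_upwards [hm'.isUnit] with t ht
    exact mul_invF (f := fun t => sev v t q) ht
  refine ⟨fun t => sev v t p * invF (fun t => sev v t q) t, ?_, ?_, ?_⟩
  · have h1 : gK hv (algebraMap (Laurent n) (FractionRing (Laurent n)) p /
        algebraMap (Laurent n) (FractionRing (Laurent n)) q) * gP v q = gP v p := by
      rw [← gK_algebraMap hv q, ← gK_algebraMap hv p, ← map_mul, div_mul_cancel₀ _ hqK]
    have h2 : (((fun t => sev v t p * invF (fun t => sev v t q) t : ℝ → Sm n)) :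
        Germ (atTop : Filter ℝ) (Sm n)) * gP v q = gP v p := by
      rw [gP_apply, gP_apply]
      change (((fun t => sev v t p * invF (fun t => sev v t q) t * sev v t q : ℝ → Sm n)) :
        Germ (atTop : Filter ℝ) (Sm n)) = _
      rw [Germ.coe_eq]
      filter_upwards [hqinv] with t ht
      rw [mul_assoc, mul_comm (invF _ t), ht, mul_one]
    exact (gP_isUnit hv ⟨q, hq⟩).mul_right_cancel (h1.trans h2.symm)
  · intro t
    have h1 : Sm.IsReal (sev v t p) := sev_real v t p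
    have h2 := isReal_invF (f := fun t => sev v t q) (fun t => sev_real v t q) t
    exact (RSm n).mul_mem h1 h2
  · intro hd
    have hp0 : p ≠ 0 := by
      rintro rfl
      exact hd (by simp)
    obtain ⟨m, c, hm⟩ := lead_sev hv p hp0
    exact ⟨m + -m', c * c'⁻¹, hm.mul (hm'.inv hqinv)⟩

/-- any representative of an element of the fraction field is eventually Real -/
theorem gK_real (hv : Function.Injective (dotv v)) (d : FractionRing (Laurent n))
    (g : ℝ → Sm n) (hg : gK hv d = (g : Germ (atTop : Filter ℝ) (Sm n))) :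
    ∀ᶠ t in (atTop : Filter ℝ), Sm.IsReal (g t) := by
  obtain ⟨f, hf, hr, _⟩ := gK_rep hv d
  rw [hg] at hf
  filter_upwards [Germ.coe_eq.mp hf] with t ht
  rw [ht]; exact hr t

/-- any representative of a nonzero element of the fraction field has a leading term -/
theorem gK_lead (hv : Function.Injective (dotv v)) {d : FractionRing (Laurent n)} (hd : d ≠ 0)
    (g : ℝ → Sm n) (hg : gK hv d = (g : Germ (atTop : Filter ℝ) (Sm n))) :
    ∃ m c, Lead v g m c := by
  obtain ⟨f, hf, _, hl⟩ := gK_rep hv d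
  obtain ⟨m, c, hm⟩ := hl hd
  rw [hg] at hf
  exact ⟨m, c, hm.congr (Germ.coe_eq.mp hf.symm)⟩

/-- units of the Laurent polynomial ring are monomials -/
theorem unit_monomial {p q : Laurent n} (h : p * q = 1) :
    ∃ (b : Fin n → ℤ) (c : ℝ), c ≠ 0 ∧ p = AddMonoidAlgebra.single b c := by
  obtain ⟨v, hv⟩ := exists_generic n
  have hv' : Function.Injective (dotv (-v)) := by
    intro m m' hmm
    rw [dotv_negv, dotv_negv] at hmm
    exact hv (neg_injective hmm)
  have hp : p ≠ 0 := by rintro rfl; simp at h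
  have hq : q ≠ 0 := by rintro rfl; simp at h
  obtain ⟨a, ha, ha', hla⟩ := lead_sev' hv p hp
  obtain ⟨b, hb, hb', hlb⟩ := lead_sev' hv q hq
  obtain ⟨a₁, ha₁, ha₁', hla₁⟩ := lead_sev' hv' p hp
  obtain ⟨b₁, hb₁, hb₁', hlb₁⟩ := lead_sev' hv' q hq
  have h1 : a + b = 0 := (Lead.unique' ((hla.mul hlb).congr (g := fun _ => (1 : Sm n))
    (Eventually.of_forall fun t => by simp only [← map_mul, h, map_one])) Lead.one).1
  have h2 : a₁ + b₁ = 0 := (Lead.unique' ((hla₁.mul hlb₁).congr (g := fun _ => (1 : Sm n))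
    (Eventually.of_forall fun t => by simp only [← map_mul, h, map_one])) Lead.one).1
  have k1 := ha' a₁ ha₁
  have k2 := hb' b₁ hb₁
  have k3 : dotv v a + dotv v b = 0 := by rw [← dotv_add, h1, dotv_zero]
  have k4 : dotv v a₁ + dotv v b₁ = 0 := by rw [← dotv_add, h2, dotv_zero]
  have k5 : dotv v a = dotv v a₁ := by linarith
  refine ⟨a, p.coeff a, Finsupp.mem_support_iff.mp ha, ?_⟩
  apply AddMonoidAlgebra.coeff_injective
  change p.coeff = Finsupp.single a (p.coeff a)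
  rw [← Finsupp.support_subset_singleton]
  intro m hm
  rw [Finset.mem_singleton]
  have k6 := ha' m hm
  have k7 := ha₁' m hm
  rw [dotv_negv, dotv_negv] at k7
  exact hv (by linarith)

/-- a monomial with real values on the unit torus is a constant -/
lemma monomial_selfadjoint {b : Fin n → ℤ} {c : ℝ} (hc : c ≠ 0)
    (h : star (lev (AddMonoidAlgebra.single b c : Laurent n)) =
      lev (AddMonoidAlgebra.single b c : Laurent n)) : b = 0 := by
  have hval : ∀ x, (lev (AddMonoidAlgebra.single b c : Laurent n)).1 x =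
      (c : ℂ) * (Sm.ex b : Sm n).1 x := by
    intro x
    rw [lev_single]
    rfl
  have hstar : ∀ x, star ((Sm.ex b : Sm n).1 x) = (Sm.ex (-b) : Sm n).1 x := by
    intro x
    have h1 : (Sm.ex b : Sm n).1 x * (Sm.ex (-b) : Sm n).1 x = 1 := by
      rw [← ex_addx, add_neg_cancel, ex_zerox]
    have h2 : (Sm.ex b : Sm n).1 x * star ((Sm.ex b : Sm n).1 x) = 1 := by
      rw [Complex.star_def, Complex.mul_conj, Complex.normSq_eq_norm_sq, ex_norm]
      simp
    exact mul_left_cancel₀ (ex_ne_zero b x) (h2.trans h1.symm)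
  by_contra hb
  have hne : b ≠ -b := by
    intro h
    apply hb
    funext i
    have := congrFun h i
    simp only [Pi.neg_apply] at this
    simp only [Pi.zero_apply]
    omega
  obtain ⟨x, hx⟩ := exists_opposite hne
  have h1 : star ((lev (AddMonoidAlgebra.single b c : Laurent n)).1 x) =
      (lev (AddMonoidAlgebra.single b c : Laurent n)).1 x :=
    congrFun (congrArg Subtype.val h) x
  rw [hval, star_mul', hstar, hx] at h1
  have h2 : star (c : ℂ) = (c : ℂ) := Complex.conj_ofReal c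
  rw [h2] at h1
  have h3 : (c : ℂ) * (Sm.ex (-b) : Sm n).1 x = 0 := by linear_combination (1 / 2 : ℂ) * h1
  rcases mul_eq_zero.mp h3 with h4 | h4
  · exact hc (by exact_mod_cast h4)
  · exact ex_ne_zero _ _ h4

/-- **the determinant of a unimodular Laurent matrix which is hermitian on the torus is a real
constant** -/
theorem det_const {ι : Type*} [Fintype ι] [DecidableEq ι] (H : Matrix ι ι (Laurent n))
    (hu : IsUnit H) (hh : (H.map lev).IsHermitian) :
    ∃ c : ℝ, c ≠ 0 ∧ H.det = AddMonoidAlgebra.single 0 c := by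
  obtain ⟨U, hU⟩ := hu
  have h1 : H.det * (((U⁻¹ : (Matrix ι ι (Laurent n))ˣ) : Matrix ι ι (Laurent n))).det = 1 := by
    rw [← hU, ← Matrix.det_mul, Units.mul_inv, Matrix.det_one]
  obtain ⟨b, c, hc, hd⟩ := unit_monomial h1
  have h2 : star (lev H.det) = lev H.det := by
    have h3 : lev H.det = (H.map lev).det := RingHom.map_det lev H
    rw [h3, ← Matrix.det_conjTranspose, hh.eq]
  rw [hd] at h2
  have hb := monomial_selfadjoint hc h2
  exact ⟨c, hc, by rw [hd, hb]⟩

end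

end Pool.Agent.PD4
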