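import Pool.Agent.PD4.Ix.RPath
import Pool.Agent.PD4.Ix.Laurent

/-!
# Project PD4, index block: tropical part, definitions

`evP v : Laurent n →ₐ[ℝ] SmS n`, `z^m ↦ e^{s (m·v)} e(m·x)`: the path of the values of a Laurent
polynomial on the tori with radii `e^{s v_i}`.
-/

open scoped ContDiff

namespace Pool.Agent.PD4

/-- the path `s ↦ e^{s (m·v)} e(m·x)` -/
noncomputable def exS {n : ℕ} (v : Fin n → ℝ) (m : Fin n → ℤ) : SmS n :=
  fS (fun s => ((Real.exp (s * dotv v m) : ℝ) : ℂ)) (by
    exact Complex.ofRealCLM.contDiff.comp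
      (Real.contDiff_exp.comp (contDiff_id.mul contDiff_const))) * cS (Sm.ex m)

lemma exS_apply {n : ℕ} (v : Fin n → ℝ) (m : Fin n → ℤ) (p : ℝ × (Fin n → ℝ)) :
    (exS v m).1 p = ((Real.exp (p.1 * dotv v m) : ℝ) : ℂ) * (Sm.ex m : Sm n).1 p.2 := rfl

/-- evaluation of Laurent polynomials along the path `z = e^{s v} ρ` -/
noncomputable def evP {n : ℕ} (v : Fin n → ℝ) : Laurent n →ₐ[ℝ] SmS n :=
  AddMonoidAlgebra.lift ℝ (SmS n) (Fin n → ℤ)
    { toFun := fun m => exS v m.toAdd
      map_one' := by
        apply Subtype.ext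
        funext p
        rw [exS_apply]
        simp [dotv_zero, ex_zero]
      map_mul' := fun m m' => by
        apply Subtype.ext
        funext p
        change (exS v (m.toAdd + m'.toAdd)).1 p = (exS v m.toAdd).1 p * (exS v m'.toAdd).1 p
        rw [exS_apply, exS_apply, exS_apply, dotv_add, ex_add, mul_add, Real.exp_add]
        change _ * ((Sm.ex m.toAdd : Sm n).1 p.2 * (Sm.ex m'.toAdd : Sm n).1 p.2) = _
        push_cast
        ring }

theorem evS_evP {n : ℕ} (v : Fin n → ℝ) (s : ℝ) (p : Laurent n) : evS s (evP v p) = sev v s p := by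
  have h : ((evS s : SmS n →⋆ₐ[ℂ] Sm n) : SmS n →+* Sm n).comp (evP v : Laurent n →+* SmS n) =
      sev v s := by
    apply AddMonoidAlgebra.ringHom_ext
    · intro r
      rw [sev_single]
      apply Subtype.ext
      funext x
      change (evP v (AddMonoidAlgebra.single 0 r)).1 (s, x) = _
      unfold evP
      rw [AddMonoidAlgebra.lift_single]
      change (r : ℂ) * (exS v 0).1 (s, x) = ((r * Real.exp (s * dotv v 0) : ℝ) : ℂ) *
        (Sm.ex 0 : Sm n).1 x
      rw [exS_apply]
      push_cast
      ring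
    · intro m
      rw [sev_single]
      apply Subtype.ext
      funext x
      change (evP v (AddMonoidAlgebra.single m 1)).1 (s, x) = _
      unfold evP
      rw [AddMonoidAlgebra.lift_single]
      change ((1 : ℝ) : ℂ) * (exS v m).1 (s, x) = ((1 * Real.exp (s * dotv v m) : ℝ) : ℂ) *
        (Sm.ex m : Sm n).1 x
      rw [exS_apply]
      push_cast
      ring
  exact congrArg (fun f : Laurent n →+* Sm n => f p) h

/-- the Real elements are a subring -/
def RSm (n : ℕ) : Subring (Sm n) where
  carrier := {f | Sm.IsReal f}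
  mul_mem' := fun {a b} (ha : Sm.inv a = star a) (hb : Sm.inv b = star b) => by
    change Sm.inv (a * b) = star (a * b)
    rw [map_mul, star_mul, ha, hb, mul_comm]
  one_mem' := by
    change Sm.inv 1 = star 1
    rw [map_one, star_one]
  add_mem' := fun {a b} (ha : Sm.inv a = star a) (hb : Sm.inv b = star b) => by
    change Sm.inv (a + b) = star (a + b)
    rw [map_add, star_add, ha, hb]
  zero_mem' := by
    change Sm.inv 0 = star 0
    rw [map_zero, star_zero]
  neg_mem' := fun {a} (ha : Sm.inv a = star a) => by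
    change Sm.inv (-a) = star (-a)
    rw [map_neg, star_neg, ha]

lemma mem_RSm {n : ℕ} {f : Sm n} : f ∈ RSm n ↔ Sm.IsReal f := Iff.rfl

lemma isReal_iff {n : ℕ} {f : Sm n} :
    Sm.IsReal f ↔ ∀ x, f.1 (-x) = (starRingEnd ℂ) (f.1 x) := by
  constructor
  · intro h x
    exact congrFun (congrArg Subtype.val h) x
  · intro h
    apply Subtype.ext
    funext x
    exact h x

lemma isReal_smul {n : ℕ} (r : ℝ) {f : Sm n} (hf : Sm.IsReal f) : Sm.IsReal ((r : ℂ) • f) := by
  rw [isReal_iff] at *
  intro x
  change (r : ℂ) * f.1 (-x) = (starRingEnd ℂ) ((r : ℂ) * f.1 x)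
  rw [hf, map_mul, Complex.conj_ofReal]

/-- values of Laurent polynomials are Real -/
theorem sev_real {n : ℕ} (v : Fin n → ℝ) (s : ℝ) (p : Laurent n) : Sm.IsReal (sev v s p) := by
  have h : ∀ q : Laurent n, sev v s q ∈ RSm n := by
    intro q
    induction q using AddMonoidAlgebra.induction_linear with
    | zero => rw [map_zero]; exact (RSm n).zero_mem
    | add f g hf hg => rw [map_add]; exact (RSm n).add_mem hf hg
    | single a b => rw [sev_single]; exact isReal_smul _ (ex_real a)
  exact h p

theorem lev_real {n : ℕ} (p : Laurent n) : Sm.IsReal (lev p) := sev_real 0 0 p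

end Pool.Agent.PD4
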