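import Pool.Agent.PD4.Ix.RPath

/-!
# Project PD4, index block: straight lines are Real paths (helper40)
-/

open scoped ContDiff Matrix

namespace Pool.Agent.PD4

variable {ι : Type*} [Fintype ι] [DecidableEq ι] {n : ℕ}

/-- smooth step, as a path of constants -/
noncomputable def tlStepS (n : ℕ) : SmS n :=
  fS (fun s => ((Real.smoothTransition s : ℝ) : ℂ))
    (Complex.ofRealCLM.contDiff.comp Real.smoothTransition.contDiff)

lemma evS_tlStepS (s : ℝ) : evS s (tlStepS n) = algebraMap ℂ (Sm n) (Real.smoothTransition s : ℂ) := rfl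

/-- **straight line**: if all convex combinations are pointwise invertible, `A` and `B` are joined
by a Real path -/
theorem RPath.line {A B : Matrix ι ι (Sm n)} (hA : MReal A) (hB : MReal B)
    (h : ∀ s : ℝ, 0 ≤ s → s ≤ 1 → ∀ x, IsUnit ((1 - (s : ℂ)) • mev x A + (s : ℂ) • mev x B)) :
    RPath A B := by
  set M : Matrix ι ι (SmS n) := fun i j =>
    (1 - tlStepS n) * cS (A i j) + tlStepS n * cS (B i j) with hM
  have hev : ∀ s, M.map (evS s) = fun i j =>
      (1 - algebraMap ℂ (Sm n) (Real.smoothTransition s : ℂ)) * A i j +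
        algebraMap ℂ (Sm n) (Real.smoothTransition s : ℂ) * B i j := by
    intro s
    funext i j
    change evS s ((1 - tlStepS n) * cS (A i j) + tlStepS n * cS (B i j)) = _
    rw [map_add, map_mul, map_mul, map_sub, map_one, evS_cS, evS_cS, evS_tlStepS]
  have hu : IsUnit M := by
    refine isUnit_of_pointwiseS M fun s => ?_
    refine isUnit_of_pointwise _ fun x => ?_
    have h1 := h (Real.smoothTransition s) (Real.smoothTransition.nonneg s)
      (Real.smoothTransition.le_one s) x
    convert h1 using 1
    rw [hev]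
    ext i j
    rfl
  obtain ⟨G, hG⟩ := hu
  refine ⟨G, ?_, ?_, ?_⟩
  · rw [hG]
    intro s i j
    rw [hev]
    have hr : ∀ r : ℝ, Sm.IsReal (algebraMap ℂ (Sm n) (r : ℂ)) := by
      intro r
      unfold Sm.IsReal
      apply Subtype.ext
      funext x
      change ((r : ℝ) : ℂ) = star ((r : ℝ) : ℂ)
      exact (Complex.conj_ofReal r).symm
    have a1 := hr (Real.smoothTransition s)
    have a2 := hA i j
    have a3 := hB i j
    unfold Sm.IsReal at a1 a2 a3 ⊢
    change Sm.inv ((1 - algebraMap ℂ (Sm n) (Real.smoothTransition s : ℂ)) * A i j +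
        algebraMap ℂ (Sm n) (Real.smoothTransition s : ℂ) * B i j) =
      star ((1 - algebraMap ℂ (Sm n) (Real.smoothTransition s : ℂ)) * A i j +
        algebraMap ℂ (Sm n) (Real.smoothTransition s : ℂ) * B i j)
    rw [map_add, map_mul, map_mul, map_sub, map_one, a1, a2, a3, star_add, star_mul', star_mul',
      star_sub, star_one]
  · rw [hG, hev]
    ext i j : 2
    simp [Real.smoothTransition.zero]
  · rw [hG, hev]
    ext i j : 2
    simp [Real.smoothTransition.one]

end Pool.Agent.PD4
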